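import Mathlib

/-!
# MP_7cdc3e_gt, full question, section T5 (= D1): the cone of a regular point

Pure convex geometry.  `E` is a real vector space of dimension six, `L` a closed pointed cone which
spans `E`, `Z ⊆ L` (the functionals of rank at most one).  FACES are faces in the algebraic sense.
Hypotheses (structure `Sys`), to be delivered by the topological sections:

* (meet) two faces of `L` not inside `Z` have a common nonzero vector;
* (line) a face not inside `Z` contains a LINE: a face of dimension three, not inside `Z`;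
* (two) a face of dimension four, not inside `Z`, contains two different lines;
* (sec) section property: for every face `R ≠ 0` of the largest dimension among the faces inside `Z`
  there is a surjective `π : E → ℝ³` with `L ∩ ker π = R` such that every functional `c` on `ker π` which is
  positive on `R - 0` extends to a functional `e ≥ 0` on `L` (an evaluation), with `L ∩ {e = 0}` not
  inside `Z` and `π(L ∩ {e = 0}) = π(L)`.

Result (`D1Stmt`): `L` is the cone over six linearly independent vectors (and the triples inside `Z`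
are those of the six vertex projective plane), or `L = Φ(PSD_3)`.

Plan.  `R` = face inside `Z` of the largest dimension `r`, `1 ≤ r ≤ 3`; `Δ = π(L)`, a closed pointed
cone in `ℝ³`; for an extreme ray `λ` of `Δ` the face `Phi λ = {l ∈ L : π l ∈ ℝ₊ λ}` is not inside `Z`.
`r = 2` is impossible (`B1`, `B2`), `r = 3` gives the simplicial cone (`A1`, `A2`, `A3`), `r = 1` gives
`PSD_3` (`C1` to `C6`).
-/

namespace TightRP

namespace D1

/-! ## Definitions -/

/-- convex cone -/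
structure IsCone {E : Type} [AddCommGroup E] [Module ℝ E] (L : Set E) : Prop where
  zero : (0 : E) ∈ L
  add : ∀ x ∈ L, ∀ y ∈ L, x + y ∈ L
  smul : ∀ c : ℝ, 0 ≤ c → ∀ x ∈ L, c • x ∈ L

/-- closed pointed convex cone -/
structure CPC {E : Type} [NormedAddCommGroup E] [NormedSpace ℝ E] (L : Set E) : Prop where
  cone : IsCone L
  closed : IsClosed L
  pointed : ∀ x ∈ L, -x ∈ L → x = 0

/-- face of a cone -/
structure Face {E : Type} [AddCommGroup E] [Module ℝ E] (L F : Set E) : Prop where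
  cone : IsCone F
  sub : F ⊆ L
  ext : ∀ x ∈ L, ∀ y ∈ L, x + y ∈ F → x ∈ F

/-- `b` generates an extreme ray of `L` -/
def Extr {E : Type} [AddCommGroup E] [Module ℝ E] (L : Set E) (b : E) : Prop :=
  b ∈ L ∧ b ≠ 0 ∧ ∀ x ∈ L, ∀ y ∈ L, x + y = b → ∃ t : ℝ, x = t • b

/-- dimension of the span -/
noncomputable def sdim {E : Type} [AddCommGroup E] [Module ℝ E] (F : Set E) : ℕ :=
  Module.finrank ℝ (Submodule.span ℝ F)

/-- not proportional -/
def NP {E : Type} [AddCommGroup E] [Module ℝ E] (x y : E) : Prop := LinearIndependent ℝ ![x, y]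

/-- the cone generated by finitely many vectors -/
def cn {E : Type} [AddCommGroup E] [Module ℝ E] {n : ℕ} (v : Fin n → E) : Set E :=
  {x | ∃ c : Fin n → ℝ, (∀ i, 0 ≤ c i) ∧ x = ∑ i, c i • v i}

/-- the cone generated by the vectors with index in `s` -/
def cnS {E : Type} [AddCommGroup E] [Module ℝ E] {n : ℕ} (v : Fin n → E) (s : Finset (Fin n)) :
    Set E :=
  {x | ∃ c : Fin n → ℝ, (∀ i, 0 ≤ c i) ∧ (∀ i, i ∉ s → c i = 0) ∧ x = ∑ i, c i • v i}

/-- line: a face of dimension three, not inside `Z` -/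
def Line {E : Type} [AddCommGroup E] [Module ℝ E] (L Z F : Set E) : Prop :=
  Face L F ∧ ¬ F ⊆ Z ∧ sdim F = 3

/-- `R` is maximal among the faces inside `Z`, and not zero -/
def MaxZ {E : Type} [AddCommGroup E] [Module ℝ E] (L Z R : Set E) : Prop :=
  Face L R ∧ R ⊆ Z ∧ R ≠ {0} ∧ ∀ R', Face L R' → R ⊆ R' → R' ⊆ Z → R' = R

/-- `c` is positive on `R - 0` -/
def PosOn {E : Type} [AddCommGroup E] [Module ℝ E] (R : Set E) (c : E →ₗ[ℝ] ℝ) : Prop :=
  ∀ r ∈ R, r ≠ 0 → 0 < c r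

/-- section property at `R` -/
structure Sec {E : Type} [AddCommGroup E] [Module ℝ E] (L Z R : Set E)
    (π : E →ₗ[ℝ] (Fin 3 → ℝ)) : Prop where
  surj : Function.Surjective π
  ker : ∀ x, x ∈ R ↔ x ∈ L ∧ π x = 0
  ev : ∀ c : E →ₗ[ℝ] ℝ, PosOn R c → ∃ e : E →ₗ[ℝ] ℝ, (∀ v, π v = 0 → e v = c v) ∧
    (∀ l ∈ L, 0 ≤ e l) ∧ ¬ {l | l ∈ L ∧ e l = 0} ⊆ Z ∧ ∀ l ∈ L, ∃ m ∈ L, e m = 0 ∧ π m = π l

/-- all hypotheses -/
structure Sys {E : Type} [NormedAddCommGroup E] [NormedSpace ℝ E] (L Z : Set E) : Prop where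
  cpc : CPC L
  dim : Module.finrank ℝ E = 6
  span : Submodule.span ℝ L = ⊤
  meet : ∀ F G, Face L F → Face L G → ¬ F ⊆ Z → ¬ G ⊆ Z → ∃ x, x ∈ F ∧ x ∈ G ∧ x ≠ 0
  line : ∀ F, Face L F → ¬ F ⊆ Z → ∃ G, G ⊆ F ∧ Line L Z G
  two : ∀ F, Face L F → ¬ F ⊆ Z → sdim F = 4 → ∃ G₁ G₂, G₁ ≠ G₂ ∧ G₁ ⊆ F ∧ G₂ ⊆ F ∧
    Line L Z G₁ ∧ Line L Z G₂
  sec : ∀ R, MaxZ L Z R → (∀ F, Face L F → F ⊆ Z → sdim F ≤ sdim R) → ∃ π, Sec L Z R π

/-- an evaluation `e` which extends `c`, together with a line `F` on which it vanishes -/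
structure Ev {E : Type} [AddCommGroup E] [Module ℝ E] (L Z : Set E) (π : E →ₗ[ℝ] (Fin 3 → ℝ))
    (c e : E →ₗ[ℝ] ℝ) (F : Set E) : Prop where
  ext : ∀ v, π v = 0 → e v = c v
  nonneg : ∀ l ∈ L, 0 ≤ e l
  line : Line L Z F
  zero : ∀ x ∈ F, e x = 0
  surj : ∀ l ∈ L, ∃ m ∈ F, π m = π l
  inj : ∀ x ∈ Submodule.span ℝ F, π x = 0 → x = 0

/-- the part of `L` over the ray of `lam` -/
def Phi {E : Type} [AddCommGroup E] [Module ℝ E] (L : Set E) (π : E →ₗ[ℝ] (Fin 3 → ℝ))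
    (lam : Fin 3 → ℝ) : Set E :=
  {l | l ∈ L ∧ ∃ t : ℝ, 0 ≤ t ∧ π l = t • lam}

/-- positive semidefinite (the same as `Ver.PSD`) -/
def PSD3 (c : Matrix (Fin 3) (Fin 3) ℝ) : Prop :=
  c.IsSymm ∧ ∀ y : Fin 3 → ℝ, 0 ≤ ∑ i, ∑ j, c i j * (y i * y j)

/-! ## G: general facts on cones in finite dimensional spaces -/

/-- G1.  A closed pointed cone has a strictly positive functional.
Proof.  `S = L ∩ {‖x‖ = 1}` is compact, its convex hull `H` is compact (`IsCompact.convexHull`) and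
does not contain `0` (if `∑ t_i x_i = 0`, `t_i > 0`, `x_i ∈ S`, then `x_1 ∈ L` and `-x_1 ∈ L`).  If `S` is empty
take `0`.  `geometric_hahn_banach_point_compact` (or `point_closed`) gives `f` with `f 0 = 0 < u < f` on
`H`. -/
def PosStmt : Prop := ∀ (E : Type) [NormedAddCommGroup E] [NormedSpace ℝ E]
  [FiniteDimensional ℝ E] (L : Set E), CPC L → ∃ f : E →ₗ[ℝ] ℝ, PosOn L f

/-- G2 (Krein Milman).  A closed cone which contains the extreme vectors of `L` contains `L`.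
Uses PosStmt.  `B = {x ∈ L : f x = 1}` is closed, convex and bounded (otherwise `x_n / ‖x_n‖ → x ∈ L`,
`‖x‖ = 1`, `f x = 0`), so compact; `closure_convexHull_extremePoints`; an extreme point `b` of `B` is an
extreme vector of `L`: if `x + y = b`, `x, y ∈ L`, then `f x + f y = 1`; if `f x = 0` then `x = 0`; if
`f y = 0` then `x = b`; otherwise `b` is in the open segment of `x / f x` and `y / f y`, so `x = f x • b`.
So `B ⊆ G`, and every `x ∈ L - 0` is `f x` times an element of `B`. -/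
def KMStmt : Prop := ∀ (E : Type) [NormedAddCommGroup E] [NormedSpace ℝ E]
  [FiniteDimensional ℝ E] (L G : Set E), CPC L → IsCone G → IsClosed G →
  (∀ b, Extr L b → b ∈ G) → L ⊆ G

/-- G3.  The image of a closed cone under a linear map which is zero only at zero is closed.
Proof.  `f x_n → y`, `x_n ∈ L`.  If `x_n` is bounded pass to a convergent subsequence.  Otherwise (for a
subsequence) `x_n / ‖x_n‖ → x ∈ L`, `‖x‖ = 1`, `f x = 0`: contradiction. -/
def ImgStmt : Prop := ∀ (E E' : Type) [NormedAddCommGroup E] [NormedSpace ℝ E]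
  [FiniteDimensional ℝ E] [NormedAddCommGroup E'] [NormedSpace ℝ E'] [FiniteDimensional ℝ E']
  (L : Set E) (f : E →ₗ[ℝ] E'), CPC L → (∀ x ∈ L, f x = 0 → x = 0) → IsClosed (f '' L)

/-- G4.  Elementary facts on faces of a cone `L` (`F, G` faces of `L`).
(1) `x ∈ L ∩ span F` implies `x ∈ F` (an element of `span F` is `a - b` with `a, b ∈ F`, so `x + b = a ∈ F`).
(2) `F ⊆ G` and `sdim G ≤ sdim F` implies `F = G`.  (3) faces of faces are faces.  (4) `F ∩ G` is a face.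
(5) an extreme vector of a face of `L` is an extreme vector of `L`.
(6) a face of `L` which is contained in the face `G` is a face of `G`. -/
def FaceStmt : Prop := ∀ (E : Type) [NormedAddCommGroup E] [NormedSpace ℝ E]
  [FiniteDimensional ℝ E] (L F : Set E), Face L F →
  (∀ x ∈ L, x ∈ Submodule.span ℝ F → x ∈ F) ∧
  (∀ G, Face L G → F ⊆ G → sdim G ≤ sdim F → F = G) ∧
  (∀ G, Face F G → Face L G) ∧
  (∀ G, Face L G → Face L (F ∩ G)) ∧
  (∀ b, Extr F b → Extr L b) ∧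
  (∀ G, Face L G → G ⊆ F → Face F G)

/-- G5.  A face of a closed pointed cone is a closed pointed cone (`F = L ∩ span F`, and `span F` is
closed). -/
def FaceCStmt : Prop := ∀ (E : Type) [NormedAddCommGroup E] [NormedSpace ℝ E]
  [FiniteDimensional ℝ E] (L F : Set E), CPC L → Face L F → CPC F

/-- G6.  Three extreme vectors which are pairwise not proportional are linearly independent.
Proof.  Let `α a + β b + γ c = 0`.  If one coefficient is zero, all are.  They do not all have the same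
sign (pointed).  So one of the vectors is a sum of positive multiples of the other two (after
renaming `a = β' b + γ' c`); `a` is extreme, so `β' b = t a`, contradiction. -/
def DepStmt : Prop := ∀ (E : Type) [NormedAddCommGroup E] [NormedSpace ℝ E]
  [FiniteDimensional ℝ E] (L : Set E), CPC L → ∀ a b c, Extr L a → Extr L b → Extr L c →
  NP a b → NP a c → NP b c → LinearIndependent ℝ ![a, b, c]

/-- G7.  A closed pointed cone is spanned by extreme vectors; more precisely there are `sdim L`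
linearly independent extreme vectors.  Uses KMStmt with `G` = the span of the extreme vectors. -/
def BasStmt : Prop := ∀ (E : Type) [NormedAddCommGroup E] [NormedSpace ℝ E]
  [FiniteDimensional ℝ E] (L : Set E), CPC L → ∃ b : Fin (sdim L) → E,
  LinearIndependent ℝ b ∧ ∀ i, Extr L (b i)

/-- G8.  The cone over linearly independent vectors.  (1) it is closed and pointed; (2) the vectors
are extreme; (3) `cnS v s` is a face of dimension `s.card`; (4) every face is of this form;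
(5) every extreme vector is a positive multiple of one of the vectors.
Closed: it is the image of the closed orthant under an injective linear map, a closed embedding. -/
def CnStmt : Prop := ∀ (E : Type) [NormedAddCommGroup E] [NormedSpace ℝ E]
  [FiniteDimensional ℝ E] (n : ℕ) (v : Fin n → E), LinearIndependent ℝ v →
  CPC (cn v) ∧ (∀ i, Extr (cn v) (v i)) ∧
  (∀ s : Finset (Fin n), Face (cn v) (cnS v s) ∧ sdim (cnS v s) = s.card) ∧
  (∀ F, Face (cn v) F → ∃ s : Finset (Fin n), F = cnS v s) ∧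
  (∀ b, Extr (cn v) b → ∃ i, ∃ t : ℝ, 0 < t ∧ b = t • v i)

/-- G9.  If all extreme vectors of `L` are positive multiples of the linearly independent vectors
`v i ∈ L` then `L = cn v`.  Uses KMStmt, CnStmt. -/
def GenStmt : Prop := ∀ (E : Type) [NormedAddCommGroup E] [NormedSpace ℝ E]
  [FiniteDimensional ℝ E] (L : Set E), CPC L → ∀ (n : ℕ) (v : Fin n → E), LinearIndependent ℝ v →
  (∀ i, v i ∈ L) → (∀ b, Extr L b → ∃ i, ∃ t : ℝ, 0 < t ∧ b = t • v i) → L = cn v

/-- G10.  A closed pointed cone of dimension two has exactly two extreme rays.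
Uses BasStmt, DepStmt, GenStmt: `p, q` linearly independent extreme vectors; an extreme vector which
is proportional to none of them would be linearly independent of them. -/
def TwoDStmt : Prop := ∀ (E : Type) [NormedAddCommGroup E] [NormedSpace ℝ E]
  [FiniteDimensional ℝ E] (A : Set E), CPC A → sdim A = 2 → ∃ p q, Extr A p ∧ Extr A q ∧ NP p q ∧
  A = cn ![p, q]

/-- G11.  An extreme ray of a three dimensional cone is contained in at most two faces of dimension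
two.  Uses TwoDStmt, DepStmt, FaceStmt, FaceCStmt.
Proof.  Otherwise `A_i = cn ![v, x_i]`, `i = 1, 2, 3`, with intersection the ray of `v` for `i ≠ j`; `v, x_1,
x_2, x_3` are pairwise not proportional extreme vectors, and linearly dependent.  By DepStmt all
coefficients of the relation are not zero.  Write it with positive coefficients on both sides (both
sides are not empty).  One vector on one side: it is extreme, contradiction.  Two and two:
`α v + β x_i = γ x_j + δ x_k ∈ A_i`, so `x_j ∈ A_i`, contradiction. -/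
def AtTwoStmt : Prop := ∀ (E : Type) [NormedAddCommGroup E] [NormedSpace ℝ E]
  [FiniteDimensional ℝ E] (R : Set E), CPC R → sdim R = 3 → ∀ v, Extr R v → ∀ A : Fin 3 → Set E,
  (∀ i, Face R (A i) ∧ sdim (A i) = 2 ∧ v ∈ A i) → ∃ i j, i ≠ j ∧ A i = A j

/-- G12.  If `v, x, y ∈ R` are pairwise not proportional and the three pairs span faces of the three
dimensional cone `R` then `R = cn ![v, x, y]`.  Uses DepStmt, GenStmt.
Proof.  `v, x, y` are extreme, so linearly independent.  Let `z` be extreme, not proportional to any of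
them.  The relation `α v + β x + γ y + δ z = 0` has nonzero coefficients (DepStmt).  One against three:
contradiction to extreme.  Two against two: for example `α v + β x = γ y + δ z` with positive
coefficients, the left side is in the face `cn ![v, x]`, so `y ∈ cn ![v, x]`: contradiction. -/
def TriStmt : Prop := ∀ (E : Type) [NormedAddCommGroup E] [NormedSpace ℝ E]
  [FiniteDimensional ℝ E] (R : Set E), CPC R → sdim R = 3 → ∀ v x y, NP v x → NP v y → NP x y →
  Face R (cn ![v, x]) → Face R (cn ![v, y]) → Face R (cn ![x, y]) →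
  LinearIndependent ℝ ![v, x, y] ∧ R = cn ![v, x, y]

/-- G13.  Let all proper faces of the three dimensional cone `F` have dimension at most one (no face
of dimension two).  (1) If `x ∈ F`, `x ≠ 0`, `h ∈ F` and `x - ε h ∉ F` for all `ε > 0` then `x` is extreme.
(2) there are infinitely many extreme rays.
Proof.  (1) The face `G = {y ∈ F : ∃ κ ≥ 0, κ x - y ∈ F}` does not contain `h`, so it is not `F`, its
dimension is not `3` (FaceStmt (2)) and not `2`, so it is `1` and `G` is the ray of `x` (pointed).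
(2) Let `a, b` be two linearly independent extreme vectors, `h ∈ F` with `a, b, h` linearly independent
(BasStmt).  For `0 < t < 1` let `m_t = (1-t) a + t b` and `s(t) = max {s ≥ 0 : m_t - s h ∈ F}` (closed, and
bounded because `F` is closed and pointed), `z_t = m_t - s(t) h ∈ F`, not zero, extreme by (1).  The
`z_t` are pairwise not proportional: compare the coefficients of `a` and `b`.  Take `t = 1/(i+2)`. -/
def ManyStmt : Prop := ∀ (E : Type) [NormedAddCommGroup E] [NormedSpace ℝ E]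
  [FiniteDimensional ℝ E] (F : Set E), CPC F → sdim F = 3 → (∀ G, Face F G → sdim G ≠ 2) →
  (∀ x ∈ F, x ≠ 0 → ∀ h ∈ F, (∀ ε : ℝ, 0 < ε → x - ε • h ∉ F) → Extr F x) ∧
  ∃ b : ℕ → E, (∀ i, Extr F (b i)) ∧ ∀ i j, i ≠ j → NP (b i) (b j)

/-- G14.  Direct sums.  `L = {a + b : a ∈ A, b ∈ B}`, `A, B` cones with `span A ⊓ span B = ⊥`.
(1) `A` and `B` are faces of `L` if `A, B` are pointed.  (2) sums of faces are faces, of dimension the
sum.  (3) a face `G` of `L` is the sum of the faces `G ∩ A`, `G ∩ B`. -/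
def DirStmt : Prop := ∀ (E : Type) [NormedAddCommGroup E] [NormedSpace ℝ E]
  [FiniteDimensional ℝ E] (L A B : Set E), IsCone A → IsCone B →
  (∀ x, x ∈ L ↔ ∃ a ∈ A, ∃ b ∈ B, x = a + b) → Submodule.span ℝ A ⊓ Submodule.span ℝ B = ⊥ →
  (∀ A' B', Face A A' → Face B B' → Face L {x | ∃ a ∈ A', ∃ b ∈ B', x = a + b} ∧
    sdim {x : E | ∃ a ∈ A', ∃ b ∈ B', x = a + b} = sdim A' + sdim B') ∧
  (∀ G, Face L G → Face A (G ∩ A) ∧ Face B (G ∩ B) ∧ (∀ x, x ∈ G ↔ ∃ a ∈ G ∩ A, ∃ b ∈ G ∩ B,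
    x = a + b) ∧ sdim G = sdim (G ∩ A) + sdim (G ∩ B))

/-- G15.  Two disjoint faces `E_1, E_2` of dimension at most two in a three dimensional cone: at most
two faces of dimension two meet both.  Uses AtTwoStmt, TwoDStmt, BasStmt, FaceStmt, FaceCStmt.
Proof.  Every `A_i` is not `E_1` (it meets `E_2`).  If `sdim E_1 = 1` all `A_i` contain the extreme ray
`E_1`: AtTwoStmt.  If `sdim E_1 = 2`, `E_1 = cn ![v, w]`: `A_i ∩ E_1` is a nonzero face of `E_1`, not `E_1`, so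
the ray of `v` or of `w`.  Two of the `A_i` contain the same one, say `v`, and `E_1` contains `v` too:
AtTwoStmt for `A_i, A_j, E_1`. -/
def JoinTStmt : Prop := ∀ (E : Type) [NormedAddCommGroup E] [NormedSpace ℝ E]
  [FiniteDimensional ℝ E] (R E₁ E₂ : Set E), CPC R → sdim R = 3 → Face R E₁ → Face R E₂ →
  sdim E₁ ≤ 2 → sdim E₂ ≤ 2 → (∀ x ∈ E₁, x ∈ E₂ → x = 0) → ∀ A : Fin 3 → Set E,
  (∀ i, Face R (A i) ∧ sdim (A i) = 2 ∧ (∃ x ∈ A i, x ∈ E₁ ∧ x ≠ 0) ∧
    ∃ x ∈ A i, x ∈ E₂ ∧ x ≠ 0) → ∃ i j, i ≠ j ∧ A i = A j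

/-- G16.  The same situation, two different faces `A, B` of dimension two which meet `E_1, E_2` and each
other: `R` is a triangle with vertices `v, x, y`, `A = cn ![v, x]`, `B = cn ![v, y]`, and one of `E_1, E_2` is
the vertex `v`, the other one is the opposite edge.  Uses TwoDStmt, TriStmt, BasStmt, CnStmt, FaceStmt,
FaceCStmt.
Proof.  `A ∩ E_1`, `A ∩ E_2` are nonzero faces of `A` and disjoint, so the two extreme rays `p_1, q_1` of
`A`: `A = cn ![p_1, q_1]`, `p_1 ∈ E_1`, `q_1 ∈ E_2`; also `B = cn ![p_2, q_2]`.  `A ∩ B` is a nonzero face of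
`A`, not `A`, so a ray, generated by an extreme vector of both; `p_1` is not proportional to `q_2`, `q_1`
not to `p_2`, so it is `p_1 ~ p_2` or `q_1 ~ q_2`.  First case (the second is symmetric): `v = p_1`,
`x = q_1`, `y = q_2` are pairwise not proportional, `E_2` contains `x, y`, `sdim E_2 ≤ 2`, so
`E_2 = cn ![x, y]`.  TriStmt: `R = cn ![v, x, y]`.  `E_1` is a face of it (CnStmt (4)) which contains `v`,
not `x`, not `y`: `E_1 = cn ![v]`. -/
def JoinTriStmt : Prop := ∀ (E : Type) [NormedAddCommGroup E] [NormedSpace ℝ E]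
  [FiniteDimensional ℝ E] (R E₁ E₂ A B : Set E), CPC R → sdim R = 3 → Face R E₁ → Face R E₂ →
  sdim E₁ ≤ 2 → sdim E₂ ≤ 2 → (∀ x ∈ E₁, x ∈ E₂ → x = 0) →
  Face R A → sdim A = 2 → (∃ x ∈ A, x ∈ E₁ ∧ x ≠ 0) → (∃ x ∈ A, x ∈ E₂ ∧ x ≠ 0) →
  Face R B → sdim B = 2 → (∃ x ∈ B, x ∈ E₁ ∧ x ≠ 0) → (∃ x ∈ B, x ∈ E₂ ∧ x ≠ 0) →
  A ≠ B → (∃ x ∈ A, x ∈ B ∧ x ≠ 0) →
  ∃ v x y, LinearIndependent ℝ ![v, x, y] ∧ R = cn ![v, x, y] ∧ A = cn ![v, x] ∧
    B = cn ![v, y] ∧ ((E₁ = cn ![v] ∧ E₂ = cn ![x, y]) ∨ (E₂ = cn ![v] ∧ E₁ = cn ![x, y]))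

/-! ## S: the section -/

/-- S0.  A face inside `Z` of the largest dimension.  Uses FaceStmt, BasStmt.
The faces inside `Z` have dimension at most six; `{0}` is a face inside `Z` ((line): otherwise it
contains a face of dimension three); so is the ray of an extreme vector.  Take `R` of the largest
dimension; it is not `{0}`, maximal by FaceStmt (2), and inside `ker π` (`Sys.sec`), of dimension three. -/
def ExMaxStmt : Prop := ∀ (E : Type) [NormedAddCommGroup E] [NormedSpace ℝ E]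
  [FiniteDimensional ℝ E] (L Z : Set E), Sys L Z → ∃ R, MaxZ L Z R ∧ 1 ≤ sdim R ∧ sdim R ≤ 3 ∧
  ∀ F, Face L F → F ⊆ Z → sdim F ≤ sdim R

/-- S1.  `Δ = π(L)` is a closed pointed cone of dimension three.  Uses PosStmt, ImgStmt, FaceCStmt.
Proof.  Let `c` be positive on `L - 0`, `e` as in `Sec.ev`, `L_0 = {l ∈ L : e l = 0}`, a face.  `l ∈ L_0`,
`π l = 0` imply `l ∈ R`, `e l = c l`, so `l = 0`.  `π(L) = π(L_0)` is closed.  Pointed: `π l = -π l'`,
`l, l' ∈ L_0`: `l + l' ∈ L_0`, `π (l + l') = 0`, so `l + l' = 0` and `l = 0`. -/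
def DelStmt : Prop := ∀ (E : Type) [NormedAddCommGroup E] [NormedSpace ℝ E]
  [FiniteDimensional ℝ E] (L Z R : Set E) (π : E →ₗ[ℝ] (Fin 3 → ℝ)), Sys L Z → MaxZ L Z R →
  Sec L Z R π → CPC (π '' L) ∧ sdim (π '' L) = 3

/-- S2.  The faces `Phi λ`.  Uses FaceStmt, DelStmt.
`Phi λ` is a face: let `x, y ∈ L`, `π x + π y = t λ`.  If `t = 0` then `π x = 0` (`π(L)` is pointed).  If
`t > 0` then `π x / t = s λ` because `λ` is extreme, and `s ≥ 0` (pointed).  It contains `R` and an element which is not in `R`,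
so it is not inside `Z` (maximality of `R`) and `sdim R < sdim (Phi λ)` (FaceStmt (2)).  It contains a
line.  `Phi λ ⊆ π⁻¹(ℝ λ)`, of dimension four.  The last statement: `s λ = t μ` implies `s = t = 0`. -/
def PhiStmt : Prop := ∀ (E : Type) [NormedAddCommGroup E] [NormedSpace ℝ E]
  [FiniteDimensional ℝ E] (L Z R : Set E) (π : E →ₗ[ℝ] (Fin 3 → ℝ)), Sys L Z → MaxZ L Z R →
  Sec L Z R π → ∀ lam, Extr (π '' L) lam →
  Face L (Phi L π lam) ∧ ¬ Phi L π lam ⊆ Z ∧ R ⊆ Phi L π lam ∧ sdim R < sdim (Phi L π lam) ∧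
  3 ≤ sdim (Phi L π lam) ∧ sdim (Phi L π lam) ≤ 4 ∧
  ∀ mu, NP lam mu → ∀ x ∈ Phi L π lam, x ∈ Phi L π mu → x ∈ R

/-- S3.  Evaluations with lines.  Uses DelStmt, PhiStmt, KMStmt, ImgStmt, FaceStmt, FaceCStmt.
Let `e` be as in `Sec.ev`, `L_0 = {l ∈ L : e l = 0}` a face not inside `Z`, `F ⊆ L_0` a line.  For `λ`
extreme in `π(L)` there is `x ≠ 0` in `F ∩ Phi λ` (meet); `π x = t λ` with `t > 0` (if `t = 0` then
`x ∈ R`, `0 < c x = e x`).  So `λ ∈ π(F)`, and `π(F)` is a closed cone (ImgStmt); KMStmt: `π(L) ⊆ π(F)`.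
So `π` maps the span of `F` (dimension three) onto `ℝ³`, so it is injective on it. -/
def EvStmt : Prop := ∀ (E : Type) [NormedAddCommGroup E] [NormedSpace ℝ E]
  [FiniteDimensional ℝ E] (L Z R : Set E) (π : E →ₗ[ℝ] (Fin 3 → ℝ)), Sys L Z → MaxZ L Z R →
  Sec L Z R π → ∀ c, PosOn R c → ∃ e F, Ev L Z π c e F

/-- S4.  `L` is determined by the evaluations.  Uses EvStmt, PosStmt.
Let `m ∈ L`, `π l = π m`, `l ∉ L`.  `A = {x ∈ L : π x = π m}` is closed, convex, not empty, `l ∉ A`: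
there are `c_0`, `u` with `c_0 l < u < c_0 x` for `x ∈ A` (`geometric_hahn_banach_point_closed`).  `c_0 ≥ 0` on
`R` (`m + t r ∈ A`).  Let `Λ > 0` on `L - 0`; `Λ ≥ 0` on `A`.  `c = c_0 + ε Λ`, `ε > 0` small:
`c > 0` on `R - 0` and `c l < u ≤ c x` for `x ∈ A`.  EvStmt: `e, F`, `x ∈ F` with `π x = π l`:
`e l = e (l - x) = c (l - x) < 0`. -/
def CharStmt : Prop := ∀ (E : Type) [NormedAddCommGroup E] [NormedSpace ℝ E]
  [FiniteDimensional ℝ E] (L Z R : Set E) (π : E →ₗ[ℝ] (Fin 3 → ℝ)), Sys L Z → MaxZ L Z R →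
  Sec L Z R π → ∀ l, π l ∈ π '' L → (∀ c e F, PosOn R c → Ev L Z π c e F → 0 ≤ e l) → l ∈ L

/-- S5.  The point `b` of a line `F` over `λ`.  Uses PhiStmt, FaceStmt.
`b` is extreme in `F` (`π` is injective on `F` and `λ` is extreme in `π(L)`), so in `L`.  Let `G ⊆ Phi λ` be
a face of `L` not inside `Z`.  (meet): `x ≠ 0` in `G ∩ F`; `π x = t λ`, `x = t b` by `inj`, `t ≠ 0`, and
`t > 0` (`t < 0` would give `-λ ∈ π(L)`: use `x ∈ Phi λ`), so `b ∈ G`. -/
def ValStmt : Prop := ∀ (E : Type) [NormedAddCommGroup E] [NormedSpace ℝ E]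
  [FiniteDimensional ℝ E] (L Z R : Set E) (π : E →ₗ[ℝ] (Fin 3 → ℝ)), Sys L Z → MaxZ L Z R →
  Sec L Z R π → ∀ lam, Extr (π '' L) lam → ∀ c e F, Ev L Z π c e F → ∀ b ∈ F, π b = lam →
  Extr L b ∧ ∀ G, Face L G → ¬ G ⊆ Z → G ⊆ Phi L π lam → b ∈ G

/-- S6.  Traces on `R`.  Uses PhiStmt, DelStmt, BasStmt.
(1) faces `F ⊆ Phi λ`, `G ⊆ Phi μ` not inside `Z`, `λ, μ` not proportional: the common vector of (meet) is
in `R`.  (2) there is an extreme `μ` which is not proportional to `λ` (BasStmt for `Δ`); take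
`G = Phi μ`. -/
def TrStmt : Prop := ∀ (E : Type) [NormedAddCommGroup E] [NormedSpace ℝ E]
  [FiniteDimensional ℝ E] (L Z R : Set E) (π : E →ₗ[ℝ] (Fin 3 → ℝ)), Sys L Z → MaxZ L Z R →
  Sec L Z R π → ∀ lam, Extr (π '' L) lam → ∀ F, Face L F → ¬ F ⊆ Z → F ⊆ Phi L π lam →
  (∀ mu, Extr (π '' L) mu → NP lam mu → ∀ G, Face L G → ¬ G ⊆ Z → G ⊆ Phi L π mu →
    ∃ x, x ∈ F ∧ x ∈ G ∧ x ∈ R ∧ x ≠ 0) ∧ ∃ x, x ∈ F ∧ x ∈ R ∧ x ≠ 0

/-- S7.  If all lines `F` of evaluations contain the same point `b` over `λ` then `Phi λ` is the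
direct sum of `R` and the ray of `b`.  Uses CharStmt, EvStmt, PosStmt.
`x ∈ Phi λ`, `π x = t λ`, `v = x - t b ∈ ker π`; for every evaluation `e v = e x - t e b = e x ≥ 0`; so
`v ∈ L` (CharStmt, `π v = 0`), so `v ∈ R`.  Dimension: `b ∉ span R ⊆ ker π`. -/
def OneStmt : Prop := ∀ (E : Type) [NormedAddCommGroup E] [NormedSpace ℝ E]
  [FiniteDimensional ℝ E] (L Z R : Set E) (π : E →ₗ[ℝ] (Fin 3 → ℝ)), Sys L Z → MaxZ L Z R →
  Sec L Z R π → ∀ lam, Extr (π '' L) lam → ∀ b, π b = lam →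
  (∀ c e F, PosOn R c → Ev L Z π c e F → b ∈ F) →
  (∀ x, x ∈ Phi L π lam ↔ ∃ r ∈ R, ∃ t : ℝ, 0 ≤ t ∧ x = r + t • b) ∧
  sdim (Phi L π lam) = sdim R + 1

/-- S8.  Two different points `b, b'` over `λ` and two different lines `F_1, F_2 ⊆ Phi λ`.
Uses ValStmt, TwoDStmt, DepStmt, FaceStmt, FaceCStmt, CnStmt.
`F_1 ∩ F_2` is a face, contains `b, b'` (ValStmt), which are not proportional (same image `λ ≠ 0`), and is
not `F_1` (FaceStmt (2)), so it has dimension two, `= cn ![p, q]`, and `b, b'` are extreme vectors of it,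
so `F_1 ∩ F_2 = cn ![b, b']`; `π` is `s + t` times `λ` at `s b + t b'`, so only `0` is in `R`.  A third value
`b''` would be an extreme vector of `cn ![b, b']` (it is in `F_1 ∩ F_2`), so a positive multiple of `b` or
`b'`, with the same image: equal. -/
def TwoStmt : Prop := ∀ (E : Type) [NormedAddCommGroup E] [NormedSpace ℝ E]
  [FiniteDimensional ℝ E] (L Z R : Set E) (π : E →ₗ[ℝ] (Fin 3 → ℝ)), Sys L Z → MaxZ L Z R →
  Sec L Z R π → ∀ lam, Extr (π '' L) lam → ∀ F₁ F₂, Line L Z F₁ → Line L Z F₂ →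
  F₁ ⊆ Phi L π lam → F₂ ⊆ Phi L π lam → F₁ ≠ F₂ → ∀ c e F c' e' F', Ev L Z π c e F →
  Ev L Z π c' e' F' → ∀ b ∈ F, π b = lam → ∀ b' ∈ F', π b' = lam → b ≠ b' →
  F₁ ∩ F₂ = cn ![b, b'] ∧ (∀ x ∈ F₁, x ∈ F₂ → x ∈ R → x = 0) ∧
  ∀ c'' e'' F'', Ev L Z π c'' e'' F'' → b ∈ F'' ∨ b' ∈ F''

/-- S9.  Evaluations which agree on `span (Phi λ) ∩ ker π` agree on `Phi λ`.
`b ∈ F`, `b' ∈ F'` over `λ` (exist: `surj`), both in `Phi λ`.  `e' b = e' (b - b') = c' (b - b')
= c (b - b') = e (b - b') = - e b' ≤ 0`, so `e' b = 0`.  For `x ∈ span (Phi λ)`, `π x = t λ` and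
`e x = e (x - t b) = c (x - t b) = c' (x - t b) = e' (x - t b) = e' x`. -/
def AgrStmt : Prop := ∀ (E : Type) [NormedAddCommGroup E] [NormedSpace ℝ E]
  [FiniteDimensional ℝ E] (L Z R : Set E) (π : E →ₗ[ℝ] (Fin 3 → ℝ)), Sys L Z → MaxZ L Z R →
  Sec L Z R π → ∀ lam, Extr (π '' L) lam → ∀ c e F c' e' F', Ev L Z π c e F →
  Ev L Z π c' e' F' → (∀ v ∈ Submodule.span ℝ (Phi L π lam), π v = 0 → c v = c' v) →
  ∀ x ∈ Submodule.span ℝ (Phi L π lam), e x = e' x

/-- S10.  Uniqueness and homogeneity of evaluations.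
`l ∈ L`, `m ∈ F` with `π m = π l`: `e l = c (l - m)`, `e' l = c' (l - m) + e' m ≥ κ c (l - m) = κ e l`.  By
symmetry `e l ≥ κ⁻¹ e' l`.  So `e' = κ e` on `L`, which spans `E`. -/
def UniStmt : Prop := ∀ (E : Type) [NormedAddCommGroup E] [NormedSpace ℝ E]
  [FiniteDimensional ℝ E] (L Z R : Set E) (π : E →ₗ[ℝ] (Fin 3 → ℝ)), Sys L Z → MaxZ L Z R →
  Sec L Z R π → ∀ c e F c' e' F', Ev L Z π c e F → Ev L Z π c' e' F' → ∀ κ : ℝ, 0 < κ →
  (∀ v, π v = 0 → c' v = κ * c v) → e' = κ • e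

/-- S11.  Convexity of the evaluations in `c`.
`m ∈ F''` with `π m = π l`: `e'' l = c'' (l - m) = s c (l - m) + t c' (l - m) = s e (l - m) + t e' (l - m)
≤ s e l + t e' l`. -/
def ConvStmt : Prop := ∀ (E : Type) [NormedAddCommGroup E] [NormedSpace ℝ E]
  [FiniteDimensional ℝ E] (L Z R : Set E) (π : E →ₗ[ℝ] (Fin 3 → ℝ)), Sys L Z → MaxZ L Z R →
  Sec L Z R π → ∀ c e F c' e' F' c'' e'' F'', Ev L Z π c e F → Ev L Z π c' e' F' →
  Ev L Z π c'' e'' F'' → ∀ s t : ℝ, 0 ≤ s → 0 ≤ t →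
  (∀ v, π v = 0 → c'' v = s * c v + t * c' v) → ∀ l ∈ L, e'' l ≤ s * e l + t * e' l

/-! ## B: there is no maximal face of dimension two -/

/-- B1.  Uses EvStmt, PhiStmt, ValStmt, TrStmt, OneStmt, TwoStmt, TwoDStmt, DepStmt, FaceStmt,
FaceCStmt.
Suppose `sdim (Phi λ) = 4`.  Two lines `F_1 ≠ F_2` in `Phi λ`.  By OneStmt (dimension `3 ≠ 4`) there are two
different points `b, b'` over `λ` (of evaluations).  Let `c_0 = b - b'`, `π c_0 = 0`.
(i) `c_0 ∉ span R`: `E_i = F_i ∩ R` are nonzero faces of `R = cn ![p, q]` with `E_1 ∩ E_2 = 0` (TwoStmt), so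
(renaming) `E_1` is the ray of `g_1 = p`, `E_2` the ray of `g_2 = q`.  `g_1, b, b'` are linearly independent
(DepStmt), in `F_1`, so they span `span F_1`.  If `c_0 = α g_1 + β g_2`, `β ≠ 0`, then `g_2 ∈ span F_1 ∩ L = F_1`:
contradiction.  So `β = 0`, and `α = 0` by symmetry, `b = b'`.
(ii) `e b = max (c c_0) 0` for every evaluation with `c > 0` on `R - 0`: by TwoStmt `b ∈ F''` or `b' ∈ F''`; in
the first case `e b = 0`, `0 ≤ e b' = - c c_0`; in the second `e b' = 0`, `0 ≤ e b = c c_0`.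
(iii) Let `μ` be a functional with `μ = 0` on `R`, `μ c_0 = -1`, and `c_1 > 0` on `R - 0`.  Let
`l ∈ Phi λ`, `π l = t λ`, `v = l - t b ∈ ker π`.  For `s` large `c_s = c_1 + s μ` has `c_s c_0 ≤ 0`, so
`e_s b = 0` and `0 ≤ e_s l = c_1 v + s μ v`; so `μ v ≥ 0`.
(iv) `Ψ = {l ∈ Phi λ : μ (l - t b) = 0 where π l = t λ}` is a face of `Phi λ` (use the linear
functional `ψ l = μ l - t(l) μ b` with a linear `t` on `span (Phi λ)`), contains `R` and `b`, not `b'`
(`b' - b = -c_0`, `μ = 1`).  It is not inside `Z` (maximality of `R`, `b ∉ R`), so ValStmt gives `b' ∈ Ψ`: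
contradiction. -/
def B1Stmt : Prop := ∀ (E : Type) [NormedAddCommGroup E] [NormedSpace ℝ E]
  [FiniteDimensional ℝ E] (L Z R : Set E) (π : E →ₗ[ℝ] (Fin 3 → ℝ)), Sys L Z → MaxZ L Z R →
  Sec L Z R π → sdim R = 2 → ∀ lam, Extr (π '' L) lam → sdim (Phi L π lam) = 3

/-- B2.  Uses B1Stmt, EvStmt, AgrStmt, DelStmt, BasStmt, PosStmt, PhiStmt.
`Δ` has three linearly independent extreme vectors `λ_i = π l_i`, `l_i ∈ L`.  `sdim (Phi λ_i) = 3`, so
`span (Phi λ_i) ∩ ker π` has dimension two and contains `R`: it is `span R`.  Let `μ ≠ 0` be a functional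
on `ker π` which is zero on `R` (extend it to `E`), `c > 0` on `L - 0`.  By AgrStmt the evaluations `e_s` of
`c + s μ` have `e_s l_i = e_0 l_i`.  Every `l ∈ L` is `v + ∑ a_i l_i`, `π v = 0`, and
`0 ≤ e_s l = c v + s μ v + ∑ a_i e_0 l_i` for all real `s`: `μ v = 0`.  So `L` is in the proper subspace
`{v + ∑ a_i l_i : μ v = 0}`: contradiction to `span L = ⊤`. -/
def B2Stmt : Prop := ∀ (E : Type) [NormedAddCommGroup E] [NormedSpace ℝ E]
  [FiniteDimensional ℝ E] (L Z R : Set E), Sys L Z → MaxZ L Z R → sdim R = 2 →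
  (∀ F, Face L F → F ⊆ Z → sdim F ≤ 2) → False

/-! ## A: a maximal face of dimension three -/

/-- A1a.  Traces in the presence of two points over `λ`.
Uses PhiStmt, ValStmt, TrStmt, FaceStmt, EvStmt, PosStmt.
`A = G ∩ R` is a face of `R` and of `G`, and it is not `G` (`R ⊆ Z`), so `sdim A ≤ 2`.  By TrStmt `A` meets `F_1` and `F_2`; a common vector of `F_1`, `F_2`
in `R` is zero (hypothesis), so the two nonzero vectors are not proportional (`x ∈ F_1`, `y ∈ F_2`,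
`y = t x` would be in both up to sign, pointed) and `sdim A = 2`.  Different lines have different traces:
take one evaluation (PosStmt, EvStmt) and its point `b_μ` over `μ`; it is in `G` and `G'` (ValStmt) and not
in `ker π ⊇ span A`, so `span G = span (A, b_μ) = span G'`; FaceStmt (1). -/
def A1aStmt : Prop := ∀ (E : Type) [NormedAddCommGroup E] [NormedSpace ℝ E]
  [FiniteDimensional ℝ E] (L Z R : Set E) (π : E →ₗ[ℝ] (Fin 3 → ℝ)), Sys L Z → MaxZ L Z R →
  Sec L Z R π → sdim R = 3 → ∀ lam, Extr (π '' L) lam → ∀ F₁ F₂, Line L Z F₁ → Line L Z F₂ →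
  F₁ ⊆ Phi L π lam → F₂ ⊆ Phi L π lam → (∀ x ∈ F₁, x ∈ F₂ → x ∈ R → x = 0) →
  ∀ mu, Extr (π '' L) mu → NP lam mu → ∀ G, Line L Z G → G ⊆ Phi L π mu →
  Face R (G ∩ R) ∧ sdim (G ∩ R) = 2 ∧ (∃ x, x ∈ G ∧ x ∈ R ∧ x ∈ F₁ ∧ x ≠ 0) ∧
  (∃ x, x ∈ G ∧ x ∈ R ∧ x ∈ F₂ ∧ x ≠ 0) ∧
  ∀ G', Line L Z G' → G' ⊆ Phi L π mu → G' ∩ R = G ∩ R → G' = G

/-- A1b.  Structure of `R` if there are two points over `λ`.
Uses A1aStmt, TwoStmt, JoinTStmt, JoinTriStmt, TrStmt, PhiStmt, DelStmt, BasStmt, FaceStmt, FaceCStmt.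
`E_i = F_i ∩ R`, nonzero faces of `R`, `E_1 ∩ E_2 = 0`, `sdim E_i ≤ 2` (as in A1a).  `Δ` has three linearly
independent extreme vectors; two of them, `μ, μ'`, are not proportional to `λ` and to each other.  (Every
`Phi μ` has dimension four, because it is larger than `sdim R = 3`.)  `Phi μ` has two lines, with traces
`A ≠ B`; `Phi μ'` has two lines, with traces `A' ≠ B'`.  All meet `E_1` and `E_2`; by JoinTStmt
`{A', B'} = {A, B}`.  The trace `A` (over `μ`) meets `B` (over `μ'`) by TrStmt.  JoinTriStmt gives `v, x, y`.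
Any line over any `μ''` not proportional to `λ` has a trace in `{A, B}`, by JoinTStmt. -/
def A1bStmt : Prop := ∀ (E : Type) [NormedAddCommGroup E] [NormedSpace ℝ E]
  [FiniteDimensional ℝ E] (L Z R : Set E) (π : E →ₗ[ℝ] (Fin 3 → ℝ)), Sys L Z → MaxZ L Z R →
  Sec L Z R π → sdim R = 3 → ∀ lam, Extr (π '' L) lam → ∀ F₁ F₂, Line L Z F₁ → Line L Z F₂ →
  F₁ ⊆ Phi L π lam → F₂ ⊆ Phi L π lam → F₁ ≠ F₂ → (∀ x ∈ F₁, x ∈ F₂ → x ∈ R → x = 0) →
  ∃ v x y, LinearIndependent ℝ ![v, x, y] ∧ R = cn ![v, x, y] ∧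
    ((F₁ ∩ R = cn ![v] ∧ F₂ ∩ R = cn ![x, y]) ∨ (F₂ ∩ R = cn ![v] ∧ F₁ ∩ R = cn ![x, y])) ∧
    ∀ mu, Extr (π '' L) mu → NP lam mu → ∀ G, Line L Z G → G ⊆ Phi L π mu →
      G ∩ R = cn ![v, x] ∨ G ∩ R = cn ![v, y]

/-- A1c.  The contradiction.  Uses EvStmt, PhiStmt, ValStmt, TwoStmt, OneStmt, CharStmt, DelStmt, BasStmt,
GenStmt, CnStmt, FaceStmt, FaceCStmt, DepStmt, AtTwoStmt.
Setting: `F_1` is a line in `Phi λ` with trace `cn ![v]`, `R = cn ![v, x, y]`, all lines over extreme `μ`, not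
proportional to `λ`, have the trace `cn ![v, x]` or `cn ![v, y]`; `b ≠ b'` are points over `λ` of the
evaluations `(c, e, F)`, `(c', e', F')`.
(i) over such a `μ` there is only one point `s`: if there were two, the traces of two different lines in
`Phi μ` (they exist, `sdim (Phi μ) = 4`) would have only `0` in common (TwoStmt), but both contain `v`.
(ii) so all evaluations vanish at `s`, `s ∈ F''` for every evaluation `(c'', e'', F'')` with `c'' > 0` on
`R - 0`.  Three linearly independent such `μ` would give three linearly independent vectors in `F ∩ F'`,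
so `F = F'` (FaceStmt (2)), `b = b'` (`inj`): contradiction.  `Δ` has three linearly independent extreme
vectors; if an extreme vector is proportional to none of them there are four which are pairwise not
proportional, three of them not proportional to `λ` and linearly independent (DepStmt), contradiction.  So
(GenStmt) `Δ = cn ![λ, μ, μ']`.  Let `s, t` be the points over `μ, μ'`.
(iii) `X = {l ∈ L : π l ∈ cn ![μ, μ']}` is a face of `L` and equals `cn ![v, x, y, s, t]`: `l - α s - β t`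
is in `ker π` and all evaluations are `≥ 0` on it, so it is in `R` by CharStmt.  The five vectors are
linearly independent.  By CnStmt all `cnS` are faces of `X`, so of `L`.
(iv) `cn ![x, y, s] ⊆ Z`: otherwise it is a line in `Phi μ` with trace `cn ![x, y]`, not allowed.  The same
for `cn ![x, y, t]`.
(v) `Y = cn ![x, y, s, t]` has dimension four, is not inside `Z` (hypothesis on dimensions), so it
contains two different lines, which are generated by three of the four vectors (CnStmt (4)), not by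
`x, y, s` and not by `x, y, t`; so `cn ![x, s, t]` is a line.
(vi) `F_1` and `cn ![x, s, t]` have a common nonzero vector `z` (meet): `π z ∈ ℝ₊ λ ∩ cn ![μ, μ'] = 0`, so
`z ∈ F_1 ∩ R = cn ![v]` and `z` is a multiple of `x`: contradiction. -/
def A1cStmt : Prop := ∀ (E : Type) [NormedAddCommGroup E] [NormedSpace ℝ E]
  [FiniteDimensional ℝ E] (L Z R : Set E) (π : E →ₗ[ℝ] (Fin 3 → ℝ)), Sys L Z → MaxZ L Z R →
  Sec L Z R π → sdim R = 3 → (∀ F, Face L F → F ⊆ Z → sdim F ≤ 3) →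
  ∀ lam, Extr (π '' L) lam → ∀ F₁, Line L Z F₁ → F₁ ⊆ Phi L π lam →
  ∀ v x y, LinearIndependent ℝ ![v, x, y] → R = cn ![v, x, y] → F₁ ∩ R = cn ![v] →
  (∀ mu, Extr (π '' L) mu → NP lam mu → ∀ G, Line L Z G → G ⊆ Phi L π mu →
      G ∩ R = cn ![v, x] ∨ G ∩ R = cn ![v, y]) →
  ∀ c e F c' e' F', Ev L Z π c e F → Ev L Z π c' e' F' → ∀ b ∈ F, π b = lam → ∀ b' ∈ F',
  π b' = lam → b = b'

/-- A1.  There is only one point over every extreme `λ`.
Uses A1bStmt, A1cStmt, TwoStmt, EvStmt, PhiStmt.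
Take one evaluation (EvStmt, PosStmt) and its point `b` over `λ`.  Suppose another evaluation has the
point `b' ≠ b`.  `Phi λ` has dimension four (larger than `3`), so it contains two lines `F_1 ≠ F_2`;
TwoStmt, A1bStmt, then A1cStmt for `F_1` or `F_2` (whichever has the trace `cn ![v]`). -/
def A1Stmt : Prop := ∀ (E : Type) [NormedAddCommGroup E] [NormedSpace ℝ E]
  [FiniteDimensional ℝ E] (L Z R : Set E) (π : E →ₗ[ℝ] (Fin 3 → ℝ)), Sys L Z → MaxZ L Z R →
  Sec L Z R π → sdim R = 3 → (∀ F, Face L F → F ⊆ Z → sdim F ≤ 3) →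
  ∀ lam, Extr (π '' L) lam → ∃ b, π b = lam ∧ ∀ c e F, PosOn R c → Ev L Z π c e F → b ∈ F

/-- A2.  `L` is the direct sum of `R` and a line.  Uses A1Stmt, EvStmt, CharStmt, DelStmt, BasStmt,
FaceStmt, PosStmt.
Let `λ_i` be three linearly independent extreme vectors of `Δ`, `b_i` the points over them (A1).  The
line `F` of one evaluation contains `b_i`, and so does the line of any other one, so the lines are equal
(FaceStmt (2), dimension three).  So all evaluations vanish on `F`.  `l ∈ L`, `f ∈ F` with `π f = π l`: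
`v = l - f`, all evaluations are `≥ 0` at `v`, `π v = 0`, so `v ∈ L` (CharStmt), `v ∈ R`.
`span R ⊆ ker π`, `span F ∩ ker π = 0` (`inj`). -/
def A2Stmt : Prop := ∀ (E : Type) [NormedAddCommGroup E] [NormedSpace ℝ E]
  [FiniteDimensional ℝ E] (L Z R : Set E), Sys L Z → MaxZ L Z R →
  sdim R = 3 → (∀ F, Face L F → F ⊆ Z → sdim F ≤ 3) →
  ∃ F, Line L Z F ∧ (∀ x, x ∈ L ↔ ∃ r ∈ R, ∃ f ∈ F, x = r + f) ∧
    Submodule.span ℝ R ⊓ Submodule.span ℝ F = ⊥

/-- A3a.  Lines in `R + ray g`, `g` extreme in `F`.  Uses DirStmt, FaceStmt.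
`R + ray g` is a face of `L` (DirStmt) of dimension four, larger than `R`, so not inside `Z`; it contains
two different lines `G_1 ≠ G_2`.  `G_i` meets `F` (meet), in `(R + ray g) ∩ F = ray g`, so `g ∈ G_i`, and
`G_i = A_i + ray g` with the face `A_i = G_i ∩ R` of `R` of dimension two (DirStmt (3)); `A_1 ≠ A_2`. -/
def A3aStmt : Prop := ∀ (E : Type) [NormedAddCommGroup E] [NormedSpace ℝ E]
  [FiniteDimensional ℝ E] (L Z R F : Set E), Sys L Z → MaxZ L Z R → sdim R = 3 → Line L Z F →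
  (∀ x, x ∈ L ↔ ∃ r ∈ R, ∃ f ∈ F, x = r + f) → Submodule.span ℝ R ⊓ Submodule.span ℝ F = ⊥ →
  ∀ g, Extr F g → ∃ A₁ A₂, A₁ ≠ A₂ ∧ Face R A₁ ∧ Face R A₂ ∧ sdim A₁ = 2 ∧ sdim A₂ = 2 ∧
    Line L Z {x | ∃ a ∈ A₁, ∃ t : ℝ, 0 ≤ t ∧ x = a + t • g} ∧
    Line L Z {x | ∃ a ∈ A₂, ∃ t : ℝ, 0 ≤ t ∧ x = a + t • g}

/-- A3b.  Lines in `ray w + F`, `w` extreme in `R`.  Uses DirStmt, FaceStmt.
`ray w + F` is a face of dimension four, not inside `Z` (it contains `F`), so it contains a line `G ≠ F`.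
`G = (G ∩ ray w) + (G ∩ F)`, `G ∩ F ≠ F` (FaceStmt (2)), so `sdim (G ∩ F) ≤ 2`, so it is two and
`w ∈ G`. -/
def A3bStmt : Prop := ∀ (E : Type) [NormedAddCommGroup E] [NormedSpace ℝ E]
  [FiniteDimensional ℝ E] (L Z R F : Set E), Sys L Z → MaxZ L Z R → sdim R = 3 → Line L Z F →
  (∀ x, x ∈ L ↔ ∃ r ∈ R, ∃ f ∈ F, x = r + f) → Submodule.span ℝ R ⊓ Submodule.span ℝ F = ⊥ →
  ∀ w, Extr R w → ∃ ε, Face F ε ∧ sdim ε = 2 ∧
    Line L Z {x | ∃ a ∈ ε, ∃ t : ℝ, 0 ≤ t ∧ x = a + t • w}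

/-- A3c.  Counting.  Pure convex geometry of two three dimensional cones `R, F`.
Uses BasStmt, TwoDStmt, CnStmt, GenStmt, DepStmt, FaceStmt, FaceCStmt.
(1) If `g` is extreme in `F` and `g ∉ ε w`, `g ∉ ε w'` (`w, w'` extreme in `R`) then `w, w'` are
proportional: both are in `A_1 ∩ A_2` (different faces of dimension two), of dimension at most one.
(2) `w_1, w_2, w_3` linearly independent extreme vectors of `R`.  Every `ε w_i` is `cn ![p, q]`, so among
pairwise not proportional extreme vectors at most two are in `ε w_i`.  Four pairwise not proportional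
extreme vectors of `F`: each of them is in at least two of the three `ε w_i` by (1), `8 ≤ 6`.  So, with
linearly independent extreme vectors `g_1, g_2, g_3` of `F`, every extreme vector of `F` is proportional
to one of them: `F = cn ![g_1, g_2, g_3]` (GenStmt).
(3) For every `w` extreme in `R` some `g_j ∉ ε w`.  Four pairwise not proportional `w`: two of them have
the same `j`, contradiction to (1).  So `R = cn ![w_1, w_2, w_3]`. -/
def A3cStmt : Prop := ∀ (E : Type) [NormedAddCommGroup E] [NormedSpace ℝ E]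
  [FiniteDimensional ℝ E] (R F : Set E), CPC R → CPC F → sdim R = 3 → sdim F = 3 →
  ∀ ε : E → Set E, (∀ w, Extr R w → Face F (ε w) ∧ sdim (ε w) = 2) →
  (∀ g, Extr F g → ∃ A₁ A₂, A₁ ≠ A₂ ∧ Face R A₁ ∧ Face R A₂ ∧ sdim A₁ = 2 ∧ sdim A₂ = 2 ∧
    ∀ w, Extr R w → g ∉ ε w → w ∈ A₁ ∧ w ∈ A₂) →
  (∃ w : Fin 3 → E, LinearIndependent ℝ w ∧ R = cn w) ∧
  ∃ g : Fin 3 → E, LinearIndependent ℝ g ∧ F = cn g

/-- A3.  Uses A2Stmt, A3aStmt, A3bStmt, A3cStmt, FaceCStmt, CnStmt.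
`ε w` from A3b, `A_i` from A3a.  If `g ∉ ε w` then `w ∈ A_i`: the lines `ray w + ε w` and `A_i + ray g` have a
common nonzero vector `α w + x = a + β g` (`x ∈ ε w`, `a ∈ A_i`), so `α w = a`, `x = β g` (direct sum);
`β = 0` (otherwise `g ∈ ε w`), so `x = 0`, `α w = a ≠ 0`, `w ∈ A_i`.  A3c. -/
def A3Stmt : Prop := ∀ (E : Type) [NormedAddCommGroup E] [NormedSpace ℝ E]
  [FiniteDimensional ℝ E] (L Z R : Set E), Sys L Z → MaxZ L Z R → sdim R = 3 →
  (∀ F, Face L F → F ⊆ Z → sdim F ≤ 3) →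
  ∃ g : Fin 6 → E, LinearIndependent ℝ g ∧ L = cn g

/-- A4.  Combinatorics of the simplicial case.  Uses CnStmt, FaceStmt.
Call a three element set `σ` odd if `cnS g σ` is not inside `Z`.  If `σ` is odd then `σᶜ` is not
(meet: the common vector of `cnS g σ` and `cnS g σᶜ` is zero).  For a four element set `τ` the face
`cnS g τ` has dimension four, so it is not inside `Z` and contains two different lines, which are
`cnS g σ` with odd `σ ⊆ τ`: at least two odd sets in every four element set.  Double counting: every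
three element set is in three four element sets, there are fifteen of these: `3 N ≥ 30`, and `N ≤ 10` by
the first remark.  So equality everywhere. -/
def A4Stmt : Prop := ∀ (E : Type) [NormedAddCommGroup E] [NormedSpace ℝ E]
  [FiniteDimensional ℝ E] (L Z : Set E), Sys L Z → (∀ F, Face L F → F ⊆ Z → sdim F ≤ 3) →
  ∀ g : Fin 6 → E, LinearIndependent ℝ g → L = cn g →
  (∀ σ : Finset (Fin 6), σ.card = 3 → (cnS g σ ⊆ Z ↔ ¬ cnS g σᶜ ⊆ Z)) ∧
  (∀ τ : Finset (Fin 6), τ.card = 4 → ∃ σ₁ σ₂, σ₁ ≠ σ₂ ∧ σ₁ ⊆ τ ∧ σ₂ ⊆ τ ∧ σ₁.card = 3 ∧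
    σ₂.card = 3 ∧ ∀ σ, σ ⊆ τ → σ.card = 3 → (¬ cnS g σ ⊆ Z ↔ σ = σ₁ ∨ σ = σ₂)) ∧
  (∀ σ : Finset (Fin 6), σ.card ≤ 2 → cnS g σ ⊆ Z)

/-! ## C: all faces inside `Z` are rays -/

/-- the data of case C: `T l q` is the evaluation at `q ∈ ℝ²` of `l` -/
structure CData {E : Type} [NormedAddCommGroup E] [NormedSpace ℝ E] (L : Set E)
    (π : E →ₗ[ℝ] (Fin 3 → ℝ)) (T : E →ₗ[ℝ] (ℝ × ℝ → ℝ)) : Prop where
  dim : Module.finrank ℝ E = 6
  span : Submodule.span ℝ L = ⊤
  surj : Function.Surjective π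
  aff : ∀ v, π v = 0 → ∃ α β γ : ℝ, ∀ q, T v q = α + β * q.1 + γ * q.2
  affs : ∀ α β γ : ℝ, ∃ v, π v = 0 ∧ ∀ q, T v q = α + β * q.1 + γ * q.2
  pos : ∀ l, l ∈ L ↔ π l ∈ π '' L ∧ ∀ q, 0 ≤ T l q
  del : CPC (π '' L) ∧ sdim (π '' L) = 3
  nof : ∀ D, Face (π '' L) D → sdim D ≠ 2
  dir : ∀ lam, Extr (π '' L) lam → ∃ n : ℝ × ℝ, n ≠ 0 ∧ ∃ l, π l = lam ∧ ∃ φ : ℝ → ℝ,
    ConvexOn ℝ Set.univ φ ∧ ∀ q, T l q = φ (n.1 * q.1 + n.2 * q.2)
  naff : ∀ lam, Extr (π '' L) lam → ∀ l, π l = lam → ¬ ∃ α β γ : ℝ, ∀ q,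
    T l q = α + β * q.1 + γ * q.2

/-- C0.  Uses PhiStmt, EvStmt, OneStmt, TwoStmt, CnStmt, FaceStmt, PosStmt.
`sdim R = 1` (`R ≠ {0}`).  By PhiStmt the dimension is three or four.  If it is four there are two lines
`F_1 ≠ F_2`.  Two different points `b ≠ b'` over `λ` would give the face `F_1 ∩ F_2 = cn ![b, b']` of
dimension two: not inside `Z` by hypothesis, but (line) gives a face of dimension three in it,
contradiction.  So there is only one point and OneStmt gives the dimension `1 + 1`: contradiction. -/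
def C0Stmt : Prop := ∀ (E : Type) [NormedAddCommGroup E] [NormedSpace ℝ E]
  [FiniteDimensional ℝ E] (L Z R : Set E) (π : E →ₗ[ℝ] (Fin 3 → ℝ)), Sys L Z → MaxZ L Z R →
  Sec L Z R π → (∀ F, Face L F → F ⊆ Z → sdim F ≤ 1) → ∀ lam, Extr (π '' L) lam →
  sdim (Phi L π lam) = 3

/-- C1.  Construction of the data (`sdim R = 1` because `R ≠ {0}`).  Uses C0Stmt, EvStmt, CharStmt, AgrStmt, UniStmt, ConvStmt, DelStmt,
PhiStmt, OneStmt, FaceStmt, BasStmt.
`R` is a ray, generated by `r_0`.  Choose `v_1, v_2` such that `r_0, v_1, v_2` is a basis of `ker π` and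
functionals `φ_0, φ_1, φ_2` on `E` dual to them.  For `q ∈ ℝ²` let `c_q = φ_0 + q_1 φ_1 + q_2 φ_2`,
`c_q > 0` on `R - 0`; choose `(e_q, F_q)` with EvStmt; `T l q = e_q l`.
`aff`, `affs`: `T v q = c_q v = φ_0 v + q_1 φ_1 v + q_2 φ_2 v` for `v ∈ ker π`.
`pos`: let `π l ∈ π(L)`, `T l ≥ 0`.  For an evaluation `(c, e, F)`, `c > 0` on `R - 0`: with
`κ = c r_0 > 0`, `q = (c v_1 / κ, c v_2 / κ)`, `c = κ c_q` on `ker π`, so `e = κ e_q` (UniStmt), `e l ≥ 0`.
CharStmt.  `nof`: a face `D` of `π(L)` of dimension two gives the face `{x ∈ F_q : π x ∈ D}` of `F_q`, of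
dimension two (`π : F_q → π(L)` is a linear bijection), not inside `Z` by hypothesis, so it contains a
line: contradiction.  `dir`: `P = span (Phi λ) ∩ ker π` has dimension two (C0) and contains `r_0`, so
`P = span (r_0, n_1 v_1 + n_2 v_2)`, `n ≠ 0`.  `l ∈ L` with `π l = λ` is in `Phi λ`.  `c_q = c_q'` on `P`
if `n · q = n · q'`; AgrStmt: `T l q = T l q'`.  So `T l q = φ (n · q)` with `φ s = T l (s n / |n|²)`, and
`φ` is convex by ConvStmt (`s + t = 1`).  `naff`: otherwise (`affs`) `T l = T v`, `π v = 0`, `b = l - v`,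
`T b = 0`, `π b = λ`.  For `x ∈ Phi λ`, `π x = t λ`: `T (x - t b) = T x ≥ 0`, so `x - t b ∈ L` (`pos`),
`∈ R`.  So `Phi λ ⊆ R + ℝ b`, of dimension two: contradiction to C0. -/
def C1Stmt : Prop := ∀ (E : Type) [NormedAddCommGroup E] [NormedSpace ℝ E]
  [FiniteDimensional ℝ E] (L Z R : Set E), Sys L Z → MaxZ L Z R →
  (∀ F, Face L F → F ⊆ Z → sdim F ≤ 1) → ∃ π T, CData L π T

/-- C2.  Not three with the same direction.
`x ∈ E` is `v + ∑ a_i l_i` with `π v = 0`.  With `h = (-n_2, n_1)`: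
`T x (s h) - T x 0 = s (T x h - T x 0)` for all `s` (`T v` is affine, the `T l_i` are constant along `h`).
For `x ∈ L` the left side is bounded below by `- T x 0`, so `T x h - T x 0 = 0`; `L` spans `E`, so it holds
for all `x ∈ E`.  But `affs` gives `v` with `T v q = h_1 q_1 + h_2 q_2`, `T v h - T v 0 = |h|² > 0`. -/
def C2Stmt : Prop := ∀ (E : Type) [NormedAddCommGroup E] [NormedSpace ℝ E]
  [FiniteDimensional ℝ E] (L : Set E) (π : E →ₗ[ℝ] (Fin 3 → ℝ)) (T : E →ₗ[ℝ] (ℝ × ℝ → ℝ)),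
  CData L π T → ∀ (n : ℝ × ℝ) (l : Fin 3 → E) (φ : Fin 3 → ℝ → ℝ), n ≠ 0 →
  (∀ i q, T (l i) q = φ i (n.1 * q.1 + n.2 * q.2)) → ¬ LinearIndependent ℝ (fun i => π (l i))

/-- C3a.  A continuous function with vanishing third differences is quadratic.
`B s t = φ (s+t) - φ s - φ t + φ 0`.  The hypothesis says that `φ (x+s+t) - φ (x+s) - φ (x+t) + φ x` does not
depend on `x`, so `B (s+s') t = B s t + B s' t`; `B` is symmetric and continuous, so `B s t = κ s t`.  Then
`φ s - φ 0 - κ s² / 2` is additive and continuous, so linear. -/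
def C3aStmt : Prop := ∀ φ : ℝ → ℝ, Continuous φ → (∀ x s t u : ℝ,
  φ (x + s + t + u) - φ (x + s + t) - φ (x + s + u) - φ (x + t + u) + φ (x + s) + φ (x + t) +
    φ (x + u) - φ x = 0) → ∃ a b c : ℝ, ∀ s, φ s = a + b * s + c * s ^ 2

/-- C3b.  The functional equation.  Uses C3aStmt.
Let `h_i = ((m i).2, -(m i).1)`, so `m_i · h_i = 0`, `n · h_i ≠ 0`.  Let `s_i = t_i / (n · h_i)`.  Take the
third difference of both sides of the equation at `q` in the directions `s_1 h_1, s_2 h_2, s_3 h_3`: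
the term `ψ_i (m_i · q)` is killed by the difference in direction `h_i`, the affine function is
killed.  `q = x n / |n|²`.  So all third differences of `φ` vanish. -/
def C3bStmt : Prop := ∀ (φ : ℝ → ℝ) (ψ : Fin 3 → ℝ → ℝ) (n : ℝ × ℝ) (m : Fin 3 → ℝ × ℝ)
  (α β γ : ℝ), Continuous φ → (∀ i, n.1 * (m i).2 - n.2 * (m i).1 ≠ 0) →
  (∀ q : ℝ × ℝ, φ (n.1 * q.1 + n.2 * q.2) =
    ∑ i, ψ i ((m i).1 * q.1 + (m i).2 * q.2) + (α + β * q.1 + γ * q.2)) →
  ∃ a b c : ℝ, ∀ s, φ s = a + b * s + c * s ^ 2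

/-- C4.  Every `T l` is a quadratic polynomial; over an extreme `λ` its second order part is
`κ (n · q)²`, `κ > 0`; and there are three extreme vectors with pairwise not parallel directions.
Uses C2Stmt, C3bStmt, ManyStmt, DepStmt, BasStmt.
ManyStmt for `π(L)` (`del`, `nof`): infinitely many pairwise not proportional extreme vectors `λ_i`; let
`n_i`, `l_i`, `φ_i` be as in `dir`.  By C2 (and DepStmt: three of them are linearly independent; a parallel
direction can be rescaled, `φ` too) at most two of the `n_i` are parallel to a given direction.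
(2) So there are three with pairwise not parallel directions.  (1) Let `λ` be extreme, `n, l, φ` from
`dir`.  At most one `λ_i` is proportional to `λ`, at most two have `n_i` parallel to `n`; choose three
others: linearly independent, `λ = ∑ a_i λ_i`, `l - ∑ a_i l_i ∈ ker π`, so C3b applies (`φ` is continuous,
because it is convex on `ℝ`): `φ s = a + b s + κ s²`, `κ ≥ 0` (convex), `κ ≠ 0` by `naff`.  Every other `l'`
over `λ` differs by an element of `ker π`.  (3) every `x ∈ E` is a combination of elements over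
extreme vectors, and of an element of `ker π`. -/
def C4Stmt : Prop := ∀ (E : Type) [NormedAddCommGroup E] [NormedSpace ℝ E]
  [FiniteDimensional ℝ E] (L : Set E) (π : E →ₗ[ℝ] (Fin 3 → ℝ)) (T : E →ₗ[ℝ] (ℝ × ℝ → ℝ)),
  CData L π T →
  (∀ x, ∃ a b c d f g : ℝ, ∀ q, T x q = a + b * q.1 + c * q.2 + d * q.1 ^ 2 + f * (q.1 * q.2) +
    g * q.2 ^ 2) ∧
  (∀ lam, Extr (π '' L) lam → ∀ x, π x = lam → ∃ n : ℝ × ℝ, n ≠ 0 ∧ ∃ κ : ℝ, 0 < κ ∧
    ∃ a b c : ℝ, ∀ q, T x q = a + b * q.1 + c * q.2 + κ * (n.1 * q.1 + n.2 * q.2) ^ 2) ∧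
  ∃ (l : Fin 3 → E) (n : Fin 3 → ℝ × ℝ) (κ : Fin 3 → ℝ) (a b c : Fin 3 → ℝ),
    (∀ i, Extr (π '' L) (π (l i))) ∧ (∀ i, 0 < κ i) ∧
    (∀ i j, i ≠ j → (n i).1 * (n j).2 - (n i).2 * (n j).1 ≠ 0) ∧
    ∀ i q, T (l i) q = a i + b i * q.1 + c i * q.2 + κ i * ((n i).1 * q.1 + (n i).2 * q.2) ^ 2

/-- C5.  `T` is a linear bijection to the quadratic polynomials.  Uses C4Stmt.
Surjective: the affine functions (`affs`) and the squares `(n_i · q)²`, which are a basis of the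
binary quadratic forms (Vandermonde).  `dim E = 6`, so injective.  `Φ c` is the element of `E` with
`T (Φ c) q = ∑ c_ij z_i z_j`, `z = (1, q_1, q_2)`, for the symmetrization of `c`. -/
def C5Stmt : Prop := ∀ (E : Type) [NormedAddCommGroup E] [NormedSpace ℝ E]
  [FiniteDimensional ℝ E] (L : Set E) (π : E →ₗ[ℝ] (Fin 3 → ℝ)) (T : E →ₗ[ℝ] (ℝ × ℝ → ℝ)),
  CData L π T → ∃ Φ : Matrix (Fin 3) (Fin 3) ℝ →ₗ[ℝ] E,
  (∀ c q, T (Φ c) q = ∑ i, ∑ j, c i j * (![1, q.1, q.2] i * ![1, q.1, q.2] j)) ∧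
  (∀ x, ∃ c, c.IsSymm ∧ x = Φ c) ∧ ∀ c, c.IsSymm → Φ c = 0 → c = 0

/-- C6.  `L = Φ(PSD_3)`.  Uses C4Stmt, C5Stmt, ManyStmt, DepStmt.
`l = Φ c`, `c` symmetric.  If `l ∈ L` then `T l ≥ 0`, so `∑ c_ij y_i y_j ≥ 0` for `y_0 ≠ 0` (homogeneity), and
for `y_0 = 0` by continuity.  Conversely let `c` be PSD; `T l ≥ 0`; by `pos` we need `π l ∈ Δ = π(L)`.
For `x ∈ E` let `S x q = (T x q + T x (-q)) / 2 - T x 0`, linear in `x`, zero for `x ∈ ker π` (`aff`); it is
the second order part of `T x`.  `S l q ≥ 0` for all `q` (`T l (s q) ≥ 0`, divide by `s²`).  Let `l_1, l_2, l_3`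
be as in C4 (3); `S (l_i) q = κ_i (n_i · q)²`; the `π (l_i)` are pairwise not proportional (otherwise
the `n_i` would be parallel), so linearly independent (DepStmt).  `x_0 = l_1 + l_2 + l_3`: `S x_0 q > 0` for
`q ≠ 0`, and `π x_0` is an interior point of `Δ` (it contains the cone over the `π (l_i)`).
Suppose `p = π l ∉ Δ`.  Let `t ∈ [0, 1]` be maximal with `z = (1-t) π x_0 + t p ∈ Δ` (`Δ` is closed); so
`0 < t < 1`.  For `ε > 0`: `z - ε π x_0 ∉ Δ`: otherwise (we may take `ε < 1 - t`, by convexity) divide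
`(1-t-ε) π x_0 + t p ∈ Δ` by `1 - ε`: the point with the parameter `t / (1 - ε) > t` is in `Δ`, contradiction.
`z ≠ 0` and `z` is extreme by ManyStmt (1) with `h = π x_0` (`z = π w`, `w = (1-t) x_0 + t l`, `S w q > 0` for
`q ≠ 0`, so `z ≠ 0`).  C4 (2) for `w`: `S w q = κ (n · q)²`, which is zero for `q = (-n_2, n_1)`:
contradiction. -/
def C6Stmt : Prop := ∀ (E : Type) [NormedAddCommGroup E] [NormedSpace ℝ E]
  [FiniteDimensional ℝ E] (L : Set E) (π : E →ₗ[ℝ] (Fin 3 → ℝ)) (T : E →ₗ[ℝ] (ℝ × ℝ → ℝ)),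
  CData L π T → ∃ Φ : Matrix (Fin 3) (Fin 3) ℝ →ₗ[ℝ] E,
  (∀ c, c.IsSymm → Φ c = 0 → c = 0) ∧ ∀ l, l ∈ L ↔ ∃ c, PSD3 c ∧ l = Φ c

/-! ## The result -/

/-- D1.  Uses ExMaxStmt, B2Stmt, A3Stmt, A4Stmt, C1Stmt, C6Stmt. -/
def D1Stmt : Prop := ∀ (E : Type) [NormedAddCommGroup E] [NormedSpace ℝ E]
  [FiniteDimensional ℝ E] (L Z : Set E), Sys L Z →
  (∃ g : Fin 6 → E, LinearIndependent ℝ g ∧ L = cn g ∧
    (∀ σ : Finset (Fin 6), σ.card = 3 → (cnS g σ ⊆ Z ↔ ¬ cnS g σᶜ ⊆ Z)) ∧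
    (∀ τ : Finset (Fin 6), τ.card = 4 → ∃ σ₁ σ₂, σ₁ ≠ σ₂ ∧ σ₁ ⊆ τ ∧ σ₂ ⊆ τ ∧ σ₁.card = 3 ∧
      σ₂.card = 3 ∧ ∀ σ, σ ⊆ τ → σ.card = 3 → (¬ cnS g σ ⊆ Z ↔ σ = σ₁ ∨ σ = σ₂)) ∧
    (∀ σ : Finset (Fin 6), σ.card ≤ 2 → cnS g σ ⊆ Z)) ∨
  ∃ Φ : Matrix (Fin 3) (Fin 3) ℝ →ₗ[ℝ] E, (∀ c, c.IsSymm → Φ c = 0 → c = 0) ∧
    ∀ l, l ∈ L ↔ ∃ c, PSD3 c ∧ l = Φ c

end D1

end TightRP
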