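import Pool.Agent.Lib.MP_7cdc3e_gt.C.D1.Spec

/-!
# MP_7cdc3e_gt, section D1: the statements `A1Stmt` (one point over every extreme ray) and `A2Stmt`
(direct sum)
-/

set_option autoImplicit false

namespace TightRP

namespace D1

theorem tA1 (h1 : A1bStmt) (h2 : A1cStmt) (h3 : TwoStmt) (h4 : EvStmt) (h5 : PhiStmt)
    (h6 : PosStmt) : A1Stmt := by
  intro E _ _ _ L Z R π hS hM hπ hR3 hmax lam hlam
  obtain ⟨c, hcL⟩ := h6 E L hS.cpc
  have hc : PosOn R c := fun r hr => hcL r (hM.1.sub hr)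
  obtain ⟨e, F, hE⟩ := h4 E L Z R π hS hM hπ c hc
  obtain ⟨l₀, hl₀, hl₀π⟩ := hlam.1
  obtain ⟨b, hbF, hbπ⟩ := hE.surj l₀ hl₀
  rw [hl₀π] at hbπ
  refine ⟨b, hbπ, fun c' e' F' hc' hE' => ?_⟩
  by_contra hbF'
  obtain ⟨b', hb'F', hb'π⟩ := hE'.surj l₀ hl₀
  rw [hl₀π] at hb'π
  have hbb' : b ≠ b' := fun h => hbF' (by rw [h]; exact hb'F')
  obtain ⟨p1, p2, -, p3, -, p4, -⟩ := h5 E L Z R π hS hM hπ lam hlam
  obtain ⟨F₁, F₂, hF12, hF1P, hF2P, hF1, hF2⟩ := hS.two _ p1 p2 (by omega)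
  obtain ⟨-, hzero, -⟩ := h3 E L Z R π hS hM hπ lam hlam F₁ F₂ hF1 hF2 hF1P hF2P hF12
    c e F c' e' F' hE hE' b hbF hbπ b' hb'F' hb'π hbb'
  obtain ⟨v, x, y, hli, hR, hor, hall⟩ := h1 E L Z R π hS hM hπ hR3 lam hlam F₁ F₂ hF1 hF2 hF1P
    hF2P hF12 hzero
  rcases hor with h | h
  · exact hbb' (h2 E L Z R π hS hM hπ hR3 hmax lam hlam F₁ hF1 hF1P v x y hli hR h.1 hall
      c e F c' e' F' hE hE' b hbF hbπ b' hb'F' hb'π)
  · exact hbb' (h2 E L Z R π hS hM hπ hR3 hmax lam hlam F₂ hF2 hF2P v x y hli hR h.1 hall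
      c e F c' e' F' hE hE' b hbF hbπ b' hb'F' hb'π)

theorem tA2 (h1 : A1Stmt) (h2 : EvStmt) (h3 : CharStmt) (h4 : DelStmt) (h5 : BasStmt)
    (h6 : FaceStmt) (h7 : PosStmt) : A2Stmt := by
  intro E _ _ _ L Z R hS hM hR3 hmax
  obtain ⟨π, hπ⟩ := hS.sec R hM (fun F hF hFZ => hR3.symm ▸ hmax F hF hFZ)
  obtain ⟨hΔ, hΔ3⟩ := h4 E L Z R π hS hM hπ
  have hbas := h5 (Fin 3 → ℝ) (π '' L) hΔ
  rw [hΔ3] at hbas
  obtain ⟨lam, hlin, hext⟩ := hbas
  have hb := fun i => h1 E L Z R π hS hM hπ hR3 hmax (lam i) (hext i)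
  choose b hbπ hbF using hb
  have hbl : LinearIndependent ℝ b := by
    have he : π ∘ b = lam := funext fun i => hbπ i
    rw [← he] at hlin
    exact LinearIndependent.of_comp π hlin
  obtain ⟨c, hcL⟩ := h7 E L hS.cpc
  have hc : PosOn R c := fun r hr => hcL r (hM.1.sub hr)
  obtain ⟨e, F, hE⟩ := h2 E L Z R π hS hM hπ c hc
  have hFF : ∀ c' e' F', PosOn R c' → Ev L Z π c' e' F' → F ⊆ F' := by
    intro c' e' F' hc' hE'
    have hf : Face L (F ∩ F') := (h6 E L F hE.line.1).2.2.2.1 F' hE'.line.1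
    have hd : 3 ≤ sdim (F ∩ F') := by
      have h8 : Submodule.span ℝ (Set.range b) ≤ Submodule.span ℝ (F ∩ F') := by
        refine Submodule.span_mono ?_
        rintro _ ⟨i, rfl⟩
        exact ⟨hbF i c e F hc hE, hbF i c' e' F' hc' hE'⟩
      have h9 := Submodule.finrank_mono h8
      rw [finrank_span_eq_card hbl, Fintype.card_fin] at h9
      exact h9
    have h10 := (h6 E L (F ∩ F') hf).2.1 F hE.line.1 Set.inter_subset_left
      (by rw [hE.line.2.2]; exact hd)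
    intro x hx
    rw [← h10] at hx
    exact hx.2
  refine ⟨F, hE.line, fun x => ⟨fun hx => ?_, ?_⟩, ?_⟩
  · obtain ⟨f, hf, hfx⟩ := hE.surj x hx
    refine ⟨x - f, ?_, f, hf, by abel⟩
    have hv : π (x - f) = 0 := by rw [map_sub, hfx, sub_self]
    rw [hπ.ker]
    refine ⟨h3 E L Z R π hS hM hπ (x - f) ?_ ?_, hv⟩
    · rw [hv]
      exact ⟨0, hS.cpc.cone.zero, map_zero π⟩
    · intro c' e' F' hc' hE'
      rw [map_sub, hE'.zero f (hFF c' e' F' hc' hE' hf), sub_zero]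
      exact hE'.nonneg x hx
  · rintro ⟨r, hr, f, hf, rfl⟩
    exact hS.cpc.cone.add r (hM.1.sub hr) f (hE.line.1.sub hf)
  · rw [eq_bot_iff]
    rintro x ⟨hxR, hxF⟩
    have hx0 : π x = 0 := by
      have hle : Submodule.span ℝ R ≤ LinearMap.ker π := by
        rw [Submodule.span_le]
        intro r hr
        exact ((hπ.ker r).1 hr).2
      exact hle hxR
    rw [Submodule.mem_bot]
    exact hE.inj x hxF hx0

end D1

end TightRP
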