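import Pool.Agent.Lib.MP_7cdc3e_gt.C.D1.JoinH

/-!
# D1/A1a: traces of lines
-/

set_option autoImplicit false

namespace TightRP

namespace D1

open JoinH

theorem tA1a (h2 : ValStmt) (h3 : TrStmt) (h4 : FaceStmt) (h5 : EvStmt) (h6 : PosStmt) :
    A1aStmt := by
  intro E _ _ _ L Z R π hS hM hsec _ lam hlam F₁ F₂ hF₁ hF₂ hs₁ hs₂ hdis mu hmu hnp G hG hGs
  have hR : Face L R := hM.1
  obtain ⟨x, hx₁, hxG, hxR, hx0⟩ := (h3 E L Z R π hS hM hsec lam hlam F₁ hF₁.1 hF₁.2.1 hs₁).1 mu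
    hmu hnp G hG.1 hG.2.1 hGs
  obtain ⟨y, hy₂, hyG, hyR, hy0⟩ := (h3 E L Z R π hS hM hsec lam hlam F₂ hF₂.1 hF₂.2.1 hs₂).1 mu
    hmu hnp G hG.1 hG.2.1 hGs
  have hxy : NP x y := by
    by_contra hcon
    obtain ⟨t, ht, hyx⟩ := pos_prop hS.cpc.cone hS.cpc.pointed (hG.1.sub hxG) (hG.1.sub hyG) hx0
      hy0 hcon
    apply hy0
    apply hdis y _ hy₂ hyR
    rw [hyx]
    exact hF₁.1.cone.smul t ht.le _ hx₁
  have hGR : Face L (G ∩ R) := (h4 E L G hG.1).2.2.2.1 R hR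
  refine ⟨(h4 E L R hR).2.2.2.2.2 _ hGR Set.inter_subset_right, ?_, ⟨x, hxG, hxR, hx₁, hx0⟩,
    ⟨y, hyG, hyR, hy₂, hy0⟩, ?_⟩
  · apply le_antisymm
    · by_contra hcon
      push Not at hcon
      have h7 := (h4 E L _ hGR).2.1 G hG.1 Set.inter_subset_left (by rw [hG.2.2]; omega)
      apply hG.2.1
      rw [← h7]
      exact Set.inter_subset_right.trans hM.2.1
    · exact two_le ⟨hxG, hxR⟩ ⟨hyG, hyR⟩ hxy
  · intro G' hG' hGs' htr
    obtain ⟨c, hc⟩ := h6 E L hS.cpc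
    have hcR : PosOn R c := fun r hr hr0 => hc r (hR.sub hr) hr0
    obtain ⟨e, F, hev⟩ := h5 E L Z R π hS hM hsec c hcR
    obtain ⟨l, hl, hll⟩ := hmu.1
    obtain ⟨m, hm, hml⟩ := hev.surj l hl
    rw [hll] at hml
    obtain ⟨-, hmG⟩ := h2 E L Z R π hS hM hsec mu hmu c e F hev m hm hml
    have hxG' : x ∈ G' := by
      have : x ∈ G' ∩ R := by rw [htr]; exact ⟨hxG, hxR⟩
      exact this.1
    have hyG' : y ∈ G' := by
      have : y ∈ G' ∩ R := by rw [htr]; exact ⟨hyG, hyR⟩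
      exact this.1
    have hπx : π x = 0 := ((hsec.ker x).mp hxR).2
    have hπy : π y = 0 := ((hsec.ker y).mp hyR).2
    have hLI : LinearIndependent ℝ ![x, y, m] := by
      rw [Fintype.linearIndependent_iff]
      intro g hg
      rw [Fin.sum_univ_three] at hg
      change g 0 • x + g 1 • y + g 2 • m = 0 at hg
      have h7 := congrArg π hg
      rw [map_add, map_add, map_smul, map_smul, map_smul, hπx, hπy, hml, smul_zero, smul_zero,
        zero_add, zero_add, map_zero, smul_eq_zero] at h7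
      have h8 : g 2 = 0 := h7.resolve_right hmu.2.1
      rw [h8, zero_smul, add_zero] at hg
      obtain ⟨h9, h10⟩ := np_iff.mp hxy _ _ hg
      intro i
      fin_cases i
      · exact h9
      · exact h10
      · exact h8
    have hGG : Face L (G ∩ G') := (h4 E L G hG.1).2.2.2.1 G' hG'.1
    have hd : 3 ≤ sdim (G ∩ G') := three_le ⟨hxG, hxG'⟩ ⟨hyG, hyG'⟩
      ⟨hmG G hG.1 hG.2.1 hGs, hmG G' hG'.1 hG'.2.1 hGs'⟩ hLI
    have h7 := (h4 E L _ hGG).2.1 G hG.1 Set.inter_subset_left (by rw [hG.2.2]; omega)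
    have h8 := (h4 E L _ hGG).2.1 G' hG'.1 Set.inter_subset_right (by rw [hG'.2.2]; omega)
    exact h8.symm.trans h7

end D1

end TightRP
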