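import Pool.Agent.Lib.MP_7cdc3e_gt.C.D1.Spec

/-!
# MP_7cdc3e_gt, section D1: the statement `A1bStmt` (`R` is a triangle)
-/

set_option autoImplicit false

namespace TightRP

namespace D1

/-- among three linearly independent vectors there are two which are not proportional to `lam` -/
private theorem A1b_two {V : Type} [AddCommGroup V] [Module ℝ V] {m : Fin 3 → V} {lam : V}
    (hm : LinearIndependent ℝ m) (hlam : lam ≠ 0) :
    ∃ i j, NP lam (m i) ∧ NP lam (m j) ∧ NP (m i) (m j) := by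
  have hpair : ∀ i j : Fin 3, i ≠ j → NP (m i) (m j) := by
    intro i j hij
    have h := hm.comp ![i, j] (by
      intro a b hab
      fin_cases a <;> fin_cases b
      · rfl
      · exact absurd hab hij
      · exact absurd hab.symm hij
      · rfl)
    have he : m ∘ ![i, j] = ![m i, m j] := by
      funext k
      fin_cases k <;> rfl
    rw [he] at h
    exact h
  have hpro : ∀ i, ¬ NP lam (m i) → ∃ a : ℝ, a ≠ 0 ∧ a • m i = lam := by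
    intro i hi
    unfold NP at hi
    rw [linearIndependent_fin2] at hi
    push Not at hi
    obtain ⟨a, ha⟩ := hi (hm.ne_zero i)
    refine ⟨a, ?_, ha⟩
    rintro rfl
    apply hlam
    have ha' : (0 : ℝ) • m i = lam := ha
    rw [← ha', zero_smul]
  have hone : ∀ i j : Fin 3, i ≠ j → NP lam (m i) ∨ NP lam (m j) := by
    intro i j hij
    by_contra hno
    push Not at hno
    obtain ⟨a, ha, hai⟩ := hpro i hno.1
    obtain ⟨a', ha', haj⟩ := hpro j hno.2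
    have h := hpair i j hij
    unfold NP at h
    rw [LinearIndependent.pair_iff] at h
    have h2 := h a (-a') (by rw [neg_smul, hai, haj, add_neg_cancel])
    exact ha h2.1
  by_cases h0 : NP lam (m 0)
  · rcases hone 1 2 (by decide) with h | h
    · exact ⟨0, 1, h0, h, hpair 0 1 (by decide)⟩
    · exact ⟨0, 2, h0, h, hpair 0 2 (by decide)⟩
  · exact ⟨1, 2, (hone 0 1 (by decide)).resolve_left h0, (hone 0 2 (by decide)).resolve_left h0,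
      hpair 1 2 (by decide)⟩

theorem tA1b (h1 : A1aStmt) (h2 : JoinTStmt) (h3 : JoinTriStmt) (h4 : TrStmt) (h5 : PhiStmt)
    (h6 : DelStmt) (h7 : BasStmt) (h8 : FaceStmt) (h9 : FaceCStmt) : A1bStmt := by
  intro E _ _ _ L Z R π hS hM hπ hR3 lam hlam F₁ F₂ hF1 hF2 hF1P hF2P hne hzero
  have hRc : CPC R := h9 E L R hS.cpc hM.1
  have hRL : R ⊆ L := hM.1.sub
  -- the traces of the lines over `lam`
  have hE : ∀ F, Line L Z F → Face R (F ∩ R) ∧ sdim (F ∩ R) ≤ 2 := by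
    intro F hF
    have hf : Face L (F ∩ R) := (h8 E L F hF.1).2.2.2.1 R hM.1
    refine ⟨(h8 E L R hM.1).2.2.2.2.2 _ hf Set.inter_subset_right, ?_⟩
    by_contra hgt
    have h10 := (h8 E L (F ∩ R) hf).2.1 F hF.1 Set.inter_subset_left (by rw [hF.2.2]; omega)
    apply hF.2.1
    rw [← h10]
    exact Set.inter_subset_right.trans hM.2.1
  obtain ⟨hE1, hE1d⟩ := hE F₁ hF1
  obtain ⟨hE2, hE2d⟩ := hE F₂ hF2
  have hdis : ∀ x ∈ F₁ ∩ R, x ∈ F₂ ∩ R → x = 0 := fun x hx hx' => hzero x hx.1 hx'.1 hx.2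
  obtain ⟨Good, hGood⟩ : ∃ Good : Set E → Prop, ∀ A, Good A ↔ (Face R A ∧ sdim A = 2 ∧
      (∃ x ∈ A, x ∈ F₁ ∩ R ∧ x ≠ 0) ∧ ∃ x ∈ A, x ∈ F₂ ∩ R ∧ x ≠ 0) := ⟨_, fun A => Iff.rfl⟩
  have hthree : ∀ A B C, Good A → Good B → Good C → A ≠ B → C = A ∨ C = B := by
    intro A B C hA hB hC hAB
    obtain ⟨i, j, hij, he⟩ := h2 E R (F₁ ∩ R) (F₂ ∩ R) hRc hR3 hE1 hE2 hE1d hE2d hdis ![A, B, C]
      (by
        intro i
        fin_cases i
        · exact (hGood A).1 hA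
        · exact (hGood B).1 hB
        · exact (hGood C).1 hC)
    fin_cases i <;> fin_cases j
    · exact absurd rfl hij
    · exact absurd he hAB
    · exact Or.inl he.symm
    · exact absurd he.symm hAB
    · exact absurd rfl hij
    · exact Or.inr he.symm
    · exact Or.inl he
    · exact Or.inr he
    · exact absurd rfl hij
  have ha := h1 E L Z R π hS hM hπ hR3 lam hlam F₁ F₂ hF1 hF2 hF1P hF2P hzero
  have hgood : ∀ mu, Extr (π '' L) mu → NP lam mu → ∀ G, Line L Z G → G ⊆ Phi L π mu →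
      Good (G ∩ R) := by
    intro mu hmu hnp G hG hGP
    obtain ⟨a1, a2, ⟨x, hx, hxR, hxF, hx0⟩, ⟨y, hy, hyR, hyF, hy0⟩, -⟩ := ha mu hmu hnp G hG hGP
    exact (hGood _).2 ⟨a1, a2, ⟨x, ⟨hx, hxR⟩, ⟨hxF, hxR⟩, hx0⟩, ⟨y, ⟨hy, hyR⟩, ⟨hyF, hyR⟩, hy0⟩⟩
  -- two lines over `mu`
  have hlines : ∀ mu, Extr (π '' L) mu → NP lam mu → ∃ G₁ G₂, Line L Z G₁ ∧ Line L Z G₂ ∧
      G₁ ⊆ Phi L π mu ∧ G₂ ⊆ Phi L π mu ∧ G₁ ∩ R ≠ G₂ ∩ R := by
    intro mu hmu hnp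
    obtain ⟨p1, p2, -, p3, -, p4, -⟩ := h5 E L Z R π hS hM hπ mu hmu
    obtain ⟨G₁, G₂, hG, hG1P, hG2P, hG1, hG2⟩ := hS.two _ p1 p2 (by omega)
    refine ⟨G₁, G₂, hG1, hG2, hG1P, hG2P, fun he => hG ?_⟩
    obtain ⟨-, -, -, -, a5⟩ := ha mu hmu hnp G₂ hG2 hG2P
    exact a5 G₁ hG1 hG1P he
  obtain ⟨-, hΔ3⟩ := h6 E L Z R π hS hM hπ
  have hbas := h7 (Fin 3 → ℝ) (π '' L) (h6 E L Z R π hS hM hπ).1
  rw [hΔ3] at hbas
  obtain ⟨m, hm, hmE⟩ := hbas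
  obtain ⟨i, j, hi, hj, hij⟩ := A1b_two hm hlam.2.1
  obtain ⟨G₁, G₂, hG1, hG2, hG1P, hG2P, hAB⟩ := hlines (m i) (hmE i) hi
  obtain ⟨K₁, K₂, hK1, hK2, hK1P, hK2P, hAB'⟩ := hlines (m j) (hmE j) hj
  have gA := hgood (m i) (hmE i) hi G₁ hG1 hG1P
  have gB := hgood (m i) (hmE i) hi G₂ hG2 hG2P
  -- the trace of `G₂` is the trace of a line over `m j`
  obtain ⟨K, hK, hKP, hKB⟩ : ∃ K, Line L Z K ∧ K ⊆ Phi L π (m j) ∧ K ∩ R = G₂ ∩ R := by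
    rcases hthree _ _ _ gA gB (hgood (m j) (hmE j) hj K₁ hK1 hK1P) hAB with h | h
    · rcases hthree _ _ _ gA gB (hgood (m j) (hmE j) hj K₂ hK2 hK2P) hAB with h' | h'
      · exact absurd (h.trans h'.symm) hAB'
      · exact ⟨K₂, hK2, hK2P, h'⟩
    · exact ⟨K₁, hK1, hK1P, h⟩
  obtain ⟨z, hz1, hz2, hzR, hz0⟩ := (h4 E L Z R π hS hM hπ (m i) (hmE i) G₁ hG1.1 hG1.2.1
    hG1P).1 (m j) (hmE j) hij K hK.1 hK.2.1 hKP
  have hz : z ∈ G₂ ∩ R := by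
    rw [← hKB]
    exact ⟨hz2, hzR⟩
  obtain ⟨a1, a2, a3, a4⟩ := (hGood _).1 gA
  obtain ⟨b1, b2, b3, b4⟩ := (hGood _).1 gB
  obtain ⟨v, x, y, hli, hR, hA, hB, hor⟩ := h3 E R (F₁ ∩ R) (F₂ ∩ R) (G₁ ∩ R) (G₂ ∩ R) hRc hR3
    hE1 hE2 hE1d hE2d hdis a1 a2 a3 a4 b1 b2 b3 b4 hAB ⟨z, ⟨hz1, hzR⟩, hz, hz0⟩
  refine ⟨v, x, y, hli, hR, hor, ?_⟩
  intro mu hmu hnp G hG hGP
  rw [← hA, ← hB]
  exact hthree _ _ _ gA gB (hgood mu hmu hnp G hG hGP) hAB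

end D1

end TightRP
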