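import Pool.Agent.Lib.MP_7cdc3e_gt.C.D1.Spec

/-!
# MP_7cdc3e_gt, D1, A1c: the final contradiction for two points over an extreme ray (helper53)
-/

namespace TightRP

namespace D1

theorem a1cProp {E : Type} [NormedAddCommGroup E] [NormedSpace ℝ E] {L : Set E} (hL : CPC L)
    {a b : E} (ha : Extr L a) (hb : Extr L b) (h : ¬ NP a b) : ∃ t : ℝ, 0 < t ∧ a = t • b := by
  have h1 : ∃ t : ℝ, t • b = a := by
    by_contra hcon
    push Not at hcon
    exact h (linearIndependent_fin2.2 ⟨hb.2.1, hcon⟩)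
  obtain ⟨t, rfl⟩ := h1
  refine ⟨t, ?_, rfl⟩
  by_contra ht
  have h2 : (-t) • b ∈ L := hL.cone.smul _ (by linarith) b hb.1
  have h3 := hL.pointed _ h2 (by rw [neg_smul, neg_neg]; exact ha.1)
  apply ha.2.1
  rw [neg_smul, neg_eq_zero] at h3
  exact h3

theorem a1cNP {E : Type} [AddCommGroup E] [Module ℝ E] {a b : E} (h : NP a b) : NP b a := by
  unfold NP at h ⊢
  rw [LinearIndependent.pair_iff] at h ⊢
  intro s t hst
  have := h t s (by rw [add_comm]; exact hst)
  exact ⟨this.2, this.1⟩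

theorem a1c (hPhi : PhiStmt) (hTwo : TwoStmt) (hChar : CharStmt) (hDel : DelStmt)
    (hBas : BasStmt) (hGen : GenStmt) (hCn : CnStmt) (hFace : FaceStmt) (hDep : DepStmt) :
    A1cStmt := by
  intro E _ _ _ L Z R π hSys hMax hSec hR3 hZ3 lam hlam F₁ hF₁ hF₁P v x y hvxy hR hF₁R htr
    c e F c' e' F' hE hE' b hb hbl b' hb' hbl'
  by_contra hbb
  have hL := hSys.cpc
  have hdel := hDel E L Z R π hSys hMax hSec
  have hv0 : v ≠ 0 := hvxy.ne_zero 0
  have hvR : v ∈ R := by
    rw [hR]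
    refine ⟨![1, 0, 0], ?_, ?_⟩
    · intro i
      fin_cases i <;> simp
    · rw [Fin.sum_univ_three]
      simp
  have hxR : x ∈ R := by
    rw [hR]
    refine ⟨![0, 1, 0], ?_, ?_⟩
    · intro i
      fin_cases i <;> simp
    · rw [Fin.sum_univ_three]
      simp
  have hyR : y ∈ R := by
    rw [hR]
    refine ⟨![0, 0, 1], ?_, ?_⟩
    · intro i
      fin_cases i <;> simp
    · rw [Fin.sum_univ_three]
      simp
  have hvcn : ∀ z : E, v ∈ cn ![v, z] := by
    intro z
    refine ⟨![1, 0], ?_, ?_⟩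
    · intro i
      fin_cases i <;> simp
    · rw [Fin.sum_univ_two]
      simp
  -- (i) one point over the other extreme vectors
  have hone : ∀ mu, Extr (π '' L) mu → NP lam mu → ∀ c e F c' e' F', Ev L Z π c e F →
      Ev L Z π c' e' F' → ∀ s ∈ F, π s = mu → ∀ s' ∈ F', π s' = mu → s = s' := by
    intro mu hmu hlm c e F c' e' F' hE hE' s hs hsm s' hs' hsm'
    by_contra hss
    obtain ⟨hP1, hP2, _, hP4, _, hP6, _⟩ := hPhi E L Z R π hSys hMax hSec mu hmu
    obtain ⟨G₁, G₂, hG12, hG₁s, hG₂s, hG₁, hG₂⟩ := hSys.two _ hP1 hP2 (by omega)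
    have h1 := (hTwo E L Z R π hSys hMax hSec mu hmu G₁ G₂ hG₁ hG₂ hG₁s hG₂s hG12 _ _ _ _ _ _
      hE hE' s hs hsm s' hs' hsm' hss).2.1
    have hmem : ∀ G, Line L Z G → G ⊆ Phi L π mu → v ∈ G := by
      intro G hG hGs
      rcases htr mu hmu hlm G hG hGs with h | h
      · have : v ∈ G ∩ R := by rw [h]; exact hvcn x
        exact this.1
      · have : v ∈ G ∩ R := by rw [h]; exact hvcn y
        exact this.1
    exact hv0 (h1 v (hmem G₁ hG₁ hG₁s) (hmem G₂ hG₂ hG₂s) hvR)
  -- (ii) not three linearly independent ones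
  have hno : ∀ m : Fin 3 → (Fin 3 → ℝ), LinearIndependent ℝ m → (∀ i, Extr (π '' L) (m i)) →
      (∀ i, NP lam (m i)) → False := by
    intro m hm hmE hmN
    have h1 : ∀ i, ∃ s, s ∈ F ∧ s ∈ F' ∧ π s = m i := by
      intro i
      obtain ⟨l, hl, hlm⟩ := (hmE i).1
      obtain ⟨s, hs, hsl⟩ := hE.surj l hl
      obtain ⟨s', hs', hsl'⟩ := hE'.surj l hl
      have := hone (m i) (hmE i) (hmN i) _ _ _ _ _ _ hE hE' s hs (hsl.trans hlm) s' hs'
        (hsl'.trans hlm)
      exact ⟨s, hs, by rw [this]; exact hs', hsl.trans hlm⟩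
    choose s hsF hsF' hsm using h1
    have h2 : LinearIndependent ℝ s := by
      apply LinearIndependent.of_comp π
      have : (⇑π ∘ s) = m := funext hsm
      rw [this]
      exact hm
    have h3 : 3 ≤ sdim (F ∩ F') := by
      have h4 : Submodule.span ℝ (Set.range s) ≤ Submodule.span ℝ (F ∩ F') :=
        Submodule.span_mono (by
          rintro z ⟨i, rfl⟩
          exact ⟨hsF i, hsF' i⟩)
      have h5 := Submodule.finrank_mono h4
      rw [finrank_span_eq_card h2, Fintype.card_fin] at h5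
      exact h5
    have hFF : Face L (F ∩ F') := (hFace E L F hE.line.1).2.2.2.1 F' hE'.line.1
    have h4 := (hFace E L _ hFF).2.1 F hE.line.1 Set.inter_subset_left
      (by rw [hE.line.2.2]; exact h3)
    have h5 := (hFace E L _ hFF).2.1 F' hE'.line.1 Set.inter_subset_right
      (by rw [hE'.line.2.2]; exact h3)
    have h6 : F' = F := h5.symm.trans h4
    rw [h6] at hb'
    have h7 := hE.inj (b - b') (Submodule.sub_mem _ (Submodule.subset_span hb)
      (Submodule.subset_span hb')) (by rw [map_sub, hbl, hbl', sub_self])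
    exact hbb (sub_eq_zero.1 h7)
  -- the cone `π(L)` is a triangle
  obtain ⟨mu, mu', hmu, hmu', hlm, hlm', hmm, hLI3, hcone⟩ : ∃ mu mu', Extr (π '' L) mu ∧
      Extr (π '' L) mu' ∧ NP lam mu ∧ NP lam mu' ∧ NP mu mu' ∧
      LinearIndependent ℝ ![lam, mu, mu'] ∧ π '' L = cn ![lam, mu, mu'] := by
    obtain ⟨g, hg, hgE⟩ : ∃ g : Fin 3 → (Fin 3 → ℝ), LinearIndependent ℝ g ∧
        ∀ i, Extr (π '' L) (g i) := by
      have h1 := hBas (Fin 3 → ℝ) (π '' L) hdel.1
      rw [hdel.2] at h1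
      exact h1
    obtain ⟨i, hi⟩ : ∃ i, ¬ NP lam (g i) := by
      by_contra hcon
      push Not at hcon
      exact hno g hg hgE hcon
    obtain ⟨τ, hτ, hτl⟩ := a1cProp hdel.1 hlam (hgE i) hi
    obtain ⟨j, k, hj, hk, hjk⟩ : ∃ j k : Fin 3, j ≠ i ∧ k ≠ i ∧ j ≠ k := by
      have : ∀ i : Fin 3, ∃ j k : Fin 3, j ≠ i ∧ k ≠ i ∧ j ≠ k := by decide
      exact this i
    have hgNP : ∀ j k : Fin 3, j ≠ k → NP (g j) (g k) := by
      intro j k hjk
      have h1 := hg.comp ![j, k] (by
        intro a b hab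
        fin_cases a <;> fin_cases b
        · rfl
        · exact absurd hab hjk
        · exact absurd hab hjk.symm
        · rfl)
      have h2 : g ∘ ![j, k] = ![g j, g k] := by
        funext a
        fin_cases a <;> rfl
      rw [h2] at h1
      exact h1
    have hlNP : ∀ j, j ≠ i → NP lam (g j) := by
      intro j hj
      have h1 := hgNP i j hj.symm
      unfold NP at h1 ⊢
      rw [LinearIndependent.pair_iff] at h1 ⊢
      intro a b' hab
      rw [hτl, smul_smul] at hab
      have h2 := h1 _ _ hab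
      refine ⟨?_, h2.2⟩
      rcases mul_eq_zero.1 h2.1 with h | h
      · exact h
      · exact absurd h hτ.ne'
    have h3 := hDep _ _ hdel.1 _ _ _ hlam (hgE j) (hgE k) (hlNP j hj) (hlNP k hk)
      (hgNP j k hjk)
    refine ⟨g j, g k, hgE j, hgE k, hlNP j hj, hlNP k hk, hgNP j k hjk, h3, ?_⟩
    refine hGen _ _ hdel.1 3 _ h3 ?_ ?_
    · intro a
      fin_cases a
      · exact hlam.1
      · exact (hgE j).1
      · exact (hgE k).1
    · intro z hz
      by_cases h4 : NP z lam
      · by_cases h5 : NP z (g j)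
        · by_cases h6 : NP z (g k)
          · exfalso
            have h7 := hDep _ _ hdel.1 _ _ _ hz (hgE j) (hgE k) h5 h6 (hgNP j k hjk)
            refine hno _ h7 ?_ ?_
            · intro a
              fin_cases a
              · exact hz
              · exact hgE j
              · exact hgE k
            · intro a
              fin_cases a
              · exact a1cNP h4
              · exact hlNP j hj
              · exact hlNP k hk
          · exact ⟨2, a1cProp hdel.1 hz (hgE k) h6⟩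
        · exact ⟨1, a1cProp hdel.1 hz (hgE j) h5⟩
      · exact ⟨0, a1cProp hdel.1 hz hlam h4⟩
  -- the points `s`, `t`
  obtain ⟨s, hs, hsm⟩ : ∃ s ∈ F, π s = mu := by
    obtain ⟨l, hl, hlm⟩ := hmu.1
    obtain ⟨s, hs, hsl⟩ := hE.surj l hl
    exact ⟨s, hs, hsl.trans hlm⟩
  obtain ⟨t, ht, htm⟩ : ∃ t ∈ F, π t = mu' := by
    obtain ⟨l, hl, hlm⟩ := hmu'.1
    obtain ⟨s, hs, hsl⟩ := hE.surj l hl
    exact ⟨s, hs, hsl.trans hlm⟩
  have hev0 : ∀ c e F', Ev L Z π c e F' → e s = 0 ∧ e t = 0 := by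
    intro c'' e'' F'' h''
    constructor
    · obtain ⟨l, hl, hlm'⟩ := hmu.1
      obtain ⟨s', hs', hsl⟩ := h''.surj l hl
      have := hone mu hmu hlm _ _ _ _ _ _ hE h'' s hs hsm s' hs' (hsl.trans hlm')
      rw [this]
      exact h''.zero s' hs'
    · obtain ⟨l, hl, hlm''⟩ := hmu'.1
      obtain ⟨s', hs', hsl⟩ := h''.surj l hl
      have := hone mu' hmu' hlm' _ _ _ _ _ _ hE h'' t ht htm s' hs' (hsl.trans hlm'')
      rw [this]
      exact h''.zero s' hs'
  have hker : ∀ z ∈ R, π z = 0 := fun z hz => ((hSec.ker z).1 hz).2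
  have hπv := hker v hvR
  have hπx := hker x hxR
  have hπy := hker y hyR
  have hFL : F ⊆ L := hE.line.1.sub
  have hRL : R ⊆ L := hMax.1.sub
  -- the five vectors
  set w : Fin 5 → E := ![v, x, y, s, t] with hw
  have hπw : ∀ c : Fin 5 → ℝ, π (∑ i, c i • w i) = c 3 • mu + c 4 • mu' := by
    intro c
    rw [map_sum, Fin.sum_univ_five]
    simp only [map_smul]
    show c 0 • π v + c 1 • π x + c 2 • π y + c 3 • π s + c 4 • π t = _
    rw [hπv, hπx, hπy, hsm, htm]
    simp
  have hwLI : LinearIndependent ℝ w := by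
    rw [Fintype.linearIndependent_iff]
    intro g hg
    have h1 := hπw g
    rw [hg, map_zero] at h1
    have h2 := (LinearIndependent.pair_iff.1 hmm) _ _ h1.symm
    have h3 : ∑ i, ![g 0, g 1, g 2] i • ![v, x, y] i = 0 := by
      rw [Fin.sum_univ_five] at hg
      have h4 : g 0 • v + g 1 • x + g 2 • y + g 3 • s + g 4 • t = 0 := hg
      rw [h2.1, h2.2, zero_smul, zero_smul, add_zero, add_zero] at h4
      rw [Fin.sum_univ_three]
      exact h4
    have h5 := Fintype.linearIndependent_iff.1 hvxy _ h3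
    intro i
    fin_cases i
    · exact h5 0
    · exact h5 1
    · exact h5 2
    · exact h2.1
    · exact h2.2
  have huniq : ∀ c d : Fin 5 → ℝ, ∑ i, c i • w i = ∑ i, d i • w i → ∀ i, c i = d i := by
    intro c d hcd i
    have h1 : ∑ i, (c i - d i) • w i = 0 := by
      simp only [sub_smul, Finset.sum_sub_distrib]
      rw [hcd, sub_self]
    have := Fintype.linearIndependent_iff.1 hwLI _ h1 i
    linarith
  have hwL : ∀ i, w i ∈ L := by
    intro i
    fin_cases i
    · exact hRL hvR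
    · exact hRL hxR
    · exact hRL hyR
    · exact hFL hs
    · exact hFL ht
  have hcnL : ∀ (n : ℕ) (c : Fin n → ℝ) (u : Fin n → E), (∀ i, 0 ≤ c i) → (∀ i, u i ∈ L) →
      ∑ i, c i • u i ∈ L := by
    intro n c u hc hu
    refine Finset.sum_induction _ (fun z => z ∈ L) (fun a b ha hb => hL.cone.add a ha b hb)
      hL.cone.zero (fun i _ => hL.cone.smul _ (hc i) _ (hu i))
  -- the face `X`
  obtain ⟨_, _, hcn3, _, _⟩ := hCn (Fin 3 → ℝ) 3 _ hLI3
  have hface3 := (hcn3 {1, 2}).1
  rw [← hcone] at hface3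
  have hXface : Face L (cn w) := by
    have h1 : cn w = {l | l ∈ L ∧ π l ∈ cnS ![lam, mu, mu'] {1, 2}} := by
      ext l
      constructor
      · rintro ⟨g, hg, rfl⟩
        refine ⟨hcnL 5 g w hg hwL, ?_⟩
        refine ⟨![0, g 3, g 4], ?_, ?_, ?_⟩
        · intro i
          fin_cases i
          · exact le_rfl
          · exact hg 3
          · exact hg 4
        · intro i hi
          fin_cases i
          · rfl
          · exact absurd (by decide) hi
          · exact absurd (by decide) hi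
        · rw [hπw, Fin.sum_univ_three]
          show _ = (0 : ℝ) • lam + g 3 • mu + g 4 • mu'
          rw [zero_smul, zero_add]
      · rintro ⟨hl, g, hg, hg0, hgl⟩
        rw [Fin.sum_univ_three] at hgl
        have hg0' : g 0 = 0 := hg0 0 (by decide)
        have hgl' : π l = g 0 • lam + g 1 • mu + g 2 • mu' := hgl
        rw [hg0', zero_smul, zero_add] at hgl'
        have h2 : l - g 1 • s - g 2 • t ∈ L := by
          have h3 : π (l - g 1 • s - g 2 • t) = 0 := by
            rw [map_sub, map_sub, map_smul, map_smul, hsm, htm, hgl']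
            abel
          refine hChar E L Z R π hSys hMax hSec _ ⟨0, hL.cone.zero, by rw [map_zero, h3]⟩ ?_
          intro c'' e'' F'' _ h''
          obtain ⟨h4, h5⟩ := hev0 _ _ _ h''
          rw [map_sub, map_sub, map_smul, map_smul, h4, h5, smul_zero, smul_zero, sub_zero,
            sub_zero]
          exact h''.nonneg l hl
        have h3 : l - g 1 • s - g 2 • t ∈ R := by
          rw [hSec.ker]
          refine ⟨h2, ?_⟩
          rw [map_sub, map_sub, map_smul, map_smul, hsm, htm, hgl']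
          abel
        rw [hR] at h3
        obtain ⟨d, hd, hdl⟩ := h3
        rw [Fin.sum_univ_three] at hdl
        have hdl' : l - g 1 • s - g 2 • t = d 0 • v + d 1 • x + d 2 • y := hdl
        refine ⟨![d 0, d 1, d 2, g 1, g 2], ?_, ?_⟩
        · intro i
          fin_cases i
          · exact hd 0
          · exact hd 1
          · exact hd 2
          · exact hg 1
          · exact hg 2
        · rw [Fin.sum_univ_five]
          show l = d 0 • v + d 1 • x + d 2 • y + g 1 • s + g 2 • t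
          rw [← hdl']
          abel
    rw [h1]
    refine ⟨⟨⟨hL.cone.zero, by rw [map_zero]; exact hface3.cone.zero⟩, ?_, ?_⟩, ?_, ?_⟩
    · rintro a ⟨ha, ha'⟩ b ⟨hb, hb'⟩
      exact ⟨hL.cone.add a ha b hb, by rw [map_add]; exact hface3.cone.add _ ha' _ hb'⟩
    · rintro r hr a ⟨ha, ha'⟩
      exact ⟨hL.cone.smul r hr a ha, by rw [map_smul]; exact hface3.cone.smul r hr _ ha'⟩
    · rintro a ⟨ha, _⟩
      exact ha
    · rintro a ha b hb ⟨_, hab⟩
      refine ⟨ha, ?_⟩
      rw [map_add] at hab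
      exact hface3.ext _ ⟨a, ha, rfl⟩ _ ⟨b, hb, rfl⟩ hab
  obtain ⟨_, _, hcn5, hcn5', _⟩ := hCn E 5 w hwLI
  have hfaceS : ∀ S : Finset (Fin 5), Face L (cnS w S) ∧ sdim (cnS w S) = S.card := fun S =>
    ⟨(hFace E L _ hXface).2.2.1 _ (hcn5 S).1, (hcn5 S).2⟩
  have hv_mem : ∀ S : Finset (Fin 5), v ∈ cnS w S → (0 : Fin 5) ∈ S := by
    rintro S ⟨g, _, hg0, hgv⟩
    by_contra h
    have h1 : ∑ i, (![1, 0, 0, 0, 0] : Fin 5 → ℝ) i • w i = ∑ i, g i • w i := by
      rw [← hgv, Fin.sum_univ_five]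
      show (1 : ℝ) • v + (0 : ℝ) • x + (0 : ℝ) • y + (0 : ℝ) • s + (0 : ℝ) • t = v
      simp
    have h2 := huniq _ _ h1 0
    rw [hg0 0 h] at h2
    exact one_ne_zero h2
  -- (iv)
  have hZ12 : ∀ j : Fin 5, j = 3 ∨ j = 4 → cnS w {1, 2, j} ⊆ Z := by
    intro j hj
    by_contra hnot
    have hline : Line L Z (cnS w {1, 2, j}) := by
      refine ⟨(hfaceS _).1, hnot, ?_⟩
      rw [(hfaceS _).2]
      rcases hj with rfl | rfl <;> decide
    have h0 : (0 : Fin 5) ∉ ({1, 2, j} : Finset (Fin 5)) := by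
      rcases hj with rfl | rfl <;> decide
    have key : ∀ m, Extr (π '' L) m → NP lam m → cnS w {1, 2, j} ⊆ Phi L π m → False := by
      intro m hm hlm hsub
      apply h0
      apply hv_mem
      rcases htr m hm hlm _ hline hsub with h | h
      · have : v ∈ cnS w {1, 2, j} ∩ R := by rw [h]; exact hvcn x
        exact this.1
      · have : v ∈ cnS w {1, 2, j} ∩ R := by rw [h]; exact hvcn y
        exact this.1
    rcases hj with rfl | rfl
    · refine key mu hmu hlm ?_
      intro z hz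
      refine ⟨(hfaceS _).1.sub hz, ?_⟩
      obtain ⟨g, hg, hg0, rfl⟩ := hz
      refine ⟨g 3, hg 3, ?_⟩
      rw [hπw, hg0 4 (by decide), zero_smul, add_zero]
    · refine key mu' hmu' hlm' ?_
      intro z hz
      refine ⟨(hfaceS _).1.sub hz, ?_⟩
      obtain ⟨g, hg, hg0, rfl⟩ := hz
      refine ⟨g 4, hg 4, ?_⟩
      rw [hπw, hg0 3 (by decide), zero_smul, zero_add]
  -- (v)
  have hY := hfaceS {1, 2, 3, 4}
  have hYc : ({1, 2, 3, 4} : Finset (Fin 5)).card = 4 := by decide
  have hYnZ : ¬ cnS w {1, 2, 3, 4} ⊆ Z := by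
    intro h
    have := hZ3 _ hY.1 h
    rw [hY.2, hYc] at this
    omega
  obtain ⟨G₁, G₂, hG12, hG₁s, hG₂s, hG₁, hG₂⟩ := hSys.two _ hY.1 hYnZ (by rw [hY.2, hYc])
  have hGform : ∀ G, Line L Z G → G ⊆ cnS w {1, 2, 3, 4} →
      G = cnS w {1, 3, 4} ∨ G = cnS w {2, 3, 4} := by
    intro G hG hGs
    have h1 : cnS w {1, 2, 3, 4} ⊆ cn w := by
      rintro z ⟨g, hg, _, rfl⟩
      exact ⟨g, hg, rfl⟩
    obtain ⟨S, hS⟩ := hcn5' G ((hFace E L _ hXface).2.2.2.2.2 G hG.1 (hGs.trans h1))
    subst hS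
    have h2 : S.card = 3 := by rw [← (hfaceS S).2]; exact hG.2.2
    have h3 : (0 : Fin 5) ∉ S := by
      intro h0
      have h4 : v ∈ cnS w S := by
        refine ⟨![1, 0, 0, 0, 0], ?_, ?_, ?_⟩
        · intro i
          fin_cases i
          · exact zero_le_one
          · exact le_rfl
          · exact le_rfl
          · exact le_rfl
          · exact le_rfl
        · intro i hi
          fin_cases i
          · exact absurd h0 hi
          · rfl
          · rfl
          · rfl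
          · rfl
        · rw [Fin.sum_univ_five]
          show v = (1 : ℝ) • v + (0 : ℝ) • x + (0 : ℝ) • y + (0 : ℝ) • s + (0 : ℝ) • t
          simp
      exact absurd (hv_mem _ (hGs h4)) (by decide)
    have h4 : S ≠ {1, 2, 3} := by
      rintro rfl
      exact hG.2.1 (hZ12 3 (Or.inl rfl))
    have h5 : S ≠ {1, 2, 4} := by
      rintro rfl
      exact hG.2.1 (hZ12 4 (Or.inr rfl))
    have h6 : ∀ S : Finset (Fin 5), S.card = 3 → (0 : Fin 5) ∉ S → S ≠ {1, 2, 3} →
        S ≠ {1, 2, 4} → S = {1, 3, 4} ∨ S = {2, 3, 4} := by decide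
    rcases h6 S h2 h3 h4 h5 with rfl | rfl
    · exact Or.inl rfl
    · exact Or.inr rfl
  have hline134 : Line L Z (cnS w {1, 3, 4}) := by
    rcases hGform G₁ hG₁ hG₁s with h | h
    · rw [← h]; exact hG₁
    · rcases hGform G₂ hG₂ hG₂s with h' | h'
      · rw [← h']; exact hG₂
      · exact absurd (h.trans h'.symm) hG12
  -- (vi)
  obtain ⟨z, hz1, hz2, hz0⟩ := hSys.meet _ _ hF₁.1 hline134.1 hF₁.2.1 hline134.2.1
  obtain ⟨_, τ, hτ, hzτ⟩ := hF₁P hz1
  have hzL : z ∈ L := hF₁.1.sub hz1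
  obtain ⟨g, hg, hg0, rfl⟩ := hz2
  rw [hπw] at hzτ
  have h1 : ∑ i, ![τ, -g 3, -g 4] i • ![lam, mu, mu'] i = 0 := by
    rw [Fin.sum_univ_three]
    show τ • lam + (-g 3) • mu + (-g 4) • mu' = 0
    rw [← hzτ]
    module
  have h2 := Fintype.linearIndependent_iff.1 hLI3 _ h1
  have h3 : g 3 = 0 := by
    have : -g 3 = 0 := h2 1
    linarith
  have h4 : g 4 = 0 := by
    have : -g 4 = 0 := h2 2
    linarith
  have hzx : ∑ i, g i • w i = g 1 • x := by
    rw [Fin.sum_univ_five, hg0 0 (by decide), hg0 2 (by decide), h3, h4]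
    show (0 : ℝ) • v + g 1 • x + (0 : ℝ) • y + (0 : ℝ) • s + (0 : ℝ) • t = g 1 • x
    simp
  rw [hzx] at hz1 hz0 hzL
  have h5 : g 1 • x ∈ F₁ ∩ R := by
    refine ⟨hz1, ?_⟩
    rw [hSec.ker]
    exact ⟨hzL, by rw [map_smul, hπx, smul_zero]⟩
  rw [hF₁R] at h5
  obtain ⟨k, _, hk⟩ := h5
  rw [Fin.sum_univ_one] at hk
  have hk' : g 1 • x = k 0 • v := hk
  have h6 : ∑ i, ![k 0, -g 1, 0] i • ![v, x, y] i = 0 := by
    rw [Fin.sum_univ_three]
    show k 0 • v + (-g 1) • x + (0 : ℝ) • y = 0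
    rw [← hk']
    module
  have h7 := Fintype.linearIndependent_iff.1 hvxy _ h6
  have h8 : g 1 = 0 := by
    have : -g 1 = 0 := h7 1
    linarith
  exact hz0 (by rw [h8, zero_smul])

end D1

end TightRP
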