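import Pool.Agent.Lib.MP_7cdc3e_gt.C.D1.Spec

/-!
# MP_7cdc3e_gt, section D1: the statement `A3Stmt` (the simplicial case)
-/

set_option autoImplicit false

namespace TightRP

namespace D1

/-- the cone over six vectors as a sum -/
private theorem A3_join {E : Type} [AddCommGroup E] [Module ℝ E] {w g : Fin 3 → E}
    (hw : LinearIndependent ℝ w) (hg : LinearIndependent ℝ g)
    (hd : Submodule.span ℝ (cn w) ⊓ Submodule.span ℝ (cn g) = ⊥) {L : Set E}
    (hL : ∀ x, x ∈ L ↔ ∃ r ∈ cn w, ∃ f ∈ cn g, x = r + f) :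
    ∃ u : Fin (3 + 3) → E, LinearIndependent ℝ u ∧ L = cn u := by
  have hsub : ∀ v : Fin 3 → E, Set.range v ⊆ cn v := by
    rintro v _ ⟨i, rfl⟩
    refine ⟨fun j => if j = i then 1 else 0, fun j => ?_, ?_⟩
    · show (0 : ℝ) ≤ if j = i then 1 else 0
      split_ifs
      · exact zero_le_one
      · exact le_refl _
    · simp
  have hdis : Disjoint (Submodule.span ℝ (Set.range w)) (Submodule.span ℝ (Set.range g)) := by
    rw [disjoint_iff, eq_bot_iff, ← hd]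
    exact inf_le_inf (Submodule.span_mono (hsub w)) (Submodule.span_mono (hsub g))
  refine ⟨Sum.elim w g ∘ finSumFinEquiv.symm,
    (hw.sum_type hg hdis).comp _ finSumFinEquiv.symm.injective, ?_⟩
  ext x
  rw [hL]
  constructor
  · rintro ⟨_, ⟨c, hc, rfl⟩, _, ⟨d, hd, rfl⟩, rfl⟩
    refine ⟨Sum.elim c d ∘ finSumFinEquiv.symm, fun i => ?_, ?_⟩
    · show 0 ≤ Sum.elim c d (finSumFinEquiv.symm i)
      rcases finSumFinEquiv.symm i with j | j
      · exact hc j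
      · exact hd j
    · rw [Fin.sum_univ_add]
      simp only [Function.comp_apply, finSumFinEquiv_symm_apply_castAdd,
        finSumFinEquiv_symm_apply_natAdd, Sum.elim_inl, Sum.elim_inr]
  · rintro ⟨c, hc, rfl⟩
    refine ⟨∑ i, c (Fin.castAdd 3 i) • w i, ⟨_, fun i => hc _, rfl⟩,
      ∑ i, c (Fin.natAdd 3 i) • g i, ⟨_, fun i => hc _, rfl⟩, ?_⟩
    rw [Fin.sum_univ_add]
    simp only [Function.comp_apply, finSumFinEquiv_symm_apply_castAdd,
      finSumFinEquiv_symm_apply_natAdd, Sum.elim_inl, Sum.elim_inr]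

theorem tA3 (h1 : A2Stmt) (h2 : A3aStmt) (h3 : A3bStmt) (h4 : A3cStmt) (h5 : FaceCStmt)
    (h6 : CnStmt) : A3Stmt := by
  classical
  intro E _ _ _ L Z R hS hM hR3 hmax
  obtain ⟨F, hF, hLRF, hdir⟩ := h1 E L Z R hS hM hR3 hmax
  have hb : ∀ w, ∃ ε : Set E, Extr R w → Face F ε ∧ sdim ε = 2 ∧
      Line L Z {x | ∃ a ∈ ε, ∃ t : ℝ, 0 ≤ t ∧ x = a + t • w} := by
    intro w
    by_cases hw : Extr R w
    · obtain ⟨ε, hε⟩ := h3 E L Z R F hS hM hR3 hF hLRF hdir w hw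
      exact ⟨ε, fun _ => hε⟩
    · exact ⟨∅, fun h => absurd h hw⟩
  choose ε hε using hb
  have hdir0 : ∀ x ∈ Submodule.span ℝ R, x ∈ Submodule.span ℝ F → x = 0 := by
    intro x hx hx'
    have h : x ∈ Submodule.span ℝ R ⊓ Submodule.span ℝ F := ⟨hx, hx'⟩
    rw [hdir] at h
    exact (Submodule.mem_bot ℝ).1 h
  have hkey : ∀ g w (A : Set E), Extr F g → Extr R w → g ∉ ε w → Face R A →
      Line L Z {x | ∃ a ∈ A, ∃ t : ℝ, 0 ≤ t ∧ x = a + t • g} → w ∈ A := by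
    intro g w A hg hw hgw hA hl
    obtain ⟨e1, -, e3⟩ := hε w hw
    obtain ⟨z, ⟨a', ha', s, hs, hz⟩, ⟨a, ha, t, ht, hz'⟩, hz0⟩ :=
      hS.meet _ _ e3.1 hl.1 e3.2.1 hl.2.1
    have he : s • w - a = t • g - a' := by
      rw [sub_eq_sub_iff_add_eq_add, add_comm (s • w) a', ← hz, hz', add_comm]
    have m1 : s • w - a ∈ Submodule.span ℝ R := Submodule.sub_mem _
      (Submodule.smul_mem _ _ (Submodule.subset_span hw.1)) (Submodule.subset_span (hA.sub ha))
    have m2 : s • w - a ∈ Submodule.span ℝ F := by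
      rw [he]
      exact Submodule.sub_mem _ (Submodule.smul_mem _ _ (Submodule.subset_span hg.1))
        (Submodule.subset_span (e1.sub ha'))
    have h7 : s • w = a := sub_eq_zero.1 (hdir0 _ m1 m2)
    have h8 : t • g = a' := by
      rw [← sub_eq_zero, ← he]
      exact hdir0 _ m1 m2
    have ht0 : t = 0 := by
      by_contra ht0
      apply hgw
      have h9 := e1.cone.smul t⁻¹ (inv_nonneg.2 ht) a' ha'
      rwa [← h8, smul_smul, inv_mul_cancel₀ ht0, one_smul] at h9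
    have hs0 : s ≠ 0 := by
      rintro rfl
      apply hz0
      rw [hz', ht0, ← h7, zero_smul, zero_smul, add_zero]
    have h9 := hA.cone.smul s⁻¹ (inv_nonneg.2 hs) a ha
    rwa [← h7, smul_smul, inv_mul_cancel₀ hs0, one_smul] at h9
  obtain ⟨⟨w, hw, hRw⟩, g, hg, hFg⟩ := h4 E R F (h5 E L R hS.cpc hM.1) (h5 E L F hS.cpc hF.1)
    hR3 hF.2.2 ε (fun w hw => ⟨(hε w hw).1, (hε w hw).2.1⟩) (by
      intro g hg
      obtain ⟨A₁, A₂, hne, hA1, hA2, d1, d2, l1, l2⟩ :=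
        h2 E L Z R F hS hM hR3 hF hLRF hdir g hg
      exact ⟨A₁, A₂, hne, hA1, hA2, d1, d2, fun w hw hgw =>
        ⟨hkey g w A₁ hg hw hgw hA1 l1, hkey g w A₂ hg hw hgw hA2 l2⟩⟩)
  rw [hRw, hFg] at hdir
  rw [hRw, hFg] at hLRF
  exact A3_join hw hg hdir hLRF

end D1

end TightRP
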