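import Pool.Agent.Lib.MP_7cdc3e_gt.C.D1.JoinH

/-!
# D1/A3a: lines in direct sums
-/

set_option autoImplicit false

namespace TightRP

namespace D1

open JoinH

/-- the ray of `g` -/
def A3aRay {E : Type} [AddCommGroup E] [Module ℝ E] (g : E) : Set E := {x | ∃ t : ℝ, 0 ≤ t ∧ x = t • g}

theorem A3a_ray {E : Type} [NormedAddCommGroup E] [NormedSpace ℝ E] {F : Set E} (hcone : IsCone F)
    (hpt : ∀ x ∈ F, -x ∈ F → x = 0) {g : E} (hg : Extr F g) :
    Face F (A3aRay g) ∧ sdim (A3aRay g) = 1 := by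
  refine ⟨⟨⟨⟨0, le_rfl, (zero_smul _ _).symm⟩, ?_, ?_⟩, ?_, ?_⟩, ?_⟩
  · rintro _ ⟨s, hs, rfl⟩ _ ⟨t, ht, rfl⟩
    exact ⟨s + t, add_nonneg hs ht, (add_smul _ _ _).symm⟩
  · rintro c hc _ ⟨t, ht, rfl⟩
    exact ⟨c * t, mul_nonneg hc ht, (mul_smul _ _ _).symm⟩
  · rintro _ ⟨t, ht, rfl⟩
    exact hcone.smul t ht _ hg.1
  · rintro x hx y hy ⟨t, ht, hxy⟩
    rcases ht.eq_or_lt with rfl | ht'
    · rw [zero_smul] at hxy
      have h1 : -x = y := by
        rw [neg_eq_iff_add_eq_zero]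
        exact hxy
      have h2 : x = 0 := hpt x hx (by rw [h1]; exact hy)
      exact ⟨0, le_rfl, by rw [h2, zero_smul]⟩
    · obtain ⟨s, hs⟩ := hg.2.2 (t⁻¹ • x) (hcone.smul _ (inv_nonneg.mpr ht) _ hx) (t⁻¹ • y)
        (hcone.smul _ (inv_nonneg.mpr ht) _ hy) (by
          rw [← smul_add, hxy, smul_smul, inv_mul_cancel₀ ht'.ne', one_smul])
      have h1 : x = (t * s) • g := by
        rw [mul_smul, ← hs, smul_smul, mul_inv_cancel₀ ht'.ne', one_smul]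
      rcases lt_or_ge (t * s) 0 with h2 | h2
      · have h3 : -g ∈ F := by
          apply cone_of_smul hcone (a := -(t * s)) (by linarith)
          rw [smul_neg, neg_smul, neg_neg, ← h1]
          exact hx
        exact absurd (hpt g hg.1 h3) hg.2.1
      · exact ⟨t * s, h2, h1⟩
  · have h1 : Submodule.span ℝ (A3aRay g) = Submodule.span ℝ {g} := by
      apply le_antisymm
      · rw [Submodule.span_le]
        rintro _ ⟨t, _, rfl⟩
        exact Submodule.smul_mem _ _ (Submodule.mem_span_singleton_self g)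
      · rw [Submodule.span_singleton_le_iff_mem]
        exact Submodule.subset_span ⟨1, zero_le_one, (one_smul _ _).symm⟩
    rw [sdim, h1]
    exact finrank_span_singleton hg.2.1

theorem A3a_self {E : Type} [AddCommGroup E] [Module ℝ E] {R : Set E} (hR : IsCone R) :
    Face R R :=
  ⟨hR, Set.Subset.refl _, fun _ hx _ _ _ => hx⟩

/-- elements of both spans -/
theorem A3a_zero {E : Type} [AddCommGroup E] [Module ℝ E] {R F : Set E}
    (hd : Submodule.span ℝ R ⊓ Submodule.span ℝ F = ⊥) {x : E}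
    (h1 : x ∈ Submodule.span ℝ R) (h2 : x ∈ Submodule.span ℝ F) : x = 0 := by
  have h3 : x ∈ Submodule.span ℝ R ⊓ Submodule.span ℝ F := ⟨h1, h2⟩
  rw [hd] at h3
  exact h3

theorem tA3a (h1 : DirStmt) (_h2 : FaceStmt) : A3aStmt := by
  intro E _ _ _ L Z R F hS hM hR3 hF hL hd g hg
  have hR : Face L R := hM.1
  have hcone := hS.cpc.cone
  have hpt := hS.cpc.pointed
  obtain ⟨hdir1, hdir2⟩ := h1 E L R F hR.cone hF.1.cone hL hd
  obtain ⟨hray, hray1⟩ := A3a_ray hF.1.cone (fun x hx hx' => hpt x (hF.1.sub hx) (hF.1.sub hx')) hg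
  obtain ⟨hH, hH4⟩ := hdir1 R (A3aRay g) (A3a_self hR.cone) hray
  rw [hR3, hray1] at hH4
  have hRH : R ⊆ {x : E | ∃ a ∈ R, ∃ b ∈ A3aRay g, x = a + b} := fun r hr =>
    ⟨r, hr, 0, hray.cone.zero, (add_zero r).symm⟩
  have hHZ : ¬ {x : E | ∃ a ∈ R, ∃ b ∈ A3aRay g, x = a + b} ⊆ Z := by
    intro hcon
    have h3 := hM.2.2.2 _ hH hRH hcon
    rw [h3, hR3] at hH4
    omega
  obtain ⟨G₁, G₂, hne, hs₁, hs₂, hG₁, hG₂⟩ := hS.two _ hH hHZ hH4
  have key : ∀ G, G ⊆ {x : E | ∃ a ∈ R, ∃ b ∈ A3aRay g, x = a + b} → Line L Z G →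
      Face R (G ∩ R) ∧ sdim (G ∩ R) = 2 ∧ G = {x | ∃ a ∈ G ∩ R, ∃ t : ℝ, 0 ≤ t ∧ x = a + t • g} := by
    intro G hs hG
    have hray' : ∀ x, x ∈ G → x ∈ F → x ∈ A3aRay g := by
      intro x hxG hxF
      obtain ⟨a, ha, b, hb, rfl⟩ := hs hxG
      have h3 : a = 0 := by
        apply A3a_zero hd (Submodule.subset_span ha)
        have h4 : a = (a + b) - b := by abel
        rw [h4]
        exact Submodule.sub_mem _ (Submodule.subset_span hxF)
          (Submodule.subset_span (hray.sub hb))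
      rw [h3, zero_add]
      exact hb
    obtain ⟨x, hxG, hxF, hx0⟩ := hS.meet G F hG.1 hF.1 hG.2.1 hF.2.1
    have hgG : g ∈ G := by
      obtain ⟨t, ht, rfl⟩ := hray' x hxG hxF
      rcases ht.eq_or_lt with rfl | ht'
      · exact absurd (zero_smul _ _) hx0
      · exact cone_of_smul hG.1.cone ht' hxG
    obtain ⟨h3, -, h5, h6⟩ := hdir2 G hG.1
    have h7 : G ∩ F = A3aRay g := by
      apply Set.Subset.antisymm
      · intro x hx
        exact hray' x hx.1 hx.2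
      · rintro _ ⟨t, ht, rfl⟩
        exact ⟨hG.1.cone.smul t ht _ hgG, hF.1.cone.smul t ht _ hg.1⟩
    rw [h7, hray1, hG.2.2] at h6
    refine ⟨h3, by omega, ?_⟩
    ext x
    rw [h5 x, h7]
    constructor
    · rintro ⟨a, ha, _, ⟨t, ht, rfl⟩, rfl⟩
      exact ⟨a, ha, t, ht, rfl⟩
    · rintro ⟨a, ha, t, ht, rfl⟩
      exact ⟨a, ha, _, ⟨t, ht, rfl⟩, rfl⟩
  obtain ⟨h3, h4, h5⟩ := key G₁ hs₁ hG₁
  obtain ⟨h6, h7, h8⟩ := key G₂ hs₂ hG₂
  refine ⟨G₁ ∩ R, G₂ ∩ R, ?_, h3, h6, h4, h7, h5 ▸ hG₁, h8 ▸ hG₂⟩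
  intro h9
  apply hne
  rw [h5, h8, h9]

theorem tA3b (h1 : DirStmt) (h2 : FaceStmt) : A3bStmt := by
  intro E _ _ _ L Z R F hS hM hR3 hF hL hd w hw
  have hR : Face L R := hM.1
  have hcone := hS.cpc.cone
  have hpt := hS.cpc.pointed
  obtain ⟨hdir1, hdir2⟩ := h1 E L R F hR.cone hF.1.cone hL hd
  obtain ⟨hray, hray1⟩ := A3a_ray hR.cone (fun x hx hx' => hpt x (hR.sub hx) (hR.sub hx')) hw
  obtain ⟨hH, hH4⟩ := hdir1 (A3aRay w) F hray (A3a_self hF.1.cone)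
  rw [hF.2.2, hray1] at hH4
  have hHZ : ¬ {x : E | ∃ a ∈ A3aRay w, ∃ b ∈ F, x = a + b} ⊆ Z := by
    intro hcon
    apply hF.2.1
    intro x hx
    exact hcon ⟨0, hray.cone.zero, x, hx, (zero_add x).symm⟩
  obtain ⟨G₁, G₂, hne, hs₁, hs₂, hG₁, hG₂⟩ := hS.two _ hH hHZ hH4
  obtain ⟨G, hGF, hs, hG⟩ : ∃ G, G ≠ F ∧ G ⊆ {x : E | ∃ a ∈ A3aRay w, ∃ b ∈ F, x = a + b} ∧
      Line L Z G := by
    by_cases h3 : G₁ = F
    · refine ⟨G₂, ?_, hs₂, hG₂⟩
      rw [← h3]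
      exact hne.symm
    · exact ⟨G₁, h3, hs₁, hG₁⟩
  obtain ⟨h3, h4, h5, h6⟩ := hdir2 G hG.1
  have hGFf : Face L (G ∩ F) := (h2 E L G hG.1).2.2.2.1 F hF.1
  have h7 : sdim (G ∩ F) ≤ 2 := by
    by_contra hcon
    push Not at hcon
    have h8 := (h2 E L _ hGFf).2.1 G hG.1 Set.inter_subset_left (by rw [hG.2.2]; omega)
    have h9 := (h2 E L _ hGFf).2.1 F hF.1 Set.inter_subset_right (by rw [hF.2.2]; omega)
    exact hGF (h8.symm.trans h9)
  have hray' : G ∩ R ⊆ A3aRay w := by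
    rintro x ⟨hxG, hxR⟩
    obtain ⟨a, ha, b, hb, rfl⟩ := hs hxG
    have h8 : b = 0 := by
      apply A3a_zero hd _ (Submodule.subset_span hb)
      have h9 : b = (a + b) - a := by abel
      rw [h9]
      exact Submodule.sub_mem _ (Submodule.subset_span hxR)
        (Submodule.subset_span (hray.sub ha))
    rw [h8, add_zero]
    exact ha
  have h8 : sdim (G ∩ R) ≤ 1 := by
    rw [← hray1]
    exact Submodule.finrank_mono (Submodule.span_mono hray')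
  rw [hG.2.2] at h6
  have h9 : sdim (G ∩ R) = 1 := by omega
  have h10 : sdim (G ∩ F) = 2 := by omega
  have hwG : w ∈ G := by
    by_contra hcon
    have h11 : G ∩ R ⊆ {0} := by
      intro x hx
      obtain ⟨t, ht, rfl⟩ := hray' hx
      rcases ht.eq_or_lt with rfl | ht'
      · exact zero_smul _ _
      · exact absurd (cone_of_smul hG.1.cone ht' hx.1) hcon
    have h12 : sdim (G ∩ R) ≤ sdim ({0} : Set E) :=
      Submodule.finrank_mono (Submodule.span_mono h11)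
    have h13 : sdim ({0} : Set E) = 0 := by
      rw [sdim, Submodule.span_zero_singleton]
      exact finrank_bot ℝ E
    omega
  have h11 : G ∩ R = A3aRay w := by
    apply Set.Subset.antisymm hray'
    rintro _ ⟨t, ht, rfl⟩
    exact ⟨hG.1.cone.smul t ht _ hwG, hR.cone.smul t ht _ hw.1⟩
  refine ⟨G ∩ F, h4, h10, ?_⟩
  have h12 : G = {x | ∃ a ∈ G ∩ F, ∃ t : ℝ, 0 ≤ t ∧ x = a + t • w} := by
    ext x
    rw [h5 x, h11]
    constructor
    · rintro ⟨_, ⟨t, ht, rfl⟩, b, hb, rfl⟩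
      exact ⟨b, hb, t, ht, add_comm _ _⟩
    · rintro ⟨b, hb, t, ht, rfl⟩
      exact ⟨_, ⟨t, ht, rfl⟩, b, hb, add_comm _ _⟩
  exact h12 ▸ hG

end D1

end TightRP
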