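import Pool.Agent.Lib.MP_7cdc3e_gt.C.D1.Spec

/-!
# MP_7cdc3e_gt, full question, section T5 (= D1), module A3c: counting with two three dimensional cones
-/

set_option autoImplicit false

namespace TightRP

namespace D1

namespace A3cx

theorem NP_symm {E : Type} [AddCommGroup E] [Module ℝ E] {x y : E} (h : NP x y) : NP y x := by
  unfold NP at h ⊢
  rw [LinearIndependent.pair_iff] at h ⊢
  intro s t hst
  have h1 := h t s (by rw [add_comm]; exact hst)
  exact ⟨h1.2, h1.1⟩

/-- proportional vectors of a pointed cone -/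
theorem prop_of_not_NP {E : Type} [NormedAddCommGroup E] [NormedSpace ℝ E] {L : Set E} (hL : CPC L)
    {x y : E} (hx : x ∈ L) (hy : y ∈ L) (hx0 : x ≠ 0) (hy0 : y ≠ 0) (h : ¬ NP x y) :
    ∃ t : ℝ, 0 < t ∧ y = t • x := by
  unfold NP at h
  rw [LinearIndependent.pair_iff' hx0] at h
  push Not at h
  obtain ⟨a, ha⟩ := h
  have ha0 : a ≠ 0 := by
    rintro rfl
    rw [zero_smul] at ha
    exact hy0 ha.symm
  rcases lt_or_gt_of_ne ha0 with h1 | h1
  · exfalso
    apply hx0
    apply hL.pointed x hx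
    have h2 : -x = (-a⁻¹) • y := by
      rw [← ha, smul_smul, neg_mul, inv_mul_cancel₀ ha0, neg_smul, one_smul]
    rw [h2]
    refine hL.cone.smul _ ?_ y hy
    have : a⁻¹ < 0 := inv_lt_zero.mpr h1
    linarith
  · exact ⟨a, h1, ha.symm⟩

/-- linearly independent vectors in `B` -/
theorem le_sdim {E : Type} [NormedAddCommGroup E] [NormedSpace ℝ E] [FiniteDimensional ℝ E]
    {B : Set E} {n : ℕ} {v : Fin n → E} (hv : LinearIndependent ℝ v) (h : ∀ i, v i ∈ B) :
    n ≤ sdim B := by
  have h1 : LinearIndependent ℝ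
      (fun i => (⟨v i, Submodule.subset_span (h i)⟩ : Submodule.span ℝ B)) :=
    LinearIndependent.of_comp (Submodule.span ℝ B).subtype hv
  have h2 := h1.fintype_card_le_finrank
  rw [Fintype.card_fin] at h2
  exact h2

/-- a three dimensional cone without four pairwise not proportional extreme vectors -/
theorem gen4 (h1 : BasStmt) (h4 : GenStmt) {E : Type} [NormedAddCommGroup E] [NormedSpace ℝ E]
    [FiniteDimensional ℝ E] {L : Set E} (hL : CPC L) (hd : sdim L = 3)
    (h : ∀ a : Fin 4 → E, (∀ i, Extr L (a i)) → (∀ i j, i ≠ j → NP (a i) (a j)) → False) :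
    ∃ v : Fin 3 → E, LinearIndependent ℝ v ∧ L = cn v := by
  have hb := h1 E L hL
  rw [hd] at hb
  obtain ⟨v, hv, hvE⟩ := hb
  have hNP : ∀ i j : Fin 3, i ≠ j → NP (v i) (v j) := by
    intro i j hij
    have h2 : LinearIndependent ℝ (v ∘ ![i, j]) := by
      apply hv.comp
      intro k l hkl
      fin_cases k <;> fin_cases l
      · rfl
      · exact (hij hkl).elim
      · exact (hij hkl.symm).elim
      · rfl
    have h3 : v ∘ ![i, j] = ![v i, v j] := by
      funext k
      fin_cases k <;> rfl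
    rw [h3] at h2
    exact h2
  refine ⟨v, hv, h4 E L hL 3 v hv (fun i => (hvE i).1) fun b hb => ?_⟩
  by_contra hcon
  push Not at hcon
  have hb' : ∀ i, NP (v i) b := by
    intro i
    by_contra hnp
    obtain ⟨t, ht, hbt⟩ := prop_of_not_NP hL (hvE i).1 hb.1 (hvE i).2.1 hb.2.1 hnp
    exact hcon i t ht hbt
  apply h (Fin.snoc (α := fun _ => E) v b)
  · intro i
    rcases Fin.eq_castSucc_or_eq_last i with ⟨i', rfl⟩ | rfl
    · rw [Fin.snoc_castSucc]
      exact hvE i'
    · rw [Fin.snoc_last]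
      exact hb
  · intro i j hij
    rcases Fin.eq_castSucc_or_eq_last i with ⟨i', rfl⟩ | rfl
    · rcases Fin.eq_castSucc_or_eq_last j with ⟨j', rfl⟩ | rfl
      · rw [Fin.snoc_castSucc, Fin.snoc_castSucc]
        exact hNP i' j' fun h' => hij (by rw [h'])
      · rw [Fin.snoc_castSucc, Fin.snoc_last]
        exact hb' i'
    · rcases Fin.eq_castSucc_or_eq_last j with ⟨j', rfl⟩ | rfl
      · rw [Fin.snoc_castSucc, Fin.snoc_last]
        exact NP_symm (hb' j')
      · exact (hij rfl).elim

/-- the counting argument -/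
theorem count (m : Fin 4 → Fin 3 → Prop) (ha : ∀ k i j, i ≠ j → m k i → m k j → False)
    (hb : ∀ i k₁ k₂ k₃, k₁ ≠ k₂ → k₁ ≠ k₃ → k₂ ≠ k₃ → m k₁ i ∨ m k₂ i ∨ m k₃ i) : False := by
  have h1 : ∀ i : Fin 3, ∃ k k' : Fin 4, k ≠ k' ∧ m k i ∧ m k' i := by
    intro i
    rcases hb i 0 1 2 (by decide) (by decide) (by decide) with h | h | h
    · rcases hb i 1 2 3 (by decide) (by decide) (by decide) with h' | h' | h'
      · exact ⟨0, 1, by decide, h, h'⟩
      · exact ⟨0, 2, by decide, h, h'⟩
      · exact ⟨0, 3, by decide, h, h'⟩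
    · rcases hb i 0 2 3 (by decide) (by decide) (by decide) with h' | h' | h'
      · exact ⟨1, 0, by decide, h, h'⟩
      · exact ⟨1, 2, by decide, h, h'⟩
      · exact ⟨1, 3, by decide, h, h'⟩
    · rcases hb i 0 1 3 (by decide) (by decide) (by decide) with h' | h' | h'
      · exact ⟨2, 0, by decide, h, h'⟩
      · exact ⟨2, 1, by decide, h, h'⟩
      · exact ⟨2, 3, by decide, h, h'⟩
  choose k k' hk hm hm' using h1
  have h2 : Function.Injective (fun p : Fin 3 × Bool => if p.2 = true then k p.1 else k' p.1) := by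
    have key : ∀ p : Fin 3 × Bool, m (if p.2 = true then k p.1 else k' p.1) p.1 := by
      intro p
      split_ifs
      · exact hm p.1
      · exact hm' p.1
    rintro ⟨i, b⟩ ⟨j, c⟩ hpq
    have e1 := key ⟨i, b⟩
    have e2 := key ⟨j, c⟩
    change (if b = true then k i else k' i) = (if c = true then k j else k' j) at hpq
    change m (if b = true then k i else k' i) i at e1
    change m (if c = true then k j else k' j) j at e2
    rw [← hpq] at e2
    have hij : i = j := by
      by_contra hij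
      exact ha _ i j hij e1 e2
    subst hij
    cases b <;> cases c
    · rfl
    · exact (hk i (by simpa using hpq.symm)).elim
    · exact (hk i (by simpa using hpq)).elim
    · rfl
  have h3 := Fintype.card_le_of_injective _ h2
  simp at h3

end A3cx

open A3cx

theorem tA3c (h1 : BasStmt) (_h2 : TwoDStmt) (_h3 : CnStmt) (h4 : GenStmt) (h5 : DepStmt)
    (h6 : FaceStmt) (_h7 : FaceCStmt) : A3cStmt := by
  intro E _ _ _ R F hR hF dR dF ε hε hA
  -- (1)
  have s1 : ∀ g, Extr F g → ∀ w w', Extr R w → Extr R w' → g ∉ ε w → g ∉ ε w' → NP w w' →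
      False := by
    intro g hg w w' hw hw' hgw hgw' hnp
    obtain ⟨A₁, A₂, hne, f1, f2, d1, d2, hall⟩ := hA g hg
    obtain ⟨a1, a2⟩ := hall w hw hgw
    obtain ⟨b1, b2⟩ := hall w' hw' hgw'
    obtain ⟨_, _, _, q4, _, _⟩ := h6 E R A₁ f1
    have fB := q4 A₂ f2
    have hdB : 2 ≤ sdim (A₁ ∩ A₂) := by
      refine le_sdim (v := ![w, w']) hnp ?_
      intro i
      fin_cases i
      · exact ⟨a1, a2⟩
      · exact ⟨b1, b2⟩
    obtain ⟨_, q2, _, _, _, _⟩ := h6 E R (A₁ ∩ A₂) fB
    have e1 := q2 A₁ f1 Set.inter_subset_left (by rw [d1]; exact hdB)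
    have e2 := q2 A₂ f2 Set.inter_subset_right (by rw [d2]; exact hdB)
    exact hne (e1.symm.trans e2)
  -- (2a)
  have s2 : ∀ w, Extr R w → ∀ a b c, Extr F a → Extr F b → Extr F c → NP a b → NP a c → NP b c →
      a ∉ ε w ∨ b ∉ ε w ∨ c ∉ ε w := by
    intro w hw a b c ha hb hc hab hac hbc
    by_contra hcon
    push Not at hcon
    obtain ⟨ea, eb, ec⟩ := hcon
    have hli := h5 E F hF a b c ha hb hc hab hac hbc
    have h3 : 3 ≤ sdim (ε w) := by
      refine le_sdim hli ?_
      intro i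
      fin_cases i
      · exact ea
      · exact eb
      · exact ec
    have := (hε w hw).2
    omega
  -- three linearly independent extreme vectors of `R`
  obtain ⟨w, hw, hwE⟩ : ∃ w : Fin 3 → E, LinearIndependent ℝ w ∧ ∀ i, Extr R (w i) := by
    have hb := h1 E R hR
    rw [dR] at hb
    exact hb
  have hNPw : ∀ i j : Fin 3, i ≠ j → NP (w i) (w j) := by
    intro i j hij
    have h2 : LinearIndependent ℝ (w ∘ ![i, j]) := by
      apply hw.comp
      intro k l hkl
      fin_cases k <;> fin_cases l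
      · rfl
      · exact (hij hkl).elim
      · exact (hij hkl.symm).elim
      · rfl
    have h3 : w ∘ ![i, j] = ![w i, w j] := by
      funext k
      fin_cases k <;> rfl
    rw [h3] at h2
    exact h2
  have hF4 : ∀ a : Fin 4 → E, (∀ i, Extr F (a i)) → (∀ i j, i ≠ j → NP (a i) (a j)) → False := by
    intro a haE haN
    apply count (fun k i => a k ∉ ε (w i))
    · intro k i j hij hi hj
      exact s1 (a k) (haE k) (w i) (w j) (hwE i) (hwE j) hi hj (hNPw i j hij)
    · intro i k₁ k₂ k₃ h12 h13 h23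
      exact s2 (w i) (hwE i) (a k₁) (a k₂) (a k₃) (haE k₁) (haE k₂) (haE k₃) (haN k₁ k₂ h12)
        (haN k₁ k₃ h13) (haN k₂ k₃ h23)
  refine ⟨?_, gen4 h1 h4 hF dF hF4⟩
  -- three linearly independent extreme vectors of `F`
  obtain ⟨g, hg, hgE⟩ : ∃ g : Fin 3 → E, LinearIndependent ℝ g ∧ ∀ i, Extr F (g i) := by
    have hb := h1 E F hF
    rw [dF] at hb
    exact hb
  have hmiss : ∀ w, Extr R w → ∃ j : Fin 3, g j ∉ ε w := by
    intro w hw
    by_contra hcon
    push Not at hcon
    have h3 : 3 ≤ sdim (ε w) := le_sdim hg hcon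
    have := (hε w hw).2
    omega
  apply gen4 h1 h4 hR dR
  intro a haE haN
  have h8 : ∀ i, ∃ j : Fin 3, g j ∉ ε (a i) := fun i => hmiss (a i) (haE i)
  choose J hJ using h8
  obtain ⟨i, i', hii, hJJ⟩ := Fintype.exists_ne_map_eq_of_card_lt J (by simp)
  exact s1 (g (J i)) (hgE _) (a i) (a i') (haE i) (haE i') (hJ i) (by rw [hJJ]; exact hJ i')
    (haN i i' hii)

end D1

end TightRP
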