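import Pool.Agent.Lib.MP_7cdc3e_gt.C.D1.Spec

/-!
# D1/A4: the six vertex projective plane by double counting
-/

set_option autoImplicit false

namespace TightRP

namespace D1

/-- double counting -/
theorem A4_count (f : Finset (Fin 6) → ℕ) (hf : ∀ σ : Finset (Fin 6), σ.card = 3 →
    f σ + f σᶜ ≤ 1) (hτ : ∀ τ : Finset (Fin 6), τ.card = 4 →
      2 ≤ ∑ σ ∈ τ.powersetCard 3, f σ) :
    (∀ σ : Finset (Fin 6), σ.card = 3 → f σ + f σᶜ = 1) ∧
    ∀ τ : Finset (Fin 6), τ.card = 4 → ∑ σ ∈ τ.powersetCard 3, f σ = 2 := by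
  classical
  set U : Finset (Fin 6) := Finset.univ with hU
  have h3c : (U.powersetCard 3).card = 20 := by
    rw [Finset.card_powersetCard]
    rfl
  have h4c : (U.powersetCard 4).card = 15 := by
    rw [Finset.card_powersetCard]
    rfl
  have hmem : ∀ (n : ℕ) (σ : Finset (Fin 6)), σ ∈ U.powersetCard n ↔ σ.card = n := by
    intro n σ
    rw [Finset.mem_powersetCard]
    exact ⟨fun h => h.2, fun h => ⟨Finset.subset_univ _, h⟩⟩
  have hcount : ∀ σ : Finset (Fin 6), σ.card = 3 →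
      ((U.powersetCard 4).filter (fun τ => σ ⊆ τ)).card = 3 := by
    have h1 : ∀ σ ∈ (Finset.univ : Finset (Fin 6)).powersetCard 3,
        (((Finset.univ : Finset (Fin 6)).powersetCard 4).filter (fun τ => σ ⊆ τ)).card = 3 := by
      decide +kernel
    intro σ hσ
    exact h1 σ ((hmem 3 σ).mpr hσ)
  have hdc : ∑ τ ∈ U.powersetCard 4, ∑ σ ∈ τ.powersetCard 3, f σ =
      3 * ∑ σ ∈ U.powersetCard 3, f σ := by
    have h1 : ∀ τ ∈ U.powersetCard 4, ∑ σ ∈ τ.powersetCard 3, f σ =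
        ∑ σ ∈ U.powersetCard 3, if σ ⊆ τ then f σ else 0 := by
      intro τ _
      rw [← Finset.sum_filter]
      apply Finset.sum_congr _ (fun _ _ => rfl)
      ext σ
      rw [Finset.mem_powersetCard, Finset.mem_filter, hmem]
      tauto
    rw [Finset.sum_congr rfl h1, Finset.sum_comm, Finset.mul_sum]
    apply Finset.sum_congr rfl
    intro σ hσ
    rw [← Finset.sum_filter, Finset.sum_const, smul_eq_mul, hcount σ ((hmem 3 σ).mp hσ)]
  have hcompl : ∑ σ ∈ U.powersetCard 3, f σᶜ = ∑ σ ∈ U.powersetCard 3, f σ := by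
    refine Finset.sum_bij' (fun σ _ => σᶜ) (fun σ _ => σᶜ) ?_ ?_ ?_ ?_ ?_
    · intro σ hσ
      rw [hmem] at hσ ⊢
      rw [Finset.card_compl, hσ]
      rfl
    · intro σ hσ
      rw [hmem] at hσ ⊢
      rw [Finset.card_compl, hσ]
      rfl
    · intro σ _
      exact compl_compl σ
    · intro σ _
      exact compl_compl σ
    · intro σ _
      rfl
  have hle : ∑ σ ∈ U.powersetCard 3, (f σ + f σᶜ) ≤ ∑ σ ∈ U.powersetCard 3, 1 :=
    Finset.sum_le_sum fun σ hσ => hf σ ((hmem 3 σ).mp hσ)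
  have hge : ∑ τ ∈ U.powersetCard 4, 2 ≤ ∑ τ ∈ U.powersetCard 4, ∑ σ ∈ τ.powersetCard 3, f σ :=
    Finset.sum_le_sum fun τ hτ' => hτ τ ((hmem 4 τ).mp hτ')
  have hle' := hle
  have hge' := hge
  rw [Finset.sum_add_distrib, hcompl, Finset.sum_const, h3c, smul_eq_mul] at hle'
  rw [hdc, Finset.sum_const, h4c, smul_eq_mul] at hge'
  have hN : ∑ σ ∈ U.powersetCard 3, f σ = 10 := by omega
  constructor
  · have h5 : ∑ σ ∈ U.powersetCard 3, (f σ + f σᶜ) = ∑ σ ∈ U.powersetCard 3, 1 := by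
      rw [Finset.sum_add_distrib, hcompl, Finset.sum_const, h3c, smul_eq_mul, hN]
    have h6 := (Finset.sum_eq_sum_iff_of_le fun σ hσ => hf σ ((hmem 3 σ).mp hσ)).mp h5
    intro σ hσ
    exact h6 σ ((hmem 3 σ).mpr hσ)
  · have h5 : ∑ τ ∈ U.powersetCard 4, 2 = ∑ τ ∈ U.powersetCard 4, ∑ σ ∈ τ.powersetCard 3, f σ := by
      rw [hdc, hN, Finset.sum_const, h4c, smul_eq_mul]
    have h6 := (Finset.sum_eq_sum_iff_of_le fun τ hτ' => hτ τ ((hmem 4 τ).mp hτ')).mp h5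
    intro τ hτ'
    exact (h6 τ ((hmem 4 τ).mpr hτ')).symm

/-- faces with disjoint index sets -/
theorem A4_disj {E : Type} [AddCommGroup E] [Module ℝ E] {g : Fin 6 → E}
    (hg : LinearIndependent ℝ g) (σ : Finset (Fin 6)) {x : E} (h1 : x ∈ cnS g σ)
    (h2 : x ∈ cnS g σᶜ) : x = 0 := by
  obtain ⟨c, -, hc, rfl⟩ := h1
  obtain ⟨d, -, hd, hcd⟩ := h2
  have h3 : ∀ i, c i = d i := by
    intro i
    have h4 : ∑ i, (c i - d i) • g i = 0 := by
      simp only [sub_smul, Finset.sum_sub_distrib]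
      rw [hcd, sub_self]
    have h5 := Fintype.linearIndependent_iff.mp hg _ h4 i
    exact sub_eq_zero.mp h5
  apply Finset.sum_eq_zero
  intro i _
  have h4 : c i = 0 := by
    by_cases hi : i ∈ σ
    · rw [h3 i]
      apply hd
      rw [Finset.mem_compl]
      exact fun h => h hi
    · exact hc i hi
  rw [h4, zero_smul]

/-- monotonicity -/
theorem A4_mono {E : Type} [AddCommGroup E] [Module ℝ E] {g : Fin 6 → E}
    (hg : LinearIndependent ℝ g) {σ τ : Finset (Fin 6)} (h : cnS g σ ⊆ cnS g τ) : σ ⊆ τ := by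
  intro i hi
  by_contra hcon
  have h1 : g i ∈ cnS g σ := by
    refine ⟨fun j => if j = i then 1 else 0, ?_, ?_, ?_⟩
    · intro j
      dsimp only
      split_ifs
      · exact zero_le_one
      · exact le_rfl
    · intro j hj
      dsimp only
      rw [if_neg]
      rintro rfl
      exact hj hi
    · simp
  obtain ⟨c, -, hc, hgi⟩ := h h1
  have h2 : ∑ j, ((if j = i then (1 : ℝ) else 0) - c j) • g j = 0 := by
    simp only [sub_smul, Finset.sum_sub_distrib]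
    rw [← hgi]
    simp
  have h3 := Fintype.linearIndependent_iff.mp hg _ h2 i
  rw [if_pos rfl, hc i hcon, sub_zero] at h3
  exact one_ne_zero h3

theorem tA4 (h1 : CnStmt) (_h2 : FaceStmt) : A4Stmt := by
  classical
  intro E _ _ _ L Z hS hdim g hg hL
  obtain ⟨-, -, hface, hall, -⟩ := h1 E 6 g hg
  rw [← hL] at hface hall
  have hodd : ∀ σ : Finset (Fin 6), ¬ cnS g σ ⊆ Z → ¬ cnS g σᶜ ⊆ Z → False := by
    intro σ h3 h4
    obtain ⟨x, hx1, hx2, hx0⟩ := hS.meet _ _ (hface σ).1 (hface σᶜ).1 h3 h4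
    exact hx0 (A4_disj hg σ hx1 hx2)
  have hsmall : ∀ σ : Finset (Fin 6), σ.card ≤ 2 → cnS g σ ⊆ Z := by
    intro σ hσ
    by_contra hcon
    obtain ⟨G, hG, hline⟩ := hS.line _ (hface σ).1 hcon
    have h3 : sdim G ≤ sdim (cnS g σ) := Submodule.finrank_mono (Submodule.span_mono hG)
    rw [hline.2.2, (hface σ).2] at h3
    omega
  have hfour : ∀ τ : Finset (Fin 6), τ.card = 4 → ∃ σ₁ σ₂ : Finset (Fin 6), σ₁ ≠ σ₂ ∧ σ₁ ⊆ τ ∧
      σ₂ ⊆ τ ∧ σ₁.card = 3 ∧ σ₂.card = 3 ∧ ¬ cnS g σ₁ ⊆ Z ∧ ¬ cnS g σ₂ ⊆ Z := by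
    intro τ hτ
    have hτZ : ¬ cnS g τ ⊆ Z := by
      intro hcon
      have h3 := hdim _ (hface τ).1 hcon
      rw [(hface τ).2, hτ] at h3
      omega
    obtain ⟨G₁, G₂, hne, hs₁, hs₂, hG₁, hG₂⟩ := hS.two _ (hface τ).1 hτZ (by rw [(hface τ).2, hτ])
    obtain ⟨σ₁, rfl⟩ := hall G₁ hG₁.1
    obtain ⟨σ₂, rfl⟩ := hall G₂ hG₂.1
    refine ⟨σ₁, σ₂, ?_, A4_mono hg hs₁, A4_mono hg hs₂, ?_, ?_, hG₁.2.1, hG₂.2.1⟩
    · rintro rfl
      exact hne rfl
    · rw [← (hface σ₁).2]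
      exact hG₁.2.2
    · rw [← (hface σ₂).2]
      exact hG₂.2.2
  let f : Finset (Fin 6) → ℕ := fun σ => if cnS g σ ⊆ Z then 0 else 1
  have hf0 : ∀ σ, cnS g σ ⊆ Z → f σ = 0 := fun σ h => if_pos h
  have hf1 : ∀ σ, ¬ cnS g σ ⊆ Z → f σ = 1 := fun σ h => if_neg h
  have hf : ∀ σ : Finset (Fin 6), σ.card = 3 → f σ + f σᶜ ≤ 1 := by
    intro σ _
    by_cases h3 : cnS g σ ⊆ Z
    · by_cases h4 : cnS g σᶜ ⊆ Z
      · rw [hf0 _ h3, hf0 _ h4]
        omega
      · rw [hf0 _ h3, hf1 _ h4]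
    · by_cases h4 : cnS g σᶜ ⊆ Z
      · rw [hf1 _ h3, hf0 _ h4]
      · exact (hodd σ h3 h4).elim
  have hsub : ∀ (τ : Finset (Fin 6)) (s : Finset (Finset (Fin 6))),
      (∀ σ ∈ s, σ ⊆ τ ∧ σ.card = 3 ∧ ¬ cnS g σ ⊆ Z) → s.card ≤ ∑ σ ∈ τ.powersetCard 3, f σ := by
    intro τ s hs
    calc s.card = ∑ σ ∈ s, f σ := by
          rw [Finset.sum_congr rfl (fun σ hσ => hf1 σ (hs σ hσ).2.2), Finset.sum_const,
            smul_eq_mul, mul_one]
      _ ≤ ∑ σ ∈ τ.powersetCard 3, f σ := by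
          apply Finset.sum_le_sum_of_subset
          intro σ hσ
          rw [Finset.mem_powersetCard]
          exact ⟨(hs σ hσ).1, (hs σ hσ).2.1⟩
  obtain ⟨hc1, hc2⟩ := A4_count f hf (by
    intro τ hτ
    obtain ⟨σ₁, σ₂, hne, hs₁, hs₂, hc₁, hc₂, ho₁, ho₂⟩ := hfour τ hτ
    have h3 := hsub τ {σ₁, σ₂} (by
      intro σ hσ
      rw [Finset.mem_insert, Finset.mem_singleton] at hσ
      rcases hσ with rfl | rfl
      · exact ⟨hs₁, hc₁, ho₁⟩
      · exact ⟨hs₂, hc₂, ho₂⟩)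
    rwa [Finset.card_pair hne] at h3)
  refine ⟨?_, ?_, hsmall⟩
  · intro σ hσ
    have h3 := hc1 σ hσ
    constructor
    · intro h4 h5
      rw [hf0 _ h4, hf0 _ h5] at h3
      omega
    · intro h4
      by_contra h5
      exact hodd σ h5 h4
  · intro τ hτ
    obtain ⟨σ₁, σ₂, hne, hs₁, hs₂, hc₁, hc₂, ho₁, ho₂⟩ := hfour τ hτ
    refine ⟨σ₁, σ₂, hne, hs₁, hs₂, hc₁, hc₂, ?_⟩
    intro σ hσ hσ3
    constructor
    · intro ho
      by_contra hcon
      push Not at hcon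
      have h3 := hsub τ {σ, σ₁, σ₂} (by
        intro σ' hσ'
        rw [Finset.mem_insert, Finset.mem_insert, Finset.mem_singleton] at hσ'
        rcases hσ' with rfl | rfl | rfl
        · exact ⟨hσ, hσ3, ho⟩
        · exact ⟨hs₁, hc₁, ho₁⟩
        · exact ⟨hs₂, hc₂, ho₂⟩)
      rw [hc2 τ hτ, Finset.card_insert_of_notMem (by
        rw [Finset.mem_insert, Finset.mem_singleton, not_or]
        exact hcon), Finset.card_pair hne] at h3
      omega
    · rintro (rfl | rfl)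
      · exact ho₁
      · exact ho₂

end D1

end TightRP
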