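import Pool.Agent.Lib.MP_7cdc3e_gt.C.D1.Spec

/-!
# MP_7cdc3e_gt, D1, Agr: agreement, uniqueness and convexity of evaluations (helper43)
-/

namespace TightRP

namespace D1

theorem tAgr : AgrStmt := by
  intro E _ _ _ L Z R π hS hR hπ lam hlam c e F c' e' F' h h' hc x hx
  obtain ⟨l, hl, hll⟩ := hlam.1
  obtain ⟨b, hb, hbl⟩ := h.surj l hl
  obtain ⟨b', hb', hbl'⟩ := h'.surj l hl
  rw [hll] at hbl hbl'
  have hbL : b ∈ L := h.line.1.sub hb
  have hbL' : b' ∈ L := h'.line.1.sub hb'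
  have hbP : b ∈ Submodule.span ℝ (Phi L π lam) :=
    Submodule.subset_span ⟨hbL, 1, zero_le_one, by rw [hbl, one_smul]⟩
  have hbP' : b' ∈ Submodule.span ℝ (Phi L π lam) :=
    Submodule.subset_span ⟨hbL', 1, zero_le_one, by rw [hbl', one_smul]⟩
  have hv : π (b - b') = 0 := by rw [map_sub, hbl, hbl', sub_self]
  have e1 := h.ext _ hv
  have e2 := h'.ext _ hv
  have e3 := hc _ (Submodule.sub_mem _ hbP hbP') hv
  rw [map_sub, h.zero b hb] at e1
  rw [map_sub, h'.zero b' hb'] at e2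
  have e4 := h.nonneg b' hbL'
  have e5 := h'.nonneg b hbL
  have e6 : e' b = 0 := by linarith
  obtain ⟨t, ht⟩ : ∃ t : ℝ, π x = t • lam := by
    refine Submodule.span_induction (p := fun x _ => ∃ t : ℝ, π x = t • lam) ?_ ?_ ?_ ?_ hx
    · rintro y ⟨_, t, _, ht⟩
      exact ⟨t, ht⟩
    · exact ⟨0, by rw [map_zero, zero_smul]⟩
    · rintro y z _ _ ⟨s, hs⟩ ⟨t, ht⟩
      exact ⟨s + t, by rw [map_add, hs, ht, add_smul]⟩
    · rintro r y _ ⟨t, ht⟩
      exact ⟨r * t, by rw [map_smul, ht, smul_smul]⟩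
  have hw : π (x - t • b) = 0 := by rw [map_sub, map_smul, ht, hbl, sub_self]
  have f1 := h.ext _ hw
  have f2 := h'.ext _ hw
  have f3 := hc _ (Submodule.sub_mem _ hx (Submodule.smul_mem _ t hbP)) hw
  rw [map_sub, map_smul, h.zero b hb, smul_zero, sub_zero] at f1
  rw [map_sub, map_smul, e6, smul_zero, sub_zero] at f2
  rw [f1, f2, f3]

theorem tUni : UniStmt := by
  intro E _ _ _ L Z R π hS hR hπ c e F c' e' F' h h' κ hκ hc
  have h0 : ∀ l ∈ L, e' l - κ * e l = 0 := by
    intro l hl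
    obtain ⟨m, hm, hml⟩ := h.surj l hl
    obtain ⟨m', hm', hml'⟩ := h'.surj l hl
    have v1 : π (l - m) = 0 := by rw [map_sub, hml, sub_self]
    have v2 : π (l - m') = 0 := by rw [map_sub, hml', sub_self]
    have a1 := h.ext _ v1
    have a2 := h.ext _ v2
    have a3 := h'.ext _ v1
    have a4 := h'.ext _ v2
    have a5 := hc _ v1
    have a6 := hc _ v2
    have a7 := h.zero m hm
    have a8 := h'.zero m' hm'
    have a9 := h.nonneg m' (h'.line.1.sub hm')
    have a10 := h'.nonneg m (h.line.1.sub hm)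
    rw [map_sub] at a1 a2 a3 a4
    rw [a7, sub_zero] at a1
    rw [a8, sub_zero] at a4
    have b1 : κ * e l ≤ e' l := by
      rw [a1]
      linarith
    have b2 : e' l ≤ κ * e l := by
      have : c (l - m') ≤ e l := by linarith
      have := mul_le_mul_of_nonneg_left this hκ.le
      linarith
    linarith
  ext x
  have h1 : Submodule.span ℝ L ≤ LinearMap.ker (e' - κ • e) :=
    Submodule.span_le.2 fun y hy => by
      rw [SetLike.mem_coe, LinearMap.mem_ker]
      exact h0 y hy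
  have h2 : x ∈ Submodule.span ℝ L := by
    rw [hS.span]
    trivial
  have h3 := LinearMap.mem_ker.1 (h1 h2)
  rw [LinearMap.sub_apply, sub_eq_zero] at h3
  exact h3

theorem tConv : ConvStmt := by
  intro E _ _ _ L Z R π hS hR hπ c e F c' e' F' c'' e'' F'' h h' h'' s t hs ht hc l hl
  obtain ⟨m, hm, hml⟩ := h''.surj l hl
  have hmL := h''.line.1.sub hm
  have v1 : π (l - m) = 0 := by rw [map_sub, hml, sub_self]
  have a1 := h.ext _ v1
  have a2 := h'.ext _ v1
  have a3 := h''.ext _ v1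
  have a4 := hc _ v1
  have a5 := mul_nonneg hs (h.nonneg m hmL)
  have a6 := mul_nonneg ht (h'.nonneg m hmL)
  have a7 := h''.zero m hm
  rw [map_sub] at a1 a2 a3
  rw [a7, sub_zero] at a3
  rw [a3, a4, ← a1, ← a2]
  nlinarith

end D1

end TightRP
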