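import Pool.Agent.Lib.MP_7cdc3e_gt.C.D1.Spec

/-!
# MP_7cdc3e_gt, section D1: the statement `B1Stmt` (dimension of the faces over extreme rays, if `R` is
two dimensional)
-/

set_option autoImplicit false

namespace TightRP

namespace D1

/-- an affine function which is not negative for large arguments does not decrease -/
private theorem B1_aff {a m s₀ : ℝ} (h : ∀ s : ℝ, s₀ ≤ s → 0 ≤ a + s * m) : 0 ≤ m := by
  by_contra hm
  have hm' : 0 < -m := by linarith [not_le.1 hm]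
  have h1 := h (max s₀ ((|a| + 1) / (-m))) (le_max_left _ _)
  have h2 : (|a| + 1) / (-m) ≤ max s₀ ((|a| + 1) / (-m)) := le_max_right _ _
  rw [div_le_iff₀ hm'] at h2
  have h3 := le_abs_self a
  nlinarith

/-- a functional which is zero on a subspace and not zero at a point outside -/
private theorem B1_sep {E : Type} [AddCommGroup E] [Module ℝ E] (S : Submodule ℝ E) (x : E)
    (hx : x ∉ S) (t : ℝ) : ∃ μ : E →ₗ[ℝ] ℝ, μ x = t ∧ ∀ v ∈ S, μ v = 0 := by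
  obtain ⟨f, hf, hS⟩ := Submodule.exists_dual_map_eq_bot_of_notMem hx inferInstance
  refine ⟨(t * (f x)⁻¹) • f, ?_, fun v hv => ?_⟩
  · rw [LinearMap.smul_apply, smul_eq_mul, mul_assoc, inv_mul_cancel₀ hf, mul_one]
  · have h : f v ∈ S.map f := Submodule.mem_map_of_mem hv
    rw [hS] at h
    rw [LinearMap.smul_apply, (Submodule.mem_bot ℝ).1 h, smul_zero]

private theorem B1_cn {E : Type} [AddCommGroup E] [Module ℝ E] {p q x : E}
    (h : x ∈ cn ![p, q]) : ∃ α β : ℝ, 0 ≤ α ∧ 0 ≤ β ∧ x = α • p + β • q := by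
  obtain ⟨c, hc, hx⟩ := h
  refine ⟨c 0, c 1, hc 0, hc 1, ?_⟩
  rw [hx, Fin.sum_univ_two]
  rfl

/-- a face which contains a nonzero element of a cone with two generators contains a generator -/
private theorem B1_gen {E : Type} [AddCommGroup E] [Module ℝ E] {L G : Set E} {p q x : E}
    (hL : IsCone L) (hG : Face L G) (hp : p ∈ L) (hq : q ∈ L) (hx : x ∈ G) (hx0 : x ≠ 0)
    (hxc : x ∈ cn ![p, q]) : p ∈ G ∨ q ∈ G := by
  obtain ⟨α, β, hα, hβ, hxe⟩ := B1_cn hxc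
  rcases hα.lt_or_eq with h | h
  · left
    have h1 : α • p ∈ G := by
      refine hG.ext _ (hL.smul α hα p hp) _ (hL.smul β hβ q hq) ?_
      rw [← hxe]
      exact hx
    have h2 := hG.cone.smul α⁻¹ (inv_nonneg.2 hα) _ h1
    rwa [smul_smul, inv_mul_cancel₀ h.ne', one_smul] at h2
  · right
    rw [← h, zero_smul, zero_add] at hxe
    have hβ0 : β ≠ 0 := by
      rintro rfl
      rw [zero_smul] at hxe
      exact hx0 hxe
    rw [hxe] at hx
    have h2 := hG.cone.smul β⁻¹ (inv_nonneg.2 hβ) _ hx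
    rwa [smul_smul, inv_mul_cancel₀ hβ0, one_smul] at h2

theorem tB1 (h1 : EvStmt) (h2 : PhiStmt) (h3 : ValStmt) (h4 : TrStmt) (h5 : OneStmt)
    (h6 : TwoStmt) (h7 : TwoDStmt) (h8 : DepStmt) (h9 : FaceStmt) (h10 : FaceCStmt)
    (h11 : CnStmt) (h12 : PosStmt) : B1Stmt := by
  intro E _ _ _ L Z R π hS hM hπ hR2 lam hlam
  obtain ⟨hPF, hPZ, hRP, -, hge, hle, -⟩ := h2 E L Z R π hS hM hπ lam hlam
  by_contra hne
  have hP4 : sdim (Phi L π lam) = 4 := by omega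
  obtain ⟨F₁, F₂, hF12, hF1P, hF2P, hF1, hF2⟩ := hS.two _ hPF hPZ hP4
  have hcone : IsCone L := hS.cpc.cone
  have hRL : R ⊆ L := hM.1.sub
  obtain ⟨c, hcL⟩ := h12 E L hS.cpc
  have hc : PosOn R c := fun r hr => hcL r (hRL hr)
  obtain ⟨e, F, hE⟩ := h1 E L Z R π hS hM hπ c hc
  obtain ⟨l₀, hl₀, hl₀π⟩ := hlam.1
  obtain ⟨b, hbF, hbπ⟩ := hE.surj l₀ hl₀
  rw [hl₀π] at hbπ
  obtain ⟨c', e', F', hc', hE', hbF'⟩ : ∃ c' e' F', PosOn R c' ∧ Ev L Z π c' e' F' ∧ b ∉ F' := by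
    by_contra hno
    push Not at hno
    have h := (h5 E L Z R π hS hM hπ lam hlam b hbπ hno).2
    omega
  obtain ⟨b', hb'F', hb'π⟩ := hE'.surj l₀ hl₀
  rw [hl₀π] at hb'π
  have hbb' : b ≠ b' := fun h => hbF' (by rw [h]; exact hb'F')
  obtain ⟨-, hzero, hval⟩ := h6 E L Z R π hS hM hπ lam hlam F₁ F₂ hF1 hF2 hF1P hF2P hF12
    c e F c' e' F' hE hE' b hbF hbπ b' hb'F' hb'π hbb'
  have hvb := (h3 E L Z R π hS hM hπ lam hlam c e F hE b hbF hbπ).2
  have hvb' := (h3 E L Z R π hS hM hπ lam hlam c' e' F' hE' b' hb'F' hb'π).2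
  have hb1 : b ∈ F₁ := hvb F₁ hF1.1 hF1.2.1 hF1P
  have hb2 : b ∈ F₂ := hvb F₂ hF2.1 hF2.2.1 hF2P
  have hb'1 : b' ∈ F₁ := hvb' F₁ hF1.1 hF1.2.1 hF1P
  have hb'2 : b' ∈ F₂ := hvb' F₂ hF2.1 hF2.2.1 hF2P
  obtain ⟨p, q, hp, hq, -, hRpq⟩ := h7 E R (h10 E L R hS.cpc hM.1) hR2
  -- (i)
  have key : ∀ g₁ g₂, g₁ ∈ F₁ → g₂ ∈ F₂ → g₁ ∈ R → g₂ ∈ R → g₁ ≠ 0 → g₂ ≠ 0 →
      ∀ α β : ℝ, b - b' ≠ α • g₁ + β • g₂ := by
    intro g₁ g₂ hg1 hg2 hg1R hg2R hg10 hg20 α β he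
    have hβ : β = 0 := by
      by_contra hβ
      have hg : g₂ ∈ Submodule.span ℝ F₁ := by
        have h : g₂ = β⁻¹ • (b - b' - α • g₁) := by
          rw [he, add_sub_cancel_left, smul_smul, inv_mul_cancel₀ hβ, one_smul]
        rw [h]
        exact Submodule.smul_mem _ _ (Submodule.sub_mem _ (Submodule.sub_mem _
          (Submodule.subset_span hb1) (Submodule.subset_span hb'1))
          (Submodule.smul_mem _ _ (Submodule.subset_span hg1)))
      exact hg20 (hzero g₂ ((h9 E L F₁ hF1.1).1 g₂ (hRL hg2R) hg) hg2 hg2R)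
    rw [hβ, zero_smul, add_zero] at he
    have hα : α = 0 := by
      by_contra hα
      have hg : g₁ ∈ Submodule.span ℝ F₂ := by
        have h : g₁ = α⁻¹ • (b - b') := by
          rw [he, smul_smul, inv_mul_cancel₀ hα, one_smul]
        rw [h]
        exact Submodule.smul_mem _ _ (Submodule.sub_mem _
          (Submodule.subset_span hb2) (Submodule.subset_span hb'2))
      exact hg10 (hzero g₁ hg1 ((h9 E L F₂ hF2.1).1 g₁ (hRL hg1R) hg) hg1R)
    rw [hα, zero_smul, sub_eq_zero] at he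
    exact hbb' he
  have hc0 : b - b' ∉ Submodule.span ℝ R := by
    intro hmem
    have hsp : Submodule.span ℝ R ≤ Submodule.span ℝ {p, q} := by
      rw [Submodule.span_le]
      intro x hx
      rw [hRpq] at hx
      obtain ⟨α, β, -, -, hx⟩ := B1_cn hx
      exact Submodule.mem_span_pair.2 ⟨α, β, hx.symm⟩
    obtain ⟨α, β, hαβ⟩ := Submodule.mem_span_pair.1 (hsp hmem)
    obtain ⟨x₁, hx1F, hx1R, hx10⟩ :=
      (h4 E L Z R π hS hM hπ lam hlam F₁ hF1.1 hF1.2.1 hF1P).2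
    obtain ⟨x₂, hx2F, hx2R, hx20⟩ :=
      (h4 E L Z R π hS hM hπ lam hlam F₂ hF2.1 hF2.2.1 hF2P).2
    have g1 := B1_gen hcone hF1.1 (hRL hp.1) (hRL hq.1) hx1F hx10 (by rw [← hRpq]; exact hx1R)
    have g2 := B1_gen hcone hF2.1 (hRL hp.1) (hRL hq.1) hx2F hx20 (by rw [← hRpq]; exact hx2R)
    rcases g1 with g1 | g1 <;> rcases g2 with g2 | g2
    · exact hp.2.1 (hzero p g1 g2 hp.1)
    · exact key p q g1 g2 hp.1 hq.1 hp.2.1 hq.2.1 α β hαβ.symm
    · exact key q p g1 g2 hq.1 hp.1 hq.2.1 hp.2.1 β α (by rw [← hαβ, add_comm])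
    · exact hq.2.1 (hzero q g1 g2 hq.1)
  -- (ii)
  have hii : ∀ c'' e'' F'', Ev L Z π c'' e'' F'' → c'' (b - b') ≤ 0 → e'' b = 0 := by
    intro c'' e'' F'' hE'' hle0
    rcases hval c'' e'' F'' hE'' with h | h
    · exact hE''.zero b h
    · have h13 : e'' (b - b') = c'' (b - b') :=
        hE''.ext _ (by rw [map_sub, hbπ, hb'π, sub_self])
      rw [map_sub e'', hE''.zero b' h, sub_zero] at h13
      have h14 := hE''.nonneg b (hE.line.1.sub hbF)
      linarith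
  -- (iii)
  obtain ⟨μ, hμ, hμR⟩ := B1_sep _ (b - b') hc0 (-1)
  have hiii : ∀ l ∈ L, ∀ t : ℝ, 0 ≤ t → π l = t • lam → 0 ≤ μ (l - t • b) := by
    intro l hl t ht hlπ
    have hv : π (l - t • b) = 0 := by rw [map_sub, map_smul, hlπ, hbπ, sub_self]
    refine B1_aff (a := c (l - t • b)) (s₀ := c (b - b')) fun s hs => ?_
    have hcs : PosOn R (c + s • μ) := by
      intro r hr hr0
      rw [LinearMap.add_apply, LinearMap.smul_apply, hμR r (Submodule.subset_span hr), smul_zero,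
        add_zero]
      exact hc r hr hr0
    obtain ⟨es, Fs, hEs⟩ := h1 E L Z R π hS hM hπ _ hcs
    have hes : es b = 0 := by
      refine hii _ _ _ hEs ?_
      rw [LinearMap.add_apply, LinearMap.smul_apply, hμ, smul_eq_mul]
      linarith
    have h13 := hEs.nonneg l hl
    have h14 : es l = es (l - t • b) := by
      rw [map_sub, map_smul, hes, smul_zero, sub_zero]
    rw [h14, hEs.ext _ hv, LinearMap.add_apply, LinearMap.smul_apply, smul_eq_mul] at h13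
    exact h13
  -- (iv)
  have hlam0 : lam ∉ (⊥ : Submodule ℝ (Fin 3 → ℝ)) := fun h => hlam.2.1 ((Submodule.mem_bot ℝ).1 h)
  obtain ⟨θ, hθ, -⟩ := B1_sep ⊥ lam hlam0 1
  obtain ⟨ψ, hψ⟩ : ∃ ψ : E →ₗ[ℝ] ℝ, ∀ x, ψ x = μ x - θ (π x) * μ b := by
    refine ⟨μ - (μ b) • (θ ∘ₗ π), fun x => ?_⟩
    rw [LinearMap.sub_apply, LinearMap.smul_apply, LinearMap.comp_apply, smul_eq_mul, mul_comm]
  have hψn : ∀ x ∈ Phi L π lam, 0 ≤ ψ x := by
    rintro x ⟨hx, t, ht, hxt⟩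
    have h13 := hiii x hx t ht hxt
    rw [hψ, hxt, map_smul, hθ, smul_eq_mul, mul_one]
    rwa [map_sub, map_smul, smul_eq_mul] at h13
  have hΨ : Face L {x | x ∈ Phi L π lam ∧ ψ x = 0} := by
    refine ⟨⟨⟨hPF.cone.zero, map_zero ψ⟩, ?_, ?_⟩, fun x hx => hPF.sub hx.1, ?_⟩
    · rintro x ⟨hx, hx0⟩ y ⟨hy, hy0⟩
      exact ⟨hPF.cone.add x hx y hy, by rw [map_add, hx0, hy0, add_zero]⟩
    · rintro t ht x ⟨hx, hx0⟩
      exact ⟨hPF.cone.smul t ht x hx, by rw [map_smul, hx0, smul_zero]⟩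
    · rintro x hx y hy ⟨hxy, hxy0⟩
      have hxP := hPF.ext x hx y hy hxy
      have hyP := hPF.ext y hy x hx (by rw [add_comm]; exact hxy)
      refine ⟨hxP, ?_⟩
      have h13 := hψn x hxP
      have h14 := hψn y hyP
      rw [map_add] at hxy0
      linarith
  have hRΨ : R ⊆ {x | x ∈ Phi L π lam ∧ ψ x = 0} := by
    intro r hr
    refine ⟨hRP hr, ?_⟩
    rw [hψ, ((hπ.ker r).1 hr).2, map_zero, zero_mul, sub_zero]
    exact hμR r (Submodule.subset_span hr)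
  have hbP : b ∈ Phi L π lam := ⟨hE.line.1.sub hbF, 1, zero_le_one, by rw [one_smul]; exact hbπ⟩
  have hbΨ : b ∈ {x | x ∈ Phi L π lam ∧ ψ x = 0} := by
    refine ⟨hbP, ?_⟩
    rw [hψ, hbπ, hθ, one_mul, sub_self]
  have hΨZ : ¬ {x | x ∈ Phi L π lam ∧ ψ x = 0} ⊆ Z := by
    intro hsub
    have h13 := hM.2.2.2 _ hΨ hRΨ hsub
    have h14 : b ∈ R := by
      rw [← h13]
      exact hbΨ
    have h15 := ((hπ.ker b).1 h14).2
    rw [hbπ] at h15
    exact hlam.2.1 h15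
  have hb'Ψ := hvb' _ hΨ hΨZ fun x hx => hx.1
  have h13 : ψ b' = 0 := hb'Ψ.2
  rw [hψ, hb'π, hθ, one_mul] at h13
  rw [map_sub] at hμ
  linarith

end D1

end TightRP
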