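import Pool.Agent.Lib.MP_7cdc3e_gt.C.D1.Spec

/-!
# MP_7cdc3e_gt, section D1: the statement `B2Stmt` (there is no maximal face of dimension two)
-/

set_option autoImplicit false

namespace TightRP

namespace D1

/-- an affine function which is bounded below is constant -/
private theorem B2_aff {a m : ℝ} (h : ∀ s : ℝ, 0 ≤ a + s * m) : m = 0 := by
  by_contra hm
  have h1 := h (-(a + 1) / m)
  rw [div_mul_cancel₀ _ hm] at h1
  linarith

/-- a functional which is zero on a subspace and not zero at a point outside -/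
private theorem B2_sep {E : Type} [AddCommGroup E] [Module ℝ E] (S : Submodule ℝ E) (x : E)
    (hx : x ∉ S) : ∃ μ : E →ₗ[ℝ] ℝ, μ x ≠ 0 ∧ ∀ v ∈ S, μ v = 0 := by
  obtain ⟨f, hf, hS⟩ := Submodule.exists_dual_map_eq_bot_of_notMem hx inferInstance
  refine ⟨f, hf, fun v hv => ?_⟩
  have h : f v ∈ S.map f := Submodule.mem_map_of_mem hv
  rw [hS] at h
  exact (Submodule.mem_bot ℝ).1 h

theorem tB2 (h1 : B1Stmt) (h2 : EvStmt) (h3 : AgrStmt) (h4 : DelStmt) (h5 : BasStmt)
    (h6 : PosStmt) (h7 : PhiStmt) : B2Stmt := by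
  intro E _ _ _ L Z R hS hM hR2 hmax
  obtain ⟨π, hπ⟩ := hS.sec R hM (fun F hF hFZ => hR2.symm ▸ hmax F hF hFZ)
  obtain ⟨hΔ, hΔ3⟩ := h4 E L Z R π hS hM hπ
  have hbas := h5 (Fin 3 → ℝ) (π '' L) hΔ
  rw [hΔ3] at hbas
  obtain ⟨lam, hlin, hext⟩ := hbas
  have hl : ∀ i, ∃ l ∈ L, π l = lam i := fun i => (hext i).1
  choose l hlL hlπ using hl
  -- `R` is in the kernel
  have hRker : Submodule.span ℝ R ≤ LinearMap.ker π := by
    rw [Submodule.span_le]
    intro r hr
    exact ((hπ.ker r).1 hr).2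
  -- the span of `Phi` and the kernel
  have hPhi : ∀ i, ∀ v ∈ Submodule.span ℝ (Phi L π (lam i)), π v = 0 →
      v ∈ Submodule.span ℝ R := by
    intro i v hv hv0
    have hd : sdim (Phi L π (lam i)) = 3 := h1 E L Z R π hS hM hπ hR2 (lam i) (hext i)
    obtain ⟨-, -, hRP, -⟩ := h7 E L Z R π hS hM hπ (lam i) (hext i)
    have hle : Submodule.span ℝ R ≤ Submodule.span ℝ (Phi L π (lam i)) ⊓ LinearMap.ker π :=
      le_inf (Submodule.span_mono hRP) hRker
    have hlt : Submodule.span ℝ (Phi L π (lam i)) ⊓ LinearMap.ker π <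
        Submodule.span ℝ (Phi L π (lam i)) := by
      refine lt_of_le_of_ne inf_le_left fun he => ?_
      have hmem : l i ∈ Submodule.span ℝ (Phi L π (lam i)) :=
        Submodule.subset_span ⟨hlL i, 1, zero_le_one, by rw [one_smul]; exact hlπ i⟩
      rw [← he] at hmem
      have : π (l i) = 0 := hmem.2
      rw [hlπ i] at this
      exact (hext i).2.1 this
    have hfl := Submodule.finrank_lt_finrank_of_lt hlt
    have heq : Submodule.span ℝ R = Submodule.span ℝ (Phi L π (lam i)) ⊓ LinearMap.ker π := by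
      refine Submodule.eq_of_le_of_finrank_le hle ?_
      unfold sdim at hd hR2
      omega
    rw [heq]
    exact ⟨hv, hv0⟩
  -- a vector of the kernel outside of the span of `R`
  have hw : ∃ w, π w = 0 ∧ w ∉ Submodule.span ℝ R := by
    by_contra hno
    push Not at hno
    have hle : LinearMap.ker π ≤ Submodule.span ℝ R := fun w hw => hno w hw
    have h8 := Submodule.finrank_mono hle
    have h9 := LinearMap.finrank_range_add_finrank_ker π
    rw [LinearMap.range_eq_top.2 hπ.surj, finrank_top, hS.dim] at h9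
    simp only [Module.finrank_fintype_fun_eq_card, Fintype.card_fin] at h9
    unfold sdim at hR2
    omega
  obtain ⟨w, hw0, hwR⟩ := hw
  obtain ⟨μ, hμw, hμR⟩ := B2_sep _ w hwR
  obtain ⟨c, hc⟩ := h6 E L hS.cpc
  have hRL : R ⊆ L := hM.1.sub
  have hcs : ∀ s : ℝ, PosOn R (c + s • μ) := by
    intro s r hr hr0
    rw [LinearMap.add_apply, LinearMap.smul_apply, hμR r (Submodule.subset_span hr), smul_zero,
      add_zero]
    exact hc r (hRL hr) hr0
  have hev : ∀ s : ℝ, ∃ e F, Ev L Z π (c + s • μ) e F := fun s => h2 E L Z R π hS hM hπ _ (hcs s)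
  choose e F hE using hev
  have hagr : ∀ s i, e s (l i) = e 0 (l i) := by
    intro s i
    refine h3 E L Z R π hS hM hπ (lam i) (hext i) _ _ _ _ _ _ (hE s) (hE 0) ?_ (l i)
      (Submodule.subset_span ⟨hlL i, 1, zero_le_one, by rw [one_smul]; exact hlπ i⟩)
    intro v hv hv0
    have := hμR v (hPhi i v hv hv0)
    simp only [LinearMap.add_apply, LinearMap.smul_apply, this, smul_zero]
  -- coordinates
  obtain ⟨B, hB⟩ : ∃ B : Module.Basis (Fin 3) ℝ (Fin 3 → ℝ), ∀ i, B i = lam i := by
    refine ⟨basisOfLinearIndependentOfCardEqFinrank hlin (by simp), fun i => ?_⟩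
    rw [coe_basisOfLinearIndependentOfCardEqFinrank]
  obtain ⟨ν, hν⟩ : ∃ ν : E →ₗ[ℝ] ℝ, ∀ x, ν x = μ (x - ∑ i, B.coord i (π x) • l i) := by
    refine ⟨μ - ∑ i, μ (l i) • (B.coord i ∘ₗ π), fun x => ?_⟩
    rw [map_sub, map_sum, LinearMap.sub_apply, LinearMap.sum_apply]
    congr 1
    refine Finset.sum_congr rfl fun i _ => ?_
    rw [map_smul, LinearMap.smul_apply, LinearMap.comp_apply, smul_eq_mul, smul_eq_mul, mul_comm]
  have hνL : ∀ x ∈ L, ν x = 0 := by
    intro x hx
    rw [hν]
    have hv : π (x - ∑ i, B.coord i (π x) • l i) = 0 := by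
      rw [map_sub, map_sum, sub_eq_zero]
      conv_lhs => rw [← B.sum_repr (π x)]
      refine Finset.sum_congr rfl fun i _ => ?_
      rw [map_smul, hlπ, hB, Module.Basis.coord_apply]
    refine B2_aff (a := c (x - ∑ i, B.coord i (π x) • l i) +
      ∑ i, B.coord i (π x) * e 0 (l i)) fun s => ?_
    have h8 := (hE s).nonneg x hx
    have h9 : x = (x - ∑ i, B.coord i (π x) • l i) + ∑ i, B.coord i (π x) • l i := by abel
    have h10 : e s x = (c (x - ∑ i, B.coord i (π x) • l i) +
        s * μ (x - ∑ i, B.coord i (π x) • l i)) + ∑ i, B.coord i (π x) * e 0 (l i) := by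
      conv_lhs => rw [h9]
      rw [map_add, (hE s).ext _ hv, map_sum, LinearMap.add_apply, LinearMap.smul_apply,
        smul_eq_mul]
      congr 1
      refine Finset.sum_congr rfl fun i _ => ?_
      rw [map_smul, hagr, smul_eq_mul]
    linarith
  have hν0 : ∀ x, ν x = 0 := by
    intro x
    have hx : x ∈ Submodule.span ℝ L := by
      rw [hS.span]
      exact Submodule.mem_top
    have hle : Submodule.span ℝ L ≤ LinearMap.ker ν := by
      rw [Submodule.span_le]
      intro y hy
      exact hνL y hy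
    exact hle hx
  apply hμw
  have h8 := hν0 w
  rw [hν, hw0] at h8
  simpa using h8

end D1

end TightRP
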