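import Pool.Agent.Lib.MP_7cdc3e_gt.C.D1.AuxH4

/-! # C32, D1: Bas -/

namespace TightRP

namespace D1

open H4

theorem tBas (h1 : KMStmt) : BasStmt := by
  intro E _ _ _ L hL
  set S : Set E := {b | Extr L b} with hS
  have h2 : L ⊆ (Submodule.span ℝ S : Set E) :=
    h1 E L (Submodule.span ℝ S : Set E) hL ⟨Submodule.zero_mem _,
      fun x hx y hy => Submodule.add_mem _ hx hy, fun c _ x hx => Submodule.smul_mem _ c hx⟩
      (Submodule.closed_of_finiteDimensional _) (fun b hb => Submodule.subset_span hb)
  have h3 : Submodule.span ℝ L = Submodule.span ℝ S :=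
    le_antisymm (Submodule.span_le.2 h2) (Submodule.span_mono fun b hb => hb.1)
  obtain ⟨b, hbS, hbspan, hbli⟩ := exists_linearIndependent ℝ S
  haveI : Fintype b := (hbli.setFinite).fintype
  have hcard : Fintype.card b = sdim L := by
    unfold sdim
    rw [h3, ← hbspan]
    rw [finrank_span_set_eq_card hbli, Set.toFinset_card]
  let e := Fintype.equivFinOfCardEq hcard
  refine ⟨fun i => (e.symm i : E), ?_, fun i => hbS (e.symm i).2⟩
  exact hbli.comp e.symm e.symm.injective

end D1

end TightRP
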