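import Pool.Agent.Lib.MP_7cdc3e_gt.C.D1.Spec

/-!
# MP_7cdc3e_gt, D1, C0: case C, the faces over extreme rays have dimension three (helper43)
-/

namespace TightRP

namespace D1

theorem tC0 (h1 : PhiStmt) (h2 : EvStmt) (h3 : OneStmt) (h4 : TwoStmt) (h6 : FaceStmt)
    (h7 : PosStmt) : C0Stmt := by
  intro E _ _ _ L Z R π hS hR hπ hdim lam hlam
  obtain ⟨hPf, hPZ, _, _, hP3, hP4, _⟩ := h1 E L Z R π hS hR hπ lam hlam
  by_contra hne
  have hd : sdim (Phi L π lam) = 4 := by omega
  obtain ⟨G₁, G₂, hG, hG1, hG2, hL1, hL2⟩ := hS.two _ hPf hPZ hd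
  obtain ⟨c, hc⟩ := h7 E L hS.cpc
  have hcR : PosOn R c := fun r hr hr0 => hc r (hR.1.sub hr) hr0
  obtain ⟨e, F, hEv⟩ := h2 E L Z R π hS hR hπ c hcR
  obtain ⟨l, hl, hll⟩ := hlam.1
  obtain ⟨b, hb, hbl⟩ := hEv.surj l hl
  rw [hll] at hbl
  have hlam0 : lam ≠ 0 := hlam.2.1
  have hall : ∀ c e F, PosOn R c → Ev L Z π c e F → b ∈ F := by
    intro c' e' F' hc' hEv'
    obtain ⟨b', hb', hbl'⟩ := hEv'.surj l hl
    rw [hll] at hbl'
    by_contra hbF
    have hbb : b ≠ b' := fun h => hbF (h ▸ hb')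
    obtain ⟨hcn, _, _⟩ := h4 E L Z R π hS hR hπ lam hlam G₁ G₂ hL1 hL2 hG1 hG2 hG c e F c' e' F'
      hEv hEv' b hb hbl b' hb' hbl' hbb
    have hbm : b ∈ G₁ ∩ G₂ := by
      rw [hcn]
      exact ⟨![1, 0], by intro i; fin_cases i <;> simp, by simp [Fin.sum_univ_two]⟩
    have hbm' : b' ∈ G₁ ∩ G₂ := by
      rw [hcn]
      exact ⟨![0, 1], by intro i; fin_cases i <;> simp, by simp [Fin.sum_univ_two]⟩
    have hli : LinearIndependent ℝ ![b, b'] := by
      rw [LinearIndependent.pair_iff]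
      intro s t hst
      have e1 : (s + t) • lam = 0 := by
        have := congrArg π hst
        rw [map_add, map_smul, map_smul, hbl, hbl', map_zero] at this
        rw [add_smul]
        exact this
      have e2 : s + t = 0 := by
        rcases smul_eq_zero.1 e1 with h | h
        · exact h
        · exact absurd h hlam0
      have e3 : t = -s := by linarith
      rw [e3] at hst
      have e4 : s • (b - b') = 0 := by
        rw [← hst]
        module
      have e5 : s = 0 := by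
        rcases smul_eq_zero.1 e4 with h | h
        · exact h
        · exact absurd (sub_eq_zero.1 h) hbb
      exact ⟨e5, by rw [e3, e5, neg_zero]⟩
    have hf : Face L (G₁ ∩ G₂) := (h6 E L G₁ hL1.1).2.2.2.1 G₂ hL2.1
    have h2' : 2 ≤ sdim (G₁ ∩ G₂) := by
      have e1 := finrank_span_eq_card hli
      rw [Fintype.card_fin] at e1
      refine le_trans (le_of_eq e1.symm) ?_
      refine Submodule.finrank_mono (Submodule.span_le.2 ?_)
      rintro x ⟨i, rfl⟩
      fin_cases i
      · exact Submodule.subset_span hbm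
      · exact Submodule.subset_span hbm'
    by_cases hZ : G₁ ∩ G₂ ⊆ Z
    · have := hdim _ hf hZ
      omega
    · obtain ⟨G, hGG, hGl⟩ := hS.line _ hf hZ
      have e1 := (h6 E L G hGl.1).2.1 G₁ hL1.1 (fun x hx => (hGG hx).1)
        (by rw [hL1.2.2, hGl.2.2])
      have e2 := (h6 E L G hGl.1).2.1 G₂ hL2.1 (fun x hx => (hGG hx).2)
        (by rw [hL2.2.2, hGl.2.2])
      exact hG (e1.symm.trans e2)
  have h8 := (h3 E L Z R π hS hR hπ lam hlam b hbl hall).2
  have h9 := hdim R hR.1 hR.2.1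
  omega

end D1

end TightRP
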