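import Pool.Agent.Lib.MP_7cdc3e_gt.C.D1.Spec

/-!
# MP_7cdc3e_gt, D1, C1: construction of the data of case C (helper53)
-/

namespace TightRP

namespace D1

open Module

/-- a basis of a three dimensional space with a given first vector -/
theorem c1basis {K : Type} [AddCommGroup K] [Module ℝ K] [FiniteDimensional ℝ K]
    (h : finrank ℝ K = 3) (r : K) (hr : r ≠ 0) : ∃ b : Basis (Fin 3) ℝ K, b 0 = r := by
  obtain ⟨y, hy⟩ := exists_linearIndependent_pair_of_one_lt_finrank (R := ℝ)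
    (by rw [h]; norm_num : 1 < finrank ℝ K) hr
  obtain ⟨z, hz⟩ := exists_linearIndependent_snoc_of_lt_finrank (R := ℝ) hy
    (by rw [h]; norm_num : 2 < finrank ℝ K)
  refine ⟨basisOfLinearIndependentOfCardEqFinrank hz (by simp [h]), ?_⟩
  rw [coe_basisOfLinearIndependentOfCardEqFinrank]
  rfl

/-- the coordinates on the kernel -/
theorem c1coord {E : Type} [NormedAddCommGroup E] [NormedSpace ℝ E] [FiniteDimensional ℝ E]
    (hE : finrank ℝ E = 6) (π : E →ₗ[ℝ] (Fin 3 → ℝ)) (hπ : Function.Surjective π) (r : E)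
    (hr : r ≠ 0) (hπr : π r = 0) : ∃ (v₁ v₂ : E) (φ₀ φ₁ φ₂ : E →ₗ[ℝ] ℝ), π v₁ = 0 ∧ π v₂ = 0 ∧
      φ₀ r = 1 ∧ φ₁ r = 0 ∧ φ₂ r = 0 ∧ φ₀ v₁ = 0 ∧ φ₁ v₁ = 1 ∧ φ₂ v₁ = 0 ∧
      φ₀ v₂ = 0 ∧ φ₁ v₂ = 0 ∧ φ₂ v₂ = 1 ∧
      ∀ v, π v = 0 → v = φ₀ v • r + φ₁ v • v₁ + φ₂ v • v₂ := by
  have hK : finrank ℝ (LinearMap.ker π) = 3 := by
    have h1 := LinearMap.finrank_range_add_finrank_ker π
    rw [LinearMap.range_eq_top.2 hπ, finrank_top, hE, finrank_fin_fun] at h1
    omega
  have hr' : (⟨r, hπr⟩ : LinearMap.ker π) ≠ 0 := fun h => hr (congrArg Subtype.val h)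
  obtain ⟨b, hb⟩ := c1basis hK ⟨r, hπr⟩ hr'
  obtain ⟨g₀, hg₀⟩ := LinearMap.exists_extend (b.coord 0)
  obtain ⟨g₁, hg₁⟩ := LinearMap.exists_extend (b.coord 1)
  obtain ⟨g₂, hg₂⟩ := LinearMap.exists_extend (b.coord 2)
  have e0 : ∀ k : LinearMap.ker π, g₀ (k : E) = b.coord 0 k := fun k =>
    congrArg (fun f => f k) hg₀
  have e1 : ∀ k : LinearMap.ker π, g₁ (k : E) = b.coord 1 k := fun k =>
    congrArg (fun f => f k) hg₁
  have e2 : ∀ k : LinearMap.ker π, g₂ (k : E) = b.coord 2 k := fun k =>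
    congrArg (fun f => f k) hg₂
  have hrb : r = ((b 0 : LinearMap.ker π) : E) := by rw [hb]
  refine ⟨(b 1 : LinearMap.ker π), (b 2 : LinearMap.ker π), g₀, g₁, g₂, (b 1).2, (b 2).2,
    ?_, ?_, ?_, ?_, ?_, ?_, ?_, ?_, ?_, ?_⟩
  · rw [hrb, e0]; simp
  · rw [hrb, e1]; simp
  · rw [hrb, e2]; simp
  · rw [e0]; simp
  · rw [e1]; simp
  · rw [e2]; simp
  · rw [e0]; simp
  · rw [e1]; simp
  · rw [e2]; simp
  · intro v hv
    have h1 := b.sum_repr ⟨v, hv⟩
    rw [Fin.sum_univ_three] at h1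
    have h2 := congrArg (fun k : LinearMap.ker π => (k : E)) h1
    simp only [Submodule.coe_add, Submodule.coe_smul] at h2
    have f0 := e0 ⟨v, hv⟩
    have f1 := e1 ⟨v, hv⟩
    have f2 := e2 ⟨v, hv⟩
    simp only [Basis.coord_apply] at f0 f1 f2
    rw [f0, f1, f2, hrb]
    exact h2.symm

theorem c1 (hC0 : C0Stmt) (hEv : EvStmt) (hChar : CharStmt) (hAgr : AgrStmt) (hUni : UniStmt)
    (hConv : ConvStmt) (hDel : DelStmt) : C1Stmt := by
  intro E _ _ _ L Z R hSys hMax hF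
  have hL := hSys.cpc
  -- `R` is a ray
  obtain ⟨r, hrR, hr0⟩ : ∃ r ∈ R, r ≠ 0 := by
    by_contra hcon
    push Not at hcon
    apply hMax.2.2.1
    refine Set.Subset.antisymm (fun x hx => hcon x hx) ?_
    rintro x rfl
    exact hMax.1.cone.zero
  have hR1 : 1 ≤ sdim R := by
    have h1 : Submodule.span ℝ {r} ≤ Submodule.span ℝ R := Submodule.span_mono (by
      rintro y rfl
      exact hrR)
    have h2 := Submodule.finrank_mono h1
    rw [finrank_span_singleton hr0] at h2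
    exact h2
  obtain ⟨π, hSec⟩ := hSys.sec R hMax (fun F hF1 hF2 => (hF F hF1 hF2).trans hR1)
  have hRL : R ⊆ L := hMax.1.sub
  have hπr : π r = 0 := ((hSec.ker r).1 hrR).2
  have hray : ∀ x ∈ R, ∃ t : ℝ, 0 ≤ t ∧ x = t • r := by
    intro x hx
    have h1 : sdim R ≤ 1 := hF R hMax.1 hMax.2.1
    have h2 : Submodule.span ℝ {r} = Submodule.span ℝ R := by
      apply Submodule.eq_of_le_of_finrank_le (Submodule.span_mono (by
        rintro y rfl
        exact hrR))
      rw [finrank_span_singleton hr0]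
      exact h1
    have h3 : x ∈ Submodule.span ℝ {r} := by rw [h2]; exact Submodule.subset_span hx
    obtain ⟨t, rfl⟩ := Submodule.mem_span_singleton.1 h3
    by_cases ht : 0 ≤ t
    · exact ⟨t, ht, rfl⟩
    · exfalso
      push Not at ht
      have h4 : (-t) • r ∈ L := hL.cone.smul _ (by linarith) r (hRL hrR)
      have h5 := hL.pointed _ h4 (by rw [neg_smul, neg_neg]; exact hRL hx)
      rw [smul_eq_zero] at h5
      rcases h5 with h5 | h5
      · linarith
      · exact hr0 h5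
  obtain ⟨v₁, v₂, φ₀, φ₁, φ₂, hv₁, hv₂, h00, h10, h20, h01, h11, h21, h02, h12, h22, hrep⟩ :=
    c1coord hSys.dim π hSec.surj r hr0 hπr
  let c : ℝ × ℝ → (E →ₗ[ℝ] ℝ) := fun q => φ₀ + q.1 • φ₁ + q.2 • φ₂
  have hc : ∀ q v, c q v = φ₀ v + q.1 * φ₁ v + q.2 * φ₂ v := fun q v => rfl
  have hcpos : ∀ q, PosOn R (c q) := by
    intro q x hx hx0
    obtain ⟨t, ht, rfl⟩ := hray x hx
    have ht0 : t ≠ 0 := by
      rintro rfl
      exact hx0 (zero_smul _ _)
    rw [map_smul, hc, h00, h10, h20]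
    simp only [smul_eq_mul, mul_zero, add_zero, mul_one]
    exact lt_of_le_of_ne ht ht0.symm
  choose e F hE using fun q => hEv E L Z R π hSys hMax hSec (c q) (hcpos q)
  let T : E →ₗ[ℝ] (ℝ × ℝ → ℝ) := LinearMap.pi e
  have hT : ∀ l q, T l q = e q l := fun l q => rfl
  have hTk : ∀ v, π v = 0 → ∀ q, T v q = φ₀ v + q.1 * φ₁ v + q.2 * φ₂ v := by
    intro v hv q
    rw [hT, (hE q).ext v hv, hc]
  have haffs : ∀ α β γ : ℝ, ∃ v, π v = 0 ∧ ∀ q : ℝ × ℝ, T v q = α + β * q.1 + γ * q.2 := by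
    intro α β γ
    have hv : π (α • r + β • v₁ + γ • v₂) = 0 := by
      rw [map_add, map_add, map_smul, map_smul, map_smul, hπr, hv₁, hv₂]
      simp
    refine ⟨α • r + β • v₁ + γ • v₂, hv, fun q => ?_⟩
    rw [hTk _ hv q]
    simp only [map_add, map_smul, h00, h10, h20, h01, h11, h21, h02, h12, h22, smul_eq_mul]
    ring
  have hpos : ∀ l, l ∈ L ↔ π l ∈ π '' L ∧ ∀ q, 0 ≤ T l q := by
    intro l
    constructor
    · intro hl
      exact ⟨⟨l, hl, rfl⟩, fun q => (hE q).nonneg l hl⟩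
    · rintro ⟨hl, hq⟩
      refine hChar E L Z R π hSys hMax hSec l hl ?_
      intro c' e' F' hc' hE'
      have hκ : 0 < c' r := hc' r hrR hr0
      have h1 := hUni E L Z R π hSys hMax hSec _ _ _ c' e' F'
        (hE (c' v₁ / c' r, c' v₂ / c' r)) hE' (c' r) hκ (by
          intro v hv
          rw [hc]
          have h2 : c' v = φ₀ v * c' r + φ₁ v * c' v₁ + φ₂ v * c' v₂ := by
            have h3 := congrArg c' (hrep v hv)
            rw [map_add, map_add, map_smul, map_smul, map_smul] at h3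
            exact h3
          rw [h2]
          field_simp)
      rw [h1]
      exact mul_nonneg hκ.le (hq _)
  have hdel := hDel E L Z R π hSys hMax hSec
  refine ⟨π, T, ⟨hSys.dim, hSys.span, hSec.surj, ?_, haffs, hpos, hdel, ?_, ?_, ?_⟩⟩
  · intro v hv
    refine ⟨φ₀ v, φ₁ v, φ₂ v, fun q => ?_⟩
    rw [hTk v hv q]
    ring
  · -- no faces of dimension two
    intro D hD hD2
    have hE0 := hE 0
    have hline := hE0.line
    have hG : Face L {x | x ∈ F 0 ∧ π x ∈ D} := by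
      refine ⟨⟨⟨hline.1.cone.zero, by rw [map_zero]; exact hD.cone.zero⟩, ?_, ?_⟩, ?_, ?_⟩
      · rintro x ⟨hx, hx'⟩ y ⟨hy, hy'⟩
        exact ⟨hline.1.cone.add x hx y hy, by rw [map_add]; exact hD.cone.add _ hx' _ hy'⟩
      · rintro t ht x ⟨hx, hx'⟩
        exact ⟨hline.1.cone.smul t ht x hx, by rw [map_smul]; exact hD.cone.smul t ht _ hx'⟩
      · rintro x ⟨hx, _⟩
        exact hline.1.sub hx
      · rintro x hx y hy ⟨h1, h2⟩
        refine ⟨hline.1.ext x hx y hy h1, ?_⟩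
        rw [map_add] at h2
        exact hD.ext _ ⟨x, hx, rfl⟩ _ ⟨y, hy, rfl⟩ h2
    have himg : π '' {x | x ∈ F 0 ∧ π x ∈ D} = D := by
      ext d
      constructor
      · rintro ⟨x, ⟨_, hx⟩, rfl⟩
        exact hx
      · intro hd
        obtain ⟨l, hl, hld⟩ := hD.sub hd
        obtain ⟨m, hm, hml⟩ := hE0.surj l hl
        exact ⟨m, ⟨hm, by rw [hml, hld]; exact hd⟩, hml.trans hld⟩
    have hsd : sdim {x | x ∈ F 0 ∧ π x ∈ D} = 2 := by
      have h1 : finrank ℝ (Submodule.map π (Submodule.span ℝ {x | x ∈ F 0 ∧ π x ∈ D})) =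
          finrank ℝ (Submodule.span ℝ {x | x ∈ F 0 ∧ π x ∈ D}) := by
        rw [← LinearMap.range_domRestrict]
        apply LinearMap.finrank_range_of_inj
        rw [← LinearMap.ker_eq_bot, LinearMap.ker_eq_bot']
        rintro ⟨x, hx⟩ h
        have hx' : x ∈ Submodule.span ℝ (F 0) := Submodule.span_mono (fun y hy => hy.1) hx
        exact Subtype.ext (hE0.inj x hx' h)
      rw [Submodule.map_span, himg] at h1
      rw [← hD2]
      exact h1.symm
    have hnZ : ¬ {x | x ∈ F 0 ∧ π x ∈ D} ⊆ Z := by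
      intro h
      have := hF _ hG h
      omega
    obtain ⟨G', hG'sub, hG'⟩ := hSys.line _ hG hnZ
    have h1 : sdim G' ≤ sdim {x | x ∈ F 0 ∧ π x ∈ D} :=
      Submodule.finrank_mono (Submodule.span_mono hG'sub)
    have := hG'.2.2
    omega
  · -- directions
    intro lam hlam
    obtain ⟨l, hlL, hl⟩ := hlam.1
    have hlP : l ∈ Phi L π lam := ⟨hlL, 1, zero_le_one, by rw [hl, one_smul]⟩
    have hrP : r ∈ Phi L π lam := ⟨hRL hrR, 0, le_rfl, by rw [hπr, zero_smul]⟩
    have h3 := hC0 E L Z R π hSys hMax hSec hF lam hlam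
    have hP2 : finrank ℝ (Submodule.span ℝ (Phi L π lam) ⊓ LinearMap.ker π : Submodule ℝ E) ≤ 2 := by
      have h4 : Submodule.span ℝ (Phi L π lam) ⊓ LinearMap.ker π < Submodule.span ℝ (Phi L π lam) := by
        refine lt_of_le_of_ne inf_le_left ?_
        intro h
        have h5 : l ∈ Submodule.span ℝ (Phi L π lam) ⊓ LinearMap.ker π := by
          rw [h]
          exact Submodule.subset_span hlP
        have h6 : π l = 0 := h5.2
        exact hlam.2.1 (hl.symm.trans h6)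
      have h5 := Submodule.finrank_lt_finrank_of_lt h4
      have h6 : finrank ℝ (Submodule.span ℝ (Phi L π lam)) = 3 := h3
      omega
    have hrank : finrank ℝ (LinearMap.range ((φ₁.prod φ₂).domRestrict
        (Submodule.span ℝ (Phi L π lam) ⊓ LinearMap.ker π))) ≤ 1 := by
      have h4 := LinearMap.finrank_range_add_finrank_ker ((φ₁.prod φ₂).domRestrict
        (Submodule.span ℝ (Phi L π lam) ⊓ LinearMap.ker π))
      have h5 : 1 ≤ finrank ℝ (LinearMap.ker ((φ₁.prod φ₂).domRestrict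
          (Submodule.span ℝ (Phi L π lam) ⊓ LinearMap.ker π))) := by
        rw [Submodule.one_le_finrank_iff]
        intro h
        have h6 : (⟨r, ⟨Submodule.subset_span hrP, hπr⟩⟩ :
            (Submodule.span ℝ (Phi L π lam) ⊓ LinearMap.ker π : Submodule ℝ E)) ∈
            LinearMap.ker ((φ₁.prod φ₂).domRestrict
              (Submodule.span ℝ (Phi L π lam) ⊓ LinearMap.ker π)) := by
          rw [LinearMap.mem_ker]
          show ((φ₁ r, φ₂ r) : ℝ × ℝ) = 0
          rw [h10, h20]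
          rfl
        rw [h, Submodule.mem_bot] at h6
        exact hr0 (congrArg Subtype.val h6)
      omega
    obtain ⟨n, hn, hnP⟩ : ∃ n : ℝ × ℝ, n ≠ 0 ∧ ∀ v ∈ Submodule.span ℝ (Phi L π lam), π v = 0 →
        ∃ t : ℝ, φ₁ v = t * n.1 ∧ φ₂ v = t * n.2 := by
      obtain ⟨w, hw⟩ := finrank_le_one_iff.1 hrank
      by_cases hw0 : (w : ℝ × ℝ) = 0
      · refine ⟨(1, 0), by simp, ?_⟩
        intro v hv hv0
        obtain ⟨t, ht⟩ := hw ⟨_, ⟨⟨v, ⟨hv, hv0⟩⟩, rfl⟩⟩
        have h4 : ((φ₁ v, φ₂ v) : ℝ × ℝ) = t • (w : ℝ × ℝ) := (congrArg Subtype.val ht).symm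
        rw [hw0, smul_zero] at h4
        refine ⟨0, ?_, ?_⟩
        · rw [zero_mul]; exact congrArg Prod.fst h4
        · rw [zero_mul]; exact congrArg Prod.snd h4
      · refine ⟨w, hw0, ?_⟩
        intro v hv hv0
        obtain ⟨t, ht⟩ := hw ⟨_, ⟨⟨v, ⟨hv, hv0⟩⟩, rfl⟩⟩
        have h4 : ((φ₁ v, φ₂ v) : ℝ × ℝ) = t • (w : ℝ × ℝ) := (congrArg Subtype.val ht).symm
        exact ⟨t, congrArg Prod.fst h4, congrArg Prod.snd h4⟩
    have hn2 : n.1 ^ 2 + n.2 ^ 2 ≠ 0 := by
      intro h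
      apply hn
      have h4 : n.1 = 0 := by nlinarith [sq_nonneg n.1, sq_nonneg n.2]
      have h5 : n.2 = 0 := by nlinarith [sq_nonneg n.1, sq_nonneg n.2]
      exact Prod.ext h4 h5
    have hconst : ∀ q q' : ℝ × ℝ, n.1 * q.1 + n.2 * q.2 = n.1 * q'.1 + n.2 * q'.2 →
        T l q = T l q' := by
      intro q q' hqq
      refine hAgr E L Z R π hSys hMax hSec lam hlam _ _ _ _ _ _ (hE q) (hE q') ?_ l
        (Submodule.subset_span hlP)
      intro v hv hv0
      obtain ⟨t, ht1, ht2⟩ := hnP v hv hv0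
      rw [hc, hc, ht1, ht2]
      linear_combination t * hqq
    refine ⟨n, hn, l, hl, fun s => T l (s * n.1 / (n.1 ^ 2 + n.2 ^ 2),
      s * n.2 / (n.1 ^ 2 + n.2 ^ 2)), ?_, ?_⟩
    · refine ⟨convex_univ, ?_⟩
      intro x _ y _ a b ha hb hab
      refine hConv E L Z R π hSys hMax hSec _ _ _ _ _ _ _ _ _
        (hE (x * n.1 / (n.1 ^ 2 + n.2 ^ 2), x * n.2 / (n.1 ^ 2 + n.2 ^ 2)))
        (hE (y * n.1 / (n.1 ^ 2 + n.2 ^ 2), y * n.2 / (n.1 ^ 2 + n.2 ^ 2)))
        (hE ((a * x + b * y) * n.1 / (n.1 ^ 2 + n.2 ^ 2),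
          (a * x + b * y) * n.2 / (n.1 ^ 2 + n.2 ^ 2))) a b ha hb ?_ l hlL
      intro v _
      rw [hc, hc, hc]
      simp only
      have hb' : b = 1 - a := by linarith
      rw [hb']
      field_simp
      ring
    · intro q
      apply hconst
      simp only
      field_simp
  · -- not affine
    intro lam hlam l hl hcon
    obtain ⟨α, β, γ, h1⟩ := hcon
    obtain ⟨v, hv, h2⟩ := haffs α β γ
    have h3 : ∀ q, T (l - v) q = 0 := by
      intro q
      rw [map_sub, Pi.sub_apply, h1 q, h2 q, sub_self]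
    have h4 : π (l - v) = lam := by rw [map_sub, hl, hv, sub_zero]
    have h5 : Phi L π lam ⊆ Submodule.span ℝ {r, l - v} := by
      rintro x ⟨hx, t, ht, hxt⟩
      have h6 : x - t • (l - v) ∈ L := by
        rw [hpos]
        constructor
        · refine ⟨0, hL.cone.zero, ?_⟩
          rw [map_zero, map_sub, map_smul, h4, hxt, sub_self]
        · intro q
          rw [map_sub, map_smul, Pi.sub_apply, Pi.smul_apply, h3 q, smul_zero, sub_zero]
          exact ((hpos x).1 hx).2 q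
      have h7 : x - t • (l - v) ∈ R := by
        rw [hSec.ker]
        refine ⟨h6, ?_⟩
        rw [map_sub, map_smul, h4, hxt, sub_self]
      obtain ⟨s, _, hs⟩ := hray _ h7
      have h8 : x = s • r + t • (l - v) := by rw [← hs]; abel
      rw [h8]
      exact Submodule.add_mem _ (Submodule.smul_mem _ _ (Submodule.subset_span (by simp)))
        (Submodule.smul_mem _ _ (Submodule.subset_span (by simp)))
    have h9 : sdim (Phi L π lam) ≤ 2 := by
      refine (Submodule.finrank_mono (Submodule.span_le.2 h5)).trans ?_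
      classical
      have := finrank_span_finset_le_card (R := ℝ) ({r, l - v} : Finset E)
      rw [Finset.coe_pair] at this
      exact this.trans Finset.card_le_two
    have := hC0 E L Z R π hSys hMax hSec hF lam hlam
    omega

end D1

end TightRP
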