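import Pool.Agent.Lib.MP_7cdc3e_gt.C.D1.Spec

/-!
# MP_7cdc3e_gt, D1, C2: no three parallel directions (helper43)
-/

namespace TightRP

namespace D1

theorem tC2 : C2Stmt := by
  intro E _ _ _ L π T hD n l φ hn hφ hli
  -- the coefficients
  have hsp : ∀ y : Fin 3 → ℝ, ∃ a : Fin 3 → ℝ, ∑ i, a i • π (l i) = y := by
    intro y
    have h1 : Submodule.span ℝ (Set.range (fun i => π (l i))) = ⊤ :=
      hli.span_eq_top_of_card_eq_finrank (by simp)
    have h2 : y ∈ Submodule.span ℝ (Set.range (fun i => π (l i))) := by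
      rw [h1]
      trivial
    exact (Submodule.mem_span_range_iff_exists_fun ℝ).1 h2
  have key : ∀ x : E, ∀ s : ℝ, T x (s * -n.2, s * n.1) - T x (0, 0) =
      s * (T x (-n.2, n.1) - T x (0, 0)) := by
    intro x s
    obtain ⟨a, ha⟩ := hsp (π x)
    have hv : π (x - ∑ i, a i • l i) = 0 := by
      rw [map_sub, map_sum, ← ha, sub_eq_zero]
      exact Finset.sum_congr rfl fun i _ => (map_smul _ _ _).symm
    obtain ⟨α, β, γ, h⟩ := hD.aff _ hv
    have hx : ∀ q : ℝ × ℝ, T x q = α + β * q.1 + γ * q.2 +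
        ∑ i, a i * φ i (n.1 * q.1 + n.2 * q.2) := by
      intro q
      rw [← h q, map_sub, map_sum, Pi.sub_apply, Finset.sum_apply]
      have : ∀ i, (T (a i • l i)) q = a i * φ i (n.1 * q.1 + n.2 * q.2) := by
        intro i
        rw [map_smul, Pi.smul_apply, smul_eq_mul, hφ]
      rw [Finset.sum_congr rfl fun i _ => this i]
      ring
    rw [hx, hx, hx]
    simp only
    have e1 : n.1 * (s * -n.2) + n.2 * (s * n.1) = 0 := by ring
    have e2 : n.1 * (-n.2) + n.2 * n.1 = 0 := by ring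
    have e3 : n.1 * 0 + n.2 * 0 = (0 : ℝ) := by ring
    rw [e1, e2, e3]
    ring
  have hL : ∀ x ∈ L, T x (-n.2, n.1) - T x (0, 0) = 0 := by
    intro x hx
    have hp := ((hD.pos x).1 hx).2
    by_contra hne
    set d := T x (-n.2, n.1) - T x (0, 0) with hd
    have h1 := key x (-(T x (0, 0) + 1) / d)
    rw [← hd, div_mul_cancel₀ _ hne] at h1
    have h2 := hp (-(T x (0, 0) + 1) / d * -n.2, -(T x (0, 0) + 1) / d * n.1)
    linarith
  -- the functional
  let g : E →ₗ[ℝ] ℝ := (LinearMap.proj (-n.2, n.1)).comp T - (LinearMap.proj (0, 0)).comp T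
  have hg : ∀ x, g x = T x (-n.2, n.1) - T x (0, 0) := fun x => rfl
  have hg0 : ∀ x, g x = 0 := by
    intro x
    have h1 : Submodule.span ℝ L ≤ LinearMap.ker g :=
      Submodule.span_le.2 fun y hy => by
        rw [SetLike.mem_coe, LinearMap.mem_ker, hg]
        exact hL y hy
    have h2 : x ∈ Submodule.span ℝ L := by
      rw [hD.span]
      trivial
    exact LinearMap.mem_ker.1 (h1 h2)
  obtain ⟨v, _, hv⟩ := hD.affs 0 (-n.2) n.1
  have h1 := hg0 v
  rw [hg, hv, hv] at h1
  simp only at h1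
  have h2 : n.1 ^ 2 + n.2 ^ 2 = 0 := by linarith
  apply hn
  have h3 : n.1 = 0 := by nlinarith [sq_nonneg n.1, sq_nonneg n.2]
  have h4 : n.2 = 0 := by nlinarith [sq_nonneg n.1, sq_nonneg n.2]
  exact Prod.ext h3 h4

end D1

end TightRP
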