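import Pool.Agent.Lib.MP_7cdc3e_gt.C.D1.Spec

/-!
# MP_7cdc3e_gt, D1, C3: third differences and a functional equation (helper43)
-/

namespace TightRP

namespace D1

private theorem addLin (f : ℝ → ℝ) (hf : Continuous f) (h : ∀ s t, f (s + t) = f s + f t) (s : ℝ) :
    f s = s * f 1 := by
  have h1 := map_real_smul (AddMonoidHom.mk' f h) hf s 1
  simp only [smul_eq_mul, mul_one, AddMonoidHom.mk'_apply] at h1
  exact h1

theorem tC3a : C3aStmt := by
  intro φ hφ h3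
  set κ : ℝ := φ (1 + 1) - φ 1 - φ 1 + φ 0 with hκ
  have hB : ∀ s t : ℝ, φ (s + t) - φ s - φ t + φ 0 = s * t * κ := by
    have h1 : ∀ t s : ℝ, φ (s + t) - φ s - φ t + φ 0 = s * (φ (1 + t) - φ 1 - φ t + φ 0) := by
      intro t
      refine addLin (fun s => φ (s + t) - φ s - φ t + φ 0) ?_ ?_
      · exact (((hφ.comp (continuous_id.add continuous_const)).sub hφ).sub
          continuous_const).add continuous_const
      · intro s s'
        have := h3 0 s s' t
        simp only [zero_add] at this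
        linarith
    intro s t
    rw [h1 t s]
    have h2 := h1 1 t
    have e : φ (1 + t) - φ 1 - φ t + φ 0 = t * κ := by
      rw [add_comm 1 t]
      linarith
    rw [e]
    ring
  have hψ : ∀ s : ℝ, φ s - φ 0 - κ / 2 * s ^ 2 = s * (φ 1 - φ 0 - κ / 2 * 1 ^ 2) := by
    refine addLin (fun s => φ s - φ 0 - κ / 2 * s ^ 2) ?_ ?_
    · exact (hφ.sub continuous_const).sub (continuous_const.mul (continuous_id.pow 2))
    · intro s t
      have := hB s t
      nlinarith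
  refine ⟨φ 0, φ 1 - φ 0 - κ / 2 * 1 ^ 2, κ / 2, fun s => ?_⟩
  have := hψ s
  linarith

theorem tC3b (h1 : C3aStmt) : C3bStmt := by
  intro φ ψ n m α β γ hφ hd h
  refine h1 φ hφ fun x s t u => ?_
  set d : Fin 3 → ℝ := fun i => n.1 * (m i).2 - n.2 * (m i).1 with hdd
  have hd0 := hd 0
  have hd1 := hd 1
  have hd2 := hd 2
  have key : ∀ e0 e1 e2 : ℝ, φ (x + e0 * s + e1 * t + e2 * u) =
      ψ 0 ((m 0).1 * (e1 * t / d 1 * (m 1).2 + e2 * u / d 2 * (m 2).2) +
        (m 0).2 * (-(e1 * t / d 1 * (m 1).1) - e2 * u / d 2 * (m 2).1)) +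
      ψ 1 ((m 1).1 * (x / d 0 * (m 0).2 + e0 * s / d 0 * (m 0).2 + e2 * u / d 2 * (m 2).2) +
        (m 1).2 * (-(x / d 0 * (m 0).1) - e0 * s / d 0 * (m 0).1 - e2 * u / d 2 * (m 2).1)) +
      ψ 2 ((m 2).1 * (x / d 0 * (m 0).2 + e0 * s / d 0 * (m 0).2 + e1 * t / d 1 * (m 1).2) +
        (m 2).2 * (-(x / d 0 * (m 0).1) - e0 * s / d 0 * (m 0).1 - e1 * t / d 1 * (m 1).1)) +
      (α + β * (x / d 0 * (m 0).2 + e0 * s / d 0 * (m 0).2 + e1 * t / d 1 * (m 1).2 +
        e2 * u / d 2 * (m 2).2) +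
        γ * (-(x / d 0 * (m 0).1) - e0 * s / d 0 * (m 0).1 - e1 * t / d 1 * (m 1).1 -
        e2 * u / d 2 * (m 2).1)) := by
    intro e0 e1 e2
    have h2 := h (x / d 0 * (m 0).2 + e0 * s / d 0 * (m 0).2 + e1 * t / d 1 * (m 1).2 +
        e2 * u / d 2 * (m 2).2, -(x / d 0 * (m 0).1) - e0 * s / d 0 * (m 0).1 -
        e1 * t / d 1 * (m 1).1 - e2 * u / d 2 * (m 2).1)
    rw [Fin.sum_univ_three] at h2
    simp only at h2
    have a0 : x / d 0 * d 0 = x := div_mul_cancel₀ _ hd0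
    have a1 : e0 * s / d 0 * d 0 = e0 * s := div_mul_cancel₀ _ hd0
    have a2 : e1 * t / d 1 * d 1 = e1 * t := div_mul_cancel₀ _ hd1
    have a3 : e2 * u / d 2 * d 2 = e2 * u := div_mul_cancel₀ _ hd2
    have b1 : n.1 * (x / d 0 * (m 0).2 + e0 * s / d 0 * (m 0).2 + e1 * t / d 1 * (m 1).2 +
        e2 * u / d 2 * (m 2).2) + n.2 * (-(x / d 0 * (m 0).1) - e0 * s / d 0 * (m 0).1 -
        e1 * t / d 1 * (m 1).1 - e2 * u / d 2 * (m 2).1) = x + e0 * s + e1 * t + e2 * u := by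
      have : n.1 * (x / d 0 * (m 0).2 + e0 * s / d 0 * (m 0).2 + e1 * t / d 1 * (m 1).2 +
        e2 * u / d 2 * (m 2).2) + n.2 * (-(x / d 0 * (m 0).1) - e0 * s / d 0 * (m 0).1 -
        e1 * t / d 1 * (m 1).1 - e2 * u / d 2 * (m 2).1) = x / d 0 * d 0 + e0 * s / d 0 * d 0 +
          e1 * t / d 1 * d 1 + e2 * u / d 2 * d 2 := by
        rw [hdd]
        ring
      rw [this, a0, a1, a2, a3]
    rw [b1] at h2
    rw [h2]
    congr 1
    congr 1
    · congr 1
      · congr 1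
        ring
      · congr 1
        ring
    · congr 1
      ring
  have k0 := key 0 0 0
  have k1 := key 1 0 0
  have k2 := key 0 1 0
  have k3 := key 0 0 1
  have k4 := key 1 1 0
  have k5 := key 1 0 1
  have k6 := key 0 1 1
  have k7 := key 1 1 1
  simp only [zero_mul, one_mul, add_zero, zero_div, sub_zero, neg_zero, zero_add, zero_sub]
    at k0 k1 k2 k3 k4 k5 k6 k7
  rw [k0, k1, k2, k3, k4, k5, k6, k7]
  simp only [add_zero, mul_zero]
  ring

end D1

end TightRP
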