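import Pool.Agent.Lib.MP_7cdc3e_gt.C.D1.Spec

/-!
# MP_7cdc3e_gt, D1, C4: all functions are quadratic (helper53)
-/

namespace TightRP

namespace D1

theorem c4par {n m : ℝ × ℝ} (hn : n ≠ 0) (hm : m ≠ 0) (h : m.1 * n.2 - m.2 * n.1 = 0) :
    ∃ t : ℝ, t ≠ 0 ∧ n.1 = t * m.1 ∧ n.2 = t * m.2 := by
  by_cases h1 : m.1 = 0
  · have h2 : m.2 ≠ 0 := fun h2 => hm (Prod.ext h1 h2)
    have h3 : n.1 = 0 := by
      rw [h1] at h
      have : m.2 * n.1 = 0 := by linarith
      rcases mul_eq_zero.1 this with h | h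
      · exact absurd h h2
      · exact h
    have h4 : n.2 ≠ 0 := fun h4 => hn (Prod.ext h3 h4)
    refine ⟨n.2 / m.2, div_ne_zero h4 h2, ?_, ?_⟩
    · rw [h1, h3, mul_zero]
    · field_simp
  · refine ⟨n.1 / m.1, ?_, ?_, ?_⟩
    · intro h2
      rw [div_eq_zero_iff] at h2
      rcases h2 with h2 | h2
      · rw [h2] at h
        have : m.1 * n.2 = 0 := by linarith
        rcases mul_eq_zero.1 this with h | h
        · exact h1 h
        · exact hn (Prod.ext h2 h)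
      · exact h1 h2
    · field_simp
    · field_simp
      linarith

theorem c4cnt (P : ℕ → Prop) [DecidablePred P]
    (h : ∀ i j k, i ≠ j → i ≠ k → j ≠ k → P i → P j → P k → False) :
    ((Finset.range 5).filter P).card ≤ 2 := by
  by_contra hcon
  push Not at hcon
  obtain ⟨a, b, c, ha, hb, hc, hab, hac, hbc⟩ := Finset.two_lt_card_iff.1 hcon
  exact h a b c hab hac hbc (Finset.mem_filter.1 ha).2 (Finset.mem_filter.1 hb).2
    (Finset.mem_filter.1 hc).2

theorem c4sel (P : ℕ → Prop) (h : ∀ i j k, i ≠ j → i ≠ k → j ≠ k → P i → P j → P k → False) :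
    ∃ i j k, i ≠ j ∧ i ≠ k ∧ j ≠ k ∧ ¬ P i ∧ ¬ P j ∧ ¬ P k := by
  classical
  have h1 := c4cnt P h
  have h2 := Finset.card_filter_add_card_filter_not (s := Finset.range 5) P
  rw [Finset.card_range] at h2
  have h3 : 2 < ((Finset.range 5).filter (fun i => ¬ P i)).card := by omega
  obtain ⟨a, b, c, ha, hb, hc, hab, hac, hbc⟩ := Finset.two_lt_card_iff.1 h3
  exact ⟨a, b, c, hab, hac, hbc, (Finset.mem_filter.1 ha).2, (Finset.mem_filter.1 hb).2,
    (Finset.mem_filter.1 hc).2⟩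

theorem c4sel2 (P Q : ℕ → Prop) (h : ∀ i j k, i ≠ j → i ≠ k → j ≠ k → P i → P j → P k → False)
    (h' : ∀ i j k, i ≠ j → i ≠ k → j ≠ k → Q i → Q j → Q k → False) :
    ∃ i, ¬ P i ∧ ¬ Q i := by
  classical
  have h1 := c4cnt P h
  have h2 := c4cnt Q h'
  have h3 := Finset.card_filter_add_card_filter_not (s := Finset.range 5) (fun i => P i ∨ Q i)
  rw [Finset.card_range, Finset.filter_or] at h3
  have h4 := Finset.card_union_le ((Finset.range 5).filter P) ((Finset.range 5).filter Q)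
  have h5 : 0 < ((Finset.range 5).filter (fun i => ¬ (P i ∨ Q i))).card := by omega
  obtain ⟨a, ha⟩ := Finset.card_pos.1 h5
  have := (Finset.mem_filter.1 ha).2
  exact ⟨a, fun h => this (Or.inl h), fun h => this (Or.inr h)⟩

theorem c4 (hC2 : C2Stmt) (hC3b : C3bStmt) (hMany : ManyStmt) (hDep : DepStmt) : C4Stmt := by
  intro E _ _ _ L π T hD
  obtain ⟨_, b, hb, hbN⟩ := hMany (Fin 3 → ℝ) (π '' L) hD.del.1 hD.del.2 hD.nof
  choose n hn l hl φ hφc hφ using fun i => hD.dir (b i) (hb i)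
  have hLI : ∀ i j k, i ≠ j → i ≠ k → j ≠ k → LinearIndependent ℝ ![b i, b j, b k] :=
    fun i j k hij hik hjk => hDep _ _ hD.del.1 _ _ _ (hb i) (hb j) (hb k) (hbN _ _ hij)
      (hbN _ _ hik) (hbN _ _ hjk)
  have hsel : ∀ m : ℝ × ℝ, m ≠ 0 → ∀ i j k, i ≠ j → i ≠ k → j ≠ k →
      m.1 * (n i).2 - m.2 * (n i).1 = 0 → m.1 * (n j).2 - m.2 * (n j).1 = 0 →
      m.1 * (n k).2 - m.2 * (n k).1 = 0 → False := by
    intro m hm i j k hij hik hjk hi hj hk
    obtain ⟨ti, _, hi1, hi2⟩ := c4par (hn i) hm hi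
    obtain ⟨tj, _, hj1, hj2⟩ := c4par (hn j) hm hj
    obtain ⟨tk, _, hk1, hk2⟩ := c4par (hn k) hm hk
    refine hC2 E L π T hD m ![l i, l j, l k]
      ![fun s => φ i (ti * s), fun s => φ j (tj * s), fun s => φ k (tk * s)] hm ?_ ?_
    · intro r q
      fin_cases r
      · show T (l i) q = φ i (ti * (m.1 * q.1 + m.2 * q.2))
        rw [hφ i q, hi1, hi2]
        congr 1
        ring
      · show T (l j) q = φ j (tj * (m.1 * q.1 + m.2 * q.2))
        rw [hφ j q, hj1, hj2]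
        congr 1
        ring
      · show T (l k) q = φ k (tk * (m.1 * q.1 + m.2 * q.2))
        rw [hφ k q, hk1, hk2]
        congr 1
        ring
    · have h1 := hLI i j k hij hik hjk
      have h2 : (fun r => π (![l i, l j, l k] r)) = ![b i, b j, b k] := by
        funext r
        fin_cases r
        · exact hl i
        · exact hl j
        · exact hl k
      rw [h2]
      exact h1
  -- combination of three
  have hcomb : ∀ i j k, i ≠ j → i ≠ k → j ≠ k → ∀ x : E, ∃ a : Fin 3 → ℝ, ∃ α β γ : ℝ, ∀ q,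
      T x q = a 0 * T (l i) q + a 1 * T (l j) q + a 2 * T (l k) q +
        (α + β * q.1 + γ * q.2) := by
    intro i j k hij hik hjk x
    have h1 := hLI i j k hij hik hjk
    have h2 : Submodule.span ℝ (Set.range ![b i, b j, b k]) = ⊤ :=
      h1.span_eq_top_of_card_eq_finrank' (by simp)
    have h3 : π x ∈ Submodule.span ℝ (Set.range ![b i, b j, b k]) := by rw [h2]; trivial
    obtain ⟨a, ha⟩ := (Submodule.mem_span_range_iff_exists_fun ℝ).1 h3
    rw [Fin.sum_univ_three] at ha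
    have ha' : a 0 • b i + a 1 • b j + a 2 • b k = π x := ha
    have h4 : π (x - (a 0 • l i + a 1 • l j + a 2 • l k)) = 0 := by
      rw [map_sub, map_add, map_add, map_smul, map_smul, map_smul, hl, hl, hl, ha', sub_self]
    obtain ⟨α, β, γ, h5⟩ := hD.aff _ h4
    refine ⟨a, α, β, γ, fun q => ?_⟩
    rw [← h5 q, map_sub, map_add, map_add, map_smul, map_smul, map_smul]
    simp only [Pi.sub_apply, Pi.add_apply, Pi.smul_apply, smul_eq_mul]
    ring
  have core : ∀ (x : E) (m : ℝ × ℝ) (ψ : ℝ → ℝ), Extr (π '' L) (π x) → m ≠ 0 →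
      ConvexOn ℝ Set.univ ψ → (∀ q, T x q = ψ (m.1 * q.1 + m.2 * q.2)) →
      ∃ κ : ℝ, 0 < κ ∧ ∃ a b c : ℝ, ∀ q, T x q = a + b * q.1 + c * q.2 +
        κ * (m.1 * q.1 + m.2 * q.2) ^ 2 := by
    intro x m ψ hx hm hψc hψ
    obtain ⟨i, j, k, hij, hik, hjk, hi, hj, hk⟩ := c4sel _ (hsel m hm)
    obtain ⟨a, α, β, γ, h5⟩ := hcomb i j k hij hik hjk x
    have hcont : Continuous ψ := by
      have := ConvexOn.continuousOn isOpen_univ hψc
      exact continuousOn_univ.1 this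
    obtain ⟨a', b', c', h6⟩ := hC3b ψ ![fun s => a 0 * φ i s, fun s => a 1 * φ j s,
      fun s => a 2 * φ k s] m ![n i, n j, n k] α β γ hcont (by
        intro r
        fin_cases r
        · exact hi
        · exact hj
        · exact hk) (by
        intro q
        rw [Fin.sum_univ_three, ← hψ q, h5 q, hφ i q, hφ j q, hφ k q]
        rfl)
    have hc0 : 0 ≤ c' := by
      have h7 := hψc.2 (Set.mem_univ (1 : ℝ)) (Set.mem_univ (-1 : ℝ))
        (by norm_num : (0 : ℝ) ≤ 1 / 2) (by norm_num : (0 : ℝ) ≤ 1 / 2) (by norm_num)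
      simp only [smul_eq_mul] at h7
      rw [show (1 / 2 : ℝ) * 1 + 1 / 2 * -1 = 0 by norm_num, h6 0, h6 1, h6 (-1)] at h7
      nlinarith
    have hc1 : c' ≠ 0 := by
      intro h7
      refine hD.naff (π x) hx x rfl ⟨a', b' * m.1, b' * m.2, fun q => ?_⟩
      rw [hψ q, h6, h7]
      ring
    refine ⟨c', lt_of_le_of_ne hc0 hc1.symm, a', b' * m.1, b' * m.2, fun q => ?_⟩
    rw [hψ q, h6]
    ring
  refine ⟨?_, ?_, ?_⟩
  · intro x
    obtain ⟨a, α, β, γ, h5⟩ := hcomb 0 1 2 (by norm_num) (by norm_num) (by norm_num) x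
    obtain ⟨κ0, _, a0, b0, c0, h0⟩ := core (l 0) (n 0) (φ 0) (by rw [hl]; exact hb 0) (hn 0)
      (hφc 0) (hφ 0)
    obtain ⟨κ1, _, a1, b1, c1, h1⟩ := core (l 1) (n 1) (φ 1) (by rw [hl]; exact hb 1) (hn 1)
      (hφc 1) (hφ 1)
    obtain ⟨κ2, _, a2, b2, c2, h2⟩ := core (l 2) (n 2) (φ 2) (by rw [hl]; exact hb 2) (hn 2)
      (hφc 2) (hφ 2)
    refine ⟨a 0 * a0 + a 1 * a1 + a 2 * a2 + α, a 0 * b0 + a 1 * b1 + a 2 * b2 + β,
      a 0 * c0 + a 1 * c1 + a 2 * c2 + γ,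
      a 0 * κ0 * (n 0).1 ^ 2 + a 1 * κ1 * (n 1).1 ^ 2 + a 2 * κ2 * (n 2).1 ^ 2,
      2 * (a 0 * κ0 * (n 0).1 * (n 0).2 + a 1 * κ1 * (n 1).1 * (n 1).2 +
        a 2 * κ2 * (n 2).1 * (n 2).2),
      a 0 * κ0 * (n 0).2 ^ 2 + a 1 * κ1 * (n 1).2 ^ 2 + a 2 * κ2 * (n 2).2 ^ 2, fun q => ?_⟩
    rw [h5 q, h0 q, h1 q, h2 q]
    ring
  · intro lam hlam x hx
    obtain ⟨m, hm, y, hy, ψ, hψc, hψ⟩ := hD.dir lam hlam
    obtain ⟨κ, hκ, a, b, c, h1⟩ := core y m ψ (by rw [hy]; exact hlam) hm hψc hψ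
    have h2 : π (x - y) = 0 := by rw [map_sub, hx, hy, sub_self]
    obtain ⟨α, β, γ, h3⟩ := hD.aff _ h2
    refine ⟨m, hm, κ, hκ, a + α, b + β, c + γ, fun q => ?_⟩
    have h4 := h3 q
    rw [map_sub, Pi.sub_apply, h1 q] at h4
    linarith
  · obtain ⟨j, hj, _⟩ := c4sel2 _ _ (hsel (n 0) (hn 0)) (hsel (n 0) (hn 0))
    obtain ⟨k, hk, hk'⟩ := c4sel2 _ _ (hsel (n 0) (hn 0)) (hsel (n j) (hn j))
    have hcore : ∀ i, ∃ κ : ℝ, 0 < κ ∧ ∃ a b c : ℝ, ∀ q, T (l i) q = a + b * q.1 + c * q.2 +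
        κ * ((n i).1 * q.1 + (n i).2 * q.2) ^ 2 := fun i =>
      core (l i) (n i) (φ i) (by rw [hl]; exact hb i) (hn i) (hφc i) (hφ i)
    choose κ hκ a b' c hT using hcore
    refine ⟨fun r => l (![0, j, k] r), fun r => n (![0, j, k] r), fun r => κ (![0, j, k] r),
      fun r => a (![0, j, k] r), fun r => b' (![0, j, k] r), fun r => c (![0, j, k] r), ?_, ?_,
      ?_, ?_⟩
    · intro i
      show Extr (π '' L) (π (l _))
      rw [hl]
      exact hb _
    · intro i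
      exact hκ _
    · intro r s hrs
      have hsymm : ∀ p p' : ℝ × ℝ, p.1 * p'.2 - p.2 * p'.1 ≠ 0 → p'.1 * p.2 - p'.2 * p.1 ≠ 0 := by
        intro p p' h h'
        apply h
        linarith
      fin_cases r <;> fin_cases s
      · exact absurd rfl hrs
      · exact hj
      · exact hk
      · exact hsymm _ _ hj
      · exact absurd rfl hrs
      · exact hk'
      · exact hsymm _ _ hk
      · exact hsymm _ _ hk'
      · exact absurd rfl hrs
    · intro i q
      exact hT _ q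

end D1

end TightRP
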