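import Pool.Agent.Lib.MP_7cdc3e_gt.C.D1.Spec

/-!
# MP_7cdc3e_gt, full question, D1: C6, the cone is the cone of positive semidefinite matrices
-/

set_option autoImplicit false

namespace TightRP

namespace D1

section second

variable {E : Type} [NormedAddCommGroup E] [NormedSpace ℝ E]

/-- the second order part of `T x` -/
noncomputable def C6S (T : E →ₗ[ℝ] (ℝ × ℝ → ℝ)) (x : E) (q : ℝ × ℝ) : ℝ :=
  (T x q + T x (-q)) / 2 - T x 0

private theorem C6S_add (T : E →ₗ[ℝ] (ℝ × ℝ → ℝ)) (x y : E) (q : ℝ × ℝ) :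
    C6S T (x + y) q = C6S T x q + C6S T y q := by
  unfold C6S
  simp only [map_add, Pi.add_apply]
  ring

private theorem C6S_smul (T : E →ₗ[ℝ] (ℝ × ℝ → ℝ)) (t : ℝ) (x : E) (q : ℝ × ℝ) :
    C6S T (t • x) q = t * C6S T x q := by
  unfold C6S
  simp only [map_smul, Pi.smul_apply, smul_eq_mul]
  ring

private theorem C6S_ker {L : Set E} {π : E →ₗ[ℝ] (Fin 3 → ℝ)} {T : E →ₗ[ℝ] (ℝ × ℝ → ℝ)}
    (h : CData L π T) {x : E} (hx : π x = 0) (q : ℝ × ℝ) : C6S T x q = 0 := by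
  obtain ⟨α, β, γ, h1⟩ := h.aff x hx
  unfold C6S
  rw [h1, h1, h1]
  simp only [Prod.fst_neg, Prod.snd_neg, Prod.fst_zero, Prod.snd_zero]
  ring

private theorem C6S_quad {T : E →ₗ[ℝ] (ℝ × ℝ → ℝ)} {x : E} {a b c κ : ℝ} {n : ℝ × ℝ}
    (h : ∀ q : ℝ × ℝ, T x q = a + b * q.1 + c * q.2 + κ * (n.1 * q.1 + n.2 * q.2) ^ 2)
    (q : ℝ × ℝ) : C6S T x q = κ * (n.1 * q.1 + n.2 * q.2) ^ 2 := by
  unfold C6S
  rw [h, h, h]
  simp only [Prod.fst_neg, Prod.snd_neg, Prod.fst_zero, Prod.snd_zero]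
  ring

private theorem C6S_np {L : Set E} {π : E →ₗ[ℝ] (Fin 3 → ℝ)} {T : E →ₗ[ℝ] (ℝ × ℝ → ℝ)}
    (h : CData L π T) {x y : E} {m n : ℝ × ℝ} {κ μ : ℝ} (hκ : 0 < κ) (hμ : 0 < μ)
    (hx : ∀ q, C6S T x q = κ * (m.1 * q.1 + m.2 * q.2) ^ 2)
    (hy : ∀ q, C6S T y q = μ * (n.1 * q.1 + n.2 * q.2) ^ 2)
    (hmn : m.1 * n.2 - m.2 * n.1 ≠ 0) : NP (π x) (π y) := by
  unfold NP
  rw [LinearIndependent.pair_iff]
  intro s t hst
  have h1 : π (s • x + t • y) = 0 := by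
    rw [map_add, map_smul, map_smul]
    exact hst
  have h2 : ∀ q : ℝ × ℝ, s * (κ * (m.1 * q.1 + m.2 * q.2) ^ 2) +
      t * (μ * (n.1 * q.1 + n.2 * q.2) ^ 2) = 0 := by
    intro q
    have h3 := C6S_ker h h1 q
    rw [C6S_add, C6S_smul, C6S_smul, hx, hy] at h3
    exact h3
  constructor
  · have h3 := h2 (-n.2, n.1)
    have h4 : s * (κ * (m.1 * n.2 - m.2 * n.1) ^ 2) = 0 := by
      simp only at h3
      linarith [h3, show s * (κ * (m.1 * -n.2 + m.2 * n.1) ^ 2) +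
        t * (μ * (n.1 * -n.2 + n.2 * n.1) ^ 2) = s * (κ * (m.1 * n.2 - m.2 * n.1) ^ 2) by ring]
    rcases mul_eq_zero.mp h4 with h5 | h5
    · exact h5
    · exact absurd h5 (mul_ne_zero hκ.ne' (pow_ne_zero 2 hmn))
  · have h3 := h2 (-m.2, m.1)
    have h4 : t * (μ * (m.1 * n.2 - m.2 * n.1) ^ 2) = 0 := by
      simp only at h3
      linarith [h3, show s * (κ * (m.1 * -m.2 + m.2 * m.1) ^ 2) +
        t * (μ * (n.1 * -m.2 + n.2 * m.1) ^ 2) = t * (μ * (m.1 * n.2 - m.2 * n.1) ^ 2) by ring]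
    rcases mul_eq_zero.mp h4 with h5 | h5
    · exact h5
    · exact absurd h5 (mul_ne_zero hμ.ne' (pow_ne_zero 2 hmn))

end second

/-- a point of the segment near an interior point -/
private theorem C6_near {D : Set (Fin 3 → ℝ)} (hD : IsCone D) (v : Fin 3 → Fin 3 → ℝ)
    (hv : LinearIndependent ℝ v) (hvD : ∀ i, v i ∈ D) (p : Fin 3 → ℝ) :
    ∃ t : ℝ, 0 < t ∧ t ≤ 1 ∧ (1 - t) • (∑ i, v i) + t • p ∈ D := by
  have hsp : Submodule.span ℝ (Set.range v) = ⊤ :=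
    hv.span_eq_top_of_card_eq_finrank' (by simp)
  have hp : p ∈ Submodule.span ℝ (Set.range v) := by
    rw [hsp]
    exact Submodule.mem_top
  obtain ⟨c, hc⟩ := (Submodule.mem_span_range_iff_exists_fun ℝ).mp hp
  have hM : 0 ≤ ∑ i, |c i| := Finset.sum_nonneg fun i _ => abs_nonneg _
  set M : ℝ := ∑ i, |c i| with hMdef
  have h1M : 0 < 1 + M := by linarith
  refine ⟨(1 + M)⁻¹, inv_pos.mpr h1M, inv_le_one_of_one_le₀ (by linarith), ?_⟩
  have h2 : (1 - (1 + M)⁻¹) • (∑ i, v i) + (1 + M)⁻¹ • p =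
      ∑ i, ((1 + M)⁻¹ * (M + c i)) • v i := by
    rw [← hc, Finset.smul_sum, Finset.smul_sum, ← Finset.sum_add_distrib]
    refine Finset.sum_congr rfl fun i _ => ?_
    rw [smul_smul, ← add_smul]
    congr 1
    field_simp
    ring
  rw [h2]
  have h3 : ∀ i, 0 ≤ (1 + M)⁻¹ * (M + c i) := by
    intro i
    refine mul_nonneg (inv_nonneg.mpr h1M.le) ?_
    have h4 : |c i| ≤ M := Finset.single_le_sum (f := fun i => |c i|)
      (fun i _ => abs_nonneg _) (Finset.mem_univ i)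
    have h5 := neg_abs_le (c i)
    linarith
  have h6 : ∀ s : Finset (Fin 3), ∑ i ∈ s, ((1 + M)⁻¹ * (M + c i)) • v i ∈ D := by
    intro s
    induction s using Finset.induction_on with
    | empty =>
      rw [Finset.sum_empty]
      exact hD.zero
    | insert i s his ih =>
      rw [Finset.sum_insert his]
      exact hD.add _ (hD.smul _ (h3 i) _ (hvD i)) _ ih
  exact h6 Finset.univ

/-- the last point of a segment in a closed cone -/
private theorem C6_last {D : Set (Fin 3 → ℝ)} (hD : CPC D) {x p : Fin 3 → ℝ} (hx : x ∈ D)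
    (hp : p ∉ D) (h0 : ∃ t : ℝ, 0 < t ∧ t ≤ 1 ∧ (1 - t) • x + t • p ∈ D) :
    ∃ t : ℝ, 0 < t ∧ t < 1 ∧ (1 - t) • x + t • p ∈ D ∧
      ∀ ε : ℝ, 0 < ε → (1 - t) • x + t • p - ε • x ∉ D := by
  obtain ⟨t₀, h1, h2, h3⟩ := h0
  have hcl : IsClosed {t : ℝ | (1 - t) • x + t • p ∈ D} :=
    hD.closed.preimage (by fun_prop)
  have hcpt : IsCompact (Set.Icc (0 : ℝ) 1 ∩ {t : ℝ | (1 - t) • x + t • p ∈ D}) :=
    isCompact_Icc.inter_right hcl
  obtain ⟨t, ⟨⟨ht0, ht1⟩, htD⟩, hmax⟩ := hcpt.exists_isGreatest ⟨t₀, ⟨h1.le, h2⟩, h3⟩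
  have htpos : 0 < t := lt_of_lt_of_le h1 (hmax ⟨⟨h1.le, h2⟩, h3⟩)
  have htlt : t < 1 := by
    refine lt_of_le_of_ne ht1 fun h4 => hp ?_
    have h5 : (1 - t) • x + t • p ∈ D := htD
    rw [h4, sub_self, zero_smul, one_smul, zero_add] at h5
    exact h5
  refine ⟨t, htpos, htlt, htD, fun ε hε hmem => ?_⟩
  obtain ⟨δ, hδ0, hδε, hδt⟩ : ∃ δ : ℝ, 0 < δ ∧ δ ≤ ε ∧ δ < 1 - t := by
    refine ⟨min ε ((1 - t) / 2), lt_min hε (by linarith), min_le_left _ _, ?_⟩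
    have := min_le_right ε ((1 - t) / 2)
    linarith
  have h4 : (1 - t) • x + t • p - δ • x ∈ D := by
    have h5 := hD.cone.add _ hmem _ (hD.cone.smul (ε - δ) (by linarith) x hx)
    have h6 : (1 - t) • x + t • p - ε • x + (ε - δ) • x = (1 - t) • x + t • p - δ • x := by
      module
    rwa [h6] at h5
  have hδ1 : 0 < 1 - δ := by linarith
  have h5 := hD.cone.smul (1 - δ)⁻¹ (inv_nonneg.mpr hδ1.le) _ h4
  have h6 : (1 - δ)⁻¹ • ((1 - t) • x + t • p - δ • x) =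
      (1 - t / (1 - δ)) • x + (t / (1 - δ)) • p := by
    have h7 : (1 - t) • x + t • p - δ • x = (1 - t - δ) • x + t • p := by module
    rw [h7, smul_add, smul_smul, smul_smul]
    congr 1
    · congr 1
      field_simp
      ring
    · congr 1
      rw [div_eq_mul_inv, mul_comm]
  rw [h6] at h5
  have h8 : t / (1 - δ) ≤ 1 := (div_le_one hδ1).mpr (by linarith)
  have h9 : t / (1 - δ) ≤ t := hmax ⟨⟨by positivity, h8⟩, h5⟩
  rw [div_le_iff₀ hδ1] at h9
  nlinarith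

/-- **C6.** -/
theorem tC6 (h1 : C4Stmt) (h2 : C5Stmt) (h3 : ManyStmt) (h4 : DepStmt) : C6Stmt := by
  intro E _ _ _ L π T h
  obtain ⟨Φ, hΦ1, hΦ2, hΦ3⟩ := h2 E L π T h
  refine ⟨Φ, hΦ3, fun l => ⟨fun hl => ?_, ?_⟩⟩
  · obtain ⟨c, hc, hlc⟩ := hΦ2 l
    have hpos := ((h.pos l).mp hl).2
    refine ⟨c, ⟨hc, ?_⟩, hlc⟩
    have key : ∀ y : Fin 3 → ℝ, y 0 ≠ 0 → 0 ≤ ∑ i, ∑ j, c i j * (y i * y j) := by
      intro y hy
      have h5 := hpos (y 1 / y 0, y 2 / y 0)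
      rw [hlc, hΦ1] at h5
      have h6 := mul_nonneg (sq_nonneg (y 0)) h5
      have h7 : y 0 ^ 2 * ∑ i, ∑ j, c i j * (![1, y 1 / y 0, y 2 / y 0] i *
          ![1, y 1 / y 0, y 2 / y 0] j) = ∑ i, ∑ j, c i j * (y i * y j) := by
        simp only [Fin.sum_univ_three, Matrix.cons_val_zero, Matrix.cons_val_one,
          Matrix.cons_val]
        field_simp
      rw [h7] at h6
      exact h6
    intro y
    by_cases hy : y 0 = 0
    · have hcont : Continuous fun ε : ℝ =>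
          ∑ i, ∑ j, c i j * (![ε, y 1, y 2] i * ![ε, y 1, y 2] j) := by
        simp only [Fin.sum_univ_three, Matrix.cons_val_zero, Matrix.cons_val_one,
          Matrix.cons_val]
        fun_prop
      have hcl : IsClosed {ε : ℝ | 0 ≤
          ∑ i, ∑ j, c i j * (![ε, y 1, y 2] i * ![ε, y 1, y 2] j)} :=
        isClosed_le continuous_const hcont
      have hsub : ({0}ᶜ : Set ℝ) ⊆ {ε : ℝ | 0 ≤
          ∑ i, ∑ j, c i j * (![ε, y 1, y 2] i * ![ε, y 1, y 2] j)} := by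
        intro ε hε
        exact key ![ε, y 1, y 2] (by simpa using hε)
      have h0 : (0 : ℝ) ∈ {ε : ℝ | 0 ≤
          ∑ i, ∑ j, c i j * (![ε, y 1, y 2] i * ![ε, y 1, y 2] j)} :=
        (hcl.closure_subset_iff.mpr hsub) (dense_compl_singleton (0 : ℝ) 0)
      have h5 : ![(0 : ℝ), y 1, y 2] = y := by
        funext i
        fin_cases i
        · simp [hy]
        · rfl
        · rfl
      have h6 : 0 ≤ ∑ i, ∑ j, c i j * (![(0 : ℝ), y 1, y 2] i * ![(0 : ℝ), y 1, y 2] j) := h0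
      rw [h5] at h6
      exact h6
    · exact key y hy
  · rintro ⟨c, ⟨hc, hpsd⟩, hlc⟩
    refine (h.pos l).mpr ⟨?_, fun q => by rw [hlc, hΦ1]; exact hpsd _⟩
    by_contra hp
    obtain ⟨_, hC2, l', n, κ, a, b, d, hex, hκ, hnn, hT⟩ := h1 E L π T h
    have hS : ∀ i q, C6S T (l' i) q = κ i * ((n i).1 * q.1 + (n i).2 * q.2) ^ 2 :=
      fun i q => C6S_quad (hT i) q
    have hSl : ∀ q, 0 ≤ C6S T l q := by
      intro q
      have h5 := hpsd ![0, q.1, q.2]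
      have h6 : C6S T l q = ∑ i, ∑ j, c i j * (![0, q.1, q.2] i * ![0, q.1, q.2] j) := by
        unfold C6S
        rw [hlc, hΦ1, hΦ1, hΦ1]
        simp only [Fin.sum_univ_three, Matrix.cons_val_zero, Matrix.cons_val_one,
          Matrix.cons_val, Prod.fst_neg, Prod.snd_neg, Prod.fst_zero, Prod.snd_zero]
        ring
      rw [h6]
      exact h5
    have hNP : ∀ i j, i ≠ j → NP (π (l' i)) (π (l' j)) := fun i j hij =>
      C6S_np h (hκ i) (hκ j) (hS i) (hS j) (hnn i j hij)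
    have hli : LinearIndependent ℝ ![π (l' 0), π (l' 1), π (l' 2)] :=
      h4 (Fin 3 → ℝ) (π '' L) h.del.1 _ _ _ (hex 0) (hex 1) (hex 2) (hNP 0 1 (by decide))
        (hNP 0 2 (by decide)) (hNP 1 2 (by decide))
    have hx0 : π (l' 0 + l' 1 + l' 2) = ∑ i, (![π (l' 0), π (l' 1), π (l' 2)] :
        Fin 3 → Fin 3 → ℝ) i := by
      rw [map_add, map_add, Fin.sum_univ_three]
      rfl
    have hSx0 : ∀ q : ℝ × ℝ, q ≠ 0 → 0 < C6S T (l' 0 + l' 1 + l' 2) q := by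
      intro q hq
      rw [C6S_add, C6S_add, hS, hS, hS]
      have e0 := mul_nonneg (hκ 0).le (sq_nonneg ((n 0).1 * q.1 + (n 0).2 * q.2))
      have e1 := mul_nonneg (hκ 1).le (sq_nonneg ((n 1).1 * q.1 + (n 1).2 * q.2))
      have e2 := mul_nonneg (hκ 2).le (sq_nonneg ((n 2).1 * q.1 + (n 2).2 * q.2))
      by_contra hneg
      rw [not_lt] at hneg
      have f0 : κ 0 * ((n 0).1 * q.1 + (n 0).2 * q.2) ^ 2 = 0 := by linarith
      have f1 : κ 1 * ((n 1).1 * q.1 + (n 1).2 * q.2) ^ 2 = 0 := by linarith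
      have g0 : (n 0).1 * q.1 + (n 0).2 * q.2 = 0 := by
        rcases mul_eq_zero.mp f0 with h5 | h5
        · exact absurd h5 (hκ 0).ne'
        · exact pow_eq_zero_iff two_ne_zero |>.mp h5
      have g1 : (n 1).1 * q.1 + (n 1).2 * q.2 = 0 := by
        rcases mul_eq_zero.mp f1 with h5 | h5
        · exact absurd h5 (hκ 1).ne'
        · exact pow_eq_zero_iff two_ne_zero |>.mp h5
      have hn := hnn 0 1 (by decide)
      apply hq
      have q1 : ((n 0).1 * (n 1).2 - (n 0).2 * (n 1).1) * q.1 = 0 := by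
        linear_combination (n 1).2 * g0 - (n 0).2 * g1
      have q2 : ((n 0).1 * (n 1).2 - (n 0).2 * (n 1).1) * q.2 = 0 := by
        linear_combination (n 0).1 * g1 - (n 1).1 * g0
      have r1 : q.1 = 0 := (mul_eq_zero.mp q1).resolve_left hn
      have r2 : q.2 = 0 := (mul_eq_zero.mp q2).resolve_left hn
      exact Prod.ext r1 r2
    have hnear := C6_near h.del.1.cone ![π (l' 0), π (l' 1), π (l' 2)] hli (by
      intro i
      fin_cases i
      · exact (hex 0).1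
      · exact (hex 1).1
      · exact (hex 2).1) (π l)
    rw [← hx0] at hnear
    have hx0D : π (l' 0 + l' 1 + l' 2) ∈ π '' L := by
      rw [map_add, map_add]
      exact h.del.1.cone.add _ (h.del.1.cone.add _ (hex 0).1 _ (hex 1).1) _ (hex 2).1
    obtain ⟨t, ht0, ht1, htD, hlast⟩ := C6_last h.del.1 hx0D hp hnear
    have hw : π ((1 - t) • (l' 0 + l' 1 + l' 2) + t • l) =
        (1 - t) • π (l' 0 + l' 1 + l' 2) + t • π l := by
      rw [map_add, map_smul, map_smul]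
    have hSw : ∀ q : ℝ × ℝ, q ≠ 0 → 0 < C6S T ((1 - t) • (l' 0 + l' 1 + l' 2) + t • l) q := by
      intro q hq
      rw [C6S_add, C6S_smul, C6S_smul]
      have h5 := mul_pos (sub_pos.mpr ht1) (hSx0 q hq)
      have h6 := mul_nonneg ht0.le (hSl q)
      linarith
    have hz0 : (1 - t) • π (l' 0 + l' 1 + l' 2) + t • π l ≠ 0 := by
      intro h5
      rw [← hw] at h5
      have h6 := hSw (1, 0) (by simp)
      rw [C6S_ker h h5] at h6
      exact lt_irrefl _ h6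
    have hext : Extr (π '' L) ((1 - t) • π (l' 0 + l' 1 + l' 2) + t • π l) :=
      (h3 (Fin 3 → ℝ) (π '' L) h.del.1 h.del.2 h.nof).1 _ htD hz0 _ hx0D hlast
    obtain ⟨m, hm, κ', _, a', b', c', hT'⟩ := hC2 _ hext _ hw
    have h5 := hSw (-m.2, m.1) (by
      intro h6
      apply hm
      have h7 := congrArg Prod.fst h6
      have h8 := congrArg Prod.snd h6
      simp only [Prod.fst_zero, Prod.snd_zero, neg_eq_zero] at h7 h8
      exact Prod.ext h8 h7)
    rw [C6S_quad hT'] at h5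
    simp only at h5
    have h6 : m.1 * -m.2 + m.2 * m.1 = 0 := by ring
    rw [h6] at h5
    simp at h5

end D1

end TightRP
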