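import Pool.Agent.Lib.MP_7cdc3e_gt.C.D1.AuxH4

/-! # C32, D1: Cn and Gen -/

namespace TightRP

namespace D1

open H4

section

variable {E : Type} [NormedAddCommGroup E] [NormedSpace ℝ E]

theorem H4.uniq {n : ℕ} {v : Fin n → E} (hv : LinearIndependent ℝ v) {c d : Fin n → ℝ}
    (h : ∑ i, c i • v i = ∑ i, d i • v i) : c = d := by
  rw [Fintype.linearIndependent_iff] at hv
  funext i
  have h1 := hv (fun i => c i - d i) (by
    simp only [sub_smul, Finset.sum_sub_distrib]
    rw [h, sub_self]) i
  exact sub_eq_zero.1 h1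

theorem H4.single {n : ℕ} (v : Fin n → E) (i : Fin n) (t : ℝ) :
    t • v i = ∑ j, (Pi.single i t : Fin n → ℝ) j • v j := by
  classical
  rw [Finset.sum_eq_single i]
  · simp
  · intro j _ hj
    simp [Pi.single_eq_of_ne hj]
  · intro h
    exact absurd (Finset.mem_univ i) h

end

theorem tCn : CnStmt := by
  classical
  intro E _ _ _ n v hv
  have hcl : IsClosed (cn v) := by
    let T : (Fin n → ℝ) →ₗ[ℝ] E := ∑ i, (LinearMap.proj i).smulRight (v i)
    have hT : ∀ c, T c = ∑ i, c i • v i := by
      intro c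
      simp [T]
    have hinj : LinearMap.ker T = ⊥ := by
      rw [LinearMap.ker_eq_bot]
      intro c d h
      rw [hT, hT] at h
      exact H4.uniq hv h
    have h1 := LinearMap.isClosedEmbedding_of_injective hinj
    have h2 : cn v = T '' {c | ∀ i, 0 ≤ c i} := by
      ext x
      constructor
      · rintro ⟨c, hc, rfl⟩
        exact ⟨c, hc, hT c⟩
      · rintro ⟨c, hc, rfl⟩
        exact ⟨c, hc, hT c⟩
    rw [h2]
    refine h1.isClosedMap _ ?_
    simp only [Set.setOf_forall]
    exact isClosed_iInter fun i => isClosed_le continuous_const (continuous_apply i)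
  refine ⟨⟨cn_cone v, hcl, ?_⟩, ?_, ?_, ?_, ?_⟩
  · rintro x ⟨c, hc, hx⟩ ⟨d, hd, hx'⟩
    have h1 : (fun i => c i + d i) = fun _ => (0:ℝ) := by
      apply H4.uniq hv
      simp only [add_smul, Finset.sum_add_distrib, zero_smul, Finset.sum_const_zero]
      rw [← hx, ← hx', add_neg_cancel]
    have h2 : ∀ i, c i = 0 := by
      intro i
      have h3 : c i + d i = 0 := congrFun h1 i
      have h4 := hc i
      have h5 := hd i
      linarith
    rw [hx]
    simp [h2]
  · intro i
    refine ⟨mem_cn v i, hv.ne_zero i, ?_⟩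
    rintro x ⟨c, hc, rfl⟩ y ⟨d, hd, rfl⟩ hxy
    have h1 : (fun j => c j + d j) = Pi.single i (1:ℝ) := by
      apply H4.uniq hv
      simp only [add_smul, Finset.sum_add_distrib]
      rw [hxy, ← H4.single, one_smul]
    refine ⟨c i, ?_⟩
    rw [Finset.sum_eq_single i]
    · intro j _ hj
      have h3 : c j + d j = _ := congrFun h1 j
      rw [Pi.single_eq_of_ne hj] at h3
      have h4 := hc j
      have h5 := hd j
      have h6 : c j = 0 := by linarith
      rw [h6, zero_smul]
    · intro h
      exact absurd (Finset.mem_univ i) h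
  · intro s
    have hsub : cnS v s ⊆ cn v := by
      rintro x ⟨c, hc, _, rfl⟩
      exact ⟨c, hc, rfl⟩
    refine ⟨⟨⟨⟨fun _ => 0, fun _ => le_rfl, fun _ _ => rfl, by simp⟩, ?_, ?_⟩, hsub, ?_⟩, ?_⟩
    · rintro x ⟨c, hc, hcs, rfl⟩ y ⟨d, hd, hds, rfl⟩
      exact ⟨fun i => c i + d i, fun i => add_nonneg (hc i) (hd i), fun i hi => by
        show c i + d i = 0
        rw [hcs i hi, hds i hi, add_zero], by simp [add_smul, Finset.sum_add_distrib]⟩
    · rintro t ht x ⟨c, hc, hcs, rfl⟩
      exact ⟨fun i => t * c i, fun i => mul_nonneg ht (hc i), fun i hi => by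
        show t * c i = 0
        rw [hcs i hi, mul_zero], by simp [mul_smul, Finset.smul_sum]⟩
    · rintro x ⟨c, hc, rfl⟩ y ⟨d, hd, rfl⟩ ⟨e, he, hes, hxy⟩
      refine ⟨c, hc, fun i hi => ?_, rfl⟩
      have h1 : (fun i => c i + d i) = e := by
        apply H4.uniq hv
        simp only [add_smul, Finset.sum_add_distrib]
        exact hxy
      have h3 : c i + d i = e i := congrFun h1 i
      rw [hes i hi] at h3
      have h4 := hc i
      have h5 := hd i
      linarith
    · have hli : LinearIndependent ℝ (fun i : s => v i) := hv.comp _ Subtype.val_injective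
      have h1 := finrank_span_eq_card hli
      rw [Fintype.card_coe] at h1
      suffices hsp : Submodule.span ℝ (cnS v s) = Submodule.span ℝ (Set.range fun i : s => v i) by
        unfold sdim
        rw [hsp]
        exact h1
      apply le_antisymm
      · rw [Submodule.span_le]
        rintro x ⟨c, hc, hcs, rfl⟩
        refine Submodule.sum_mem _ fun i _ => ?_
        by_cases hi : i ∈ s
        · exact Submodule.smul_mem _ _ (Submodule.subset_span ⟨⟨i, hi⟩, rfl⟩)
        · rw [hcs i hi, zero_smul]
          exact Submodule.zero_mem _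
      · rw [Submodule.span_le]
        rintro _ ⟨i, rfl⟩
        refine Submodule.subset_span ⟨Pi.single i.1 1, fun j => ?_, fun j hj => ?_, ?_⟩
        · by_cases hj : j = i.1
          · rw [hj, Pi.single_eq_same]
            exact zero_le_one
          · rw [Pi.single_eq_of_ne hj]
        · have : j ≠ i.1 := by
            rintro rfl
            exact hj i.2
          rw [Pi.single_eq_of_ne this]
        · rw [← H4.single, one_smul]
  · intro F hF
    refine ⟨Finset.univ.filter fun i => v i ∈ F, Set.Subset.antisymm ?_ ?_⟩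
    · intro x hx
      obtain ⟨c, hc, rfl⟩ := hF.sub hx
      refine ⟨c, hc, fun i hi => ?_, rfl⟩
      by_contra h0
      apply hi
      rw [Finset.mem_filter]
      refine ⟨Finset.mem_univ i, ?_⟩
      have hpos : 0 < c i := lt_of_le_of_ne (hc i) (Ne.symm h0)
      rw [← Finset.add_sum_erase _ _ (Finset.mem_univ i)] at hx
      refine face_rel (cn_cone v) hF (mem_cn v i) ?_ hpos hx
      exact H4.sum_mem (cn_cone v) _ _ fun j _ => (cn_cone v).smul _ (hc j) _ (mem_cn v j)
    · rintro x ⟨c, hc, hcs, rfl⟩
      refine H4.sum_mem hF.cone _ _ fun i _ => ?_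
      by_cases hi : i ∈ Finset.univ.filter fun i => v i ∈ F
      · exact hF.cone.smul _ (hc i) _ (Finset.mem_filter.1 hi).2
      · rw [hcs i hi, zero_smul]
        exact hF.cone.zero
  · rintro b ⟨⟨c, hc, hb⟩, hb0, hbe⟩
    obtain ⟨i, hi⟩ : ∃ i, c i ≠ 0 := by
      by_contra h
      push Not at h
      apply hb0
      rw [hb]
      simp [h]
    have hpos : 0 < c i := lt_of_le_of_ne (hc i) (Ne.symm hi)
    have h1 : c i • v i + ∑ j ∈ Finset.univ.erase i, c j • v j = b := by
      rw [hb]
      exact Finset.add_sum_erase _ (fun j => c j • v j) (Finset.mem_univ i)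
    obtain ⟨t, ht⟩ := hbe _ ((cn_cone v).smul _ hpos.le _ (mem_cn v i)) _
      (H4.sum_mem (cn_cone v) _ _ fun j _ => (cn_cone v).smul _ (hc j) _ (mem_cn v j)) h1
    have h2 : (Pi.single i (c i) : Fin n → ℝ) = fun j => t * c j := by
      apply H4.uniq hv
      rw [← H4.single, ht, hb, Finset.smul_sum]
      simp only [smul_smul]
    have h3 : _ = t * c i := congrFun h2 i
    rw [Pi.single_eq_same] at h3
    have ht1 : t = 1 := by
      have : (t - 1) * c i = 0 := by
        linarith
      rcases mul_eq_zero.1 this with h4 | h4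
      · linarith
      · exact absurd h4 hi
    refine ⟨i, c i, hpos, ?_⟩
    rw [ht, ht1, one_smul]

theorem tGen (h1 : KMStmt) (h2 : CnStmt) : GenStmt := by
  intro E _ _ _ L hL n v hv hvL hb
  obtain ⟨q1, _, _, _, _⟩ := h2 E n v hv
  refine Set.Subset.antisymm (h1 E L (cn v) hL (cn_cone v) q1.closed fun b hbe => ?_) (cn_sub hL.cone hvL)
  obtain ⟨i, t, ht, rfl⟩ := hb b hbe
  exact (cn_cone v).smul t ht.le _ (mem_cn v i)

end D1

end TightRP
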