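import Pool.Agent.Lib.MP_7cdc3e_gt.C.D1.Spec

/-!
# MP_7cdc3e_gt, C/D1: the projected cone `π(L)` is closed, pointed and three dimensional
-/

namespace TightRP.D1

theorem del_face {E : Type} [AddCommGroup E] [Module ℝ E] {L : Set E} (hL : IsCone L)
    (e : E →ₗ[ℝ] ℝ) (he : ∀ l ∈ L, 0 ≤ e l) : Face L {l | l ∈ L ∧ e l = 0} := by
  refine ⟨⟨⟨hL.zero, map_zero e⟩, ?_, ?_⟩, fun x hx => hx.1, ?_⟩
  · rintro x ⟨hx, hx0⟩ y ⟨hy, hy0⟩
    exact ⟨hL.add x hx y hy, by rw [map_add, hx0, hy0, add_zero]⟩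
  · rintro t ht x ⟨hx, hx0⟩
    exact ⟨hL.smul t ht x hx, by rw [map_smul, hx0, smul_zero]⟩
  · rintro x hx y hy ⟨_, h0⟩
    have h1 := he x hx
    have h2 := he y hy
    rw [map_add] at h0
    exact ⟨hx, by linarith⟩

theorem del_img {E E' : Type} [AddCommGroup E] [Module ℝ E] [AddCommGroup E'] [Module ℝ E']
    {L : Set E} (hL : IsCone L) (f : E →ₗ[ℝ] E') : IsCone (f '' L) := by
  refine ⟨⟨0, hL.zero, map_zero f⟩, ?_, ?_⟩
  · rintro _ ⟨x, hx, rfl⟩ _ ⟨y, hy, rfl⟩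
    exact ⟨x + y, hL.add x hx y hy, map_add f x y⟩
  · rintro t ht _ ⟨x, hx, rfl⟩
    exact ⟨t • x, hL.smul t ht x hx, map_smul f t x⟩

theorem tDel (h1 : PosStmt) (h2 : ImgStmt) (h3 : FaceCStmt) : DelStmt := by
  intro E _ _ _ L Z R π hS hM hπ
  obtain ⟨c, hc⟩ := h1 E L hS.cpc
  have hcR : PosOn R c := fun r hr h0 => hc r (hM.1.sub hr) h0
  obtain ⟨e, he1, he2, he3, he4⟩ := hπ.ev c hcR
  have hF : Face L {l | l ∈ L ∧ e l = 0} := del_face hS.cpc.cone e he2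
  have hC := h3 E L _ hS.cpc hF
  have hker : ∀ x ∈ {l | l ∈ L ∧ e l = 0}, π x = 0 → x = 0 := by
    rintro x ⟨hx, hx0⟩ hπ0
    by_contra hne
    have hxR : x ∈ R := (hπ.ker x).2 ⟨hx, hπ0⟩
    have h1 := hcR x hxR hne
    rw [← he1 x hπ0, hx0] at h1
    exact lt_irrefl _ h1
  have himg : π '' L = π '' {l | l ∈ L ∧ e l = 0} := by
    ext y
    constructor
    · rintro ⟨l, hl, rfl⟩
      obtain ⟨m, hm, hm0, hml⟩ := he4 l hl
      exact ⟨m, ⟨hm, hm0⟩, hml⟩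
    · rintro ⟨l, hl, rfl⟩
      exact ⟨l, hl.1, rfl⟩
  refine ⟨⟨del_img hS.cpc.cone π, ?_, ?_⟩, ?_⟩
  · rw [himg]
    exact h2 E (Fin 3 → ℝ) _ π hC hker
  · rw [himg]
    rintro _ ⟨x, hx, rfl⟩ ⟨y, hy, hxy⟩
    have hsum : x + y ∈ {l | l ∈ L ∧ e l = 0} := hC.cone.add x hx y hy
    have h0 : π (x + y) = 0 := by rw [map_add, hxy, add_neg_cancel]
    have h00 := hker _ hsum h0
    have hyx : y = -x := by
      rw [add_comm] at h00
      exact eq_neg_of_add_eq_zero_left h00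
    have hx0 : x = 0 := hC.pointed x hx (by rw [← hyx]; exact hy)
    rw [hx0, map_zero]
  · unfold sdim
    have hsp : Submodule.span ℝ (π '' L) = ⊤ := by
      rw [Submodule.span_image, hS.span, Submodule.map_top, LinearMap.range_eq_top]
      exact hπ.surj
    rw [hsp, finrank_top, Module.finrank_fin_fun]

end TightRP.D1
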