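import Pool.Agent.Lib.MP_7cdc3e_gt.C.D1.AuxH4

/-! # C32, D1: Dep -/

namespace TightRP

namespace D1

open H4

/-- a relation with at most one negative coefficient -/
theorem dep_aux {E : Type} [AddCommGroup E] [Module ℝ E] {L : Set E}
    (hp : ∀ x ∈ L, -x ∈ L → x = 0) (hL : IsCone L) {a b c : E} (ha : Extr L a) (hb : Extr L b)
    (hc : Extr L c) (hab : NP a b) (hac : NP a c) (hbc : NP b c) {α β γ : ℝ}
    (h : α • a + β • b + γ • c = 0) (hβ : 0 ≤ β) (hγ : 0 ≤ γ) : α = 0 ∧ β = 0 ∧ γ = 0 := by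
  rcases lt_trichotomy α 0 with hα | hα | hα
  · exfalso
    have h1 : (-α) • a = β • b + γ • c := by
      rw [neg_smul, neg_eq_iff_add_eq_zero, ← add_assoc]
      exact h
    rcases hβ.eq_or_lt with h2 | h2
    · rw [← h2, zero_smul, zero_add] at h1
      rcases hγ.eq_or_lt with h3 | h3
      · rw [← h3, zero_smul] at h1
        rcases smul_eq_zero.1 h1 with h4 | h4
        · linarith
        · exact ha.2.1 h4
      · exact ext_rel hL ha hc.1 hL.zero (np_symm hac) h3 (by linarith : 0 < -α)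
          (by rw [h1, add_zero])
    · exact ext_rel hL ha hb.1 (hL.smul γ hγ c hc.1) (np_symm hab) h2 (by linarith : 0 < -α) h1
  · rw [hα, zero_smul, zero_add] at h
    obtain ⟨h1, h2⟩ := np_iff.1 hbc _ _ h
    exact ⟨hα, h1, h2⟩
  · exfalso
    refine pos_rel hp hL ha.1 ha.2.1 (hL.add _ (hL.smul β hβ b hb.1) _ (hL.smul γ hγ c hc.1)) hα ?_
    rw [← add_assoc]
    exact h

theorem dep_main {E : Type} [AddCommGroup E] [Module ℝ E] {L : Set E}
    (hp : ∀ x ∈ L, -x ∈ L → x = 0) (hL : IsCone L) {a b c : E} (ha : Extr L a) (hb : Extr L b)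
    (hc : Extr L c) (hab : NP a b) (hac : NP a c) (hbc : NP b c) {α β γ : ℝ}
    (h : α • a + β • b + γ • c = 0) : α = 0 ∧ β = 0 ∧ γ = 0 := by
  have hneg : (-α) • a + (-β) • b + (-γ) • c = 0 := by
    rw [neg_smul, neg_smul, neg_smul, ← neg_add, ← neg_add, h, neg_zero]
  rcases le_total 0 α with h1 | h1 <;> rcases le_total 0 β with h2 | h2 <;>
    rcases le_total 0 γ with h3 | h3
  · exact dep_aux hp hL ha hb hc hab hac hbc h h2 h3
  · obtain ⟨q1, q2, q3⟩ := dep_aux hp hL hc ha hb (np_symm hac) (np_symm hbc) hab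
      (α := γ) (β := α) (γ := β) (by rw [← h]; abel) h1 h2
    exact ⟨q2, q3, q1⟩
  · obtain ⟨q1, q2, q3⟩ := dep_aux hp hL hb ha hc (np_symm hab) hbc hac
      (α := β) (β := α) (γ := γ) (by rw [← h]; abel) h1 h3
    exact ⟨q2, q1, q3⟩
  · obtain ⟨q1, q2, q3⟩ := dep_aux hp hL ha hb hc hab hac hbc hneg (by linarith) (by linarith)
    exact ⟨by linarith, by linarith, by linarith⟩
  · exact dep_aux hp hL ha hb hc hab hac hbc h h2 h3
  · obtain ⟨q1, q2, q3⟩ := dep_aux hp hL hb ha hc (np_symm hab) hbc hac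
      (α := -β) (β := -α) (γ := -γ) (by rw [← hneg]; abel) (by linarith) (by linarith)
    exact ⟨by linarith, by linarith, by linarith⟩
  · obtain ⟨q1, q2, q3⟩ := dep_aux hp hL hc ha hb (np_symm hac) (np_symm hbc) hab
      (α := -γ) (β := -α) (γ := -β) (by rw [← hneg]; abel) (by linarith) (by linarith)
    exact ⟨by linarith, by linarith, by linarith⟩
  · obtain ⟨q1, q2, q3⟩ := dep_aux hp hL ha hb hc hab hac hbc hneg (by linarith) (by linarith)
    exact ⟨by linarith, by linarith, by linarith⟩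

theorem tDep : DepStmt := by
  intro E _ _ _ L hL a b c ha hb hc hab hac hbc
  rw [Fintype.linearIndependent_iff]
  intro g hg
  rw [Fin.sum_univ_three] at hg
  obtain ⟨h1, h2, h3⟩ := dep_main hL.pointed hL.cone ha hb hc hab hac hbc hg
  intro i
  fin_cases i
  · exact h1
  · exact h2
  · exact h3

end D1

end TightRP
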