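import Pool.Agent.Lib.MP_7cdc3e_gt.C.D1.Spec

/-!
# D1/Dir: faces of a direct sum
-/

set_option autoImplicit false

namespace TightRP

namespace D1

private theorem dir_sdim {E : Type} [NormedAddCommGroup E] [NormedSpace ℝ E]
    [FiniteDimensional ℝ E] {G A' B' : Set E} (hA : (0 : E) ∈ A') (hB : (0 : E) ∈ B')
    (hG : ∀ x, x ∈ G ↔ ∃ a ∈ A', ∃ b ∈ B', x = a + b)
    (hd : Submodule.span ℝ A' ⊓ Submodule.span ℝ B' = ⊥) : sdim G = sdim A' + sdim B' := by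
  have h1 : Submodule.span ℝ G = Submodule.span ℝ A' ⊔ Submodule.span ℝ B' := by
    apply le_antisymm
    · rw [Submodule.span_le]
      intro x hx
      obtain ⟨a, ha, b, hb, rfl⟩ := (hG x).mp hx
      exact Submodule.add_mem_sup (Submodule.subset_span ha) (Submodule.subset_span hb)
    · rw [sup_le_iff, Submodule.span_le, Submodule.span_le]
      constructor
      · intro a ha
        exact Submodule.subset_span ((hG a).mpr ⟨a, ha, 0, hB, (add_zero a).symm⟩)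
      · intro b hb
        exact Submodule.subset_span ((hG b).mpr ⟨0, hA, b, hb, (zero_add b).symm⟩)
  have h2 := Submodule.finrank_sup_add_finrank_inf_eq (Submodule.span ℝ A') (Submodule.span ℝ B')
  rw [hd, finrank_bot, add_zero, ← h1] at h2
  exact h2

private theorem dir_uniq {E : Type} [NormedAddCommGroup E] [NormedSpace ℝ E] {A B : Set E}
    (hd : Submodule.span ℝ A ⊓ Submodule.span ℝ B = ⊥) {a a' b b' : E} (ha : a ∈ A)
    (ha' : a' ∈ A) (hb : b ∈ B) (hb' : b' ∈ B) (h : a + b = a' + b') : a = a' ∧ b = b' := by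
  have h1 : a - a' = b' - b := by
    rw [sub_eq_sub_iff_add_eq_add, h, add_comm]
  have h2 : a - a' ∈ Submodule.span ℝ A ⊓ Submodule.span ℝ B := by
    refine ⟨Submodule.sub_mem _ (Submodule.subset_span ha) (Submodule.subset_span ha'), ?_⟩
    rw [h1]
    exact Submodule.sub_mem _ (Submodule.subset_span hb') (Submodule.subset_span hb)
  rw [hd, Submodule.mem_bot] at h2
  refine ⟨sub_eq_zero.mp h2, ?_⟩
  rw [h2] at h1
  exact (sub_eq_zero.mp h1.symm).symm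

/-- G14. -/
theorem tDir : DirStmt := by
  intro E _ _ _ L A B hA hB hL hd
  have hAL : ∀ a ∈ A, a ∈ L := fun a ha => (hL a).mpr ⟨a, ha, 0, hB.zero, (add_zero a).symm⟩
  have hBL : ∀ b ∈ B, b ∈ L := fun b hb => (hL b).mpr ⟨0, hA.zero, b, hb, (zero_add b).symm⟩
  have hd' : ∀ A' B' : Set E, A' ⊆ A → B' ⊆ B →
      Submodule.span ℝ A' ⊓ Submodule.span ℝ B' = ⊥ := by
    intro A' B' h1 h2
    rw [eq_bot_iff, ← hd]
    exact inf_le_inf (Submodule.span_mono h1) (Submodule.span_mono h2)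
  constructor
  · intro A' B' fA fB
    refine ⟨⟨⟨?_, ?_, ?_⟩, ?_, ?_⟩, ?_⟩
    · exact ⟨0, fA.cone.zero, 0, fB.cone.zero, (add_zero 0).symm⟩
    · rintro x ⟨a, ha, b, hb, rfl⟩ y ⟨a', ha', b', hb', rfl⟩
      exact ⟨a + a', fA.cone.add a ha a' ha', b + b', fB.cone.add b hb b' hb', by abel⟩
    · rintro c hc x ⟨a, ha, b, hb, rfl⟩
      exact ⟨c • a, fA.cone.smul c hc a ha, c • b, fB.cone.smul c hc b hb, smul_add c a b⟩
    · rintro x ⟨a, ha, b, hb, rfl⟩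
      exact (hL _).mpr ⟨a, fA.sub ha, b, fB.sub hb, rfl⟩
    · rintro x hx y hy ⟨a, ha, b, hb, hxy⟩
      obtain ⟨a₁, ha₁, b₁, hb₁, rfl⟩ := (hL x).mp hx
      obtain ⟨a₂, ha₂, b₂, hb₂, rfl⟩ := (hL y).mp hy
      have h1 : (a₁ + a₂) + (b₁ + b₂) = a + b := by
        rw [← hxy]
        abel
      obtain ⟨h2, h3⟩ := dir_uniq hd (hA.add a₁ ha₁ a₂ ha₂) (fA.sub ha) (hB.add b₁ hb₁ b₂ hb₂)
        (fB.sub hb) h1
      exact ⟨a₁, fA.ext a₁ ha₁ a₂ ha₂ (h2 ▸ ha), b₁, fB.ext b₁ hb₁ b₂ hb₂ (h3 ▸ hb), rfl⟩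
    · exact dir_sdim fA.cone.zero fB.cone.zero (fun x => Iff.rfl) (hd' A' B' fA.sub fB.sub)
  · intro G fG
    have hG : ∀ x, x ∈ G ↔ ∃ a ∈ G ∩ A, ∃ b ∈ G ∩ B, x = a + b := by
      intro x
      constructor
      · intro hx
        obtain ⟨a, ha, b, hb, rfl⟩ := (hL x).mp (fG.sub hx)
        exact ⟨a, ⟨fG.ext a (hAL a ha) b (hBL b hb) hx, ha⟩, b,
          ⟨fG.ext b (hBL b hb) a (hAL a ha) (by rw [add_comm]; exact hx), hb⟩, rfl⟩
      · rintro ⟨a, ha, b, hb, rfl⟩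
        exact fG.cone.add a ha.1 b hb.1
    refine ⟨⟨⟨⟨fG.cone.zero, hA.zero⟩, ?_, ?_⟩, fun x hx => hx.2, ?_⟩,
      ⟨⟨⟨fG.cone.zero, hB.zero⟩, ?_, ?_⟩, fun x hx => hx.2, ?_⟩, hG, ?_⟩
    · exact fun x hx y hy => ⟨fG.cone.add x hx.1 y hy.1, hA.add x hx.2 y hy.2⟩
    · exact fun c hc x hx => ⟨fG.cone.smul c hc x hx.1, hA.smul c hc x hx.2⟩
    · exact fun x hx y hy hxy => ⟨fG.ext x (hAL x hx) y (hAL y hy) hxy.1, hx⟩
    · exact fun x hx y hy => ⟨fG.cone.add x hx.1 y hy.1, hB.add x hx.2 y hy.2⟩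
    · exact fun c hc x hx => ⟨fG.cone.smul c hc x hx.1, hB.smul c hc x hx.2⟩
    · exact fun x hx y hy hxy => ⟨fG.ext x (hBL x hx) y (hBL y hy) hxy.1, hx⟩
    · exact dir_sdim ⟨fG.cone.zero, hA.zero⟩ ⟨fG.cone.zero, hB.zero⟩ hG
        (hd' _ _ (fun x hx => hx.2) (fun x hx => hx.2))

end D1

end TightRP
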