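import Pool.Agent.Lib.MP_7cdc3e_gt.C.D1.Spec

/-!
# MP_7cdc3e_gt, C/D1: evaluations with lines
-/

namespace TightRP.D1

theorem ev_face {E : Type} [AddCommGroup E] [Module ℝ E] {L : Set E} (hL : IsCone L)
    (e : E →ₗ[ℝ] ℝ) (he : ∀ l ∈ L, 0 ≤ e l) : Face L {l | l ∈ L ∧ e l = 0} := by
  refine ⟨⟨⟨hL.zero, map_zero e⟩, ?_, ?_⟩, fun x hx => hx.1, ?_⟩
  · rintro x ⟨hx, hx0⟩ y ⟨hy, hy0⟩
    exact ⟨hL.add x hx y hy, by rw [map_add, hx0, hy0, add_zero]⟩
  · rintro t ht x ⟨hx, hx0⟩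
    exact ⟨hL.smul t ht x hx, by rw [map_smul, hx0, smul_zero]⟩
  · rintro x hx y hy ⟨_, h0⟩
    have h1 := he x hx
    have h2 := he y hy
    rw [map_add] at h0
    exact ⟨hx, by linarith⟩

theorem ev_img {E E' : Type} [AddCommGroup E] [Module ℝ E] [AddCommGroup E'] [Module ℝ E']
    {L : Set E} (hL : IsCone L) (f : E →ₗ[ℝ] E') : IsCone (f '' L) := by
  refine ⟨⟨0, hL.zero, map_zero f⟩, ?_, ?_⟩
  · rintro _ ⟨x, hx, rfl⟩ _ ⟨y, hy, rfl⟩
    exact ⟨x + y, hL.add x hx y hy, map_add f x y⟩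
  · rintro t ht _ ⟨x, hx, rfl⟩
    exact ⟨t • x, hL.smul t ht x hx, map_smul f t x⟩

theorem tEv (h1 : DelStmt) (h2 : PhiStmt) (h3 : KMStmt) (h4 : ImgStmt)
    (h6 : FaceCStmt) : EvStmt := by
  intro E _ _ _ L Z R π hS hM hπ c hc
  obtain ⟨e, he1, he2, he3, he4⟩ := hπ.ev c hc
  obtain ⟨F, hF0, hF, hFZ, hF3⟩ := hS.line _ (ev_face hS.cpc.cone e he2) he3
  have hFC : CPC F := h6 E L F hS.cpc hF
  have hker : ∀ x ∈ F, π x = 0 → x = 0 := by
    intro x hx hπ0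
    by_contra hne
    have hxR : x ∈ R := (hπ.ker x).2 ⟨hF.sub hx, hπ0⟩
    have h7 := hc x hxR hne
    rw [← he1 x hπ0, (hF0 hx).2] at h7
    exact lt_irrefl _ h7
  have hcl : IsClosed (π '' F) := h4 E (Fin 3 → ℝ) F π hFC hker
  obtain ⟨hD, hD3⟩ := h1 E L Z R π hS hM hπ
  have hsub : π '' L ⊆ π '' F := by
    refine h3 (Fin 3 → ℝ) (π '' L) (π '' F) hD (ev_img hFC.cone π) hcl ?_
    intro lam hlam
    obtain ⟨hPf, hPZ, hRP, -, -, -, -⟩ := h2 E L Z R π hS hM hπ lam hlam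
    obtain ⟨x, hxF, ⟨hxL, t, ht, hxt⟩, hx0⟩ := hS.meet F (Phi L π lam) hF hPf hFZ hPZ
    have ht0 : t ≠ 0 := by
      rintro rfl
      rw [zero_smul] at hxt
      exact hx0 (hker x hxF hxt)
    refine ⟨t⁻¹ • x, hFC.cone.smul _ (inv_nonneg.2 ht) _ hxF, ?_⟩
    rw [map_smul, hxt, smul_smul, inv_mul_cancel₀ ht0, one_smul]
  refine ⟨e, F, he1, he2, ⟨hF, hFZ, hF3⟩, fun x hx => (hF0 hx).2, ?_, ?_⟩
  · intro l hl
    obtain ⟨m, hm, hml⟩ := hsub ⟨l, hl, rfl⟩
    exact ⟨m, hm, hml⟩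
  · -- injective on the span
    have hmap : Submodule.map π (Submodule.span ℝ F) = ⊤ := by
      rw [← Submodule.span_image]
      have h7 : Submodule.span ℝ (π '' L) ≤ Submodule.span ℝ (π '' F) := Submodule.span_mono hsub
      have h8 : Submodule.span ℝ (π '' L) = ⊤ := by
        apply Submodule.eq_top_of_finrank_eq
        rw [Module.finrank_fin_fun]
        exact hD3
      rw [h8] at h7
      exact top_le_iff.1 h7
    have hsurj : Function.Surjective (π.domRestrict (Submodule.span ℝ F)) := by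
      intro y
      have hy : y ∈ Submodule.map π (Submodule.span ℝ F) := by rw [hmap]; trivial
      obtain ⟨x, hx, hxy⟩ := hy
      exact ⟨⟨x, hx⟩, hxy⟩
    have hinj : Function.Injective (π.domRestrict (Submodule.span ℝ F)) := by
      refine (LinearMap.injective_iff_surjective_of_finrank_eq_finrank ?_).2 hsurj
      rw [Module.finrank_fin_fun]
      exact hF3
    intro x hx hx0
    have h9 : (⟨x, hx⟩ : Submodule.span ℝ F) = 0 := by
      apply hinj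
      rw [map_zero]
      exact hx0
    exact congrArg Subtype.val h9

end TightRP.D1
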