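import Pool.Agent.Lib.MP_7cdc3e_gt.C.D1.Spec

/-!
# MP_7cdc3e_gt, C/D1: a face inside `Z` of the largest dimension
-/

namespace TightRP.D1

theorem exMax_zero {E : Type} [NormedAddCommGroup E] [NormedSpace ℝ E] {L : Set E}
    (hL : CPC L) : Face L {(0 : E)} := by
  refine ⟨⟨rfl, ?_, ?_⟩, ?_, ?_⟩
  · rintro x hx y hy
    rw [Set.mem_singleton_iff] at *
    rw [hx, hy, add_zero]
  · rintro c _ x hx
    rw [Set.mem_singleton_iff] at *
    rw [hx, smul_zero]
  · rintro x hx
    rw [Set.mem_singleton_iff] at hx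
    rw [hx]; exact hL.cone.zero
  · intro x hx y hy hxy
    rw [Set.mem_singleton_iff] at *
    apply hL.pointed x hx
    have : -x = y := by rw [neg_eq_iff_add_eq_zero]; exact hxy
    rw [this]; exact hy

theorem exMax_ray {E : Type} [NormedAddCommGroup E] [NormedSpace ℝ E] {L : Set E}
    (hL : CPC L) {b : E} (hb : Extr L b) : Face L {x | ∃ t : ℝ, 0 ≤ t ∧ x = t • b} := by
  obtain ⟨hbL, hb0, hbE⟩ := hb
  refine ⟨⟨⟨0, le_rfl, by rw [zero_smul]⟩, ?_, ?_⟩, ?_, ?_⟩
  · rintro _ ⟨s, hs, rfl⟩ _ ⟨t, ht, rfl⟩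
    exact ⟨s + t, add_nonneg hs ht, by rw [add_smul]⟩
  · rintro c hc _ ⟨s, hs, rfl⟩
    exact ⟨c * s, mul_nonneg hc hs, by rw [smul_smul]⟩
  · rintro _ ⟨s, hs, rfl⟩
    exact hL.cone.smul s hs b hbL
  · rintro x hx y hy ⟨t, ht, hxy⟩
    rcases ht.eq_or_lt with h | h
    · subst h
      rw [zero_smul] at hxy
      have hx0 : x = 0 := by
        apply hL.pointed x hx
        have : -x = y := by rw [neg_eq_iff_add_eq_zero]; exact hxy
        rw [this]; exact hy
      exact ⟨0, le_rfl, by rw [hx0, zero_smul]⟩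
    · obtain ⟨s, hs⟩ := hbE (t⁻¹ • x) (hL.cone.smul _ (inv_nonneg.2 ht) _ hx)
        (t⁻¹ • y) (hL.cone.smul _ (inv_nonneg.2 ht) _ hy) (by
          rw [← smul_add, hxy, smul_smul, inv_mul_cancel₀ h.ne', one_smul])
      have hx' : x = (t * s) • b := by
        rw [mul_smul, ← hs, smul_smul, mul_inv_cancel₀ h.ne', one_smul]
      refine ⟨t * s, ?_, hx'⟩
      by_contra hneg
      push Not at hneg
      have h1 : (-(t * s))⁻¹ • x ∈ L := hL.cone.smul _ (inv_nonneg.2 (by linarith)) _ hx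
      have h2 : (-(t * s))⁻¹ • x = -b := by
        rw [hx', smul_smul]
        have : (-(t * s))⁻¹ * (t * s) = -1 := by
          rw [inv_neg, neg_mul, inv_mul_cancel₀ hneg.ne]
        rw [this, neg_one_smul]
      rw [h2] at h1
      exact hb0 (hL.pointed b hbL h1)

theorem tExMax (h1 : FaceStmt) (h2 : BasStmt) : ExMaxStmt := by
  intro E _ _ _ L Z hS
  classical
  have hsmall : ∀ F, Face L F → sdim F ≤ 2 → F ⊆ Z := by
    intro F hF hd
    by_contra hcon
    obtain ⟨G, hG, -, -, hG3⟩ := hS.line F hF hcon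
    have : sdim G ≤ sdim F := Submodule.finrank_mono (Submodule.span_mono hG)
    omega
  -- an extreme vector
  obtain ⟨b, hbi, hbE⟩ := h2 E L hS.cpc
  have hL6 : sdim L = 6 := by
    unfold sdim
    rw [hS.span, finrank_top, hS.dim]
  have i0 : Fin (sdim L) := ⟨0, by omega⟩
  have hray := exMax_ray hS.cpc (hbE i0)
  have hraydim : sdim {x | ∃ t : ℝ, 0 ≤ t ∧ x = t • b i0} = 1 := by
    unfold sdim
    have : Submodule.span ℝ {x | ∃ t : ℝ, 0 ≤ t ∧ x = t • b i0} = Submodule.span ℝ {b i0} := by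
      apply le_antisymm
      · refine Submodule.span_le.2 ?_
        rintro _ ⟨t, _, rfl⟩
        exact Submodule.smul_mem _ _ (Submodule.mem_span_singleton_self _)
      · refine Submodule.span_mono ?_
        rintro x hx
        rw [Set.mem_singleton_iff] at hx
        exact ⟨1, zero_le_one, by rw [hx, one_smul]⟩
    rw [this, finrank_span_singleton (hbE i0).2.1]
  have hrayZ := hsmall _ hray (by omega)
  -- the largest dimension
  have hbd : ∀ F : Set E, sdim F ≤ 6 := by
    intro F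
    rw [← hS.dim]
    exact Submodule.finrank_le _
  let P : ℕ → Prop := fun k => ∃ F, Face L F ∧ F ⊆ Z ∧ sdim F = k
  have hP1 : P 1 := ⟨_, hray, hrayZ, hraydim⟩
  have hPb : ∀ k, P k → k ≤ 6 := by
    rintro k ⟨F, -, -, rfl⟩
    exact hbd F
  obtain ⟨R, hRF, hRZ, hRd⟩ : P (Nat.findGreatest P 6) := Nat.findGreatest_spec (by norm_num) hP1
  have hmax : ∀ F, Face L F → F ⊆ Z → sdim F ≤ sdim R := by
    intro F hF hFZ
    rw [hRd]
    exact Nat.le_findGreatest (hbd F) ⟨F, hF, hFZ, rfl⟩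
  have hR1 : 1 ≤ sdim R := by
    rw [← hraydim]
    exact hmax _ hray hrayZ
  have hR0 : R ≠ {0} := by
    intro h
    rw [h] at hR1
    unfold sdim at hR1
    rw [Submodule.span_zero_singleton, finrank_bot] at hR1
    omega
  have hM : MaxZ L Z R := by
    refine ⟨hRF, hRZ, hR0, ?_⟩
    intro R' hR' hRR' hR'Z
    exact ((h1 E L R hRF).2.1 R' hR' hRR' (hmax R' hR' hR'Z)).symm
  refine ⟨R, hM, hR1, ?_, hmax⟩
  obtain ⟨π, hπ⟩ := hS.sec R hM hmax
  have hRk : Submodule.span ℝ R ≤ LinearMap.ker π := by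
    refine Submodule.span_le.2 ?_
    intro x hx
    exact ((hπ.ker x).1 hx).2
  have hk : Module.finrank ℝ (LinearMap.ker π) = 3 := by
    have h := LinearMap.finrank_range_add_finrank_ker π
    rw [LinearMap.range_eq_top.2 hπ.surj, finrank_top, Module.finrank_fin_fun, hS.dim] at h
    omega
  rw [← hk]
  exact Submodule.finrank_mono hRk

end TightRP.D1
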