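import Pool.Agent.Lib.MP_7cdc3e_gt.C.D1.AuxH4

/-! # C32, D1: Face -/

namespace TightRP

namespace D1

open H4

theorem face_sub {E : Type} [AddCommGroup E] [Module ℝ E] {F : Set E} (hF : IsCone F) :
    ∀ x ∈ Submodule.span ℝ F, ∃ a ∈ F, ∃ b ∈ F, x = a - b := by
  intro x hx
  induction hx using Submodule.span_induction with
  | mem x hx => exact ⟨x, hx, 0, hF.zero, by simp⟩
  | zero => exact ⟨0, hF.zero, 0, hF.zero, by simp⟩
  | add x y _ _ hx hy =>
    obtain ⟨a, ha, b, hb, rfl⟩ := hx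
    obtain ⟨c, hc, d, hd, rfl⟩ := hy
    exact ⟨a + c, hF.add a ha c hc, b + d, hF.add b hb d hd, by abel⟩
  | smul t x _ hx =>
    obtain ⟨a, ha, b, hb, rfl⟩ := hx
    rcases le_total 0 t with ht | ht
    · exact ⟨t • a, hF.smul t ht a ha, t • b, hF.smul t ht b hb, by rw [smul_sub]⟩
    · refine ⟨(-t) • b, hF.smul _ (by linarith) b hb, (-t) • a, hF.smul _ (by linarith) a ha, ?_⟩
      rw [smul_sub, neg_smul, neg_smul]
      abel

theorem face_span {E : Type} [AddCommGroup E] [Module ℝ E] {L F : Set E} (hF : Face L F) :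
    ∀ x ∈ L, x ∈ Submodule.span ℝ F → x ∈ F := by
  intro x hx hxs
  obtain ⟨a, ha, b, hb, rfl⟩ := face_sub hF.cone x hxs
  exact hF.ext (a - b) hx b (hF.sub hb) (by rwa [sub_add_cancel])

theorem face_ext' {E : Type} [AddCommGroup E] [Module ℝ E] {L F : Set E} (hF : Face L F) {x y : E}
    (hx : x ∈ L) (hy : y ∈ L) (h : x + y ∈ F) : x ∈ F ∧ y ∈ F :=
  ⟨hF.ext x hx y hy h, hF.ext y hy x hx (by rwa [add_comm])⟩

theorem tFace : FaceStmt := by
  intro E _ _ _ L F hF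
  refine ⟨face_span hF, ?_, ?_, ?_, ?_, ?_⟩
  · intro G hG hFG hd
    refine Set.Subset.antisymm hFG fun g hg => ?_
    have h1 : Submodule.span ℝ F = Submodule.span ℝ G :=
      Submodule.eq_of_le_of_finrank_le (Submodule.span_mono hFG) hd
    refine face_span hF g (hG.sub hg) ?_
    rw [h1]
    exact Submodule.subset_span hg
  · intro G hG
    refine ⟨hG.cone, hG.sub.trans hF.sub, fun x hx y hy h => ?_⟩
    obtain ⟨h1, h2⟩ := face_ext' hF hx hy (hG.sub h)
    exact hG.ext x h1 y h2 h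
  · intro G hG
    refine ⟨⟨⟨hF.cone.zero, hG.cone.zero⟩, fun x hx y hy => ⟨hF.cone.add x hx.1 y hy.1,
      hG.cone.add x hx.2 y hy.2⟩, fun c hc x hx => ⟨hF.cone.smul c hc x hx.1, hG.cone.smul c hc x hx.2⟩⟩,
      fun x hx => hF.sub hx.1, fun x hx y hy h => ⟨hF.ext x hx y hy h.1, hG.ext x hx y hy h.2⟩⟩
  · rintro b ⟨hb, hb0, hbe⟩
    refine ⟨hF.sub hb, hb0, fun x hx y hy hxy => ?_⟩
    obtain ⟨h1, h2⟩ := face_ext' hF hx hy (by rwa [hxy])
    exact hbe x h1 y h2 hxy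
  · intro G hG hGF
    exact ⟨hG.cone, hGF, fun x hx y hy h => hG.ext x (hF.sub hx) y (hF.sub hy) h⟩

theorem tFaceC (h1 : FaceStmt) : FaceCStmt := by
  intro E _ _ _ L F hL hF
  refine ⟨hF.cone, ?_, fun x hx hx' => hL.pointed x (hF.sub hx) (hF.sub hx')⟩
  have h2 : F = L ∩ (Submodule.span ℝ F : Set E) := by
    ext x
    exact ⟨fun hx => ⟨hF.sub hx, Submodule.subset_span hx⟩, fun hx => (h1 E L F hF).1 x hx.1 hx.2⟩
  rw [h2]
  exact hL.closed.inter (Submodule.closed_of_finiteDimensional _)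

end D1

end TightRP
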