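import Pool.Agent.Lib.MP_7cdc3e_gt.C.D1.AuxH4

/-! # C32, D1: Img -/

namespace TightRP

namespace D1

open H4

theorem tImg : ImgStmt := by
  intro E E' _ _ _ _ _ _ L f hL hf
  obtain ⟨δ, hδ, hδf⟩ := exists_delta hL f hf
  have hc : Continuous f := f.continuous_of_finiteDimensional
  rw [← closure_subset_iff_isClosed]
  intro y hy
  have hK : IsCompact (f '' (L ∩ Metric.closedBall 0 ((‖y‖ + 1) / δ))) :=
    ((isCompact_closedBall (0 : E) _).inter_left hL.closed).image hc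
  have h1 : y ∈ closure (f '' (L ∩ Metric.closedBall 0 ((‖y‖ + 1) / δ))) := by
    rw [Metric.mem_closure_iff] at hy ⊢
    intro ε hε
    obtain ⟨_, ⟨x, hx, rfl⟩, hd⟩ := hy (min ε 1) (lt_min hε one_pos)
    have hd1 := lt_of_lt_of_le hd (min_le_left _ _)
    have hd2 := lt_of_lt_of_le hd (min_le_right _ _)
    refine ⟨f x, ⟨x, ⟨hx, ?_⟩, rfl⟩, hd1⟩
    rw [mem_closedBall_zero_iff, le_div_iff₀ hδ]
    have h2 := hδf x hx
    have h3 : ‖f x‖ ≤ ‖y‖ + 1 := by
      have : f x = y - (y - f x) := by abel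
      rw [this]
      refine (norm_sub_le _ _).trans ?_
      rw [dist_eq_norm] at hd2
      linarith
    linarith
  rw [hK.isClosed.closure_eq] at h1
  obtain ⟨x, hx, rfl⟩ := h1
  exact ⟨x, hx.1, rfl⟩

end D1

end TightRP
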