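import Pool.Agent.Lib.MP_7cdc3e_gt.C.D1.JoinH

/-!
# D1/JoinT: at most two faces join two disjoint faces
-/

set_option autoImplicit false

namespace TightRP

namespace D1

open JoinH

theorem JoinT_pts {E : Type} [NormedAddCommGroup E] [NormedSpace ℝ E] [FiniteDimensional ℝ E]
    (hD : DepStmt) {R E₁ : Set E} (hR : CPC R) (hE₁ : Face R E₁) (hd : sdim E₁ ≤ 2)
    (p : Fin 3 → E) (hp : ∀ i, Extr R (p i)) (hpE : ∀ i, p i ∈ E₁) :
    ∃ i j, i ≠ j ∧ ¬ NP (p i) (p j) := by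
  by_contra hcon
  push Not at hcon
  have h1 := hD E R hR (p 0) (p 1) (p 2) (hp 0) (hp 1) (hp 2) (hcon 0 1 (by decide))
    (hcon 0 2 (by decide)) (hcon 1 2 (by decide))
  have h2 := three_le (hpE 0) (hpE 1) (hpE 2) h1
  have _ := hE₁
  omega

theorem tJoinT (h1 : AtTwoStmt) (h2 : TwoDStmt) (hD : DepStmt) (h4 : FaceStmt)
    (h5 : FaceCStmt) : JoinTStmt := by
  intro E _ _ _ R E₁ E₂ hR hR3 hE₁ hE₂ hd₁ hd₂ hdis A hA
  have hj := fun i => join h2 h4 h5 hR hE₁ hE₂ hdis (hA i).1 (hA i).2.1 (hA i).2.2.1 (hA i).2.2.2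
  choose p q hp hq hpq hApq hpE hqE using hj
  have hpA : ∀ i, p i ∈ A i := by
    intro i
    rw [hApq, cn2]
    exact ⟨1, 0, zero_le_one, le_rfl, by simp⟩
  have hqA : ∀ i, q i ∈ A i := by
    intro i
    rw [hApq, cn2]
    exact ⟨0, 1, le_rfl, zero_le_one, by simp⟩
  obtain ⟨i, j, hij, hnp⟩ := JoinT_pts hD hR hE₁ hd₁ p hp hpE
  obtain ⟨t, ht, hpj⟩ := pos_prop hR.cone hR.pointed (hp i).1 (hp j).1 (hp i).2.1 (hp j).2.1 hnp
  have hpiAj : p i ∈ A j := by
    apply cone_of_smul (hA j).1.cone ht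
    rw [← hpj]
    exact hpA j
  by_cases hs : sdim E₁ = 2
  · -- the third face is `E₁`
    obtain ⟨a, b, hab, hAB⟩ := h1 E R hR hR3 (p i) (hp i) ![A i, A j, E₁] (by
      intro k
      fin_cases k
      · exact ⟨(hA i).1, (hA i).2.1, hpA i⟩
      · exact ⟨(hA j).1, (hA j).2.1, hpiAj⟩
      · exact ⟨hE₁, hs, hpE i⟩)
    have hbad : ∀ k, A k ≠ E₁ := by
      intro k hk
      have h3 : q k ∈ E₁ := by
        rw [← hk]
        exact hqA k
      exact (hq k).2.1 (hdis _ h3 (hqE k))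
    fin_cases a <;> fin_cases b
    · exact absurd rfl hab
    · exact ⟨i, j, hij, hAB⟩
    · exact absurd hAB (hbad i)
    · exact ⟨j, i, hij.symm, hAB⟩
    · exact absurd rfl hab
    · exact absurd hAB (hbad j)
    · exact absurd hAB.symm (hbad i)
    · exact absurd hAB.symm (hbad j)
    · exact absurd rfl hab
  · -- all points are proportional
    apply h1 E R hR hR3 (p i) (hp i) A
    intro k
    refine ⟨(hA k).1, (hA k).2.1, ?_⟩
    have hnp2 : ¬ NP (p i) (p k) := by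
      intro hnp2
      have := two_le (hpE i) (hpE k) hnp2
      omega
    obtain ⟨s, hs, hpk⟩ := pos_prop hR.cone hR.pointed (hp i).1 (hp k).1 (hp i).2.1 (hp k).2.1 hnp2
    apply cone_of_smul (hA k).1.cone hs
    rw [← hpk]
    exact hpA k

end D1

end TightRP
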