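import Pool.Agent.Lib.MP_7cdc3e_gt.C.D1.JoinH

/-!
# D1/JoinTri: joining faces with a common vertex
-/

set_option autoImplicit false

namespace TightRP

namespace D1

open JoinH

theorem JoinTri_aux {E : Type} [NormedAddCommGroup E] [NormedSpace ℝ E] [FiniteDimensional ℝ E]
    (h2 : TwoDStmt) (hT : TriStmt) (hCn : CnStmt) (hFC : FaceCStmt) {R E₁ E₂ A B : Set E}
    (hR : CPC R) (hR3 : sdim R = 3) (hE₁ : Face R E₁) (hE₂ : Face R E₂) (hd₂ : sdim E₂ ≤ 2)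
    (hdis : ∀ x ∈ E₁, x ∈ E₂ → x = 0) (hA : Face R A) (hB : Face R B) {p q r s : E}
    (hp : Extr R p) (hq : Extr R q) (hs : Extr R s) (hpq : NP p q)
    (hApq : A = cn ![p, q]) (hBrs : B = cn ![r, s]) (hpE : p ∈ E₁) (hrE : r ∈ E₁)
    (hqE : q ∈ E₂) (hsE : s ∈ E₂) (hpB : p ∈ B) (hAB : ¬ A ⊆ B) :
    ∃ v x y, LinearIndependent ℝ ![v, x, y] ∧ R = cn ![v, x, y] ∧ A = cn ![v, x] ∧
      B = cn ![v, y] ∧ E₁ = cn ![v] ∧ E₂ = cn ![x, y] := by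
  have hsB : s ∈ B := by
    rw [hBrs, cn2]
    exact ⟨0, 1, le_rfl, zero_le_one, by simp⟩
  have hrB : r ∈ B := by
    rw [hBrs, cn2]
    exact ⟨1, 0, zero_le_one, le_rfl, by simp⟩
  -- `p` is a positive multiple of `r`
  obtain ⟨t, ht, hpr⟩ : ∃ t : ℝ, 0 < t ∧ p = t • r := by
    have h3 := hpB
    rw [hBrs, cn2] at h3
    obtain ⟨a, b, ha, hb, hab⟩ := h3
    have h4 : b • s ∈ E₁ := by
      apply face_ext2 hE₁ (hR.cone.smul a ha _ (hB.sub hrB)) (hR.cone.smul b hb _ hs.1)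
      rw [← hab]
      exact hpE
    have h5 : b • s = 0 := hdis _ h4 (hE₂.cone.smul b hb _ hsE)
    rw [h5, add_zero] at hab
    rcases ha.eq_or_lt with rfl | ha'
    · rw [zero_smul] at hab
      exact absurd hab hp.2.1
    · exact ⟨a, ha', hab⟩
  have hBps : B = cn ![p, s] := by
    apply Set.Subset.antisymm
    · intro z hz
      rw [hBrs, cn2] at hz
      obtain ⟨a, b, ha, hb, rfl⟩ := hz
      rw [cn2]
      refine ⟨a * t⁻¹, b, mul_nonneg ha (inv_nonneg.mpr ht.le), hb, ?_⟩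
      rw [hpr, smul_smul, mul_assoc, inv_mul_cancel₀ ht.ne', mul_one]
    · intro z hz
      rw [cn2] at hz
      obtain ⟨a, b, ha, hb, rfl⟩ := hz
      exact hB.cone.add _ (hB.cone.smul a ha _ hpB) _ (hB.cone.smul b hb _ hsB)
  have hps : NP p s := by
    by_contra hnp
    obtain ⟨u, hu, hsu⟩ := pos_prop hR.cone hR.pointed hp.1 hs.1 hp.2.1 hs.2.1 hnp
    apply hs.2.1
    apply hdis s _ hsE
    rw [hsu]
    exact hE₁.cone.smul u hu.le _ hpE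
  have hqs : NP q s := by
    by_contra hnp
    obtain ⟨u, hu, hsu⟩ := pos_prop hR.cone hR.pointed hq.1 hs.1 hq.2.1 hs.2.1 hnp
    apply hAB
    have hqB : q ∈ B := by
      apply cone_of_smul hB.cone hu
      rw [← hsu]
      exact hsB
    intro z hz
    rw [hApq, cn2] at hz
    obtain ⟨a, b, ha, hb, rfl⟩ := hz
    exact hB.cone.add _ (hB.cone.smul a ha _ hpB) _ (hB.cone.smul b hb _ hqB)
  have hE₂qs : E₂ = cn ![q, s] :=
    two_cone h2 hCn (hFC E R E₂ hR hE₂) hd₂ (extr_sub hE₂.sub hq hqE) (extr_sub hE₂.sub hs hsE) hqs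
  obtain ⟨hLI, hRc⟩ := hT E R hR hR3 p q s hpq hps hqs (hApq ▸ hA) (hBps ▸ hB) (hE₂qs ▸ hE₂)
  refine ⟨p, q, s, hLI, hRc, hApq, hBps, ?_, hE₂qs⟩
  apply Set.Subset.antisymm
  · intro z hz
    have hzR := hE₁.sub hz
    rw [hRc, cn3] at hzR
    obtain ⟨a, b, c, ha, hb, hc, rfl⟩ := hzR
    have h3 : b • q + c • s ∈ E₁ := by
      apply face_ext2 hE₁ (hR.cone.smul a ha _ hp.1)
        (hR.cone.add _ (hR.cone.smul b hb _ hq.1) _ (hR.cone.smul c hc _ hs.1))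
      rw [← add_assoc]
      exact hz
    have h4 : b • q + c • s = 0 := hdis _ h3
      (hE₂.cone.add _ (hE₂.cone.smul b hb _ hqE) _ (hE₂.cone.smul c hc _ hsE))
    rw [cn1]
    refine ⟨a, ha, ?_⟩
    rw [add_assoc, h4, add_zero]
  · intro z hz
    rw [cn1] at hz
    obtain ⟨a, ha, rfl⟩ := hz
    exact hE₁.cone.smul a ha _ hpE

theorem tJoinTri (h1 : TwoDStmt) (h2 : TriStmt) (h4 : CnStmt) (h5 : FaceStmt)
    (h6 : FaceCStmt) : JoinTriStmt := by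
  intro E _ _ _ R E₁ E₂ A B hR hR3 hE₁ hE₂ hd₁ hd₂ hdis hA hA2 hA₁ hA₂ hB hB2 hB₁ hB₂ hAB hmeet
  obtain ⟨p, q, hp, hq, hpq, hApq, hpE, hqE⟩ := join h1 h5 h6 hR hE₁ hE₂ hdis hA hA2 hA₁ hA₂
  obtain ⟨r, s, hr, hs, hrs, hBrs, hrE, hsE⟩ := join h1 h5 h6 hR hE₁ hE₂ hdis hB hB2 hB₁ hB₂
  have hsub : ¬ A ⊆ B := by
    intro h
    exact hAB ((h5 E R A hA).2.1 B hB h (by rw [hA2, hB2]))
  obtain ⟨x, hxA, hxB, hx0⟩ := hmeet
  have hor : p ∈ B ∨ q ∈ B := by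
    rw [hApq, cn2] at hxA
    obtain ⟨a, b, ha, hb, rfl⟩ := hxA
    rcases ha.eq_or_lt with rfl | ha'
    · rcases hb.eq_or_lt with rfl | hb'
      · simp at hx0
      · right
        apply cone_of_smul hB.cone hb'
        rwa [zero_smul, zero_add] at hxB
    · left
      apply cone_of_smul hB.cone ha'
      exact hB.ext _ (hR.cone.smul a ha _ hp.1) _ (hR.cone.smul b hb _ hq.1) hxB
  rcases hor with h | h
  · obtain ⟨v, x, y, hLI, hRc, hAc, hBc, hE₁c, hE₂c⟩ := JoinTri_aux h1 h2 h4 h6 hR hR3 hE₁ hE₂ hd₂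
      hdis hA hB hp hq hs hpq hApq hBrs hpE hrE hqE hsE h hsub
    exact ⟨v, x, y, hLI, hRc, hAc, hBc, Or.inl ⟨hE₁c, hE₂c⟩⟩
  · obtain ⟨v, x, y, hLI, hRc, hAc, hBc, hE₂c, hE₁c⟩ := JoinTri_aux h1 h2 h4 h6 hR hR3 hE₂ hE₁ hd₁
      (fun x h3 h4 => hdis x h4 h3) hA hB hq hp hr (np_symm hpq) (by rw [hApq, cn2_swap])
      (by rw [hBrs, cn2_swap]) hqE hsE hpE hrE h hsub
    exact ⟨v, x, y, hLI, hRc, hAc, hBc, Or.inr ⟨hE₂c, hE₁c⟩⟩

end D1

end TightRP
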