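import Pool.Agent.Lib.MP_7cdc3e_gt.C.D1.AuxH4

/-! # C32, D1: KM -/

namespace TightRP

namespace D1

open H4

theorem tKM (h1 : PosStmt) : KMStmt := by
  intro E _ _ _ L G hL hG hGc hext
  obtain ⟨f, hf⟩ := h1 E L hL
  have hfz : ∀ x ∈ L, f x = 0 → x = 0 := fun x hx h => by
    by_contra hx0
    exact (hf x hx hx0).ne' h
  have hf0 : ∀ x ∈ L, 0 ≤ f x := fun x hx => by
    rcases eq_or_ne x 0 with rfl | hx0
    · simp
    · exact (hf x hx hx0).le
  obtain ⟨δ, hδ, hδf⟩ := exists_delta hL f hfz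
  have hc : Continuous f := f.continuous_of_finiteDimensional
  have hBc : IsCompact (L ∩ f ⁻¹' {1}) := by
    refine Metric.isCompact_of_isClosed_isBounded (hL.closed.inter (isClosed_singleton.preimage hc)) ?_
    rw [isBounded_iff_forall_norm_le]
    refine ⟨1 / δ, ?_⟩
    rintro x ⟨hx, hx1⟩
    have h2 := hδf x hx
    have h3 : f x = 1 := hx1
    rw [h3, norm_one] at h2
    rw [le_div_iff₀ hδ]
    linarith
  have hBv : Convex ℝ (L ∩ f ⁻¹' {1}) := by
    rintro x ⟨hx, hx1⟩ y ⟨hy, hy1⟩ a b ha hb hab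
    refine ⟨hL.cone.add _ (hL.cone.smul a ha x hx) _ (hL.cone.smul b hb y hy), ?_⟩
    have hx1' : f x = 1 := hx1
    have hy1' : f y = 1 := hy1
    show f (a • x + b • y) = 1
    rw [map_add, map_smul, map_smul, hx1', hy1', smul_eq_mul, smul_eq_mul]
    linarith
  have hBG : L ∩ f ⁻¹' {1} ⊆ G := by
    rw [← closure_convexHull_extremePoints hBc hBv]
    refine closure_minimal (convexHull_min ?_ (cone_convex hG)) hGc
    intro b hb
    rw [mem_extremePoints] at hb
    obtain ⟨⟨hbL, hb1⟩, hbe⟩ := hb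
    have hb1' : f b = 1 := hb1
    refine hext b ⟨hbL, fun h => ?_, fun x hx y hy hxy => ?_⟩
    · rw [h, map_zero] at hb1'
      exact zero_ne_one hb1'
    · have hs : f x + f y = 1 := by rw [← map_add, hxy, hb1']
      rcases (hf0 x hx).eq_or_lt with h2 | h2
      · exact ⟨0, by rw [hfz x hx h2.symm, zero_smul]⟩
      rcases (hf0 y hy).eq_or_lt with h3 | h3
      · refine ⟨1, ?_⟩
        rw [hfz y hy h3.symm, add_zero] at hxy
        rw [hxy, one_smul]
      · refine ⟨f x, ?_⟩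
        have h4 := (hbe ((f x)⁻¹ • x) ⟨hL.cone.smul _ (by positivity) x hx, by
            show f ((f x)⁻¹ • x) = 1
            rw [map_smul, smul_eq_mul, inv_mul_cancel₀ h2.ne']⟩ ((f y)⁻¹ • y)
          ⟨hL.cone.smul _ (by positivity) y hy, by
            show f ((f y)⁻¹ • y) = 1
            rw [map_smul, smul_eq_mul, inv_mul_cancel₀ h3.ne']⟩
          ⟨f x, f y, h2, h3, hs, by
            rw [smul_smul, smul_smul, mul_inv_cancel₀ h2.ne', mul_inv_cancel₀ h3.ne', one_smul, one_smul,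
              hxy]⟩).1
        rw [← h4, smul_smul, mul_inv_cancel₀ h2.ne', one_smul]
  intro x hx
  rcases eq_or_ne x 0 with rfl | hx0
  · exact hG.zero
  · have h2 := hf x hx hx0
    have h3 : (f x)⁻¹ • x ∈ G := hBG ⟨hL.cone.smul _ (by positivity) x hx, by
      show f ((f x)⁻¹ • x) = 1
      rw [map_smul, smul_eq_mul, inv_mul_cancel₀ h2.ne']⟩
    have h4 := hG.smul (f x) h2.le _ h3
    rwa [smul_smul, mul_inv_cancel₀ h2.ne', one_smul] at h4

end D1

end TightRP
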