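import Pool.Agent.Lib.MP_7cdc3e_gt.C.D1.Spec

/-!
# MP_7cdc3e_gt, D1, Many: infinitely many extreme rays (helper43)
-/

namespace TightRP

namespace D1

theorem tMany (h1 : BasStmt) (h2 : FaceStmt) (h3 : PosStmt) : ManyStmt := by
  intro E _ _ _ F hF hd hno
  have hFF : Face F F := ⟨hF.cone, subset_rfl, fun x hx _ _ _ => hx⟩
  have one : ∀ x ∈ F, x ≠ 0 → ∀ h ∈ F, (∀ ε : ℝ, 0 < ε → x - ε • h ∉ F) → Extr F x := by
    intro x hx hx0 h hh hε
    set G : Set E := {y | y ∈ F ∧ ∃ κ : ℝ, 0 ≤ κ ∧ κ • x - y ∈ F} with hG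
    have hGF : Face F G := by
      refine ⟨⟨⟨hF.cone.zero, 0, le_rfl, by rw [zero_smul, sub_zero]; exact hF.cone.zero⟩, ?_, ?_⟩,
        fun y hy => hy.1, ?_⟩
      · rintro y ⟨hy, κ, hκ, hyκ⟩ z ⟨hz, κ', hκ', hzκ⟩
        refine ⟨hF.cone.add _ hy _ hz, κ + κ', add_nonneg hκ hκ', ?_⟩
        have : (κ + κ') • x - (y + z) = (κ • x - y) + (κ' • x - z) := by module
        rw [this]
        exact hF.cone.add _ hyκ _ hzκ
      · rintro c hc y ⟨hy, κ, hκ, hyκ⟩
        refine ⟨hF.cone.smul c hc y hy, c * κ, mul_nonneg hc hκ, ?_⟩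
        have : (c * κ) • x - c • y = c • (κ • x - y) := by module
        rw [this]
        exact hF.cone.smul c hc _ hyκ
      · rintro y hy z hz ⟨_, κ, hκ, hyκ⟩
        refine ⟨hy, κ, hκ, ?_⟩
        have : κ • x - y = (κ • x - (y + z)) + z := by module
        rw [this]
        exact hF.cone.add _ hyκ _ hz
    have hhG : h ∉ G := by
      rintro ⟨_, κ, hκ, hyκ⟩
      rcases hκ.eq_or_lt with h0 | h0
      · rw [← h0, zero_smul, zero_sub] at hyκ
        have h4 := hF.pointed h hh hyκ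
        have h5 := hε 1 one_pos
        rw [h4, smul_zero, sub_zero] at h5
        exact h5 hx
      · have h5 := hε κ⁻¹ (inv_pos.2 h0)
        apply h5
        have : x - κ⁻¹ • h = κ⁻¹ • (κ • x - h) := by
          rw [smul_sub, smul_smul, inv_mul_cancel₀ h0.ne', one_smul]
        rw [this]
        exact hF.cone.smul _ (inv_pos.2 h0).le _ hyκ
    have hGsp : Submodule.span ℝ G ≤ Submodule.span ℝ F := Submodule.span_mono fun y hy => hy.1
    have hle : sdim G ≤ 3 := by
      rw [← hd]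
      exact Submodule.finrank_mono hGsp
    have hn3 : sdim G ≠ 3 := by
      intro h4
      have h5 := (h2 E F G hGF).2.1 F hFF (fun y hy => hy.1) (by rw [hd, h4])
      rw [h5] at hhG
      exact hhG hh
    have hn2 := hno G hGF
    have hxG : x ∈ G := ⟨hx, 1, zero_le_one, by rw [one_smul, sub_self]; exact hF.cone.zero⟩
    have hsp : Submodule.span ℝ {x} = Submodule.span ℝ G := by
      refine Submodule.eq_of_le_of_finrank_le ?_ ?_
      · rw [Submodule.span_singleton_le_iff_mem]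
        exact Submodule.subset_span hxG
      · rw [finrank_span_singleton hx0]
        have : Module.finrank ℝ (Submodule.span ℝ G) = sdim G := rfl
        rw [this]
        omega
    refine ⟨hx, hx0, fun y hy z hz hyz => ?_⟩
    have hyG : y ∈ G := ⟨hy, 1, zero_le_one, by
      rw [one_smul, ← hyz, add_sub_cancel_left]
      exact hz⟩
    have h4 : y ∈ Submodule.span ℝ {x} := by
      rw [hsp]
      exact Submodule.subset_span hyG
    obtain ⟨t, ht⟩ := Submodule.mem_span_singleton.1 h4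
    exact ⟨t, ht.symm⟩
  refine ⟨one, ?_⟩
  have hbas := h1 E F hF
  rw [hd] at hbas
  obtain ⟨v, hv, hve⟩ := hbas
  have hco : ∀ α β γ : ℝ, α • v 0 + β • v 1 + γ • v 2 = 0 → α = 0 ∧ β = 0 ∧ γ = 0 := by
    intro α β γ h
    have h4 := Fintype.linearIndependent_iff.1 hv ![α, β, γ] (by
      rw [Fin.sum_univ_three]
      exact h)
    exact ⟨h4 0, h4 1, h4 2⟩
  obtain ⟨Λ, hΛ⟩ := h3 E F hF
  have hΛ0 : ∀ x ∈ F, 0 ≤ Λ x := by
    intro x hx
    by_cases h : x = 0
    · rw [h, map_zero]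
    · exact (hΛ x hx h).le
  have hex : ∀ t : ℝ, 0 < t → t < 1 → ∃ s : ℝ, Extr F ((1 - t) • v 0 + t • v 1 - s • v 2) := by
    intro t ht0 ht1
    set m : E := (1 - t) • v 0 + t • v 1 with hm
    have hmF : m ∈ F := hF.cone.add _ (hF.cone.smul _ (by linarith) _ (hve 0).1) _
      (hF.cone.smul _ ht0.le _ (hve 1).1)
    set S : Set ℝ := {s | 0 ≤ s ∧ m - s • v 2 ∈ F} with hS
    have hcl : IsClosed S := by
      refine isClosed_Ici.inter (hF.closed.preimage ?_)
      exact continuous_const.sub (continuous_id.smul continuous_const)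
    have hΛ2 : 0 < Λ (v 2) := hΛ _ (hve 2).1 (hve 2).2.1
    have hbd : BddAbove S := by
      refine ⟨Λ m / Λ (v 2), ?_⟩
      rintro s ⟨_, hs⟩
      have h4 := hΛ0 _ hs
      rw [map_sub, map_smul, smul_eq_mul] at h4
      rw [le_div_iff₀ hΛ2]
      linarith
    have hne : S.Nonempty := ⟨0, le_rfl, by rw [zero_smul, sub_zero]; exact hmF⟩
    have hsup : sSup S ∈ S := hcl.csSup_mem hne hbd
    refine ⟨sSup S, one _ hsup.2 ?_ (v 2) (hve 2).1 fun ε hε hcon => ?_⟩
    · intro h0
      have h4 := hco (1 - t) t (-sSup S) (by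
        rw [← h0, hm]
        module)
      linarith [h4.2.1]
    · have h4 : sSup S + ε ∈ S := by
        refine ⟨by linarith [hsup.1], ?_⟩
        have : m - (sSup S + ε) • v 2 = m - sSup S • v 2 - ε • v 2 := by module
        rw [this]
        exact hcon
      have := le_csSup hbd h4
      linarith
  have hti : ∀ i : ℕ, 0 < (1 : ℝ) / (i + 2) ∧ (1 : ℝ) / (i + 2) < 1 := by
    intro i
    have : (0 : ℝ) ≤ i := Nat.cast_nonneg i
    refine ⟨by positivity, ?_⟩
    rw [div_lt_one (by positivity)]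
    linarith
  choose s hs using fun i : ℕ => hex ((1 : ℝ) / (i + 2)) (hti i).1 (hti i).2
  refine ⟨_, hs, fun i j hij => ?_⟩
  rw [NP, LinearIndependent.pair_iff]
  intro α β hαβ
  obtain ⟨e1, e2, _⟩ := hco (α * (1 - 1 / ((i : ℝ) + 2)) + β * (1 - 1 / ((j : ℝ) + 2)))
    (α * (1 / ((i : ℝ) + 2)) + β * (1 / ((j : ℝ) + 2))) (-(α * s i) - β * s j) (by
      rw [← hαβ]
      module)
  have e3 : α + β = 0 := by linarith
  have e4 : α * (1 / ((i : ℝ) + 2) - 1 / ((j : ℝ) + 2)) = 0 := by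
    have : β = -α := by linarith
    rw [this] at e2
    linarith
  have e5 : (1 / ((i : ℝ) + 2) - 1 / ((j : ℝ) + 2)) ≠ 0 := by
    intro h0
    have h4 : 1 / ((i : ℝ) + 2) = 1 / ((j : ℝ) + 2) := by linarith
    have h5 : ((i : ℝ) + 2) = ((j : ℝ) + 2) := by
      have hi : ((i : ℝ) + 2) ≠ 0 := by positivity
      have hj : ((j : ℝ) + 2) ≠ 0 := by positivity
      field_simp at h4
      linarith
    have h6 : (i : ℝ) = j := by linarith
    exact hij (Nat.cast_injective h6)
  have e6 : α = 0 := by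
    rcases mul_eq_zero.1 e4 with h | h
    · exact h
    · exact absurd h e5
  exact ⟨e6, by linarith⟩

end D1

end TightRP
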