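import Pool.Agent.Lib.MP_7cdc3e_gt.C.D1.Spec

/-!
# MP_7cdc3e_gt, C/D1: a unique point over an extreme ray
-/

namespace TightRP.D1

theorem tOne (h1 : CharStmt) (h2 : EvStmt) (h3 : PosStmt) : OneStmt := by
  intro E _ _ _ L Z R π hS hM hπ lam hlam b hb hall
  have hb0 : b ≠ 0 := by
    rintro rfl
    rw [map_zero] at hb
    exact hlam.2.1 hb.symm
  obtain ⟨c, hc⟩ := h3 E L hS.cpc
  have hcR : PosOn R c := fun r hr h0 => hc r (hM.1.sub hr) h0
  obtain ⟨e, F, hE⟩ := h2 E L Z R π hS hM hπ c hcR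
  have hbL : b ∈ L := hE.line.1.sub (hall c e F hcR hE)
  have hiff : ∀ x, x ∈ Phi L π lam ↔ ∃ r ∈ R, ∃ t : ℝ, 0 ≤ t ∧ x = r + t • b := by
    intro x
    constructor
    · rintro ⟨hxL, t, ht, hxt⟩
      have hv : π (x - t • b) = 0 := by rw [map_sub, map_smul, hb, hxt, sub_self]
      have hvL : x - t • b ∈ L := by
        refine h1 E L Z R π hS hM hπ _ ⟨0, hS.cpc.cone.zero, by rw [map_zero, hv]⟩ ?_
        intro c' e' F' hc' hE'
        rw [map_sub, map_smul, hE'.zero b (hall c' e' F' hc' hE'), smul_zero, sub_zero]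
        exact hE'.nonneg x hxL
      exact ⟨x - t • b, (hπ.ker _).2 ⟨hvL, hv⟩, t, ht, by abel⟩
    · rintro ⟨r, hr, t, ht, rfl⟩
      obtain ⟨hrL, hr0⟩ := (hπ.ker r).1 hr
      exact ⟨hS.cpc.cone.add r hrL _ (hS.cpc.cone.smul t ht b hbL), t, ht, by
        rw [map_add, map_smul, hr0, hb, zero_add]⟩
  refine ⟨hiff, ?_⟩
  have hRk : Submodule.span ℝ R ≤ LinearMap.ker π := by
    refine Submodule.span_le.2 ?_
    intro x hx
    exact ((hπ.ker x).1 hx).2
  have hspan : Submodule.span ℝ (Phi L π lam) = Submodule.span ℝ R ⊔ Submodule.span ℝ {b} := by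
    apply le_antisymm
    · refine Submodule.span_le.2 ?_
      intro x hx
      obtain ⟨r, hr, t, ht, rfl⟩ := (hiff x).1 hx
      exact Submodule.add_mem_sup (Submodule.subset_span hr)
        (Submodule.smul_mem _ _ (Submodule.mem_span_singleton_self b))
    · refine sup_le (Submodule.span_mono ?_) (Submodule.span_mono ?_)
      · intro r hr
        exact (hiff r).2 ⟨r, hr, 0, le_rfl, by rw [zero_smul, add_zero]⟩
      · rintro x hx
        rw [Set.mem_singleton_iff] at hx
        subst hx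
        exact (hiff x).2 ⟨0, (hπ.ker 0).2 ⟨hS.cpc.cone.zero, map_zero π⟩, 1, zero_le_one, by
          rw [one_smul, zero_add]⟩
  have hdis : Submodule.span ℝ R ⊓ Submodule.span ℝ {b} = ⊥ := by
    rw [eq_bot_iff]
    rintro x ⟨hx1, hx2⟩
    obtain ⟨t, rfl⟩ := Submodule.mem_span_singleton.1 hx2
    have h4 : π (t • b) = 0 := hRk hx1
    rw [map_smul, hb] at h4
    rcases smul_eq_zero.1 h4 with h | h
    · rw [h, zero_smul]; exact Submodule.zero_mem _
    · exact absurd h hlam.2.1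
  unfold sdim
  have h5 := Submodule.finrank_sup_add_finrank_inf_eq (Submodule.span ℝ R) (Submodule.span ℝ {b})
  rw [hdis, finrank_bot, add_zero, finrank_span_singleton hb0] at h5
  rw [hspan, h5]

end TightRP.D1
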