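import Pool.Agent.Lib.MP_7cdc3e_gt.C.D1.Spec

/-!
# MP_7cdc3e_gt, C/D1: the faces over extreme rays
-/

namespace TightRP.D1

theorem phi_pos {E : Type} [NormedAddCommGroup E] [NormedSpace ℝ E] {D : Set E} (hD : CPC D)
    {lam : E} (hl : lam ∈ D) (h0 : lam ≠ 0) {s : ℝ} (hs : s • lam ∈ D) : 0 ≤ s := by
  by_contra hneg
  push Not at hneg
  have h1 : (-s)⁻¹ • (s • lam) ∈ D := hD.cone.smul _ (inv_nonneg.2 (by linarith)) _ hs
  have h2 : (-s)⁻¹ • (s • lam) = -lam := by
    rw [smul_smul]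
    have : (-s)⁻¹ * s = -1 := by
      rw [inv_neg, neg_mul, inv_mul_cancel₀ hneg.ne]
    rw [this, neg_one_smul]
  rw [h2] at h1
  exact h0 (hD.pointed lam hl h1)

theorem tPhi (h1 : FaceStmt) (h2 : DelStmt) : PhiStmt := by
  intro E _ _ _ L Z R π hS hM hπ lam hlam
  obtain ⟨hD, hD3⟩ := h2 E L Z R π hS hM hπ
  obtain ⟨hlD, hl0, hlE⟩ := hlam
  have hcone : IsCone (Phi L π lam) := by
    refine ⟨⟨hS.cpc.cone.zero, 0, le_rfl, by simp⟩, ?_, ?_⟩
    · rintro x ⟨hx, s, hs, hxs⟩ y ⟨hy, t, ht, hyt⟩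
      exact ⟨hS.cpc.cone.add x hx y hy, s + t, add_nonneg hs ht, by rw [map_add, hxs, hyt, add_smul]⟩
    · rintro c hc x ⟨hx, s, hs, hxs⟩
      exact ⟨hS.cpc.cone.smul c hc x hx, c * s, mul_nonneg hc hs, by rw [map_smul, hxs, smul_smul]⟩
  have hface : Face L (Phi L π lam) := by
    refine ⟨hcone, fun x hx => hx.1, ?_⟩
    rintro x hx y hy ⟨-, t, ht, hxy⟩
    refine ⟨hx, ?_⟩
    rw [map_add] at hxy
    rcases ht.eq_or_lt with h | h
    · subst h
      rw [zero_smul] at hxy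
      have hneg : π y = -π x := by
        rw [add_comm] at hxy
        exact eq_neg_of_add_eq_zero_left hxy
      have h0 : π x = 0 := hD.pointed _ ⟨x, hx, rfl⟩ ⟨y, hy, hneg⟩
      exact ⟨0, le_rfl, by rw [h0, zero_smul]⟩
    · have hsum : t⁻¹ • π x + t⁻¹ • π y = lam := by
        rw [← smul_add, hxy, smul_smul, inv_mul_cancel₀ h.ne', one_smul]
      obtain ⟨s, hs⟩ := hlE (t⁻¹ • π x) (hD.cone.smul _ (inv_nonneg.2 ht) _ ⟨x, hx, rfl⟩)
        (t⁻¹ • π y) (hD.cone.smul _ (inv_nonneg.2 ht) _ ⟨y, hy, rfl⟩) hsum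
      have hs0 : 0 ≤ s := by
        refine phi_pos hD hlD hl0 (s := s) ?_
        rw [← hs]
        exact hD.cone.smul _ (inv_nonneg.2 ht) _ ⟨x, hx, rfl⟩
      refine ⟨t * s, mul_nonneg ht hs0, ?_⟩
      rw [mul_smul, ← hs, smul_smul, mul_inv_cancel₀ h.ne', one_smul]
  have hR : R ⊆ Phi L π lam := by
    intro x hx
    obtain ⟨hxL, hx0⟩ := (hπ.ker x).1 hx
    exact ⟨hxL, 0, le_rfl, by rw [hx0, zero_smul]⟩
  obtain ⟨l, hl, hll⟩ := hlD
  have hlPhi : l ∈ Phi L π lam := ⟨hl, 1, zero_le_one, by rw [hll, one_smul]⟩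
  have hlR : l ∉ R := by
    intro h
    have := ((hπ.ker l).1 h).2
    rw [hll] at this
    exact hl0 this
  have hnZ : ¬ Phi L π lam ⊆ Z := by
    intro h
    have := hM.2.2.2 _ hface hR h
    rw [this] at hlPhi
    exact hlR hlPhi
  have hlt : sdim R < sdim (Phi L π lam) := by
    by_contra hcon
    push Not at hcon
    have := (h1 E L R hM.1).2.1 _ hface hR hcon
    rw [← this] at hlPhi
    exact hlR hlPhi
  have h3 : 3 ≤ sdim (Phi L π lam) := by
    obtain ⟨G, hG, hG1, hG2, hG3⟩ := hS.line _ hface hnZ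
    rw [← hG3]
    exact Submodule.finrank_mono (Submodule.span_mono hG)
  refine ⟨hface, hnZ, hR, hlt, h3, ?_, ?_⟩
  · -- dimension at most four
    have hle : Submodule.span ℝ (Phi L π lam) ≤ (LinearMap.ker π) ⊔ (Submodule.span ℝ {l}) := by
      refine Submodule.span_le.2 ?_
      rintro x ⟨hx, t, ht, hxt⟩
      have : x = (x - t • l) + t • l := by abel
      rw [this]
      refine Submodule.add_mem_sup ?_ (Submodule.smul_mem _ _ (Submodule.mem_span_singleton_self l))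
      rw [LinearMap.mem_ker, map_sub, map_smul, hll, hxt, sub_self]
    have hk : Module.finrank ℝ (LinearMap.ker π) = 3 := by
      have h := LinearMap.finrank_range_add_finrank_ker π
      rw [LinearMap.range_eq_top.2 hπ.surj, finrank_top, Module.finrank_fin_fun, hS.dim] at h
      omega
    have hl0' : l ≠ 0 := by
      rintro rfl
      rw [map_zero] at hll
      exact hl0 hll.symm
    have hs1 : Module.finrank ℝ (Submodule.span ℝ {l}) ≤ 1 := (finrank_span_singleton hl0').le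
    calc sdim (Phi L π lam) ≤ Module.finrank ℝ ((LinearMap.ker π) ⊔ (Submodule.span ℝ {l}) :
            Submodule ℝ E) := Submodule.finrank_mono hle
      _ ≤ Module.finrank ℝ (LinearMap.ker π) + Module.finrank ℝ (Submodule.span ℝ {l}) :=
            Submodule.finrank_add_le_finrank_add_finrank _ _
      _ ≤ 4 := by omega
  · rintro mu hmu x ⟨hx, s, hs, hxs⟩ ⟨-, t, ht, hxt⟩
    refine (hπ.ker x).2 ⟨hx, ?_⟩
    have h := LinearIndependent.pair_iff.1 hmu s (-t) (by
      rw [neg_smul, ← hxt, ← hxs, add_neg_cancel])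
    rw [hxs, h.1, zero_smul]

end TightRP.D1
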