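import Pool.Agent.Lib.MP_7cdc3e_gt.C.D1.AuxH4

/-! # C32, D1: Pos -/

namespace TightRP

namespace D1

open H4

/-- separation from a closed cone -/
theorem H4.sep {E : Type} [NormedAddCommGroup E] [NormedSpace ℝ E] {L : Set E} (hL : IsCone L)
    (hc : IsClosed L) {x : E} (hx : x ∉ L) : ∃ f : E →ₗ[ℝ] ℝ, (∀ y ∈ L, 0 ≤ f y) ∧ f x < 0 := by
  have hconv : Convex ℝ L := fun a ha b hb s t hs ht _ =>
    hL.add _ (hL.smul s hs a ha) _ (hL.smul t ht b hb)
  obtain ⟨f, u, hfx, hfu⟩ := geometric_hahn_banach_point_closed hconv hc hx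
  have hu : u < 0 := by
    have := hfu 0 hL.zero
    rwa [map_zero] at this
  refine ⟨f.toLinearMap, fun y hy => ?_, hfx.trans hu⟩
  by_contra hneg
  have hneg' : f y < 0 := not_le.1 hneg
  have h1 := hfu ((u / f y) • y) (hL.smul _ (div_nonneg_of_nonpos hu.le hneg'.le) y hy)
  rw [map_smul, smul_eq_mul, div_mul_cancel₀ _ hneg'.ne] at h1
  exact lt_irrefl _ h1

theorem tPos : PosStmt := by
  intro E _ _ _ L hL
  set S : Set (Module.Dual ℝ E) := {f | ∀ y ∈ L, 0 ≤ f y} with hS
  have hW : Submodule.span ℝ S = ⊤ := by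
    have h1 : (Submodule.span ℝ S).dualCoannihilator = ⊥ := by
      rw [eq_bot_iff]
      intro x hx
      rw [Submodule.mem_dualCoannihilator] at hx
      rw [Submodule.mem_bot]
      refine hL.pointed x ?_ ?_
      · by_contra h
        obtain ⟨f, hf, hfx⟩ := H4.sep hL.cone hL.closed h
        exact hfx.ne (hx f (Submodule.subset_span hf))
      · by_contra h
        obtain ⟨f, hf, hfx⟩ := H4.sep hL.cone hL.closed h
        rw [map_neg, hx f (Submodule.subset_span hf), neg_zero] at hfx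
        exact lt_irrefl _ hfx
    have h2 := Subspace.dualCoannihilator_dualAnnihilator_eq (W := Submodule.span ℝ S)
    rw [h1, Submodule.dualAnnihilator_bot] at h2
    exact h2.symm
  obtain ⟨t, htS, ht⟩ := Submodule.fg_span_iff_fg_span_finset_subset S |>.1
    (IsNoetherian.noetherian (Submodule.span ℝ S))
  refine ⟨∑ g ∈ t, g, fun r hr hr0 => ?_⟩
  rw [LinearMap.sum_apply]
  have hnn : ∀ g ∈ t, 0 ≤ g r := fun g hg => htS hg r hr
  refine lt_of_le_of_ne (Finset.sum_nonneg hnn) fun h => hr0 ?_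
  have h3 := (Finset.sum_eq_zero_iff_of_nonneg hnn).1 h.symm
  rw [← Module.forall_dual_apply_eq_zero_iff ℝ r]
  intro g
  have hg : g ∈ Submodule.span ℝ (t : Set (Module.Dual ℝ E)) := by
    rw [← ht, hW]
    trivial
  induction hg using Submodule.span_induction with
  | mem x hx => exact h3 x hx
  | zero => rfl
  | add x y _ _ h1 h2 => rw [LinearMap.add_apply, h1, h2, add_zero]
  | smul a x _ h1 => rw [LinearMap.smul_apply, h1, smul_zero]

end D1

end TightRP
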