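import Pool.Agent.Lib.MP_7cdc3e_gt.C.D1.FourH4

/-! # C32, D1: Tri -/

namespace TightRP

namespace D1

open H4

theorem tTri (h1 : DepStmt) (h2 : GenStmt) (h3 : CnStmt) (h4 : FaceStmt) : TriStmt := by
  intro E _ _ _ R hR hd v x y hvx hvy hxy Fvx Fvy Fxy
  have e1 := (h4 E R _ Fvx).2.2.2.2.1
  have e2 := (h4 E R _ Fvy).2.2.2.2.1
  have hv : Extr R v := e1 v ((h3 E 2 ![v, x] hvx).2.1 0)
  have hx : Extr R x := e1 x ((h3 E 2 ![v, x] hvx).2.1 1)
  have hy : Extr R y := e2 y ((h3 E 2 ![v, y] hvy).2.1 1)
  have hli := h1 E R hR v x y hv hx hy hvx hvy hxy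
  refine ⟨hli, h2 E R hR 3 ![v, x, y] hli (fun i => ?_) fun z hz => ?_⟩
  · fin_cases i
    · exact hv.1
    · exact hx.1
    · exact hy.1
  · by_cases kv : NP z v
    · by_cases kx : NP z x
      · by_cases ky : NP z y
        · exfalso
          obtain ⟨α, β, γ, δ, hα, hβ, hγ, hδ, hrel⟩ := four_rel h1 hR hd hz hv hx hy kv kx ky hvx hvy
            hxy
          have n1 : v ∉ cn ![x, y] := by
            rw [mem_cn2]
            rintro ⟨a, b, _, _, h⟩
            have := li3 hli (α := -1) (β := a) (γ := b) (by rw [h]; module)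
            linarith [this.1]
          have n2 : x ∉ cn ![v, y] := by
            rw [mem_cn2]
            rintro ⟨a, b, _, _, h⟩
            have := li3 hli (α := a) (β := -1) (γ := b) (by rw [h]; module)
            linarith [this.2.1]
          have n3 : y ∉ cn ![v, x] := by
            rw [mem_cn2]
            rintro ⟨a, b, _, _, h⟩
            have := li3 hli (α := a) (β := b) (γ := -1) (by rw [h]; module)
            linarith [this.2.2]
          refine four_false hR hz hv hx hy kv kx ky hα hβ hγ hδ hrel ?_ ?_ ?_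
          · intro α β γ δ hα hβ hγ hδ h
            exact split_false hR Fxy (mem_cn ![x, y] 0) (mem_cn ![x, y] 1) hv.1 hz.1 n1 hγ hδ hβ hα
              (by
                show γ • x + δ • y = β • v + α • z
                rw [← h, add_comm])
          · intro α β γ δ hα hβ hγ hδ h
            exact split_false hR Fvy (mem_cn ![v, y] 0) (mem_cn ![v, y] 1) hx.1 hz.1 n2 hγ hδ hβ hα
              (by
                show γ • v + δ • y = β • x + α • z
                rw [← h, add_comm])
          · intro α β γ δ hα hβ hγ hδ h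
            exact split_false hR Fvx (mem_cn ![v, x] 0) (mem_cn ![v, x] 1) hy.1 hz.1 n3 hγ hδ hβ hα
              (by
                show γ • v + δ • x = β • y + α • z
                rw [← h, add_comm])
        · obtain ⟨t, ht, h⟩ := prop_of_not_np hR.pointed hR.cone hz.1 hz.2.1 hy.1 hy.2.1 ky
          exact ⟨2, t, ht, h⟩
      · obtain ⟨t, ht, h⟩ := prop_of_not_np hR.pointed hR.cone hz.1 hz.2.1 hx.1 hx.2.1 kx
        exact ⟨1, t, ht, h⟩
    · obtain ⟨t, ht, h⟩ := prop_of_not_np hR.pointed hR.cone hz.1 hz.2.1 hv.1 hv.2.1 kv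
      exact ⟨0, t, ht, h⟩

end D1

end TightRP
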