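import Pool.Agent.Lib.MP_7cdc3e_gt.C.D1.JoinH

/-!
# D1/Two: two points over an extreme ray
-/

set_option autoImplicit false

namespace TightRP

namespace D1

open JoinH

theorem tTwo (h1 : ValStmt) (h2 : TwoDStmt) (h4 : FaceStmt) (h5 : FaceCStmt) (h6 : CnStmt) :
    TwoStmt := by
  intro E _ _ _ L Z R π hS hM hsec lam hlam F₁ F₂ hF₁ hF₂ hs₁ hs₂ hne c e F c' e' F' hev hev' b hb
    hbl b' hb' hbl' hbb
  obtain ⟨hbE, hbG⟩ := h1 E L Z R π hS hM hsec lam hlam c e F hev b hb hbl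
  obtain ⟨hbE', hbG'⟩ := h1 E L Z R π hS hM hsec lam hlam c' e' F' hev' b' hb' hbl'
  have hlam0 : lam ≠ 0 := hlam.2.1
  have hb₁ : b ∈ F₁ ∩ F₂ := ⟨hbG F₁ hF₁.1 hF₁.2.1 hs₁, hbG F₂ hF₂.1 hF₂.2.1 hs₂⟩
  have hb₁' : b' ∈ F₁ ∩ F₂ := ⟨hbG' F₁ hF₁.1 hF₁.2.1 hs₁, hbG' F₂ hF₂.1 hF₂.2.1 hs₂⟩
  have hnp : NP b b' := by
    rw [np_iff]
    intro s t hst
    have h3 : (s + t) • lam = 0 := by
      have := congrArg π hst
      rwa [map_add, map_smul, map_smul, hbl, hbl', map_zero, ← add_smul] at this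
    have h7 : s + t = 0 := (smul_eq_zero.mp h3).resolve_right hlam0
    have h8 : t = -s := by linarith
    rw [h8, neg_smul, ← sub_eq_add_neg, ← smul_sub, smul_eq_zero] at hst
    rcases hst with h9 | h9
    · exact ⟨h9, by linarith⟩
    · exact absurd (sub_eq_zero.mp h9) hbb
  have hG : Face L (F₁ ∩ F₂) := (h4 E L F₁ hF₁.1).2.2.2.1 F₂ hF₂.1
  have hGd : sdim (F₁ ∩ F₂) ≤ 2 := by
    by_contra hcon
    push Not at hcon
    have h3 := (h4 E L _ hG).2.1 F₁ hF₁.1 Set.inter_subset_left (by rw [hF₁.2.2]; omega)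
    have h7 := (h4 E L _ hG).2.1 F₂ hF₂.1 Set.inter_subset_right (by rw [hF₂.2.2]; omega)
    exact hne (h3.symm.trans h7)
  have hGc : F₁ ∩ F₂ = cn ![b, b'] :=
    two_cone h2 h6 (h5 E L _ hS.cpc hG) hGd (extr_sub hG.sub hbE hb₁) (extr_sub hG.sub hbE' hb₁')
      hnp
  refine ⟨hGc, ?_, ?_⟩
  · intro x hx₁ hx₂ hxR
    have hx : x ∈ F₁ ∩ F₂ := ⟨hx₁, hx₂⟩
    rw [hGc, cn2] at hx
    obtain ⟨s, t, hs, ht, rfl⟩ := hx
    have h3 : (s + t) • lam = 0 := by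
      have := ((hsec.ker _).mp hxR).2
      rwa [map_add, map_smul, map_smul, hbl, hbl', ← add_smul] at this
    have h7 : s + t = 0 := (smul_eq_zero.mp h3).resolve_right hlam0
    have h8 : s = 0 := by linarith
    have h9 : t = 0 := by linarith
    rw [h8, h9, zero_smul, zero_smul, add_zero]
  · intro c'' e'' F'' hev''
    obtain ⟨l, hl, hll⟩ := hlam.1
    obtain ⟨m, hm, hml⟩ := hev''.surj l hl
    rw [hll] at hml
    obtain ⟨hmE, hmG⟩ := h1 E L Z R π hS hM hsec lam hlam c'' e'' F'' hev'' m hm hml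
    have hm₁ : m ∈ F₁ ∩ F₂ := ⟨hmG F₁ hF₁.1 hF₁.2.1 hs₁, hmG F₂ hF₂.1 hF₂.2.1 hs₂⟩
    have hmG' : Extr (cn ![b, b']) m := hGc ▸ extr_sub hG.sub hmE hm₁
    obtain ⟨i, r, hr, hmr⟩ := (h6 E 2 ![b, b'] hnp).2.2.2.2 m hmG'
    have hone : ∀ z : E, π z = lam → m = r • z → m = z := by
      intro z hz hmz
      have h3 : (r - 1) • lam = 0 := by
        have h7 := congrArg π hmz
        rw [map_smul, hz, hml] at h7
        rw [sub_smul, one_smul, ← h7, sub_self]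
      have h7 : r - 1 = 0 := (smul_eq_zero.mp h3).resolve_right hlam0
      have h8 : r = 1 := by linarith
      rw [hmz, h8, one_smul]
    fin_cases i
    · left
      rw [← hone b hbl hmr]
      exact hm
    · right
      rw [← hone b' hbl' hmr]
      exact hm

end D1

end TightRP
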