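import Pool.Agent.Lib.MP_7cdc3e_gt.C.D1.AuxH4

/-! # C32, D1: TwoD -/

namespace TightRP

namespace D1

open H4

theorem tTwoD (h1 : BasStmt) (h2 : DepStmt) (h3 : GenStmt) : TwoDStmt := by
  intro E _ _ _ A hA hd
  have h4 := h1 E A hA
  rw [hd] at h4
  obtain ⟨b, hb, hbe⟩ := h4
  have hbb : b = ![b 0, b 1] := by
    funext i
    fin_cases i <;> rfl
  have hnp : NP (b 0) (b 1) := by
    unfold NP
    rw [← hbb]
    exact hb
  refine ⟨b 0, b 1, hbe 0, hbe 1, hnp, ?_⟩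
  rw [← hbb]
  refine h3 E A hA 2 b hb (fun i => (hbe i).1) fun z hz => ?_
  by_cases k0 : NP (b 0) z
  · by_cases k1 : NP (b 1) z
    · exfalso
      have h5 := h2 E A hA (b 0) (b 1) z (hbe 0) (hbe 1) hz hnp k0 k1
      have h6 := card_le_sdim (F := A) h5 (by
        intro i
        fin_cases i
        · exact (hbe 0).1
        · exact (hbe 1).1
        · exact hz.1)
      omega
    · obtain ⟨t, ht, h⟩ := prop_of_not_np hA.pointed hA.cone hz.1 hz.2.1 (hbe 1).1 (hbe 1).2.1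
        (fun h => k1 (np_symm h))
      exact ⟨1, t, ht, h⟩
  · obtain ⟨t, ht, h⟩ := prop_of_not_np hA.pointed hA.cone hz.1 hz.2.1 (hbe 0).1 (hbe 0).2.1
      (fun h => k0 (np_symm h))
    exact ⟨0, t, ht, h⟩

end D1

end TightRP
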