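import Pool.Agent.Lib.MP_7cdc3e_gt.C.D1.Spec

/-!
# MP_7cdc3e_gt, C/D1: points over extreme rays and traces
-/

namespace TightRP.D1

theorem tVal : ValStmt := by
  intro E _ _ _ L Z R π hS hM hπ lam hlam c e F hE b hb hbl
  have hbs : b ∈ Submodule.span ℝ F := Submodule.subset_span hb
  have hb0 : b ≠ 0 := by
    rintro rfl
    rw [map_zero] at hbl
    exact hlam.2.1 hbl.symm
  refine ⟨⟨hE.line.1.sub hb, hb0, ?_⟩, ?_⟩
  · intro x hx y hy hxy
    have hxF : x ∈ F := hE.line.1.ext x hx y hy (by rw [hxy]; exact hb)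
    obtain ⟨t, ht⟩ := hlam.2.2 (π x) ⟨x, hx, rfl⟩ (π y) ⟨y, hy, rfl⟩ (by
      rw [← map_add, hxy, hbl])
    refine ⟨t, ?_⟩
    have h3 := hE.inj (x - t • b) (Submodule.sub_mem _ (Submodule.subset_span hxF)
      (Submodule.smul_mem _ _ hbs)) (by rw [map_sub, map_smul, hbl, ht, sub_self])
    exact sub_eq_zero.1 h3
  · intro G hG hGZ hGP
    obtain ⟨x, hxG, hxF, hx0⟩ := hS.meet G F hG hE.line.1 hGZ hE.line.2.1
    obtain ⟨-, t, ht, hxt⟩ := hGP hxG
    have h3 := hE.inj (x - t • b) (Submodule.sub_mem _ (Submodule.subset_span hxF)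
      (Submodule.smul_mem _ _ hbs)) (by rw [map_sub, map_smul, hbl, hxt, sub_self])
    have h4 : x = t • b := sub_eq_zero.1 h3
    have ht0 : t ≠ 0 := by
      rintro rfl
      rw [zero_smul] at h4
      exact hx0 h4
    have h5 : b = t⁻¹ • x := by rw [h4, smul_smul, inv_mul_cancel₀ ht0, one_smul]
    rw [h5]
    exact hG.cone.smul _ (inv_nonneg.2 ht) _ hxG

theorem tTr (h1 : PhiStmt) (h2 : DelStmt) (h3 : BasStmt) : TrStmt := by
  intro E _ _ _ L Z R π hS hM hπ lam hlam F hF hFZ hFP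
  obtain ⟨-, -, -, -, -, -, hPP⟩ := h1 E L Z R π hS hM hπ lam hlam
  have hmain : ∀ mu, Extr (π '' L) mu → NP lam mu → ∀ G, Face L G → ¬ G ⊆ Z →
      G ⊆ Phi L π mu → ∃ x, x ∈ F ∧ x ∈ G ∧ x ∈ R ∧ x ≠ 0 := by
    intro mu _ hNP G hG hGZ hGP
    obtain ⟨x, hxF, hxG, hx0⟩ := hS.meet F G hF hG hFZ hGZ
    exact ⟨x, hxF, hxG, hPP mu hNP x (hFP hxF) (hGP hxG), hx0⟩
  refine ⟨hmain, ?_⟩
  obtain ⟨hD, hD3⟩ := h2 E L Z R π hS hM hπ
  obtain ⟨b, hbi, hbE⟩ := h3 (Fin 3 → ℝ) (π '' L) hD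
  have hmu : ∃ mu, Extr (π '' L) mu ∧ NP lam mu := by
    by_contra hcon
    push Not at hcon
    -- both `b i₀`, `b i₁` are proportional to `lam`
    have hprop : ∀ i, ∃ t : ℝ, b i = t • lam := by
      intro i
      have h4 := hcon (b i) (hbE i)
      unfold NP at h4
      rw [LinearIndependent.pair_iff' hlam.2.1] at h4
      push Not at h4
      obtain ⟨t, ht⟩ := h4
      exact ⟨t, ht.symm⟩
    have i0 : Fin (sdim (π '' L)) := ⟨0, by omega⟩
    have hle : Submodule.span ℝ (Set.range b) ≤ Submodule.span ℝ {lam} := by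
      refine Submodule.span_le.2 ?_
      rintro _ ⟨i, rfl⟩
      obtain ⟨t, ht⟩ := hprop i
      rw [ht]
      exact Submodule.smul_mem _ _ (Submodule.mem_span_singleton_self lam)
    have h5 := Submodule.finrank_mono hle
    rw [finrank_span_eq_card hbi, Fintype.card_fin, finrank_span_singleton hlam.2.1, hD3] at h5
    omega
  obtain ⟨mu, hmu1, hmu2⟩ := hmu
  obtain ⟨hPf, hPZ, -, -, -, -, -⟩ := h1 E L Z R π hS hM hπ mu hmu1
  obtain ⟨x, hxF, -, hxR, hx0⟩ := hmain mu hmu1 hmu2 _ hPf hPZ (le_refl _)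
  exact ⟨x, hxF, hxR, hx0⟩

end TightRP.D1
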