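import Pool.Agent.Lib.MP_7cdc3e_gt.C.D1.Fin
import Pool.Agent.Lib.MP_7cdc3e_gt.C.D1.Pos
import Pool.Agent.Lib.MP_7cdc3e_gt.C.D1.KM
import Pool.Agent.Lib.MP_7cdc3e_gt.C.D1.Img
import Pool.Agent.Lib.MP_7cdc3e_gt.C.D1.Face
import Pool.Agent.Lib.MP_7cdc3e_gt.C.D1.Dep
import Pool.Agent.Lib.MP_7cdc3e_gt.C.D1.Bas
import Pool.Agent.Lib.MP_7cdc3e_gt.C.D1.Cn
import Pool.Agent.Lib.MP_7cdc3e_gt.C.D1.TwoD
import Pool.Agent.Lib.MP_7cdc3e_gt.C.D1.AtTwo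
import Pool.Agent.Lib.MP_7cdc3e_gt.C.D1.Tri
import Pool.Agent.Lib.MP_7cdc3e_gt.C.D1.Many
import Pool.Agent.Lib.MP_7cdc3e_gt.C.D1.Dir
import Pool.Agent.Lib.MP_7cdc3e_gt.C.D1.JoinT
import Pool.Agent.Lib.MP_7cdc3e_gt.C.D1.JoinTri
import Pool.Agent.Lib.MP_7cdc3e_gt.C.D1.ExMax
import Pool.Agent.Lib.MP_7cdc3e_gt.C.D1.Del
import Pool.Agent.Lib.MP_7cdc3e_gt.C.D1.Phi
import Pool.Agent.Lib.MP_7cdc3e_gt.C.D1.Ev
import Pool.Agent.Lib.MP_7cdc3e_gt.C.D1.Char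
import Pool.Agent.Lib.MP_7cdc3e_gt.C.D1.Val
import Pool.Agent.Lib.MP_7cdc3e_gt.C.D1.One
import Pool.Agent.Lib.MP_7cdc3e_gt.C.D1.Two
import Pool.Agent.Lib.MP_7cdc3e_gt.C.D1.Agr
import Pool.Agent.Lib.MP_7cdc3e_gt.C.D1.B1
import Pool.Agent.Lib.MP_7cdc3e_gt.C.D1.B2
import Pool.Agent.Lib.MP_7cdc3e_gt.C.D1.A1a
import Pool.Agent.Lib.MP_7cdc3e_gt.C.D1.A1b
import Pool.Agent.Lib.MP_7cdc3e_gt.C.D1.A1c
import Pool.Agent.Lib.MP_7cdc3e_gt.C.D1.A1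
import Pool.Agent.Lib.MP_7cdc3e_gt.C.D1.A3a
import Pool.Agent.Lib.MP_7cdc3e_gt.C.D1.A3c
import Pool.Agent.Lib.MP_7cdc3e_gt.C.D1.A3
import Pool.Agent.Lib.MP_7cdc3e_gt.C.D1.A4
import Pool.Agent.Lib.MP_7cdc3e_gt.C.D1.C0
import Pool.Agent.Lib.MP_7cdc3e_gt.C.D1.C1
import Pool.Agent.Lib.MP_7cdc3e_gt.C.D1.C2
import Pool.Agent.Lib.MP_7cdc3e_gt.C.D1.C3
import Pool.Agent.Lib.MP_7cdc3e_gt.C.D1.C4
import Pool.Agent.Lib.MP_7cdc3e_gt.C.D1.C5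
import Pool.Agent.Lib.MP_7cdc3e_gt.C.D1.C6

/-!
# MP_7cdc3e_gt, C/D1: the cone of a regular point is simplicial or `PSD_3`
-/

namespace TightRP.D1

theorem d1 : D1Stmt := by
  have hFaceC := tFaceC tFace
  have hKM := tKM tPos
  have hBas := tBas hKM
  have hGen := tGen hKM tCn
  have hTwoD := tTwoD hBas tDep hGen
  have hAtTwo := tAtTwo hTwoD tDep tFace hFaceC tCn
  have hTri := tTri tDep hGen tCn tFace
  have hMany := tMany hBas tFace tPos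
  have hJoinT := tJoinT hAtTwo hTwoD tDep tFace hFaceC
  have hJoinTri := tJoinTri hTwoD hTri tCn tFace hFaceC
  have hExMax := tExMax tFace hBas
  have hDel := tDel tPos tImg hFaceC
  have hPhi := tPhi tFace hDel
  have hEv := tEv hDel hPhi hKM tImg hFaceC
  have hChar := tChar hEv tPos
  have hTr := tTr hPhi hDel hBas
  have hOne := tOne hChar hEv tPos
  have hTwo := tTwo tVal hTwoD tFace hFaceC tCn
  have hB1 := tB1 hEv hPhi tVal hTr hOne hTwo hTwoD tDep tFace hFaceC tCn tPos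
  have hB2 := tB2 hB1 hEv tAgr hDel hBas tPos hPhi
  have hA1a := tA1a tVal hTr tFace hEv tPos
  have hA1b := tA1b hA1a hJoinT hJoinTri hTr hPhi hDel hBas tFace hFaceC
  have hA1c := a1c hPhi hTwo hChar hDel hBas hGen tCn tFace tDep
  have hA1 := tA1 hA1b hA1c hTwo hEv hPhi tPos
  have hA2 := tA2 hA1 hEv hChar hDel hBas tFace tPos
  have hA3a := tA3a tDir tFace
  have hA3b := tA3b tDir tFace
  have hA3c := tA3c hBas hTwoD tCn hGen tDep tFace hFaceC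
  have hA3 := tA3 hA2 hA3a hA3b hA3c hFaceC tCn
  have hA4 := tA4 tCn tFace
  have hC0 := tC0 hPhi hEv hOne hTwo tFace tPos
  have hC1 := c1 hC0 hEv hChar tAgr tUni tConv hDel
  have hC4 := c4 tC2 (tC3b tC3a) hMany tDep
  have hC5 := tC5 hC4
  have hC6 := tC6 hC4 hC5 hMany tDep
  exact tD1 hExMax hB2 hA3 hA4 hC1 hC6

end TightRP.D1
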