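import Pool.Agent.Lib.MP_7cdc3e_gt.C.D1.FourH4

/-! # C32, D1: AtTwo -/

namespace TightRP

namespace D1

open H4

theorem atTwo_aux {E : Type} [NormedAddCommGroup E] [NormedSpace ℝ E] [FiniteDimensional ℝ E]
    (h1 : TwoDStmt) (h3 : FaceStmt) (h4 : FaceCStmt) (h5 : CnStmt) {R A : Set E} (hR : CPC R)
    (hA : Face R A) (hd : sdim A = 2) {v : E} (hv : Extr R v) (hvA : v ∈ A) :
    ∃ x, Extr R x ∧ NP v x ∧ A = cn ![v, x] := by
  have hAC := h4 E R A hR hA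
  obtain ⟨p, q, hp, hq, hpq, hAe⟩ := h1 E A hAC hd
  obtain ⟨_, _, _, _, h6⟩ := h5 E 2 ![p, q] hpq
  have hvA' : Extr (cn ![p, q]) v := by
    rw [← hAe]
    exact ⟨hvA, hv.2.1, fun x hx y hy h => hv.2.2 x (hA.sub hx) y (hA.sub hy) h⟩
  have h7 := (h3 E R A hA).2.2.2.2.1
  obtain ⟨i, t, ht, hvi⟩ := h6 v hvA'
  fin_cases i
  · refine ⟨q, h7 q hq, ?_, ?_⟩
    · rw [hvi]
      exact np_smul hpq ht.ne'
    · rw [hAe]
      have hvi' : v = t • p := hvi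
      ext z
      rw [mem_cn2, mem_cn2]
      constructor
      · rintro ⟨a, b, ha, hb, rfl⟩
        refine ⟨a * t⁻¹, b, by positivity, hb, ?_⟩
        rw [hvi', smul_smul, mul_assoc, inv_mul_cancel₀ ht.ne', mul_one]
      · rintro ⟨a, b, ha, hb, rfl⟩
        refine ⟨a * t, b, by positivity, hb, ?_⟩
        rw [hvi', smul_smul]
  · refine ⟨p, h7 p hp, ?_, ?_⟩
    · rw [hvi]
      exact np_smul (np_symm hpq) ht.ne'
    · rw [hAe]
      have hvi' : v = t • q := hvi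
      ext z
      rw [mem_cn2, mem_cn2]
      constructor
      · rintro ⟨a, b, ha, hb, rfl⟩
        refine ⟨b * t⁻¹, a, by positivity, ha, ?_⟩
        rw [hvi', smul_smul, mul_assoc, inv_mul_cancel₀ ht.ne', mul_one, add_comm]
      · rintro ⟨a, b, ha, hb, rfl⟩
        refine ⟨b, a * t, hb, by positivity, ?_⟩
        rw [hvi', smul_smul, add_comm]

theorem tAtTwo (h1 : TwoDStmt) (h2 : DepStmt) (h3 : FaceStmt) (h4 : FaceCStmt) (h5 : CnStmt) :
    AtTwoStmt := by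
  intro E _ _ _ R hR hd v hv A hA
  have h6 : ∀ i, ∃ x, Extr R x ∧ NP v x ∧ A i = cn ![v, x] := fun i =>
    atTwo_aux h1 h3 h4 h5 hR (hA i).1 (hA i).2.1 hv (hA i).2.2
  choose x hx hvx hAx using h6
  by_contra hne
  push Not at hne
  have hmem : ∀ i, x i ∈ A i := fun i => by
    rw [hAx i]
    exact mem_cn ![v, x i] 1
  have hnp : ∀ i j, i ≠ j → NP (x i) (x j) := by
    intro i j hij
    by_contra h
    obtain ⟨t, ht, hxt⟩ := prop_of_not_np hR.pointed hR.cone (hx i).1 (hx i).2.1 (hx j).1 (hx j).2.1 h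
    apply hne i j hij
    rw [hAx i, hAx j]
    ext z
    rw [mem_cn2, mem_cn2]
    constructor
    · rintro ⟨a, b, ha, hb, rfl⟩
      refine ⟨a, b * t, ha, by positivity, ?_⟩
      rw [hxt, smul_smul]
    · rintro ⟨a, b, ha, hb, rfl⟩
      refine ⟨a, b * t⁻¹, ha, by positivity, ?_⟩
      rw [hxt, smul_smul, mul_assoc, inv_mul_cancel₀ ht.ne', mul_one]
  have hnot : ∀ i j, i ≠ j → x j ∉ A i := by
    intro i j hij h
    rw [hAx i, mem_cn2] at h
    obtain ⟨a, b, _, _, h⟩ := h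
    have h7 := li3 (h2 E R hR v (x i) (x j) hv (hx i) (hx j) (hvx i) (hvx j) (hnp i j hij))
      (α := a) (β := b) (γ := -1) (by rw [h]; module)
    linarith [h7.2.2]
  obtain ⟨α, β, γ, δ, hα, hβ, hγ, hδ, hrel⟩ := four_rel h2 hR hd hv (hx 0) (hx 1) (hx 2) (hvx 0)
    (hvx 1) (hvx 2) (hnp 0 1 (by decide)) (hnp 0 2 (by decide)) (hnp 1 2 (by decide))
  refine four_false hR hv (hx 0) (hx 1) (hx 2) (hvx 0) (hvx 1) (hvx 2) hα hβ hγ hδ hrel ?_ ?_ ?_
  · intro α β γ δ hα hβ hγ hδ h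
    exact split_false hR (hA 0).1 (hA 0).2.2 (hmem 0) (hx 1).1 (hx 2).1 (hnot 0 1 (by decide)) hα hβ
      hγ hδ h
  · intro α β γ δ hα hβ hγ hδ h
    exact split_false hR (hA 1).1 (hA 1).2.2 (hmem 1) (hx 0).1 (hx 2).1 (hnot 1 0 (by decide)) hα hβ
      hγ hδ h
  · intro α β γ δ hα hβ hγ hδ h
    exact split_false hR (hA 2).1 (hA 2).2.2 (hmem 2) (hx 0).1 (hx 1).1 (hnot 2 0 (by decide)) hα hβ
      hγ hδ h

end D1

end TightRP
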