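import Pool.Agent.Lib.MP_7cdc3e_gt.C.D1.Spec

/-! # C32, D1: elementary lemmas on cones (helper4) -/

namespace TightRP

namespace D1

namespace H4

section alg

variable {E : Type} [AddCommGroup E] [Module ℝ E] {L F : Set E}

theorem np_iff {x y : E} : NP x y ↔ ∀ s t : ℝ, s • x + t • y = 0 → s = 0 ∧ t = 0 :=
  LinearIndependent.pair_iff

theorem np_symm {x y : E} (h : NP x y) : NP y x := by
  rw [np_iff] at h ⊢
  intro s t hst
  rw [add_comm] at hst
  exact (h t s hst).symm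

theorem np_left {x y : E} (h : NP x y) : x ≠ 0 := by
  rintro rfl
  have := (np_iff.1 h 1 0 (by simp)).1
  exact one_ne_zero this

theorem np_smul {x y : E} (h : NP x y) {c : ℝ} (hc : c ≠ 0) : NP (c • x) y := by
  rw [np_iff] at h ⊢
  intro s t hst
  rw [smul_smul] at hst
  obtain ⟨h1, h2⟩ := h _ _ hst
  exact ⟨(mul_eq_zero.1 h1).resolve_right hc, h2⟩

/-- not proportional fails: proportional -/
theorem prop_of_not_np (hp : ∀ x ∈ L, -x ∈ L → x = 0) (hL : IsCone L) {x y : E} (hx : x ∈ L) (hx0 : x ≠ 0)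
    (hy : y ∈ L) (hy0 : y ≠ 0) (h : ¬ NP x y) : ∃ t : ℝ, 0 < t ∧ x = t • y := by
  rw [np_iff] at h
  push Not at h
  obtain ⟨s, t, hst, hne⟩ := h
  have hs : s ≠ 0 := by
    intro hs
    rw [hs, zero_smul, zero_add] at hst
    exact hne hs ((smul_eq_zero.1 hst).resolve_right hy0)
  have hxy : x = (-t / s) • y := by
    have h1 : s • x = -(t • y) := eq_neg_of_add_eq_zero_left hst
    have h2 : x = s⁻¹ • (s • x) := by rw [smul_smul, inv_mul_cancel₀ hs, one_smul]
    rw [h2, h1, ← neg_smul, smul_smul]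
    congr 1
    field_simp
  refine ⟨-t / s, ?_, hxy⟩
  rcases lt_trichotomy (-t / s) 0 with h1 | h1 | h1
  · exfalso
    apply hx0
    refine hp x hx ?_
    rw [hxy, ← neg_smul]
    exact hL.smul _ (by linarith) y hy
  · exfalso
    rw [h1, zero_smul] at hxy
    exact hx0 hxy
  · exact h1

theorem Extr.pos_smul (hL : IsCone L) {b : E} (h : Extr L b) {c : ℝ} (hc : 0 < c) : Extr L (c • b) := by
  refine ⟨hL.smul c hc.le b h.1, smul_ne_zero hc.ne' h.2.1, fun x hx y hy hxy => ?_⟩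
  obtain ⟨t, ht⟩ := h.2.2 (c⁻¹ • x) (hL.smul _ (by positivity) x hx) (c⁻¹ • y)
    (hL.smul _ (by positivity) y hy) (by
      rw [← smul_add, hxy, smul_smul, inv_mul_cancel₀ hc.ne', one_smul])
  refine ⟨t, ?_⟩
  have h1 : x = c • (c⁻¹ • x) := by rw [smul_smul, mul_inv_cancel₀ hc.ne', one_smul]
  rw [h1, ht, smul_smul, smul_smul, mul_comm]

/-- an extreme vector is not a sum with a positive multiple of another one -/
theorem ext_rel (hL : IsCone L) {a b r : E} {α γ : ℝ} (hb : Extr L b) (ha : a ∈ L) (hr : r ∈ L)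
    (hnp : NP a b) (hα : 0 < α) (hγ : 0 < γ) (h : γ • b = α • a + r) : False := by
  obtain ⟨t, ht⟩ := (Extr.pos_smul hL hb hγ).2.2 (α • a) (hL.smul α hα.le a ha) r hr h.symm
  have h1 : α • a + (-(t * γ)) • b = 0 := by
    rw [ht, smul_smul, ← add_smul, add_neg_cancel, zero_smul]
  exact hα.ne' ((np_iff.1 hnp _ _ h1).1)

/-- elements of a face -/
theorem face_rel (hL : IsCone L) (hF : Face L F) {a r : E} {α : ℝ} (ha : a ∈ L) (hr : r ∈ L) (hα : 0 < α)
    (h : α • a + r ∈ F) : a ∈ F := by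
  have h1 := hF.ext (α • a) (hL.smul α hα.le a ha) r hr h
  have h2 := hF.cone.smul α⁻¹ (by positivity) _ h1
  rwa [smul_smul, inv_mul_cancel₀ hα.ne', one_smul] at h2

/-- positive combinations are not zero -/
theorem pos_rel (hp : ∀ x ∈ L, -x ∈ L → x = 0) (hL : IsCone L) {a r : E} {α : ℝ} (ha : a ∈ L)
    (ha0 : a ≠ 0) (hr : r ∈ L) (hα : 0 < α) (h : α • a + r = 0) : False := by
  have h1 : α • a = 0 := hp _ (hL.smul α hα.le a ha) (by
    have : -(α • a) = r := by
      rw [neg_eq_iff_add_eq_zero]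
      exact h
    rwa [this])
  rcases smul_eq_zero.1 h1 with h2 | h2
  · exact hα.ne' h2
  · exact ha0 h2

theorem mem_cn {n : ℕ} (v : Fin n → E) (i : Fin n) : v i ∈ cn v := by
  classical
  refine ⟨fun j => if j = i then 1 else 0, fun j => ?_, ?_⟩
  · show (0:ℝ) ≤ if j = i then 1 else 0
    split_ifs <;> norm_num
  · simp

theorem cn_cone {n : ℕ} (v : Fin n → E) : IsCone (cn v) := by
  refine ⟨⟨fun _ => 0, fun _ => le_rfl, by simp⟩, ?_, ?_⟩
  · rintro x ⟨c, hc, rfl⟩ y ⟨d, hd, rfl⟩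
    exact ⟨fun i => c i + d i, fun i => add_nonneg (hc i) (hd i), by
      simp [add_smul, Finset.sum_add_distrib]⟩
  · rintro t ht x ⟨c, hc, rfl⟩
    exact ⟨fun i => t * c i, fun i => mul_nonneg ht (hc i), by
      simp [mul_smul, Finset.smul_sum]⟩

theorem sum_mem (hL : IsCone L) {ι : Type} (s : Finset ι) (f : ι → E) (h : ∀ i ∈ s, f i ∈ L) :
    ∑ i ∈ s, f i ∈ L := by
  classical
  induction s using Finset.induction_on with
  | empty => simpa using hL.zero
  | insert a s ha ih =>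
    rw [Finset.sum_insert ha]
    exact hL.add _ (h a (Finset.mem_insert_self a s)) _ (ih fun i hi => h i (Finset.mem_insert_of_mem hi))

theorem cn_sub (hL : IsCone L) {n : ℕ} {v : Fin n → E} (h : ∀ i, v i ∈ L) : cn v ⊆ L := by
  rintro x ⟨c, hc, rfl⟩
  exact sum_mem hL _ _ fun i _ => hL.smul _ (hc i) _ (h i)

theorem mem_cn2 {x y z : E} : z ∈ cn ![x, y] ↔ ∃ a b : ℝ, 0 ≤ a ∧ 0 ≤ b ∧ z = a • x + b • y := by
  constructor
  · rintro ⟨c, hc, rfl⟩
    exact ⟨c 0, c 1, hc 0, hc 1, by simp [Fin.sum_univ_two]⟩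
  · rintro ⟨a, b, ha, hb, rfl⟩
    refine ⟨![a, b], fun i => ?_, by simp [Fin.sum_univ_two]⟩
    fin_cases i
    · exact ha
    · exact hb

end alg

section fd

variable {E : Type} [NormedAddCommGroup E] [NormedSpace ℝ E] [FiniteDimensional ℝ E]
  {L F : Set E}

/-- linearly independent vectors in a set of small dimension -/
theorem card_le_sdim {n : ℕ} {v : Fin n → E} (hv : LinearIndependent ℝ v) (h : ∀ i, v i ∈ F) :
    n ≤ sdim F := by
  have h1 := finrank_span_eq_card hv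
  rw [Fintype.card_fin] at h1
  rw [← h1]
  refine Submodule.finrank_mono (Submodule.span_mono ?_)
  rintro _ ⟨i, rfl⟩
  exact h i

theorem exists_delta {E' : Type} [NormedAddCommGroup E'] [NormedSpace ℝ E'] (hL : CPC L)
    (f : E →ₗ[ℝ] E') (h : ∀ x ∈ L, f x = 0 → x = 0) : ∃ δ : ℝ, 0 < δ ∧ ∀ x ∈ L, δ * ‖x‖ ≤ ‖f x‖ := by
  have hc : Continuous f := f.continuous_of_finiteDimensional
  have hS : IsCompact (L ∩ Metric.sphere (0 : E) 1) := (isCompact_sphere (0 : E) 1).inter_left hL.closed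
  by_cases hne : (L ∩ Metric.sphere (0 : E) 1).Nonempty
  · obtain ⟨x₀, hx₀, hmin⟩ := hS.exists_isMinOn hne (f := fun x => ‖f x‖) hc.norm.continuousOn
    have h0 : 0 < ‖f x₀‖ := by
      rw [norm_pos_iff]
      intro h1
      have h2 := h x₀ hx₀.1 h1
      have h3 := hx₀.2
      rw [h2, mem_sphere_zero_iff_norm, norm_zero] at h3
      exact zero_ne_one h3
    refine ⟨‖f x₀‖, h0, fun x hx => ?_⟩
    rcases eq_or_ne x 0 with rfl | hx0
    · simp
    · have hn : 0 < ‖x‖ := norm_pos_iff.2 hx0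
      have h1 : ‖f x₀‖ ≤ ‖f (‖x‖⁻¹ • x)‖ := by
        refine hmin ⟨hL.cone.smul _ (by positivity) x hx, ?_⟩
        rw [mem_sphere_zero_iff_norm, norm_smul, norm_inv, norm_norm]
        exact inv_mul_cancel₀ hn.ne'
      rw [map_smul, norm_smul, norm_inv, norm_norm, ← div_eq_inv_mul, le_div_iff₀ hn] at h1
      exact h1
  · refine ⟨1, one_pos, fun x hx => ?_⟩
    have hx0 : x = 0 := by
      by_contra hx0
      apply hne
      refine ⟨‖x‖⁻¹ • x, hL.cone.smul _ (by positivity) x hx, ?_⟩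
      rw [mem_sphere_zero_iff_norm, norm_smul, norm_inv, norm_norm]
      exact inv_mul_cancel₀ (norm_ne_zero_iff.2 hx0)
    rw [hx0]
    simp

theorem cone_convex (hL : IsCone L) : Convex ℝ L := by
  intro x hx y hy a b ha hb _
  exact hL.add _ (hL.smul a ha x hx) _ (hL.smul b hb y hy)

end fd

end H4

end D1

end TightRP
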