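import Pool.Agent.Lib.MP_7cdc3e_gt.C.D1.Spec

/-!
# MP_7cdc3e_gt, D1, C5: linear bijection to the quadratic polynomials (helper43)
-/

namespace TightRP

namespace D1

/-- the squares of three pairwise not parallel linear forms span the binary quadratic forms -/
private theorem sqs (n : Fin 3 → ℝ × ℝ)
    (hn : ∀ i j, i ≠ j → (n i).1 * (n j).2 - (n i).2 * (n j).1 ≠ 0) (A B C : ℝ) :
    ∃ μ : Fin 3 → ℝ, ∑ i, μ i * (n i).1 ^ 2 = A ∧ ∑ i, μ i * ((n i).1 * (n i).2) = B ∧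
      ∑ i, μ i * (n i).2 ^ 2 = C := by
  set M : Matrix (Fin 3) (Fin 3) ℝ := Matrix.of ![fun i => (n i).1 ^ 2,
    fun i => (n i).1 * (n i).2, fun i => (n i).2 ^ 2] with hM
  have hdet : M.det = ((n 0).1 * (n 1).2 - (n 0).2 * (n 1).1) *
      ((n 0).1 * (n 2).2 - (n 0).2 * (n 2).1) * ((n 1).1 * (n 2).2 - (n 1).2 * (n 2).1) := by
    rw [Matrix.det_fin_three, hM]
    simp only [Matrix.of_apply, Matrix.cons_val_zero, Matrix.cons_val_one, Matrix.cons_val]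
    ring
  have hu : IsUnit M.det := by
    rw [isUnit_iff_ne_zero, hdet]
    exact mul_ne_zero (mul_ne_zero (hn 0 1 (by decide)) (hn 0 2 (by decide)))
      (hn 1 2 (by decide))
  obtain ⟨μ, h1⟩ : ∃ μ : Fin 3 → ℝ, M.mulVec μ = ![A, B, C] :=
    ⟨M⁻¹.mulVec ![A, B, C], by
      rw [Matrix.mulVec_mulVec, Matrix.mul_nonsing_inv _ hu, Matrix.one_mulVec]⟩
  refine ⟨μ, ?_, ?_, ?_⟩
  · refine Eq.trans ?_ (congrFun h1 0)
    exact Finset.sum_congr rfl fun i _ => mul_comm _ _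
  · refine Eq.trans ?_ (congrFun h1 1)
    exact Finset.sum_congr rfl fun i _ => mul_comm _ _
  · refine Eq.trans ?_ (congrFun h1 2)
    exact Finset.sum_congr rfl fun i _ => mul_comm _ _

theorem tC5 (h1 : C4Stmt) : C5Stmt := by
  intro E _ _ _ L π T hD
  obtain ⟨_, _, l, n, κ, a, b, c, _, hκ, hn, hl⟩ := h1 E L π T hD
  obtain ⟨w0, _, hw0⟩ := hD.affs 1 0 0
  obtain ⟨w1, _, hw1⟩ := hD.affs 0 1 0
  obtain ⟨w2, _, hw2⟩ := hD.affs 0 0 1
  -- quadratic forms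
  have hq : ∀ A B C : ℝ, ∃ w : E, ∀ q : ℝ × ℝ, T w q = A * q.1 ^ 2 + 2 * B * (q.1 * q.2) +
      C * q.2 ^ 2 := by
    intro A B C
    obtain ⟨μ, m1, m2, m3⟩ := sqs n hn A B C
    refine ⟨∑ i, (μ i / κ i) • (l i - a i • w0 - b i • w1 - c i • w2), fun q => ?_⟩
    have h2 : ∀ i, T ((μ i / κ i) • (l i - a i • w0 - b i • w1 - c i • w2)) q =
        μ i * ((n i).1 * q.1 + (n i).2 * q.2) ^ 2 := by
      intro i
      have hk : κ i ≠ 0 := (hκ i).ne'
      simp only [map_smul, map_sub, Pi.smul_apply, Pi.sub_apply, smul_eq_mul, hl, hw0, hw1, hw2]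
      field_simp
      ring
    rw [map_sum, Finset.sum_apply, Finset.sum_congr rfl fun i _ => h2 i, ← m1, ← m2, ← m3]
    simp only [Fin.sum_univ_three]
    ring
  obtain ⟨w3, hw3⟩ := hq 1 0 0
  obtain ⟨w4, hw4⟩ := hq 0 (1 / 2) 0
  obtain ⟨w5, hw5⟩ := hq 0 0 1
  let Φ : Matrix (Fin 3) (Fin 3) ℝ →ₗ[ℝ] E :=
    { toFun := fun c => c 0 0 • w0 + (c 0 1 + c 1 0) • w1 + (c 0 2 + c 2 0) • w2 +
        c 1 1 • w3 + (c 1 2 + c 2 1) • w4 + c 2 2 • w5
      map_add' := by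
        intro x y
        simp only [Matrix.add_apply]
        module
      map_smul' := by
        intro r x
        simp only [Matrix.smul_apply, smul_eq_mul, RingHom.id_apply]
        module }
  have hΦ : ∀ c, Φ c = c 0 0 • w0 + (c 0 1 + c 1 0) • w1 + (c 0 2 + c 2 0) • w2 +
        c 1 1 • w3 + (c 1 2 + c 2 1) • w4 + c 2 2 • w5 := fun c => rfl
  have hT : ∀ c : Matrix (Fin 3) (Fin 3) ℝ, ∀ q : ℝ × ℝ, T (Φ c) q = c 0 0 +
      (c 0 1 + c 1 0) * q.1 + (c 0 2 + c 2 0) * q.2 + c 1 1 * q.1 ^ 2 +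
      (c 1 2 + c 2 1) * (q.1 * q.2) + c 2 2 * q.2 ^ 2 := by
    intro c q
    rw [hΦ]
    simp only [map_smul, map_add, Pi.smul_apply, Pi.add_apply, smul_eq_mul, hw0, hw1, hw2, hw3,
      hw4, hw5]
    ring
  -- linear independence
  have hco : ∀ g0 g1 g2 g3 g4 g5 : ℝ, (∀ q : ℝ × ℝ, g0 + g1 * q.1 + g2 * q.2 + g3 * q.1 ^ 2 +
      g4 * (q.1 * q.2) + g5 * q.2 ^ 2 = 0) → g0 = 0 ∧ g1 = 0 ∧ g2 = 0 ∧ g3 = 0 ∧ g4 = 0 ∧
      g5 = 0 := by
    intro g0 g1 g2 g3 g4 g5 h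
    have e0 := h (0, 0)
    have e1 := h (1, 0)
    have e2 := h (-1, 0)
    have e3 := h (0, 1)
    have e4 := h (0, -1)
    have e5 := h (1, 1)
    simp only at e0 e1 e2 e3 e4 e5
    norm_num at e0 e1 e2 e3 e4 e5
    refine ⟨e0, by linarith, by linarith, by linarith, by linarith, by linarith⟩
  have hli : LinearIndependent ℝ ![w0, w1, w2, w3, w4, w5] := by
    rw [Fintype.linearIndependent_iff]
    intro g hg
    have h2 : ∀ q : ℝ × ℝ, g 0 + g 1 * q.1 + g 2 * q.2 + g 3 * q.1 ^ 2 + g 4 * (q.1 * q.2) +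
        g 5 * q.2 ^ 2 = 0 := by
      intro q
      have h3 : T (∑ i, g i • ![w0, w1, w2, w3, w4, w5] i) q = 0 := by
        rw [hg, map_zero, Pi.zero_apply]
      rw [Fin.sum_univ_six] at h3
      simp only [Matrix.cons_val_zero, Matrix.cons_val_one, Matrix.cons_val] at h3
      simp only [map_smul, map_add, Pi.smul_apply, Pi.add_apply, smul_eq_mul, hw0, hw1, hw2, hw3,
        hw4, hw5] at h3
      linarith
    obtain ⟨e0, e1, e2, e3, e4, e5⟩ := hco _ _ _ _ _ _ h2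
    intro i
    fin_cases i
    · exact e0
    · exact e1
    · exact e2
    · exact e3
    · exact e4
    · exact e5
  have hsp : Submodule.span ℝ (Set.range ![w0, w1, w2, w3, w4, w5]) = ⊤ :=
    hli.span_eq_top_of_card_eq_finrank (by rw [hD.dim]; rfl)
  refine ⟨Φ, ?_, ?_, ?_⟩
  · intro c q
    rw [hT]
    simp only [Fin.sum_univ_three, Matrix.cons_val_zero, Matrix.cons_val_one, Matrix.cons_val]
    ring
  · intro x
    have h2 : x ∈ Submodule.span ℝ (Set.range ![w0, w1, w2, w3, w4, w5]) := by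
      rw [hsp]
      trivial
    obtain ⟨g, hg⟩ := (Submodule.mem_span_range_iff_exists_fun ℝ).1 h2
    refine ⟨!![g 0, g 1 / 2, g 2 / 2; g 1 / 2, g 3, g 4 / 2; g 2 / 2, g 4 / 2, g 5], ?_, ?_⟩
    · ext i j
      fin_cases i <;> fin_cases j <;> rfl
    · rw [hΦ, ← hg, Fin.sum_univ_six]
      simp only [Matrix.of_apply, Matrix.cons_val', Matrix.cons_val_zero, Matrix.cons_val_one,
        Matrix.cons_val, Matrix.empty_val']
      module
  · intro c hc h0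
    have h2 : ∀ q : ℝ × ℝ, c 0 0 + (c 0 1 + c 1 0) * q.1 + (c 0 2 + c 2 0) * q.2 +
        c 1 1 * q.1 ^ 2 + (c 1 2 + c 2 1) * (q.1 * q.2) + c 2 2 * q.2 ^ 2 = 0 := by
      intro q
      rw [← hT, h0, map_zero, Pi.zero_apply]
    obtain ⟨e0, e1, e2, e3, e4, e5⟩ := hco _ _ _ _ _ _ h2
    have s1 : c 1 0 = c 0 1 := hc.apply 0 1
    have s2 : c 2 0 = c 0 2 := hc.apply 0 2
    have s3 : c 2 1 = c 1 2 := hc.apply 1 2
    ext i j
    fin_cases i <;> fin_cases j <;> simp only [Fin.zero_eta, Fin.mk_one, Fin.reduceFinMk,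
      Matrix.zero_apply] <;> linarith

end D1

end TightRP
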