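import Pool.Agent.Lib.MP_7cdc3e_gt.C.D1.Spec

/-!
# MP_7cdc3e_gt, D1, Char: the cone is determined by the evaluations (helper43)
-/

namespace TightRP

namespace D1

theorem tChar (h1 : EvStmt) (h2 : PosStmt) : CharStmt := by
  intro E _ _ _ L Z R π hS hR hπ l hl hev
  by_contra hlL
  obtain ⟨m, hm, hml⟩ := hl
  have hcont : Continuous π := LinearMap.continuous_of_finiteDimensional π
  set A : Set E := {x | x ∈ L ∧ π x = π l} with hA
  have hAconv : Convex ℝ A := by
    rintro x ⟨hx, hx'⟩ y ⟨hy, hy'⟩ a b ha hb hab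
    refine ⟨hS.cpc.cone.add _ (hS.cpc.cone.smul a ha x hx) _ (hS.cpc.cone.smul b hb y hy), ?_⟩
    rw [map_add, map_smul, map_smul, hx', hy', ← add_smul, hab, one_smul]
  have hAcl : IsClosed A :=
    hS.cpc.closed.inter (isClosed_eq hcont continuous_const)
  have hlA : l ∉ A := fun h => hlL h.1
  obtain ⟨c0, u, hlu, hAu⟩ := geometric_hahn_banach_point_closed hAconv hAcl hlA
  obtain ⟨Λ, hΛ⟩ := h2 E L hS.cpc
  have hΛ0 : ∀ x ∈ L, 0 ≤ Λ x := by
    intro x hx
    by_cases h : x = 0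
    · rw [h, map_zero]
    · exact (hΛ x hx h).le
  have hRL : R ⊆ L := hR.1.sub
  have hRπ : ∀ r ∈ R, π r = 0 := fun r hr => ((hπ.ker r).1 hr).2
  have hc0 : ∀ r ∈ R, 0 ≤ c0 r := by
    intro r hr
    by_contra hneg
    push Not at hneg
    have hmm := hAu m ⟨hm, hml⟩
    have hs0 : 0 ≤ (c0 m - u) / (-c0 r) := div_nonneg (by linarith) (by linarith)
    have h3 := hAu (m + ((c0 m - u) / (-c0 r)) • r) ⟨hS.cpc.cone.add _ hm _
      (hS.cpc.cone.smul _ hs0 _ (hRL hr)), by rw [map_add, map_smul, hRπ r hr, smul_zero,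
        add_zero, hml]⟩
    rw [map_add, map_smul, smul_eq_mul] at h3
    have h4 : (c0 m - u) / (-c0 r) * c0 r = -(c0 m - u) := by
      have : c0 r ≠ 0 := hneg.ne
      field_simp
    rw [h4] at h3
    linarith
  have hd : 0 < |Λ l| + 1 := by positivity
  set ε : ℝ := (u - c0 l) / (2 * (|Λ l| + 1)) with hε
  have hε0 : 0 < ε := div_pos (by linarith) (by positivity)
  have hcl : c0 l + ε * Λ l < u := by
    have h3 : ε * Λ l ≤ ε * (|Λ l| + 1) :=
      mul_le_mul_of_nonneg_left (by linarith [le_abs_self (Λ l)]) hε0.le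
    have h4 : ε * (|Λ l| + 1) = (u - c0 l) / 2 := by
      rw [hε]
      field_simp
    linarith
  set c : E →ₗ[ℝ] ℝ := (c0 : E →ₗ[ℝ] ℝ) + ε • Λ with hc
  have hcx : ∀ x, c x = c0 x + ε * Λ x := fun x => rfl
  have hpos : PosOn R c := by
    intro r hr hr0
    rw [hcx]
    have := hc0 r hr
    have := mul_pos hε0 (hΛ r (hRL hr) hr0)
    linarith
  obtain ⟨e, F, hEv⟩ := h1 E L Z R π hS hR hπ c hpos
  obtain ⟨x, hx, hxm⟩ := hEv.surj m hm
  have hxL := hEv.line.1.sub hx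
  have v : π (l - x) = 0 := by rw [map_sub, hxm, hml, sub_self]
  have e1 := hEv.ext _ v
  rw [map_sub, hEv.zero x hx, sub_zero, map_sub, hcx, hcx] at e1
  have e2 := hAu x ⟨hxL, by rw [hxm, hml]⟩
  have e3 := mul_nonneg hε0.le (hΛ0 x hxL)
  have e4 := hev c e F hpos hEv
  linarith

end D1

end TightRP
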