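import Pool.Agent.Lib.MP_7cdc3e_gt.C.D1.Spec

/-!
# MP_7cdc3e_gt, C/D1: assembly from the statements of the Spec
-/

namespace TightRP.D1

theorem tD1 (hE : ExMaxStmt) (hB : B2Stmt) (hA3 : A3Stmt) (hA4 : A4Stmt) (hC1 : C1Stmt)
    (hC6 : C6Stmt) : D1Stmt := by
  intro E _ _ _ L Z hS
  obtain ⟨R, hM, h1, h3, hmax⟩ := hE E L Z hS
  have hc : sdim R = 1 ∨ sdim R = 2 ∨ sdim R = 3 := by omega
  rcases hc with h | h | h
  · right
    obtain ⟨π, T, hC⟩ := hC1 E L Z R hS hM (fun F hF hFZ => h ▸ hmax F hF hFZ)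
    exact hC6 E L π T hC
  · exact (hB E L Z R hS hM h (fun F hF hFZ => h ▸ hmax F hF hFZ)).elim
  · left
    have hle : ∀ F, Face L F → F ⊆ Z → sdim F ≤ 3 := fun F hF hFZ => h ▸ hmax F hF hFZ
    obtain ⟨g, hg, hL⟩ := hA3 E L Z R hS hM h hle
    exact ⟨g, hg, hL, hA4 E L Z hS hle g hg hL⟩

end TightRP.D1
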