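import Pool.Agent.Lib.MP_7cdc3e_gt.C.D1.AuxH4

/-! # C32, D1: four extreme vectors in a three dimensional cone (helper4) -/

namespace TightRP

namespace D1

namespace H4

variable {E : Type} [NormedAddCommGroup E] [NormedSpace ℝ E] [FiniteDimensional ℝ E] {L F : Set E}

theorem li3 {a b c : E} (h : LinearIndependent ℝ ![a, b, c]) {α β γ : ℝ}
    (hr : α • a + β • b + γ • c = 0) : α = 0 ∧ β = 0 ∧ γ = 0 := by
  rw [Fintype.linearIndependent_iff] at h
  have h1 := h ![α, β, γ] (by rw [Fin.sum_univ_three]; exact hr)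
  exact ⟨h1 0, h1 1, h1 2⟩

theorem four_rel (h2 : DepStmt) (hL : CPC L) (hd : sdim L = 3) {a b c d : E} (ha : Extr L a)
    (hb : Extr L b) (hc : Extr L c) (hd' : Extr L d) (hab : NP a b) (hac : NP a c) (had : NP a d)
    (hbc : NP b c) (hbd : NP b d) (hcd : NP c d) :
    ∃ α β γ δ : ℝ, 0 < α ∧ β ≠ 0 ∧ γ ≠ 0 ∧ δ ≠ 0 ∧ α • a + β • b + γ • c + δ • d = 0 := by
  have hn : ¬ LinearIndependent ℝ ![a, b, c, d] := by
    intro h
    have := card_le_sdim (F := L) h (by
      intro i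
      fin_cases i
      · exact ha.1
      · exact hb.1
      · exact hc.1
      · exact hd'.1)
    omega
  rw [Fintype.not_linearIndependent_iff] at hn
  obtain ⟨g, hg, i, hi⟩ := hn
  rw [Fin.sum_univ_four] at hg
  have hg' : g 0 • a + g 1 • b + g 2 • c + g 3 • d = 0 := hg
  have l1 := fun {α β γ : ℝ} (hr : α • b + β • c + γ • d = 0) => li3 (h2 E L hL b c d hb hc hd' hbc hbd hcd) hr
  have l2 := fun {α β γ : ℝ} (hr : α • a + β • c + γ • d = 0) => li3 (h2 E L hL a c d ha hc hd' hac had hcd) hr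
  have l3 := fun {α β γ : ℝ} (hr : α • a + β • b + γ • d = 0) => li3 (h2 E L hL a b d ha hb hd' hab had hbd) hr
  have l4 := fun {α β γ : ℝ} (hr : α • a + β • b + γ • c = 0) => li3 (h2 E L hL a b c ha hb hc hab hac hbc) hr
  have hnz : g 0 ≠ 0 ∧ g 1 ≠ 0 ∧ g 2 ≠ 0 ∧ g 3 ≠ 0 := by
    refine ⟨fun h => ?_, fun h => ?_, fun h => ?_, fun h => ?_⟩
    · rw [h, zero_smul, zero_add] at hg'
      obtain ⟨q1, q2, q3⟩ := l1 hg'
      apply hi
      fin_cases i
      · exact h
      · exact q1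
      · exact q2
      · exact q3
    · rw [h, zero_smul, add_zero] at hg'
      obtain ⟨q1, q2, q3⟩ := l2 hg'
      apply hi
      fin_cases i
      · exact q1
      · exact h
      · exact q2
      · exact q3
    · rw [h, zero_smul, add_zero] at hg'
      obtain ⟨q1, q2, q3⟩ := l3 hg'
      apply hi
      fin_cases i
      · exact q1
      · exact q2
      · exact h
      · exact q3
    · rw [h, zero_smul, add_zero] at hg'
      obtain ⟨q1, q2, q3⟩ := l4 hg'
      apply hi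
      fin_cases i
      · exact q1
      · exact q2
      · exact q3
      · exact h
  obtain ⟨n0, n1, n2, n3⟩ := hnz
  rcases lt_or_gt_of_ne n0 with h | h
  · refine ⟨-g 0, -g 1, -g 2, -g 3, by linarith, neg_ne_zero.2 n1, neg_ne_zero.2 n2,
      neg_ne_zero.2 n3, ?_⟩
    rw [neg_smul, neg_smul, neg_smul, neg_smul, ← neg_add, ← neg_add, ← neg_add, hg', neg_zero]
  · exact ⟨g 0, g 1, g 2, g 3, h, n1, n2, n3, hg'⟩

theorem four_false (hL : CPC L) {a b c d : E} (ha : Extr L a)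
    (hb : Extr L b) (hc : Extr L c) (hd' : Extr L d) (hab : NP a b) (hac : NP a c) (had : NP a d)
    {α β γ δ : ℝ} (hα : 0 < α) (hβ : β ≠ 0) (hγ : γ ≠ 0) (hδ : δ ≠ 0)
    (h : α • a + β • b + γ • c + δ • d = 0)
    (k1 : ∀ α β γ δ : ℝ, 0 < α → 0 < β → 0 < γ → 0 < δ → α • a + β • b = γ • c + δ • d → False)
    (k2 : ∀ α β γ δ : ℝ, 0 < α → 0 < β → 0 < γ → 0 < δ → α • a + β • c = γ • b + δ • d → False)
    (k3 : ∀ α β γ δ : ℝ, 0 < α → 0 < β → 0 < γ → 0 < δ → α • a + β • d = γ • b + δ • c → False) :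
    False := by
  have m := fun (x : E) (hx : x ∈ L) (t : ℝ) (ht : 0 < t) => hL.cone.smul t ht.le x hx
  have key : ∀ x y : E, x + y = 0 → x = -y := fun x y h => eq_neg_of_add_eq_zero_left h
  rcases lt_or_gt_of_ne hβ with b1 | b1 <;> rcases lt_or_gt_of_ne hγ with c1 | c1 <;>
    rcases lt_or_gt_of_ne hδ with d1 | d1
  · -- three negative
    refine ext_rel hL.cone ha hb.1 (hL.cone.add _ (m c hc.1 (-γ) (by linarith)) _
      (m d hd'.1 (-δ) (by linarith))) (np_symm hab) (α := -β) (by linarith) hα ?_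
    rw [← sub_eq_zero, ← h]
    module
  · -- b, c negative, d positive
    refine k3 α δ (-β) (-γ) hα d1 (by linarith) (by linarith) ?_
    rw [← sub_eq_zero, ← h]
    module
  · refine k2 α γ (-β) (-δ) hα c1 (by linarith) (by linarith) ?_
    rw [← sub_eq_zero, ← h]
    module
  · -- b negative
    refine ext_rel hL.cone hb ha.1 (hL.cone.add _ (m c hc.1 γ c1) _ (m d hd'.1 δ d1)) hab hα
      (γ := -β) (by linarith) ?_
    rw [← sub_eq_zero, ← neg_eq_zero, ← h]
    module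
  · refine k1 α β (-γ) (-δ) hα b1 (by linarith) (by linarith) ?_
    rw [← sub_eq_zero, ← h]
    module
  · refine ext_rel hL.cone hc ha.1 (hL.cone.add _ (m b hb.1 β b1) _ (m d hd'.1 δ d1)) hac hα
      (γ := -γ) (by linarith) ?_
    rw [← sub_eq_zero, ← neg_eq_zero, ← h]
    module
  · refine ext_rel hL.cone hd' ha.1 (hL.cone.add _ (m b hb.1 β b1) _ (m c hc.1 γ c1)) had hα
      (γ := -δ) (by linarith) ?_
    rw [← sub_eq_zero, ← neg_eq_zero, ← h]
    module
  · refine pos_rel hL.pointed hL.cone ha.1 ha.2.1 (hL.cone.add _ (hL.cone.add _ (m b hb.1 β b1) _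
      (m c hc.1 γ c1)) _ (m d hd'.1 δ d1)) hα ?_
    rw [← h]
    module

theorem split_false (hL : CPC L) (hF : Face L F) {a b c d : E} (ha : a ∈ F) (hb : b ∈ F)
    (hc : c ∈ L) (hd' : d ∈ L) (hcF : c ∉ F) {α β γ δ : ℝ} (hα : 0 < α) (hβ : 0 < β) (hγ : 0 < γ)
    (hδ : 0 < δ) (h : α • a + β • b = γ • c + δ • d) : False := by
  apply hcF
  refine face_rel hL.cone hF hc (hL.cone.smul δ hδ.le d hd') hγ ?_
  rw [← h]
  exact hF.cone.add _ (hF.cone.smul _ hα.le _ ha) _ (hF.cone.smul _ hβ.le _ hb)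

end H4

end D1

end TightRP
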