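import Pool.Agent.Lib.MP_7cdc3e_gt.C.D1.Spec

/-!
# Elementary lemmas for the modules `JoinT`, `JoinTri`, `Two`
-/

set_option autoImplicit false

namespace TightRP

namespace D1

namespace JoinH

section alg

variable {E : Type} [AddCommGroup E] [Module ℝ E]

theorem np_iff {x y : E} : NP x y ↔ ∀ s t : ℝ, s • x + t • y = 0 → s = 0 ∧ t = 0 :=
  LinearIndependent.pair_iff

theorem cn1 {p x : E} : x ∈ cn ![p] ↔ ∃ a : ℝ, 0 ≤ a ∧ x = a • p := by
  constructor
  · rintro ⟨c, hc, rfl⟩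
    exact ⟨c 0, hc 0, by simp⟩
  · rintro ⟨a, ha, rfl⟩
    exact ⟨fun _ => a, fun _ => ha, by simp⟩

theorem cn2 {p q x : E} : x ∈ cn ![p, q] ↔ ∃ a b : ℝ, 0 ≤ a ∧ 0 ≤ b ∧ x = a • p + b • q := by
  constructor
  · rintro ⟨c, hc, rfl⟩
    exact ⟨c 0, c 1, hc 0, hc 1, by simp [Fin.sum_univ_two]⟩
  · rintro ⟨a, b, ha, hb, rfl⟩
    refine ⟨![a, b], fun i => ?_, by simp [Fin.sum_univ_two]⟩
    fin_cases i
    · exact ha
    · exact hb

theorem cn3 {p q r x : E} : x ∈ cn ![p, q, r] ↔ ∃ a b c : ℝ, 0 ≤ a ∧ 0 ≤ b ∧ 0 ≤ c ∧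
    x = a • p + b • q + c • r := by
  constructor
  · rintro ⟨c, hc, rfl⟩
    exact ⟨c 0, c 1, c 2, hc 0, hc 1, hc 2, by simp [Fin.sum_univ_three]⟩
  · rintro ⟨a, b, c, ha, hb, hc, rfl⟩
    refine ⟨![a, b, c], fun i => ?_, by simp [Fin.sum_univ_three]⟩
    fin_cases i
    · exact ha
    · exact hb
    · exact hc

theorem cn2_swap (p q : E) : cn ![p, q] = cn ![q, p] := by
  ext x
  rw [cn2, cn2]
  constructor
  · rintro ⟨a, b, ha, hb, rfl⟩
    exact ⟨b, a, hb, ha, add_comm _ _⟩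
  · rintro ⟨a, b, ha, hb, rfl⟩
    exact ⟨b, a, hb, ha, add_comm _ _⟩

theorem np_ne_left {x y : E} (h : NP x y) : x ≠ 0 := by
  rintro rfl
  have := np_iff.mp h 1 0 (by simp)
  exact one_ne_zero this.1

theorem np_ne_right {x y : E} (h : NP x y) : y ≠ 0 := by
  rintro rfl
  have := np_iff.mp h 0 1 (by simp)
  exact one_ne_zero this.2

theorem np_symm {x y : E} (h : NP x y) : NP y x := by
  rw [np_iff] at h ⊢
  intro s t hst
  rw [add_comm] at hst
  exact (h t s hst).symm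

/-- two nonzero vectors which are not linearly independent -/
theorem not_np {x y : E} (hx : x ≠ 0) (h : ¬ NP x y) : ∃ t : ℝ, y = t • x := by
  rw [np_iff] at h
  push Not at h
  obtain ⟨s, t, hst, h1⟩ := h
  have ht : t ≠ 0 := by
    rintro rfl
    rw [zero_smul, add_zero, smul_eq_zero] at hst
    rcases hst with h2 | h2
    · exact h1 h2 rfl
    · exact hx h2
  refine ⟨- (t⁻¹ * s), ?_⟩
  have h2 : t • y = - (s • x) := by
    rw [eq_neg_iff_add_eq_zero, add_comm]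
    exact hst
  calc y = t⁻¹ • (t • y) := by rw [smul_smul, inv_mul_cancel₀ ht, one_smul]
    _ = - (t⁻¹ * s) • x := by rw [h2, smul_neg, smul_smul, neg_smul]

/-- face: second summand -/
theorem face_ext2 {L F : Set E} (h : Face L F) {x y : E} (hx : x ∈ L) (hy : y ∈ L)
    (hxy : x + y ∈ F) : y ∈ F :=
  h.ext y hy x hx (by rw [add_comm]; exact hxy)

/-- scaling in faces -/
theorem cone_of_smul {F : Set E} (h : IsCone F) {a : ℝ} (ha : 0 < a) {x : E} (hx : a • x ∈ F) :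
    x ∈ F := by
  have := h.smul a⁻¹ (inv_nonneg.mpr ha.le) _ hx
  rwa [smul_smul, inv_mul_cancel₀ ha.ne', one_smul] at this

/-- pointed cones: proportional elements are positively proportional -/
theorem pos_prop {R : Set E} (hcone : IsCone R) (hpt : ∀ x ∈ R, -x ∈ R → x = 0) {p q : E}
    (hp : p ∈ R) (hq : q ∈ R) (hp0 : p ≠ 0) (hq0 : q ≠ 0) (h : ¬ NP p q) :
    ∃ t : ℝ, 0 < t ∧ q = t • p := by
  obtain ⟨t, rfl⟩ := not_np hp0 h
  have ht0 : t ≠ 0 := by
    rintro rfl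
    exact hq0 (zero_smul _ _)
  rcases lt_or_gt_of_ne ht0 with ht | ht
  · exfalso
    have h1 : -p ∈ R := by
      apply cone_of_smul hcone (a := -t) (by linarith)
      rw [smul_neg, neg_smul, neg_neg]
      exact hq
    exact hp0 (hpt p hp h1)
  · exact ⟨t, ht, rfl⟩

/-- extreme vectors in a smaller set -/
theorem extr_sub {R F : Set E} (hF : F ⊆ R) {p : E} (hp : Extr R p) (hpF : p ∈ F) : Extr F p :=
  ⟨hpF, hp.2.1, fun x hx y hy hxy => hp.2.2 x (hF hx) y (hF hy) hxy⟩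

end alg

section fin

variable {E : Type} [NormedAddCommGroup E] [NormedSpace ℝ E] [FiniteDimensional ℝ E]

theorem two_le {G : Set E} {x y : E} (hx : x ∈ G) (hy : y ∈ G) (h : NP x y) : 2 ≤ sdim G := by
  have h1 : Submodule.span ℝ (Set.range ![x, y]) ≤ Submodule.span ℝ G := by
    apply Submodule.span_mono
    rintro _ ⟨i, rfl⟩
    fin_cases i
    · exact hx
    · exact hy
  have h2 := finrank_span_eq_card (R := ℝ) (b := ![x, y]) h
  have h3 := Submodule.finrank_mono h1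
  rw [h2, Fintype.card_fin] at h3
  exact h3

theorem three_le {G : Set E} {x y z : E} (hx : x ∈ G) (hy : y ∈ G) (hz : z ∈ G)
    (h : LinearIndependent ℝ ![x, y, z]) : 3 ≤ sdim G := by
  have h1 : Submodule.span ℝ (Set.range ![x, y, z]) ≤ Submodule.span ℝ G := by
    apply Submodule.span_mono
    rintro _ ⟨i, rfl⟩
    fin_cases i
    · exact hx
    · exact hy
    · exact hz
  have h2 := finrank_span_eq_card (R := ℝ) (b := ![x, y, z]) h
  have h3 := Submodule.finrank_mono h1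
  rw [h2, Fintype.card_fin] at h3
  exact h3

/-- a cone of dimension at most two with two extreme vectors -/
theorem two_cone (h2 : TwoDStmt) (hCn : CnStmt) {G : Set E} (hG : CPC G) (hd : sdim G ≤ 2)
    {x y : E} (hx : Extr G x) (hy : Extr G y) (hxy : NP x y) : G = cn ![x, y] := by
  have hd2 : sdim G = 2 := le_antisymm hd (two_le hx.1 hy.1 hxy)
  obtain ⟨p, q, hp, hq, hpq, hGpq⟩ := h2 E G hG hd2
  obtain ⟨-, -, -, -, hex⟩ := hCn E 2 ![p, q] hpq
  rw [← hGpq] at hex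
  apply Set.Subset.antisymm
  · obtain ⟨i, t, ht, hxt⟩ := hex x hx
    obtain ⟨j, s, hs, hys⟩ := hex y hy
    have hpx : ∀ (r : E) (t : ℝ), 0 < t → x = t • r → r = t⁻¹ • x := by
      intro r t ht h
      rw [h, smul_smul, inv_mul_cancel₀ ht.ne', one_smul]
    have hpy : ∀ (r : E) (t : ℝ), 0 < t → y = t • r → r = t⁻¹ • y := by
      intro r t ht h
      rw [h, smul_smul, inv_mul_cancel₀ ht.ne', one_smul]
    have hbad : ∀ r : E, x = t • r → y = s • r → False := by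
      intro r h3 h4
      have h5 := np_iff.mp hxy (t⁻¹) (- s⁻¹) (by
        rw [h3, h4, smul_smul, inv_mul_cancel₀ ht.ne', neg_smul, smul_smul, inv_mul_cancel₀ hs.ne',
          one_smul, add_neg_cancel])
      exact (inv_pos.mpr ht).ne' h5.1
    intro z hz
    rw [hGpq, cn2] at hz
    obtain ⟨a, b, ha, hb, rfl⟩ := hz
    rw [cn2]
    fin_cases i <;> fin_cases j
    · exact (hbad p hxt hys).elim
    · have h3 := hpx p t ht hxt
      have h4 := hpy q s hs hys
      refine ⟨a * t⁻¹, b * s⁻¹, mul_nonneg ha (inv_nonneg.mpr ht.le),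
        mul_nonneg hb (inv_nonneg.mpr hs.le), ?_⟩
      rw [mul_smul, mul_smul, ← h3, ← h4]
    · have h3 := hpx q t ht hxt
      have h4 := hpy p s hs hys
      refine ⟨b * t⁻¹, a * s⁻¹, mul_nonneg hb (inv_nonneg.mpr ht.le),
        mul_nonneg ha (inv_nonneg.mpr hs.le), ?_⟩
      rw [mul_smul, mul_smul, ← h3, ← h4, add_comm]
    · exact (hbad q hxt hys).elim
  · intro z hz
    rw [cn2] at hz
    obtain ⟨a, b, ha, hb, rfl⟩ := hz
    exact hG.cone.add _ (hG.cone.smul a ha _ hx.1) _ (hG.cone.smul b hb _ hy.1)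

/-- a two dimensional face which meets two disjoint faces -/
theorem join (h2 : TwoDStmt) (hF : FaceStmt) (hFC : FaceCStmt) {R A E₁ E₂ : Set E}
    (hR : CPC R) (hE₁ : Face R E₁) (hE₂ : Face R E₂) (hdis : ∀ x ∈ E₁, x ∈ E₂ → x = 0)
    (hA : Face R A) (hA2 : sdim A = 2) (hm₁ : ∃ x ∈ A, x ∈ E₁ ∧ x ≠ 0)
    (hm₂ : ∃ x ∈ A, x ∈ E₂ ∧ x ≠ 0) :
    ∃ p q, Extr R p ∧ Extr R q ∧ NP p q ∧ A = cn ![p, q] ∧ p ∈ E₁ ∧ q ∈ E₂ := by
  obtain ⟨p, q, hp, hq, hpq, hApq⟩ := h2 E A (hFC E R A hR hA) hA2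
  have hp' : Extr R p := (hF E R A hA).2.2.2.2.1 p hp
  have hq' : Extr R q := (hF E R A hA).2.2.2.2.1 q hq
  have hpR := hA.sub hp.1
  have hqR := hA.sub hq.1
  have key : ∀ E' : Set E, Face R E' → (∃ x ∈ A, x ∈ E' ∧ x ≠ 0) → p ∈ E' ∨ q ∈ E' := by
    rintro E' hE' ⟨x, hxA, hxE, hx0⟩
    rw [hApq, cn2] at hxA
    obtain ⟨a, b, ha, hb, rfl⟩ := hxA
    rcases ha.eq_or_lt with rfl | ha'
    · rcases hb.eq_or_lt with rfl | hb'
      · simp at hx0
      · right
        apply cone_of_smul hE'.cone hb'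
        rwa [zero_smul, zero_add] at hxE
    · left
      apply cone_of_smul hE'.cone ha'
      exact hE'.ext _ (hR.cone.smul a ha _ hpR) _ (hR.cone.smul b hb _ hqR) hxE
  rcases key E₁ hE₁ hm₁ with h3 | h3
  · rcases key E₂ hE₂ hm₂ with h4 | h4
    · exact absurd (hdis p h3 h4) hp.2.1
    · exact ⟨p, q, hp', hq', hpq, hApq, h3, h4⟩
  · rcases key E₂ hE₂ hm₂ with h4 | h4
    · exact ⟨q, p, hq', hp', np_symm hpq, by rw [hApq, cn2_swap], h3, h4⟩
    · exact absurd (hdis q h3 h4) hq.2.1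

end fin

end JoinH

end D1

end TightRP
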